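import Pool.Agent.TR.Curve

/-!
MODULE SIGNC (the minors of a convex curve have one sign).

The set {t : Fin m -> R | StrictMono t} is convex, hence preconnected (`Convex.isPreconnected`),
t -> det (gamma (t i)) is continuous and non-zero on it (rows linearly independent:
`Matrix.linearIndependent_rows_iff_isUnit` / `LinearIndependent` of m vectors in R^m gives
det <> 0), so it has constant sign (`IsPreconnected.image`, ordConnected; or
`isPreconnected.intermediate_value`).  For m = 0 the determinant is 1.
-/

namespace TR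

theorem signC_convex (m : ℕ) : Convex ℝ {t : Fin m → ℝ | StrictMono t} := by
  intro s hs t ht a b ha hb hab
  intro i j hij
  have h1 : s i < s j := hs hij
  have h2 : t i < t j := ht hij
  simp only [Pi.add_apply, Pi.smul_apply, smul_eq_mul]
  rcases eq_or_lt_of_le ha with h0 | h0
  · have hb1 : b = 1 := by linarith
    rw [← h0, hb1]
    linarith
  · have h3 : a * s i < a * s j := mul_lt_mul_of_pos_left h1 h0
    have h4 : b * t i ≤ b * t j := mul_le_mul_of_nonneg_left h2.le hb
    linarith

theorem signC_ne {m : ℕ} {γ : ℝ → Fin m → ℝ} (hγ : ConvexCurve m γ) {t : Fin m → ℝ}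
    (ht : StrictMono t) : Matrix.det (fun i => γ (t i)) ≠ 0 := by
  have h1 := hγ.2 t ht.injective
  have h2 : IsUnit (Matrix.of (fun i => γ (t i))) := by
    rw [← Matrix.linearIndependent_rows_iff_isUnit]
    exact h1
  exact ((Matrix.isUnit_iff_isUnit_det _).mp h2).ne_zero

theorem signC_cont {m : ℕ} {γ : ℝ → Fin m → ℝ} (hγ : ConvexCurve m γ) :
    Continuous (fun t : Fin m → ℝ => Matrix.det (fun i => γ (t i))) := by
  apply Continuous.matrix_det
  exact continuous_pi (fun i => hγ.1.comp (continuous_apply i))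

theorem sign_const {m : ℕ} {γ : ℝ → Fin m → ℝ} (hγ : ConvexCurve m γ) :
    ∃ ε : ℝ, (ε = 1 ∨ ε = -1) ∧ ∀ t : Fin m → ℝ, StrictMono t →
      0 < ε * Matrix.det (fun i => γ (t i)) := by
  have hpre := (signC_convex m).isPreconnected
  let t0 : Fin m → ℝ := fun i => (i : ℕ)
  have ht0 : StrictMono t0 := by
    intro i j hij
    simp only [t0]
    exact_mod_cast hij
  have key : ∀ s t : Fin m → ℝ, StrictMono s → StrictMono t →
      0 < Matrix.det (fun i => γ (s i)) → 0 < Matrix.det (fun i => γ (t i)) := by
    intro s t hs ht h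
    by_contra hn
    rw [not_lt] at hn
    have h3 := hpre.intermediate_value ht hs (signC_cont hγ).continuousOn
    have h4 : (0 : ℝ) ∈ Set.Icc (Matrix.det (fun i => γ (t i))) (Matrix.det (fun i => γ (s i))) :=
      ⟨hn, h.le⟩
    obtain ⟨u, hu, hu'⟩ := h3 h4
    exact signC_ne hγ hu hu'
  rcases lt_or_gt_of_ne (signC_ne hγ ht0) with h | h
  · refine ⟨-1, Or.inr rfl, ?_⟩
    intro t ht
    rcases lt_or_gt_of_ne (signC_ne hγ ht) with h' | h'
    · linarith
    · have := key t t0 ht ht0 h'
      linarith
  · refine ⟨1, Or.inl rfl, ?_⟩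
    intro t ht
    rw [one_mul]
    exact key t0 t ht0 ht h

end TR
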