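import Pool.Agent.TR.Basic

/-!
MODULE FACT (a configuration with positive minors gives positive data).

g 0, ..., g (M+m-1) vectors of R^m, all m x m minors in increasing order have the sign eps.
e k = (-1)^k • g (M+k) (k < m), e is a basis.  Write b j k = sum_i cf m p j k i • e i.
Invariants at the stage j of the construction of p:
 (A) b i 0 = g (M-i) for 1 ≤ i ≤ j;
 (K) b j i lies in the span of g (M-j+l), l ≤ i, for i < m.
The row p (j+1) is the row of coordinates of g (M-(j+1)) in the basis b j.  Its positivity: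
the functional x ↦ det (row k replaced by x) of the matrix with the rows g (M-j+i) (i < k) and
g (M+i) (i ≥ k) kills b j i for i ≠ k.
-/

namespace TR

open Finset

/-- The vectors of the array of the construction. -/
noncomputable def factB {m : ℕ} (M : ℕ) (g : ℕ → Fin m → ℝ) (p : ℕ → ℕ → ℝ) (j k : ℕ) :
    Fin m → ℝ :=
  ∑ i ∈ range m, cf m p j k i • ((-1 : ℝ) ^ i • g (M + i))

theorem factB_zero {m : ℕ} (M : ℕ) (g : ℕ → Fin m → ℝ) (p : ℕ → ℕ → ℝ) {k : ℕ} (hk : k < m) :
    factB M g p 0 k = (-1 : ℝ) ^ k • g (M + k) := by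
  unfold factB
  rw [Finset.sum_eq_single k]
  · simp [cf, hk]
  · intro i _ hi
    simp [cf, Ne.symm hi]
  · intro h; exact absurd (Finset.mem_range.mpr hk) h

theorem factB_succ' {m : ℕ} (M : ℕ) (g : ℕ → Fin m → ℝ) (p : ℕ → ℕ → ℝ) (j k : ℕ) :
    factB M g p (j + 1) k = ∑ l ∈ Ico k m, p (j + 1) l • factB M g p j l := by
  unfold factB
  simp only [cf, Finset.smul_sum, Finset.sum_smul]
  rw [Finset.sum_comm]
  refine Finset.sum_congr rfl fun i _ => Finset.sum_congr rfl fun l _ => ?_
  rw [mul_smul]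

theorem factB_succ {m : ℕ} (M : ℕ) (g : ℕ → Fin m → ℝ) (p : ℕ → ℕ → ℝ) (j : ℕ) {k : ℕ}
    (hk : k < m) :
    factB M g p (j + 1) k = p (j + 1) k • factB M g p j k + factB M g p (j + 1) (k + 1) := by
  rw [factB_succ', factB_succ', Finset.sum_eq_sum_Ico_succ_bot hk]

theorem cf_congr {m : ℕ} {p p' : ℕ → ℕ → ℝ} (j : ℕ)
    (h : ∀ i, 1 ≤ i → i ≤ j → ∀ k < m, p i k = p' i k) (k i : ℕ) :
    cf m p j k i = cf m p' j k i := by
  induction j generalizing k with
  | zero => rfl
  | succ j ih =>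
    simp only [cf]
    refine Finset.sum_congr rfl fun l hl => ?_
    rw [Finset.mem_Ico] at hl
    rw [h (j + 1) (by omega) le_rfl l hl.2, ih (fun i h1 h2 => h i h1 (by omega))]

theorem factB_congr {m : ℕ} (M : ℕ) (g : ℕ → Fin m → ℝ) {p p' : ℕ → ℕ → ℝ} (j : ℕ)
    (h : ∀ i, 1 ≤ i → i ≤ j → ∀ k < m, p i k = p' i k) (k : ℕ) :
    factB M g p j k = factB M g p' j k := by
  unfold factB
  exact Finset.sum_congr rfl fun i _ => by rw [cf_congr j h k i]

theorem cf_diag_pos {m : ℕ} {p : ℕ → ℕ → ℝ} (hp : Pos p) (j : ℕ) {k : ℕ} (hk : k < m) :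
    0 < cf m p j k k := by
  induction j with
  | zero => simp [cf, hk]
  | succ j ih =>
    simp only [cf]
    rw [Finset.sum_eq_single k]
    · exact mul_pos (hp _ _) ih
    · intro l hl hne
      rw [Finset.mem_Ico] at hl
      rw [cf_lt p j (by omega : k < l), mul_zero]
    · intro h
      exact absurd (Finset.mem_Ico.mpr ⟨le_rfl, hk⟩) h

/-- The determinant as a linear function of the row `k`. -/
noncomputable def factF {m : ℕ} (A : Fin m → Fin m → ℝ) (k : Fin m) :
    (Fin m → ℝ) →ₗ[ℝ] ℝ :=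
  (Matrix.detRowAlternating (R := ℝ) (n := Fin m)).toMultilinearMap.toLinearMap A k

theorem factF_apply {m : ℕ} (A : Fin m → Fin m → ℝ) (k : Fin m) (x : Fin m → ℝ) :
    factF A k x = Matrix.det (Function.update A k x) := rfl

theorem factF_row {m : ℕ} (A : Fin m → Fin m → ℝ) {k i : Fin m} (h : i ≠ k) :
    factF A k (A i) = 0 := by
  rw [factF_apply]
  exact Matrix.det_zero_of_row_eq h (by
    rw [Function.update_self, Function.update_of_ne h])

/-- Rows `g (M-j+i)` for `i < k` and `g (M+i)` for `i ≥ k`. -/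
def factA {m : ℕ} (M : ℕ) (g : ℕ → Fin m → ℝ) (j k : ℕ) : Fin m → Fin m → ℝ :=
  fun i => g (if (i : ℕ) < k then M - j + i else M + i)

section pos

variable {m M : ℕ} {g : ℕ → Fin m → ℝ} {ε : ℝ}

theorem factA_det
    (hpos : ∀ σ : Fin m → ℕ, StrictMono σ → (∀ i, σ i < M + m) →
      0 < ε * Matrix.det (fun i => g (σ i))) {j k : ℕ} (hj : j ≤ M) :
    0 < ε * Matrix.det (factA M g j k) := by
  refine hpos (fun i : Fin m => if (i : ℕ) < k then M - j + i else M + i) ?_ ?_
  · intro a b hab
    have hab' : (a : ℕ) < b := hab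
    show (if (a : ℕ) < k then M - j + (a : ℕ) else M + a) < (if (b : ℕ) < k then M - j + (b : ℕ) else M + b)
    split_ifs <;> omega
  · intro i
    have := i.isLt
    show (if (i : ℕ) < k then M - j + (i : ℕ) else M + i) < M + m
    split_ifs <;> omega

theorem factF_self (j : ℕ) (k : Fin m) :
    factF (factA M g j k) k ((-1 : ℝ) ^ (k : ℕ) • g (M + k))
      = (-1 : ℝ) ^ (k : ℕ) * Matrix.det (factA M g j k) := by
  rw [map_smul, smul_eq_mul, factF_apply]
  congr 2
  refine Function.update_eq_iff.mpr ⟨?_, fun _ _ => rfl⟩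
  simp [factA]

theorem factF_gt (j : ℕ) (k : Fin m) {i : ℕ} (hi : i < m) (hki : (k : ℕ) < i) :
    factF (factA M g j k) k (g (M + i)) = 0 := by
  have h := factF_row (factA M g j k) (k := k) (i := ⟨i, hi⟩) (by
    intro h; rw [← h] at hki; exact absurd hki (lt_irrefl _))
  have h2 : factA M g j k ⟨i, hi⟩ = g (M + i) := by
    simp [factA, Nat.not_lt.mpr hki.le]
  rw [h2] at h
  exact h

theorem factF_lt (j : ℕ) (k : Fin m) {i : ℕ} (hki : i < (k : ℕ)) :
    factF (factA M g j k) k (g (M - j + i)) = 0 := by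
  have hi : i < m := lt_trans hki k.isLt
  have h := factF_row (factA M g j k) (k := k) (i := ⟨i, hi⟩) (by
    intro h; rw [← h] at hki; exact absurd hki (lt_irrefl _))
  have h2 : factA M g j k ⟨i, hi⟩ = g (M - j + i) := by
    simp [factA, hki]
  rw [h2] at h
  exact h

theorem factF_new
    (hpos : ∀ σ : Fin m → ℕ, StrictMono σ → (∀ i, σ i < M + m) →
      0 < ε * Matrix.det (fun i => g (σ i))) {j : ℕ} (hj : j + 1 ≤ M) (k : Fin m) :
    ∃ d : ℝ, 0 < ε * d ∧
      factF (factA M g j k) k (g (M - (j + 1))) = (-1 : ℝ) ^ (k : ℕ) * d := by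
  obtain ⟨n, rfl⟩ : ∃ n, m = n + 1 := ⟨m - 1, by have := k.isLt; omega⟩
  refine ⟨Matrix.det (fun i : Fin (n + 1) =>
    g ((fun i : Fin (n + 1) => if (i : ℕ) ≤ k then M - (j + 1) + i else M + i) i)), ?_, ?_⟩
  · refine hpos _ ?_ ?_
    · intro a b hab
      have hab' : (a : ℕ) < b := hab
      show (if (a : ℕ) ≤ k then M - (j + 1) + (a : ℕ) else M + a)
        < (if (b : ℕ) ≤ k then M - (j + 1) + (b : ℕ) else M + b)
      split_ifs <;> omega
    · intro i
      have := i.isLt
      show (if (i : ℕ) ≤ k then M - (j + 1) + (i : ℕ) else M + i) < M + (n + 1)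
      split_ifs <;> omega
  · have h := Matrix.det_permute (Fin.cycleRange k) (fun i : Fin (n + 1) =>
      g ((fun i : Fin (n + 1) => if (i : ℕ) ≤ k then M - (j + 1) + i else M + i) i))
    rw [Fin.sign_cycleRange] at h
    rw [factF_apply]
    have h2 : (Function.update (factA M g j k) k (g (M - (j + 1)))) =
        (fun i : Fin (n + 1) => (fun i : Fin (n + 1) =>
      g ((fun i : Fin (n + 1) => if (i : ℕ) ≤ k then M - (j + 1) + i else M + i) i))
        (Fin.cycleRange k i)) := by
      refine Function.update_eq_iff.mpr ⟨?_, fun i hi => ?_⟩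
      · rw [Fin.cycleRange_self]
        simp
      · rcases lt_or_gt_of_ne hi with h1 | h1
        · have h3 := Fin.coe_cycleRange_of_lt h1
          have h1' : (i : ℕ) < k := h1
          simp only [factA, h3, h1', if_true]
          have h4 : (i : ℕ) + 1 ≤ k := h1'
          simp only [h4, if_true]
          congr 1
          omega
        · rw [Fin.cycleRange_of_gt h1]
          have h1' : (k : ℕ) < i := h1
          simp only [factA, Nat.not_lt.mpr h1'.le, Nat.not_le.mpr h1', if_false]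
    rw [h2]
    have h5 : (Matrix.det (fun i : Fin (n + 1) => (fun i : Fin (n + 1) =>
      g ((fun i : Fin (n + 1) => if (i : ℕ) ≤ k then M - (j + 1) + i else M + i) i))
        (Fin.cycleRange k i))) = _ := h
    rw [h5]
    push_cast
    rfl

/-- `F_k` on the vector `b j i` with `i > k`. -/
theorem factF_b_gt (p : ℕ → ℕ → ℝ) (j : ℕ) (k : Fin m) {i : ℕ} (hki : (k : ℕ) < i) :
    factF (factA M g j k) k (factB M g p j i) = 0 := by
  unfold factB
  rw [map_sum]
  refine Finset.sum_eq_zero fun l hl => ?_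
  rw [Finset.mem_range] at hl
  rcases lt_or_ge l i with h | h
  · rw [cf_lt p j h, zero_smul, map_zero]
  · rw [map_smul, map_smul, factF_gt j k hl (lt_of_lt_of_le hki h), smul_zero, smul_zero]

/-- `F_k` on the vector `b j k`. -/
theorem factF_b_self (p : ℕ → ℕ → ℝ) (j : ℕ) (k : Fin m) :
    factF (factA M g j k) k (factB M g p j k)
      = cf m p j k k * ((-1 : ℝ) ^ (k : ℕ) * Matrix.det (factA M g j k)) := by
  unfold factB
  rw [map_sum, Finset.sum_eq_single (k : ℕ)]
  · rw [map_smul, factF_self, smul_eq_mul]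
  · intro l hl hne
    rw [Finset.mem_range] at hl
    rcases lt_or_gt_of_ne hne with h | h
    · rw [cf_lt p j h, zero_smul, map_zero]
    · rw [map_smul, map_smul, factF_gt j k hl h, smul_zero, smul_zero]
  · intro h
    exact absurd (Finset.mem_range.mpr k.isLt) h

/-- `F_k` on the vector `b j i` with `i < k`. -/
theorem factF_b_lt {p : ℕ → ℕ → ℝ} {j : ℕ}
    (hK : ∀ i < m, factB M g p j i ∈ Submodule.span ℝ {x | ∃ l ≤ i, x = g (M - j + l)})
    (k : Fin m) {i : ℕ} (hki : i < (k : ℕ)) :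
    factF (factA M g j k) k (factB M g p j i) = 0 := by
  have h := hK i (lt_trans hki k.isLt)
  have h2 : Submodule.span ℝ {x | ∃ l ≤ i, x = g (M - j + l)}
      ≤ LinearMap.ker (factF (factA M g j k) k) := by
    rw [Submodule.span_le]
    rintro x ⟨l, hl, rfl⟩
    rw [SetLike.mem_coe, LinearMap.mem_ker]
    exact factF_lt j k (lt_of_le_of_lt hl hki)
  exact LinearMap.mem_ker.mp (h2 h)

theorem factF_b_ne {p : ℕ → ℕ → ℝ} {j : ℕ}
    (hK : ∀ i < m, factB M g p j i ∈ Submodule.span ℝ {x | ∃ l ≤ i, x = g (M - j + l)})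
    (k : Fin m) {i : ℕ} (hki : i ≠ (k : ℕ)) :
    factF (factA M g j k) k (factB M g p j i) = 0 := by
  rcases lt_or_gt_of_ne hki with h | h
  · exact factF_b_lt hK k h
  · exact factF_b_gt p j k h

theorem factF_sum {p : ℕ → ℕ → ℝ} {j : ℕ}
    (hK : ∀ i < m, factB M g p j i ∈ Submodule.span ℝ {x | ∃ l ≤ i, x = g (M - j + l)})
    (k : Fin m) (c : Fin m → ℝ) :
    factF (factA M g j k) k (∑ i : Fin m, c i • factB M g p j i)
      = c k * (cf m p j k k * ((-1 : ℝ) ^ (k : ℕ) * Matrix.det (factA M g j k))) := by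
  rw [map_sum, Finset.sum_eq_single k]
  · rw [map_smul, factF_b_self, smul_eq_mul]
  · intro i _ hi
    rw [map_smul, factF_b_ne hK k (fun h => hi (Fin.ext h)), smul_zero]
  · intro h
    exact absurd (Finset.mem_univ k) h

/-- The coordinates of the new vector are positive. -/
theorem fact_coord (hε : ε = 1 ∨ ε = -1)
    (hpos : ∀ σ : Fin m → ℕ, StrictMono σ → (∀ i, σ i < M + m) →
      0 < ε * Matrix.det (fun i => g (σ i))) {p : ℕ → ℕ → ℝ} (hp : Pos p) {j : ℕ}
    (hj : j + 1 ≤ M)
    (hK : ∀ i < m, factB M g p j i ∈ Submodule.span ℝ {x | ∃ l ≤ i, x = g (M - j + l)}) :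
    ∃ c : Fin m → ℝ, (∀ k, 0 < c k) ∧ ∑ i : Fin m, c i • factB M g p j i = g (M - (j + 1)) := by
  have hε0 : ε ≠ 0 := by rcases hε with h | h <;> rw [h] <;> norm_num
  have hdet : ∀ k : Fin m, cf m p j k k * ((-1 : ℝ) ^ (k : ℕ) * Matrix.det (factA M g j k)) ≠ 0 := by
    intro k
    have h1 := (cf_diag_pos hp j k.isLt).ne'
    have h2 : Matrix.det (factA M g j k) ≠ 0 := by
      intro h
      have := factA_det (g := g) hpos (k := (k : ℕ)) (by omega : j ≤ M)
      rw [h, mul_zero] at this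
      exact absurd this (lt_irrefl _)
    exact mul_ne_zero h1 (mul_ne_zero (pow_ne_zero _ (by norm_num)) h2)
  have hli : LinearIndependent ℝ (fun i : Fin m => factB M g p j i) := by
    rw [Fintype.linearIndependent_iff]
    intro c hc k
    have h := factF_sum hK k c
    rw [hc, map_zero] at h
    exact (mul_eq_zero.mp h.symm).resolve_right (hdet k)
  have hspan := hli.span_eq_top_of_card_eq_finrank' (by simp)
  have hmem : g (M - (j + 1)) ∈ Submodule.span ℝ (Set.range fun i : Fin m => factB M g p j i) := by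
    rw [hspan]; exact Submodule.mem_top
  rw [Submodule.mem_span_range_iff_exists_fun] at hmem
  obtain ⟨c, hc⟩ := hmem
  refine ⟨c, fun k => ?_, hc⟩
  obtain ⟨d, hd, hd2⟩ := factF_new hpos hj k
  have h := factF_sum hK k c
  rw [hc, hd2] at h
  have hs : (-1 : ℝ) ^ (k : ℕ) ≠ 0 := pow_ne_zero _ (by norm_num)
  have h3 : d = c k * (cf m p j k k * Matrix.det (factA M g j k)) := by
    apply mul_left_cancel₀ hs
    rw [h]; ring
  have h4 := factA_det (g := g) hpos (k := (k : ℕ)) (by omega : j ≤ M)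
  have h5 := cf_diag_pos hp j k.isLt
  rw [h3] at hd
  have h6 : 0 < c k * (cf m p j k k * (ε * Matrix.det (factA M g j k))) := by
    calc 0 < _ := hd
      _ = _ := by ring
  exact (pos_iff_pos_of_mul_pos h6).mpr (mul_pos h5 h4)

/-- The construction. -/
theorem fact_aux (hε : ε = 1 ∨ ε = -1)
    (hpos : ∀ σ : Fin m → ℕ, StrictMono σ → (∀ i, σ i < M + m) →
      0 < ε * Matrix.det (fun i => g (σ i))) (j : ℕ) (hj : j ≤ M) :
    ∃ p : ℕ → ℕ → ℝ, Pos p ∧ (∀ i, 1 ≤ i → i ≤ j → factB M g p i 0 = g (M - i)) ∧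
      ∀ i < m, factB M g p j i ∈ Submodule.span ℝ {x | ∃ l ≤ i, x = g (M - j + l)} := by
  induction j with
  | zero =>
    refine ⟨fun _ _ => 1, fun _ _ => one_pos, fun i h1 h2 => by omega, fun i hi => ?_⟩
    rw [factB_zero M g _ hi]
    exact Submodule.smul_mem _ _ (Submodule.subset_span ⟨i, le_rfl, by simp⟩)
  | succ j ih =>
    obtain ⟨p, hp, hA, hK⟩ := ih (by omega)
    obtain ⟨c, hc, hcs⟩ := fact_coord hε hpos hp hj hK
    let p' : ℕ → ℕ → ℝ := fun a b => if a = j + 1 then (if h : b < m then c ⟨b, h⟩ else 1) else p a b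
    have hp'1 : ∀ b (h : b < m), p' (j + 1) b = c ⟨b, h⟩ := fun b h => by simp [p', h]
    have hp'2 : ∀ i, 1 ≤ i → i ≤ j → ∀ k < m, p' i k = p i k := fun i _ h2 k _ => by
      have : i ≠ j + 1 := by omega
      simp [p', this]
    have hpp : Pos p' := by
      intro a b
      show 0 < (if a = j + 1 then (if h : b < m then c ⟨b, h⟩ else 1) else p a b)
      split_ifs
      · exact hc _
      · exact one_pos
      · exact hp _ _
    have hcong : ∀ i ≤ j, ∀ k, factB M g p' i k = factB M g p i k := fun i hi k =>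
      factB_congr M g i (fun a h1 h2 b hb => hp'2 a h1 (by omega) b hb) k
    have hnew : factB M g p' (j + 1) 0 = g (M - (j + 1)) := by
      rw [factB_succ', Nat.Ico_zero_eq_range, ← hcs, Finset.sum_range]
      refine Finset.sum_congr rfl fun i _ => ?_
      rw [hp'1 i i.isLt, hcong j le_rfl]
    refine ⟨p', hpp, fun i h1 h2 => ?_, ?_⟩
    · rcases Nat.lt_or_ge i (j + 1) with h | h
      · rw [hcong i (by omega), hA i h1 (by omega)]
      · have : i = j + 1 := by omega
        subst this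
        exact hnew
    · intro i
      induction i with
      | zero =>
        intro _
        rw [hnew]
        exact Submodule.subset_span ⟨0, le_rfl, by simp⟩
      | succ i ihi =>
        intro hi
        have h1 := factB_succ M g p' j (show i < m by omega)
        have h2 : factB M g p' (j + 1) (i + 1)
            = factB M g p' (j + 1) i - p' (j + 1) i • factB M g p' j i := by
          rw [h1]; abel
        rw [h2]
        refine Submodule.sub_mem _ ?_ (Submodule.smul_mem _ _ ?_)
        · refine Submodule.span_mono ?_ (ihi (by omega))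
          rintro x ⟨l, hl, rfl⟩
          exact ⟨l, by omega, rfl⟩
        · rw [hcong j le_rfl]
          refine Submodule.span_mono ?_ (hK i (by omega))
          rintro x ⟨l, hl, rfl⟩
          exact ⟨l + 1, by omega, by congr 1; omega⟩

end pos

theorem fact {m M : ℕ} (hm : 1 ≤ m) (g : ℕ → Fin m → ℝ) {ε : ℝ} (hε : ε = 1 ∨ ε = -1)
    (hpos : ∀ σ : Fin m → ℕ, StrictMono σ → (∀ i, σ i < M + m) →
      0 < ε * Matrix.det (fun i => g (σ i))) :
    ∃ p : ℕ → ℕ → ℝ, Pos p ∧ ∀ j, 1 ≤ j → j ≤ M →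
      ∑ k ∈ Finset.range m, cf m p j 0 k • ((-1 : ℝ) ^ k • g (M + k)) = g (M - j) := by
  obtain ⟨p, hp, hA, _⟩ := fact_aux hε hpos M le_rfl
  exact ⟨p, hp, fun j h1 h2 => hA j h1 h2⟩

end TR
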