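import Mathlib

/-!
MODULE GERM (two common values of a quotient near two points).

H, X continuous, z1 <> z2; near each z_i (punctured) H <> 0 and X <> 0, and H / X -> 0.
rho = H / X.  There are four one-sided germs (z_i, left or right); on a small one-sided interval
(z_i - del, z_i) resp. (z_i, z_i + del), chosen disjoint and disjoint from the finite set A, rho is
continuous, non-zero, of constant sign, and tends to 0 at z_i; by the intermediate value theorem it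
takes all values of its sign with small absolute value.  Two of the four signs agree (even three
germs suffice): choose eps <> 0 of this sign, small; then t1, t2 in two different intervals with
rho(t_i) = eps, i.e. H t_i = eps * X t_i.
-/

open Filter Topology

namespace TR

/-- On `I` the quotient takes all small values of some sign. -/
private def germGood (H X : ℝ → ℝ) (I : Set ℝ) : Prop :=
  ∃ s : ℝ, (s = 1 ∨ s = -1) ∧ ∃ δ : ℝ, 0 < δ ∧ ∀ ε : ℝ, 0 < s * ε → s * ε < δ →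
    ∃ t ∈ I, H t = ε * X t

private theorem germ_good {H X : ℝ → ℝ} (hH : Continuous H) (hX : Continuous X) {I : Set ℝ}
    (hI : IsPreconnected I) (h : ∀ t ∈ I, H t ≠ 0 ∧ X t ≠ 0) {t0 : ℝ} (ht0 : t0 ∈ I)
    (hs : ∀ e : ℝ, 0 < e → ∃ t ∈ I, |H t / X t| < e) : germGood H X I := by
  have hc : ContinuousOn (fun t => H t / X t) I :=
    hH.continuousOn.div hX.continuousOn (fun t ht => (h t ht).2)
  have hr : H t0 / X t0 ≠ 0 := div_ne_zero (h t0 ht0).1 (h t0 ht0).2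
  have key : ∀ s : ℝ, (s = 1 ∨ s = -1) → 0 < s * (H t0 / X t0) → germGood H X I := by
    intro s hs1 hpos
    refine ⟨s, hs1, s * (H t0 / X t0), hpos, ?_⟩
    intro ε he1 he2
    obtain ⟨t', ht', hlt⟩ := hs (s * ε) he1
    have hc2 : ContinuousOn (fun t => s * (H t / X t)) I := continuousOn_const.mul hc
    have hle : s * (H t' / X t') ≤ s * ε := by
      rcases hs1 with rfl | rfl
      · have := le_abs_self (H t' / X t'); linarith
      · have := neg_abs_le (H t' / X t'); linarith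
    obtain ⟨t, ht, hte⟩ := hI.intermediate_value ht' ht0 hc2 ⟨hle, he2.le⟩
    refine ⟨t, ht, ?_⟩
    have hs0 : s ≠ 0 := by rcases hs1 with rfl | rfl <;> norm_num
    have h3 : H t / X t = ε := mul_left_cancel₀ hs0 hte
    rw [← h3, div_mul_cancel₀ _ (h t ht).2]
  rcases lt_or_gt_of_ne hr with h1 | h1
  · exact key (-1) (Or.inr rfl) (by linarith)
  · exact key 1 (Or.inl rfl) (by linarith)

private theorem germ_sides {H X : ℝ → ℝ} (hH : Continuous H) (hX : Continuous X) {z r : ℝ}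
    (hr : 0 < r) (h : ∀ t, t ≠ z → |t - z| < r → H t ≠ 0 ∧ X t ≠ 0)
    (l : Tendsto (fun t => H t / X t) (𝓝[≠] z) (𝓝 0)) :
    germGood H X (Set.Ioo z (z + r)) ∧ germGood H X (Set.Ioo (z - r) z) := by
  have hsm : ∀ e : ℝ, 0 < e → ∃ r' : ℝ, 0 < r' ∧ ∀ t, t ≠ z → |t - z| < r' →
      |H t / X t| < e := by
    intro e he
    have h1 := (Metric.tendsto_nhds.mp l) e he
    rw [eventually_nhdsWithin_iff, Metric.eventually_nhds_iff] at h1
    obtain ⟨r', hr', h2⟩ := h1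
    refine ⟨r', hr', fun t ht htr => ?_⟩
    have h3 := h2 (y := t) (by rw [Real.dist_eq]; exact htr) ht
    rwa [Real.dist_eq, sub_zero] at h3
  constructor
  · refine germ_good hH hX isPreconnected_Ioo ?_ (t0 := z + r / 2) ⟨by linarith, by linarith⟩ ?_
    · intro t ht
      refine h t ht.1.ne' ?_
      rw [abs_of_pos (by linarith [ht.1])]
      linarith [ht.2]
    · intro e he
      obtain ⟨r', hr', h2⟩ := hsm e he
      have hm : 0 < min r r' := lt_min hr hr'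
      refine ⟨z + min r r' / 2, ⟨by linarith, by linarith [min_le_left r r']⟩, ?_⟩
      refine h2 _ (by linarith) ?_
      rw [abs_of_pos (by linarith)]
      linarith [min_le_right r r']
  · refine germ_good hH hX isPreconnected_Ioo ?_ (t0 := z - r / 2) ⟨by linarith, by linarith⟩ ?_
    · intro t ht
      refine h t ht.2.ne ?_
      rw [abs_of_neg (by linarith [ht.2])]
      linarith [ht.1]
    · intro e he
      obtain ⟨r', hr', h2⟩ := hsm e he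
      have hm : 0 < min r r' := lt_min hr hr'
      refine ⟨z - min r r' / 2, ⟨by linarith [min_le_left r r'], by linarith⟩, ?_⟩
      refine h2 _ (by linarith) ?_
      rw [abs_of_neg (by linarith)]
      linarith [min_le_right r r']

private theorem germ_radius {H X : ℝ → ℝ} {z : ℝ} (h : ∀ᶠ t in 𝓝[≠] z, H t ≠ 0 ∧ X t ≠ 0)
    (A : Finset ℝ) : ∃ r : ℝ, 0 < r ∧ ∀ t, t ≠ z → |t - z| < r →
      (H t ≠ 0 ∧ X t ≠ 0) ∧ t ∉ A := by
  have hA : ∀ᶠ t in 𝓝 z, t ∉ A.erase z := by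
    have hcl : IsClosed ((A.erase z : Finset ℝ) : Set ℝ) := (A.erase z).finite_toSet.isClosed
    exact hcl.isOpen_compl.mem_nhds (by simp)
  have h1 : ∀ᶠ t in 𝓝[≠] z, (H t ≠ 0 ∧ X t ≠ 0) ∧ t ∉ A.erase z :=
    h.and (nhdsWithin_le_nhds hA)
  rw [eventually_nhdsWithin_iff, Metric.eventually_nhds_iff] at h1
  obtain ⟨r, hr, h2⟩ := h1
  refine ⟨r, hr, fun t ht htr => ?_⟩
  have h3 := h2 (y := t) (by rw [Real.dist_eq]; exact htr) ht
  exact ⟨h3.1, fun hA' => h3.2 (Finset.mem_erase.mpr ⟨ht, hA'⟩)⟩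

private theorem germ_two {H X : ℝ → ℝ} {s : ℝ} {I J : Set ℝ} (hIJ : ∀ t ∈ I, t ∉ J)
    (hs : s = 1 ∨ s = -1) {a b : ℝ} (ha : 0 < a) (hb : 0 < b)
    (h1 : ∀ ε : ℝ, 0 < s * ε → s * ε < a → ∃ t ∈ I, H t = ε * X t)
    (h2 : ∀ ε : ℝ, 0 < s * ε → s * ε < b → ∃ t ∈ J, H t = ε * X t) :
    ∃ ε : ℝ, ε ≠ 0 ∧ ∃ t1 ∈ I, ∃ t2 ∈ J, t1 ≠ t2 ∧ H t1 = ε * X t1 ∧ H t2 = ε * X t2 := by
  have hss : s * s = 1 := by rcases hs with rfl | rfl <;> norm_num
  have hm : 0 < min a b := lt_min ha hb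
  have he : s * (s * (min a b / 2)) = min a b / 2 := by rw [← mul_assoc, hss, one_mul]
  obtain ⟨t1, ht1, e1⟩ := h1 (s * (min a b / 2)) (by rw [he]; linarith)
    (by rw [he]; linarith [min_le_left a b])
  obtain ⟨t2, ht2, e2⟩ := h2 (s * (min a b / 2)) (by rw [he]; linarith)
    (by rw [he]; linarith [min_le_right a b])
  refine ⟨s * (min a b / 2), ?_, t1, ht1, t2, ht2, ?_, e1, e2⟩
  · intro h0
    rw [h0, mul_zero] at he
    linarith
  · rintro rfl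
    exact hIJ _ ht1 ht2

theorem germ {H X : ℝ → ℝ} (hH : Continuous H) (hX : Continuous X) {z1 z2 : ℝ} (hz : z1 ≠ z2)
    (h1 : ∀ᶠ t in 𝓝[≠] z1, H t ≠ 0 ∧ X t ≠ 0) (h2 : ∀ᶠ t in 𝓝[≠] z2, H t ≠ 0 ∧ X t ≠ 0)
    (l1 : Tendsto (fun t => H t / X t) (𝓝[≠] z1) (𝓝 0))
    (l2 : Tendsto (fun t => H t / X t) (𝓝[≠] z2) (𝓝 0)) (A : Finset ℝ) :
    ∃ ε : ℝ, ε ≠ 0 ∧ ∃ t1 t2 : ℝ, t1 ≠ t2 ∧ t1 ∉ A ∧ t2 ∉ A ∧ H t1 = ε * X t1 ∧
      H t2 = ε * X t2 := by
  obtain ⟨r1, hr1, g1⟩ := germ_radius h1 A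
  obtain ⟨r2, hr2, g2⟩ := germ_radius h2 A
  have hzz : 0 < |z1 - z2| := abs_pos.mpr (sub_ne_zero.mpr hz)
  obtain ⟨r, hr0, hra, hrb, hrc⟩ : ∃ r : ℝ, 0 < r ∧ r ≤ r1 ∧ r ≤ r2 ∧ r ≤ |z1 - z2| / 2 :=
    ⟨min (min r1 r2) (|z1 - z2| / 2), lt_min (lt_min hr1 hr2) (by linarith),
      (min_le_left _ _).trans (min_le_left _ _), (min_le_left _ _).trans (min_le_right _ _),
      min_le_right _ _⟩
  obtain ⟨⟨s1, hs1, a1, ha1, k1⟩, ⟨s2, hs2, a2, ha2, k2⟩⟩ := germ_sides hH hX hr0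
    (fun t ht htr => (g1 t ht (htr.trans_le hra)).1) l1
  obtain ⟨⟨s3, hs3, a3, ha3, k3⟩, -⟩ := germ_sides hH hX hr0
    (fun t ht htr => (g2 t ht (htr.trans_le hrb)).1) l2
  have m1 : ∀ t ∈ Set.Ioo z1 (z1 + r), t ≠ z1 ∧ |t - z1| < r := by
    intro t ht
    refine ⟨ht.1.ne', ?_⟩
    rw [abs_of_pos (by linarith [ht.1])]; linarith [ht.2]
  have m2 : ∀ t ∈ Set.Ioo (z1 - r) z1, t ≠ z1 ∧ |t - z1| < r := by
    intro t ht
    refine ⟨ht.2.ne, ?_⟩
    rw [abs_of_neg (by linarith [ht.2])]; linarith [ht.1]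
  have m3 : ∀ t ∈ Set.Ioo z2 (z2 + r), t ≠ z2 ∧ |t - z2| < r := by
    intro t ht
    refine ⟨ht.1.ne', ?_⟩
    rw [abs_of_pos (by linarith [ht.1])]; linarith [ht.2]
  have hfar : ∀ t, |t - z1| < r → |t - z2| < r → False := by
    intro t q1 q2
    have : |z1 - z2| ≤ |t - z1| + |t - z2| := by
      calc |z1 - z2| = |(t - z2) - (t - z1)| := by congr 1; ring
        _ ≤ |t - z2| + |t - z1| := abs_sub _ _
        _ = _ := add_comm _ _
    linarith
  have d12 : ∀ t ∈ Set.Ioo z1 (z1 + r), t ∉ Set.Ioo (z1 - r) z1 :=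
    fun t ht ht' => by linarith [ht.1, ht'.2]
  have d13 : ∀ t ∈ Set.Ioo z1 (z1 + r), t ∉ Set.Ioo z2 (z2 + r) :=
    fun t ht ht' => hfar t (m1 t ht).2 (m3 t ht').2
  have d23 : ∀ t ∈ Set.Ioo (z1 - r) z1, t ∉ Set.Ioo z2 (z2 + r) :=
    fun t ht ht' => hfar t (m2 t ht).2 (m3 t ht').2
  have n1 : ∀ t ∈ Set.Ioo z1 (z1 + r), t ∉ A :=
    fun t ht => (g1 t (m1 t ht).1 ((m1 t ht).2.trans_le hra)).2
  have n2 : ∀ t ∈ Set.Ioo (z1 - r) z1, t ∉ A :=
    fun t ht => (g1 t (m2 t ht).1 ((m2 t ht).2.trans_le hra)).2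
  have n3 : ∀ t ∈ Set.Ioo z2 (z2 + r), t ∉ A :=
    fun t ht => (g2 t (m3 t ht).1 ((m3 t ht).2.trans_le hrb)).2
  have hcase : s1 = s2 ∨ s1 = s3 ∨ s2 = s3 := by
    rcases hs1 with rfl | rfl <;> rcases hs2 with rfl | rfl <;> rcases hs3 with rfl | rfl <;> simp
  rcases hcase with h | h | h
  · rw [← h] at k2
    obtain ⟨ε, he, t1, q1, t2, q2, hne, e1, e2⟩ := germ_two d12 hs1 ha1 ha2 k1 k2
    exact ⟨ε, he, t1, t2, hne, n1 t1 q1, n2 t2 q2, e1, e2⟩
  · rw [← h] at k3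
    obtain ⟨ε, he, t1, q1, t2, q2, hne, e1, e2⟩ := germ_two d13 hs1 ha1 ha3 k1 k3
    exact ⟨ε, he, t1, t2, hne, n1 t1 q1, n3 t2 q2, e1, e2⟩
  · rw [← h] at k3
    obtain ⟨ε, he, t1, q1, t2, q2, hne, e1, e2⟩ := germ_two d23 hs2 ha2 ha3 k2 k3
    exact ⟨ε, he, t1, t2, hne, n2 t1 q1, n3 t2 q2, e1, e2⟩

end TR
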