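import Pool.Agent.TR.Basic

/-!
Definitions for the algebraic part (upper bound for the number of complex solutions).
-/

namespace TR

/-- Allowed pairs `i < j < m`, `i < q`. -/
def prs (m q : ℕ) : Finset (ℕ × ℕ) :=
  (Finset.range m ×ˢ Finset.range m).filter (fun x => x.1 < x.2 ∧ x.1 < q)

/-- Multichains (product order). -/
def IsCh (s : Multiset (ℕ × ℕ)) : Prop :=
  ∀ x ∈ s, ∀ y ∈ s, (x.1 ≤ y.1 ∧ x.2 ≤ y.2) ∨ (y.1 ≤ x.1 ∧ y.2 ≤ x.2)

/-- The generic point of the chart, over the polynomial ring. -/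
noncomputable def gch (m q : ℕ) :
    ℕ → MvPolynomial (Fin (Nn m q)) ℂ × MvPolynomial (Fin (Nn m q)) ℂ :=
  ch m q (fun i : Fin (Nn m q) => (MvPolynomial.X i : MvPolynomial (Fin (Nn m q)) ℂ))

/-- Its Plücker coordinates. -/
noncomputable def bb (m q : ℕ) (x : ℕ × ℕ) : MvPolynomial (Fin (Nn m q)) ℂ :=
  br (gch m q x.1) (gch m q x.2)

/-- The equations of the marks. -/
noncomputable def ww (m q : ℕ) (p : ℕ → ℕ → ℝ) (i : Fin (Nn m q)) :
    MvPolynomial (Fin (Nn m q)) ℂ :=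
  D m p (gch m q) (3 * (i : ℕ) + 3) 0

/-- The filtration: span of the products of `d` Plücker coordinates. -/
noncomputable def Fl (m q d : ℕ) : Submodule ℂ (MvPolynomial (Fin (Nn m q)) ℂ) :=
  Submodule.span ℂ {f | ∃ s : Multiset (ℕ × ℕ), (∀ x ∈ s, x ∈ prs m q) ∧
    Multiset.card s = d ∧ f = (s.map (bb m q)).prod}

end TR
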