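import Mathlib

/-!
MODULE ALGIND.

A = MvPolynomial (Fin n) C is a domain of transcendence degree n.  If A is integral over the
subalgebra generated by w 0, ..., w (n-1) then the w i generate an algebraic extension of fields, so
a subfamily of w is a transcendence basis (`exists_isTranscendenceBasis_subset` or
`IsTranscendenceBasis` API: `AlgebraicIndependent` maximal subset of range w); all transcendence
bases have cardinality n (`IsTranscendenceBasis.cardinalMk_eq`..., basis X i:
`MvPolynomial.isTranscendenceBasis_X`), hence w is injective and its range is the basis.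
-/

namespace TR

theorem algInd_of_integral {n : ℕ} (w : Fin n → MvPolynomial (Fin n) ℂ)
    (h : Algebra.IsIntegral (Algebra.adjoin ℂ (Set.range w)) (MvPolynomial (Fin n) ℂ)) :
    AlgebraicIndependent ℂ w := by
  have : Algebra.IsAlgebraic (Algebra.adjoin ℂ (Set.range w)) (MvPolynomial (Fin n) ℂ) :=
    inferInstance
  refine (Algebra.IsAlgebraic.isTranscendenceBasis_of_le_trdeg_of_finite ℂ w ?_).1
  rw [MvPolynomial.trdeg_of_isDomain]
  simp

end TR
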