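import Pool.Agent.TR.Defs

namespace TR

section plain

variable {K : Type*} [CommRing K]

theorem br_self (u : K × K) : br u u = 0 := by unfold br; ring

theorem br_comm (u v : K × K) : br v u = - br u v := by unfold br; ring

theorem br_add_left (u u' v : K × K) : br (u + u') v = br u v + br u' v := by
  simp only [br, Prod.fst_add, Prod.snd_add]; ring

theorem br_add_right (u v v' : K × K) : br u (v + v') = br u v + br u v' := by
  simp only [br, Prod.fst_add, Prod.snd_add]; ring

theorem br_mul_left (r : K) (u v : K × K) : br (r • u) v = r * br u v := by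
  simp only [br, Prod.smul_fst, Prod.smul_snd, smul_eq_mul]; ring

theorem br_mul_right (r : K) (u v : K × K) : br u (r • v) = r * br u v := by
  simp only [br, Prod.smul_fst, Prod.smul_snd, smul_eq_mul]; ring

theorem br_zero_left (v : K × K) : br 0 v = 0 := by simp [br]

theorem br_zero_right (v : K × K) : br v 0 = 0 := by simp [br]

/-- Three term relation for vectors in the plane. -/
theorem br_three (P Q R e : K × K) : br Q R * br P e - br P R * br Q e + br P Q * br R e = 0 := by
  unfold br; ring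

theorem plucker (u v w x : K × K) : br u v * br w x - br u w * br v x + br u x * br v w = 0 := by
  unfold br; ring

/-- A linear map of the plane (matrix `[[α, β], [γ, δ]]`). -/
def gl (α β γ δ : K) (u : K × K) : K × K := (α * u.1 + β * u.2, γ * u.1 + δ * u.2)

theorem br_gl (α β γ δ : K) (u v : K × K) :
    br (gl α β γ δ u) (gl α β γ δ v) = (α * δ - β * γ) * br u v := by
  simp only [br, gl]; ring

theorem gl_add (α β γ δ : K) (u v : K × K) :
    gl α β γ δ (u + v) = gl α β γ δ u + gl α β γ δ v := by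
  ext <;> simp [gl] <;> ring

theorem gl_zero (α β γ δ : K) : gl α β γ δ (0 : K × K) = 0 := by
  ext <;> simp [gl]

theorem gl_sum {ι : Type*} (α β γ δ : K) (s : Finset ι) (f : ι → K × K) :
    gl α β γ δ (∑ i ∈ s, f i) = ∑ i ∈ s, gl α β γ δ (f i) := by
  classical
  induction s using Finset.induction_on with
  | empty => simp [gl_zero]
  | insert i s hi ih => rw [Finset.sum_insert hi, Finset.sum_insert hi, gl_add, ih]

end plain

section general

variable {K : Type*} [CommRing K] [Algebra ℝ K]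

theorem br_smul_left (r : ℝ) (u v : K × K) : br (r • u) v = r • br u v := by
  simp only [br, Prod.smul_fst, Prod.smul_snd, smul_sub, smul_mul_assoc]

theorem br_smul_right (r : ℝ) (u v : K × K) : br u (r • v) = r • br u v := by
  simp only [br, Prod.smul_fst, Prod.smul_snd, smul_sub, mul_smul_comm]

theorem arr_zero {m : ℕ} (p : ℕ → ℕ → ℝ) (a : ℕ → K × K) {k : ℕ} (hk : k < m) :
    arr m p a 0 k = a k := by simp [arr, hk]

theorem arr_ge {m : ℕ} (p : ℕ → ℕ → ℝ) (a : ℕ → K × K) (j : ℕ) {k : ℕ} (hk : m ≤ k) :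
    arr m p a j k = 0 := by
  cases j with
  | zero => simp [arr, Nat.not_lt.mpr hk]
  | succ j => simp [arr, Finset.Ico_eq_empty_of_le hk]

theorem arr_succ' {m : ℕ} (p : ℕ → ℕ → ℝ) (a : ℕ → K × K) (j k : ℕ) :
    arr m p a (j + 1) k = ∑ i ∈ Finset.Ico k m, p (j + 1) i • arr m p a j i := rfl

/-- The recursion of the array. -/
theorem arr_succ {m : ℕ} (p : ℕ → ℕ → ℝ) (a : ℕ → K × K) (j : ℕ) {k : ℕ} (hk : k < m) :
    arr m p a (j + 1) k = p (j + 1) k • arr m p a j k + arr m p a (j + 1) (k + 1) := by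
  rw [arr_succ', arr_succ', Finset.sum_eq_sum_Ico_succ_bot hk]

/-- The array only depends on `a k`, `k < m`, and on `p j k`, `1 ≤ j ≤ M`, `k < m`. -/
theorem arr_congr {m M : ℕ} {p p' : ℕ → ℕ → ℝ} {a a' : ℕ → K × K}
    (hp : ∀ j ≤ M, ∀ k < m, p j k = p' j k) (ha : ∀ k < m, a k = a' k) :
    ∀ j ≤ M, ∀ k, arr m p a j k = arr m p' a' j k := by
  intro j
  induction j with
  | zero =>
    intro _ k
    by_cases hk : k < m
    · simp [arr, hk, ha k hk]
    · simp [arr, hk]
  | succ j ih =>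
    intro hj k
    rw [arr_succ', arr_succ']
    refine Finset.sum_congr rfl fun i hi => ?_
    rw [Finset.mem_Ico] at hi
    rw [hp _ hj i hi.2, ih (by omega) i]

theorem D_congr {m M : ℕ} {p p' : ℕ → ℕ → ℝ} {a a' : ℕ → K × K}
    (hp : ∀ j ≤ M, ∀ k < m, p j k = p' j k) (ha : ∀ k < m, a k = a' k) :
    ∀ j ≤ M, ∀ k, D m p a j k = D m p' a' j k := by
  intro j hj k
  rw [D, D, arr_congr hp ha j hj, arr_congr hp ha j hj]

theorem arr_add {m : ℕ} (p : ℕ → ℕ → ℝ) (a b : ℕ → K × K) (j k : ℕ) :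
    arr m p (fun i => a i + b i) j k = arr m p a j k + arr m p b j k := by
  induction j generalizing k with
  | zero => by_cases hk : k < m <;> simp [arr, hk]
  | succ j ih =>
    simp only [arr_succ']
    rw [← Finset.sum_add_distrib]
    refine Finset.sum_congr rfl fun i _ => ?_
    rw [ih, smul_add]

theorem arr_smul {m : ℕ} (p : ℕ → ℕ → ℝ) (c : K) (a : ℕ → K × K) (j k : ℕ) :
    arr m p (fun i => c • a i) j k = c • arr m p a j k := by
  induction j generalizing k with
  | zero => by_cases hk : k < m <;> simp [arr, hk]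
  | succ j ih =>
    simp only [arr_succ']
    rw [Finset.smul_sum]
    refine Finset.sum_congr rfl fun i _ => ?_
    rw [ih, smul_comm]

theorem gl_smul (α β γ δ : K) (r : ℝ) (u : K × K) :
    gl α β γ δ (r • u) = r • gl α β γ δ u := by
  ext <;> simp [gl, smul_add]

theorem arr_gl {m : ℕ} (p : ℕ → ℕ → ℝ) (α β γ δ : K) (a : ℕ → K × K) (j k : ℕ) :
    arr m p (fun i => gl α β γ δ (a i)) j k = gl α β γ δ (arr m p a j k) := by
  induction j generalizing k with
  | zero => by_cases hk : k < m <;> simp [arr, hk, gl_zero]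
  | succ j ih =>
    simp only [arr_succ']
    rw [gl_sum]
    refine Finset.sum_congr rfl fun i _ => ?_
    rw [ih, gl_smul]

theorem D_gl {m : ℕ} (p : ℕ → ℕ → ℝ) (α β γ δ : K) (a : ℕ → K × K) (j k : ℕ) :
    D m p (fun i => gl α β γ δ (a i)) j k = (α * δ - β * γ) * D m p a j k := by
  rw [D, arr_gl, arr_gl, br_gl, D]

/-- Compatibility with algebra homomorphisms. -/
theorem arr_map {K' : Type*} [CommRing K'] [Algebra ℝ K'] (φ : K →ₐ[ℝ] K') {m : ℕ}
    (p : ℕ → ℕ → ℝ) (a : ℕ → K × K) (j k : ℕ) :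
    arr m p (fun i => (φ (a i).1, φ (a i).2)) j k
      = (φ (arr m p a j k).1, φ (arr m p a j k).2) := by
  induction j generalizing k with
  | zero =>
    by_cases hk : k < m
    · simp [arr, hk]
    · simp only [arr, hk, if_false, Prod.fst_zero, Prod.snd_zero, map_zero]; rfl
  | succ j ih =>
    simp only [arr_succ']
    rw [Finset.sum_congr rfl fun i _ => by rw [ih]]
    ext <;> simp [Prod.fst_sum, Prod.snd_sum, map_sum]

theorem D_map {K' : Type*} [CommRing K'] [Algebra ℝ K'] (φ : K →ₐ[ℝ] K') {m : ℕ}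
    (p : ℕ → ℕ → ℝ) (a : ℕ → K × K) (j k : ℕ) :
    D m p (fun i => (φ (a i).1, φ (a i).2)) j k = φ (D m p a j k) := by
  rw [D, arr_map, arr_map, D]; simp [br]

/-- Coordinates of `f^(j)_k`: the array is linear in `a` with non-negative coefficients. -/
def cf (m : ℕ) (p : ℕ → ℕ → ℝ) : ℕ → ℕ → ℕ → ℝ
  | 0, k, i => if k = i ∧ k < m then 1 else 0
  | (j + 1), k, i => ∑ l ∈ Finset.Ico k m, p (j + 1) l * cf m p j l i

theorem arr_eq_cf {m : ℕ} (p : ℕ → ℕ → ℝ) (a : ℕ → K × K) (j k : ℕ) :
    arr m p a j k = ∑ i ∈ Finset.range m, cf m p j k i • a i := by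
  induction j generalizing k with
  | zero =>
    by_cases hk : k < m
    · rw [arr_zero p a hk, Finset.sum_eq_single k]
      · simp [cf, hk]
      · intro i _ hi
        simp [cf, Ne.symm hi]
      · intro h; exact absurd (Finset.mem_range.mpr hk) h
    · rw [arr_ge p a 0 (Nat.not_lt.mp hk)]
      refine (Finset.sum_eq_zero fun i _ => ?_).symm
      simp [cf, hk]
  | succ j ih =>
    rw [arr_succ']
    simp only [cf, ih, Finset.smul_sum, Finset.sum_smul]
    rw [Finset.sum_comm]
    refine Finset.sum_congr rfl fun i _ => Finset.sum_congr rfl fun l _ => ?_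
    rw [smul_smul]

theorem cf_ge {m : ℕ} (p : ℕ → ℕ → ℝ) (j k : ℕ) (hk : m ≤ k) (i : ℕ) : cf m p j k i = 0 := by
  cases j with
  | zero => simp [cf, Nat.not_lt.mpr hk]
  | succ j => simp [cf, Finset.Ico_eq_empty_of_le hk]

theorem cf_lt {m : ℕ} (p : ℕ → ℕ → ℝ) (j : ℕ) {k i : ℕ} (hi : i < k) : cf m p j k i = 0 := by
  induction j generalizing k with
  | zero => simp [cf, (ne_of_gt hi)]
  | succ j ih =>
    rw [cf]
    refine Finset.sum_eq_zero fun l hl => ?_
    rw [Finset.mem_Ico] at hl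
    rw [ih (lt_of_lt_of_le hi hl.1), mul_zero]

/-- Every cell is a fixed real combination of the brackets `br (a i) (a i')`, `i < i' < m`. -/
theorem D_eq_sum {m : ℕ} (p : ℕ → ℕ → ℝ) (a : ℕ → K × K) (j k : ℕ) :
    D m p a j k = ∑ x ∈ (Finset.range m ×ˢ Finset.range m).filter (fun x => x.1 < x.2),
      (cf m p j k x.1 * cf m p j (k + 1) x.2 - cf m p j k x.2 * cf m p j (k + 1) x.1) •
        br (a x.1) (a x.2) := by
  classical
  have key : ∀ (c d : ℕ → ℝ), br (∑ i ∈ Finset.range m, c i • a i)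
      (∑ i ∈ Finset.range m, d i • a i) =
      ∑ x ∈ Finset.range m ×ˢ Finset.range m, (c x.1 * d x.2) • br (a x.1) (a x.2) := by
    intro c d
    have h1 : ∀ (s : Finset ℕ) (v : K × K), br (∑ i ∈ s, c i • a i) v
        = ∑ i ∈ s, c i • br (a i) v := by
      intro s v
      induction s using Finset.induction_on with
      | empty => simp [br_zero_left]
      | insert i s hi ih =>
        rw [Finset.sum_insert hi, Finset.sum_insert hi, br_add_left, ih, br_smul_left]
    have h2 : ∀ (s : Finset ℕ) (v : K × K), br v (∑ i ∈ s, d i • a i)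
        = ∑ i ∈ s, d i • br v (a i) := by
      intro s v
      induction s using Finset.induction_on with
      | empty => simp [br_zero_right]
      | insert i s hi ih =>
        rw [Finset.sum_insert hi, Finset.sum_insert hi, br_add_right, ih, br_smul_right]
    rw [h1, Finset.sum_product]
    refine Finset.sum_congr rfl fun i _ => ?_
    rw [h2, Finset.smul_sum]
    refine Finset.sum_congr rfl fun l _ => ?_
    rw [smul_smul]
  rw [D, arr_eq_cf, arr_eq_cf, key]
  set s := Finset.range m ×ˢ Finset.range m with hs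
  have hsplit : s = (s.filter (fun x => x.1 < x.2) ∪ s.filter (fun x => x.2 < x.1)) ∪
      s.filter (fun x => x.1 = x.2) := by
    ext x; simp only [Finset.mem_union, Finset.mem_filter]
    constructor
    · intro hx
      rcases lt_trichotomy x.1 x.2 with h | h | h
      · exact Or.inl (Or.inl ⟨hx, h⟩)
      · exact Or.inr ⟨hx, h⟩
      · exact Or.inl (Or.inr ⟨hx, h⟩)
    · rintro ((h | h) | h) <;> exact h.1
  have hd1 : Disjoint (s.filter (fun x => x.1 < x.2) ∪ s.filter (fun x => x.2 < x.1))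
      (s.filter (fun x => x.1 = x.2)) := by
    rw [Finset.disjoint_left]
    intro x hx hx'
    simp only [Finset.mem_union, Finset.mem_filter] at hx hx'
    rcases hx with h | h <;> omega
  have hd2 : Disjoint (s.filter (fun x => x.1 < x.2)) (s.filter (fun x => x.2 < x.1)) := by
    rw [Finset.disjoint_left]
    intro x hx hx'
    simp only [Finset.mem_filter] at hx hx'
    omega
  conv_lhs => rw [hsplit, Finset.sum_union hd1, Finset.sum_union hd2]
  have h0 : ∑ x ∈ s.filter (fun x => x.1 = x.2),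
      (cf m p j k x.1 * cf m p j (k + 1) x.2) • br (a x.1) (a x.2) = 0 := by
    refine Finset.sum_eq_zero fun x hx => ?_
    rw [Finset.mem_filter] at hx
    rw [hx.2, br_self, smul_zero]
  rw [h0, add_zero]
  have h1 : ∑ x ∈ s.filter (fun x => x.2 < x.1),
      (cf m p j k x.1 * cf m p j (k + 1) x.2) • br (a x.1) (a x.2) =
      ∑ x ∈ s.filter (fun x => x.1 < x.2),
      (-(cf m p j k x.2 * cf m p j (k + 1) x.1)) • br (a x.1) (a x.2) := by
    refine Finset.sum_nbij' (fun x => (x.2, x.1)) (fun x => (x.2, x.1)) ?_ ?_ ?_ ?_ ?_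
    · intro x hx
      simp only [hs, Finset.mem_filter, Finset.mem_product] at hx ⊢
      exact ⟨⟨hx.1.2, hx.1.1⟩, hx.2⟩
    · intro x hx
      simp only [hs, Finset.mem_filter, Finset.mem_product] at hx ⊢
      exact ⟨⟨hx.1.2, hx.1.1⟩, hx.2⟩
    · intro x _; rfl
    · intro x _; rfl
    · intro x _
      simp only
      rw [br_comm (a x.2) (a x.1), smul_neg, neg_smul]
  rw [h1, ← Finset.sum_add_distrib]
  refine Finset.sum_congr rfl fun x _ => ?_
  rw [← add_smul, sub_eq_add_neg]

/-- `D (j+1) k` through the previous column. -/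
theorem D_succ {m : ℕ} (p : ℕ → ℕ → ℝ) (a : ℕ → K × K) (j : ℕ) {k : ℕ} (hk : k < m) :
    D m p a (j + 1) k = p (j + 1) k • br (arr m p a j k) (arr m p a (j + 1) (k + 1)) := by
  rw [D, arr_succ p a j hk, br_add_left, br_self, add_zero, br_smul_left]

/-- The bottom cell `(j+1, 0)` is the bracket of consecutive bottom vectors. -/
theorem D_bot {m : ℕ} (hm : 0 < m) (p : ℕ → ℕ → ℝ) (a : ℕ → K × K) (j : ℕ) :
    D m p a (j + 1) 0 = p (j + 1) 0 • br (arr m p a j 0) (arr m p a (j + 1) 0) := by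
  rw [D_succ p a j hm, arr_succ p a j hm, br_add_right, br_smul_right, br_self, smul_zero,
    zero_add, zero_add]

theorem br_succ {m : ℕ} (p : ℕ → ℕ → ℝ) (a : ℕ → K × K) (j : ℕ) {k : ℕ} (hk : k < m) :
    br (arr m p a j k) (arr m p a (j + 1) k)
      = br (arr m p a j k) (arr m p a (j + 1) (k + 1)) := by
  rw [arr_succ p a j hk, br_add_right, br_smul_right, br_self, smul_zero, zero_add]

/-- Truncation: if the last column vanishes, the array is that of the first `m - 1` columns. -/
theorem arr_trunc {m : ℕ} (p : ℕ → ℕ → ℝ) (a : ℕ → K × K) (h : a m = 0) (j k : ℕ) :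
    arr (m + 1) p a j k = arr m p a j k := by
  induction j generalizing k with
  | zero =>
    rcases lt_trichotomy k m with hk | hk | hk
    · rw [arr_zero p a (by omega), arr_zero p a hk]
    · subst hk
      rw [arr_zero p a (by omega), arr_ge p a 0 le_rfl, h]
    · rw [arr_ge p a 0 (by omega), arr_ge p a 0 (by omega)]
  | succ j ih =>
    rcases Nat.lt_or_ge k (m + 1) with hk | hk
    · rw [arr_succ', arr_succ', Finset.sum_Ico_succ_top (by omega)]
      rw [ih m, arr_ge p a j le_rfl, smul_zero, add_zero]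
      refine Finset.sum_congr rfl fun i _ => ?_
      rw [ih i]
    · rw [arr_ge p a _ hk, arr_ge p a _ (by omega)]

theorem D_trunc {m : ℕ} (p : ℕ → ℕ → ℝ) (a : ℕ → K × K) (h : a m = 0) (j k : ℕ) :
    D (m + 1) p a j k = D m p a j k := by
  rw [D, D, arr_trunc p a h, arr_trunc p a h]

end general

section conn

theorem lk_symm {M K : ℕ} {c : ℕ → ℕ → SignType} {x y : ℕ × ℕ} (h : lk M K c x y) :
    lk M K c y x := by
  obtain ⟨h1, h2, h3, h4, h5⟩ := h
  exact ⟨h2, h1, h3.symm, h4.symm, h4 ▸ h5⟩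

theorem Conn.refl {M K : ℕ} {c : ℕ → ℕ → SignType} (x : ℕ × ℕ) : Conn M K c x x :=
  Relation.ReflTransGen.refl

theorem Conn.symm {M K : ℕ} {c : ℕ → ℕ → SignType} {x y : ℕ × ℕ} (h : Conn M K c x y) :
    Conn M K c y x := by
  unfold Conn at *
  induction h with
  | refl => exact Relation.ReflTransGen.refl
  | tail _ hbc ih => exact Relation.ReflTransGen.head (lk_symm hbc) ih

theorem Conn.trans {M K : ℕ} {c : ℕ → ℕ → SignType} {x y z : ℕ × ℕ} (h : Conn M K c x y)
    (h' : Conn M K c y z) : Conn M K c x z := Relation.ReflTransGen.trans h h'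

theorem Conn.of_lk {M K : ℕ} {c : ℕ → ℕ → SignType} {x y : ℕ × ℕ} (h : lk M K c x y) :
    Conn M K c x y := Relation.ReflTransGen.single h

theorem Conn.col_eq {M K : ℕ} {c : ℕ → ℕ → SignType} {x y : ℕ × ℕ} (h : Conn M K c x y) :
    c x.1 x.2 = c y.1 y.2 := by
  unfold Conn at h
  induction h with
  | refl => rfl
  | tail _ hbc ih => exact ih.trans hbc.2.2.2.1

theorem Conn.eq_or {M K : ℕ} {c : ℕ → ℕ → SignType} {x y : ℕ × ℕ} (h : Conn M K c x y) :
    x = y ∨ ((x.1 ≤ M ∧ x.2 < K) ∧ (y.1 ≤ M ∧ y.2 < K) ∧ c x.1 x.2 ≠ 0) := by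
  unfold Conn at h
  induction h with
  | refl => exact Or.inl rfl
  | tail _ hbc ih =>
    right
    rcases ih with h | h
    · subst h; exact ⟨hbc.1, hbc.2.1, hbc.2.2.2.2⟩
    · exact ⟨h.1, hbc.2.1, h.2.2⟩

/-- Monotonicity in the rectangle and in the colouring. -/
theorem Conn.mono {M K M' K' : ℕ} {c c' : ℕ → ℕ → SignType} (hM : M ≤ M') (hK : K ≤ K')
    (hc : ∀ j ≤ M, ∀ k < K, c j k ≠ 0 → c' j k = c j k) {x y : ℕ × ℕ} (h : Conn M K c x y) :
    Conn M' K' c' x y := by
  unfold Conn at *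
  refine Relation.ReflTransGen.mono (fun u v huv => ?_) _ _ h
  obtain ⟨h1, h2, h3, h4, h5⟩ := huv
  refine ⟨⟨h1.1.trans hM, h1.2.trans_le hK⟩, ⟨h2.1.trans hM, h2.2.trans_le hK⟩, h3, ?_, ?_⟩
  · rw [hc _ h1.1 _ h1.2 h5, hc _ h2.1 _ h2.2 (h4 ▸ h5), h4]
  · rw [hc _ h1.1 _ h1.2 h5]; exact h5

/-- Clusters of non-zero cells do not see rows of zero cells. -/
theorem Conn.restrict {M K K' : ℕ} {c : ℕ → ℕ → SignType}
    (hc : ∀ j ≤ M, ∀ k, K ≤ k → k < K' → c j k = 0) {x y : ℕ × ℕ} (h : Conn M K' c x y) :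
    Conn M K c x y := by
  unfold Conn at *
  refine Relation.ReflTransGen.mono (fun u v huv => ?_) _ _ h
  obtain ⟨h1, h2, h3, h4, h5⟩ := huv
  have hu : u.2 < K := by
    by_contra hn
    exact h5 (hc _ h1.1 _ (not_lt.mp hn) h1.2)
  have hv : v.2 < K := by
    by_contra hn
    exact h5 (h4 ▸ hc _ h2.1 _ (not_lt.mp hn) h2.2)
  exact ⟨⟨h1.1, hu⟩, ⟨h2.1, hv⟩, h3, h4, h5⟩

end conn

section chg

theorem chg_zero {α : Type*} [DecidableEq α] (s : ℕ → α) : chg 0 s = 0 := by simp [chg]

theorem chg_succ {α : Type*} [DecidableEq α] (n : ℕ) (s : ℕ → α) :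
    chg (n + 1) s = chg n s + if s n ≠ s (n + 1) then 1 else 0 := by
  unfold chg
  rw [Finset.range_add_one, Finset.filter_insert]
  split_ifs with h
  · rw [Finset.card_insert_of_notMem (by simp)]
  · rfl

theorem chg_mono {α : Type*} [DecidableEq α] {n n' : ℕ} (h : n ≤ n') (s : ℕ → α) :
    chg n s ≤ chg n' s := by
  unfold chg
  exact Finset.card_le_card (Finset.filter_subset_filter _ (Finset.range_mono h))

theorem chg_congr {α : Type*} [DecidableEq α] {n : ℕ} {s t : ℕ → α} (h : ∀ j ≤ n, s j = t j) :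
    chg n s = chg n t := by
  unfold chg
  congr 1
  refine Finset.filter_congr fun j hj => ?_
  rw [Finset.mem_range] at hj
  rw [h j (by omega), h (j + 1) (by omega)]

end chg

end TR
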