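import Pool.Agent.TR.Basic

/-!
MODULE COL (the bottom vectors can be prescribed near the given ones).

f j k = arr m p a j k.  Claim by induction on M: for every eps > 0 there is del > 0 such that for all
a' with |a' k - a k| < del (k < m) and all x' with |x' j - f j 0| < del (j <= M), x' 0 = a' 0, there
are positive p' with |p' j k - p j k| < eps, arr m p' a' j 0 = x' j for j <= M, and moreover (for the
induction) |arr m p' a' j k - f j k| < eps for j <= M, k < m.
Step: the vectors f M k, k < m, span the plane (rank 2 is preserved: span of f (j+1) k, k < m,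
equals that of f j k because f (j+1) k - f (j+1) (k+1) = p f j k with p <> 0), so there are
i1 < i2 < m with br (f M i1) (f M i2) <> 0.  Given p' up to M with g = arr m p' a' M close to f M,
put y = x' (M+1) - sum_{i < m} p (M+1) i • g i (small, since f (M+1) 0 = sum_i p (M+1) i • f M i),
c1 = br y (g i2) / br (g i1) (g i2), c2 = br (g i1) y / br (g i1) (g i2) (small), and
p' (M+1) i = p (M+1) i + c1 [i = i1] + c2 [i = i2]: then sum_i p' (M+1) i • g i = x' (M+1)
(Cramer: y = c1 g i1 + c2 g i2).  p' j i = p j i for j > M + 1 and for i >= m.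
Note arr m p' a' (M+1) 0 = sum over Ico 0 m.
-/

namespace TR

open Topology Filter

theorem rk_row {m : ℕ} {p : ℕ → ℕ → ℝ} (hp : Pos p) {a : ℕ → ℝ × ℝ} (hr : Rk m a) (j : ℕ) :
    Rk m (arr m p a j) := by
  induction j with
  | zero =>
    obtain ⟨i, l, h1, h2, h3⟩ := hr
    refine ⟨i, l, h1, h2, ?_⟩
    rw [arr_zero p a (h1.trans h2), arr_zero p a h2]
    exact h3
  | succ j ih =>
    by_contra hcon
    have hall : ∀ k l, br (arr m p a (j + 1) k) (arr m p a (j + 1) l) = 0 := by
      intro k l
      rcases Nat.lt_or_ge k m with hk | hk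
      · rcases Nat.lt_or_ge l m with hl | hl
        · rcases lt_trichotomy k l with h | h | h
          · by_contra hne
            exact hcon ⟨k, l, h, hl, hne⟩
          · rw [h, br_self]
          · rw [br_comm]
            rw [neg_eq_zero]
            by_contra hne
            exact hcon ⟨l, k, h, hk, hne⟩
        · rw [arr_ge p a (j + 1) hl, br_zero_right]
      · rw [arr_ge p a (j + 1) hk, br_zero_left]
    obtain ⟨i, l, h1, h2, h3⟩ := ih
    apply h3
    have hx : ∀ k < m, arr m p a (j + 1) k - arr m p a (j + 1) (k + 1)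
        = p (j + 1) k • arr m p a j k := by
      intro k hk
      rw [arr_succ p a j hk, add_sub_cancel_right]
    have h4 : br (p (j + 1) i • arr m p a j i) (p (j + 1) l • arr m p a j l) = 0 := by
      rw [← hx i (h1.trans h2), ← hx l h2]
      have e1 := hall i l
      have e2 := hall i (l + 1)
      have e3 := hall (i + 1) l
      have e4 := hall (i + 1) (l + 1)
      simp only [br, Prod.fst_sub, Prod.snd_sub] at e1 e2 e3 e4 ⊢
      linear_combination e1 - e2 - e3 + e4
    rw [br_mul_left, br_mul_right] at h4
    have p1 := (hp (j + 1) i).ne'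
    have p2 := (hp (j + 1) l).ne'
    rcases mul_eq_zero.mp h4 with h | h
    · exact absurd h p1
    · rcases mul_eq_zero.mp h with h | h
      · exact absurd h p2
      · exact h

theorem arr_continuous (m j k : ℕ) :
    Continuous fun y : (ℕ → ℕ → ℝ) × (ℕ → ℝ × ℝ) => arr m y.1 y.2 j k := by
  induction j generalizing k with
  | zero =>
    by_cases hk : k < m
    · simp only [arr, hk, if_true]
      exact (continuous_apply k).comp continuous_snd
    · simp only [arr, hk, if_false]
      exact continuous_const
  | succ j ih =>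
    simp only [arr_succ']
    refine continuous_finsetSum _ fun i _ => ?_
    have h1 : Continuous fun y : (ℕ → ℕ → ℝ) × (ℕ → ℝ × ℝ) => y.1 (j + 1) i :=
      (continuous_apply i).comp ((continuous_apply (j + 1)).comp continuous_fst)
    exact h1.smul (ih i)

theorem br_continuous : Continuous fun y : (ℝ × ℝ) × (ℝ × ℝ) => br y.1 y.2 := by
  unfold br
  fun_prop

/-- The continuous form of the prescription: a solution map `P`. -/
theorem col_map {m : ℕ} {p : ℕ → ℕ → ℝ} (hp : Pos p) {a : ℕ → ℝ × ℝ} (hr : Rk m a)
    (M : ℕ) :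
    ∃ P : (ℕ → ℝ × ℝ) × (ℕ → ℝ × ℝ) → ℕ → ℕ → ℝ,
      ContinuousAt P (a, fun j => arr m p a j 0) ∧ P (a, fun j => arr m p a j 0) = p ∧
      (∀ᶠ x in 𝓝 ((a, fun j => arr m p a j 0) : (ℕ → ℝ × ℝ) × (ℕ → ℝ × ℝ)),
        x.2 0 = x.1 0 → ∀ j ≤ M, arr m (P x) x.1 j 0 = x.2 j) ∧
      ∀ x j k, (M < j ∨ m ≤ k) → P x j k = p j k := by
  have hm : 0 < m := by
    obtain ⟨i, l, h1, h2, -⟩ := hr
    omega
  induction M with
  | zero =>
    refine ⟨fun _ => p, continuousAt_const, rfl, Filter.Eventually.of_forall ?_,
      fun _ _ _ _ => rfl⟩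
    intro x hx j hj
    have : j = 0 := by omega
    subst this
    rw [arr_zero _ _ hm, hx]
  | succ M ih =>
    obtain ⟨P, hP, hP0, hPe, hPp⟩ := ih
    set x0 : (ℕ → ℝ × ℝ) × (ℕ → ℝ × ℝ) := (a, fun j => arr m p a j 0) with hx0
    obtain ⟨i1, i2, h12, h2m, hne⟩ := rk_row hp hr M
    -- the row `M`
    set g : (ℕ → ℝ × ℝ) × (ℕ → ℝ × ℝ) → ℕ → ℝ × ℝ := fun x i => arr m (P x) x.1 M i with hg
    have hgc : ∀ i, ContinuousAt (fun x => g x i) x0 := by
      intro i
      have h := (arr_continuous m M i).continuousAt (x := (P x0, x0.1))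
      exact ContinuousAt.comp (f := fun x => (P x, x.1)) h (hP.prodMk continuousAt_fst)
    have hg0 : ∀ i, g x0 i = arr m p a M i := by
      intro i
      simp only [hg, hP0]
      rfl
    set y : (ℕ → ℝ × ℝ) × (ℕ → ℝ × ℝ) → ℝ × ℝ :=
      fun x => x.2 (M + 1) - ∑ i ∈ Finset.Ico 0 m, p (M + 1) i • g x i with hy
    have hyc : ContinuousAt y x0 := by
      refine ContinuousAt.sub ?_ ?_
      · exact ((continuous_apply (M + 1)).comp continuous_snd).continuousAt
      · exact tendsto_finsetSum _ fun i _ =>
          Filter.Tendsto.smul (f := fun _ => p (M + 1) i) tendsto_const_nhds (hgc i)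
    have hy0 : y x0 = 0 := by
      simp only [hy, hg0]
      simp only [hx0, arr_succ', sub_self]
    set dd : (ℕ → ℝ × ℝ) × (ℕ → ℝ × ℝ) → ℝ := fun x => br (g x i1) (g x i2) with hdd
    have hdc : ContinuousAt dd x0 :=
      ContinuousAt.comp (f := fun x => (g x i1, g x i2)) br_continuous.continuousAt
        ((hgc i1).prodMk (hgc i2))
    have hd0 : dd x0 ≠ 0 := by
      simp only [hdd, hg0]
      exact hne
    set c1 : (ℕ → ℝ × ℝ) × (ℕ → ℝ × ℝ) → ℝ := fun x => br (y x) (g x i2) / dd x with hc1
    set c2 : (ℕ → ℝ × ℝ) × (ℕ → ℝ × ℝ) → ℝ := fun x => br (g x i1) (y x) / dd x with hc2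
    have hc1c : ContinuousAt c1 x0 := by
      refine ContinuousAt.div ?_ hdc hd0
      exact ContinuousAt.comp (f := fun x => (y x, g x i2)) br_continuous.continuousAt
        (hyc.prodMk (hgc i2))
    have hc2c : ContinuousAt c2 x0 := by
      refine ContinuousAt.div ?_ hdc hd0
      exact ContinuousAt.comp (f := fun x => (g x i1, y x)) br_continuous.continuousAt
        ((hgc i1).prodMk hyc)
    have hc10 : c1 x0 = 0 := by
      simp only [hc1, hy0, br_zero_left, zero_div]
    have hc20 : c2 x0 = 0 := by
      simp only [hc2, hy0, br_zero_right, zero_div]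
    set Q : (ℕ → ℝ × ℝ) × (ℕ → ℝ × ℝ) → ℕ → ℕ → ℝ := fun x j k =>
      if j = M + 1 then p (M + 1) k + ((if k = i1 then c1 x else 0) + (if k = i2 then c2 x else 0))
      else P x j k with hQ
    have hPP : ∀ x, ∀ j ≤ M, ∀ k < m, P x j k = Q x j k := by
      intro x j hj k _
      simp only [hQ]
      rw [if_neg (by omega)]
    have hrow : ∀ x, ∀ j ≤ M, ∀ k, arr m (P x) x.1 j k = arr m (Q x) x.1 j k := fun x =>
      arr_congr (hPP x) (fun _ _ => rfl)
    refine ⟨Q, ?_, ?_, ?_, ?_⟩
    · rw [continuousAt_pi]
      intro j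
      rw [continuousAt_pi]
      intro k
      by_cases hj : j = M + 1
      · simp only [hQ, hj, if_true]
        refine continuousAt_const.add (ContinuousAt.add ?_ ?_)
        · by_cases hk : k = i1
          · simp only [hk, if_true]
            exact hc1c
          · simp only [hk, if_false]
            exact continuousAt_const
        · by_cases hk : k = i2
          · simp only [hk, if_true]
            exact hc2c
          · simp only [hk, if_false]
            exact continuousAt_const
      · simp only [hQ, hj, if_false]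
        have := (continuousAt_pi.mp hP) j
        exact (continuousAt_pi.mp this) k
    · funext j k
      by_cases hj : j = M + 1
      · simp only [hQ, hj, if_true, hc10, hc20, ite_self, add_zero]
      · simp only [hQ, hj, if_false, hP0]
    · filter_upwards [hPe, hdc.eventually_ne hd0] with x hx1 hx2 hx3 j hj
      rcases Nat.lt_or_ge M j with h | h
      · have hjM : j = M + 1 := by omega
        subst hjM
        rw [arr_succ']
        have hs : ∀ i ∈ Finset.Ico 0 m, Q x (M + 1) i • arr m (Q x) x.1 M i
            = p (M + 1) i • g x i + ((if i = i1 then c1 x • g x i else 0)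
              + (if i = i2 then c2 x • g x i else 0)) := by
          intro i _
          rw [← hrow x M le_rfl i]
          simp only [hQ, if_true]
          rw [add_smul, add_smul]
          congr 1
          congr 1
          · by_cases hi : i = i1
            · simp only [hi, if_true, hg]
            · simp only [hi, if_false, zero_smul]
          · by_cases hi : i = i2
            · simp only [hi, if_true, hg]
            · simp only [hi, if_false, zero_smul]
        rw [Finset.sum_congr rfl hs, Finset.sum_add_distrib, Finset.sum_add_distrib,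
          Finset.sum_ite_eq' (Finset.Ico 0 m) i1, Finset.sum_ite_eq' (Finset.Ico 0 m) i2,
          if_pos (Finset.mem_Ico.mpr ⟨Nat.zero_le _, h12.trans h2m⟩),
          if_pos (Finset.mem_Ico.mpr ⟨Nat.zero_le _, h2m⟩)]
        have hcr : c1 x • g x i1 + c2 x • g x i2 = y x := by
          have hx2' : br (g x i1) (g x i2) ≠ 0 := hx2
          simp only [hc1, hc2, hdd]
          ext
          · simp only [Prod.fst_add, Prod.smul_fst, smul_eq_mul]
            field_simp
            simp only [br]
            ring
          · simp only [Prod.snd_add, Prod.smul_snd, smul_eq_mul]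
            field_simp
            simp only [br]
            ring
        rw [hcr]
        exact add_sub_cancel _ _
      · rw [← hrow x j h 0]
        exact hx1 hx3 j h
    · intro x j k hjk
      by_cases hj : j = M + 1
      · have hk : m ≤ k := by
          rcases hjk with h | h
          · omega
          · exact h
        simp only [hQ, hj, if_true]
        rw [if_neg (by omega), if_neg (by omega)]
        ring
      · simp only [hQ, hj, if_false]
        exact hPp x j k (by omega)

theorem col_prescribe {m : ℕ} {p : ℕ → ℕ → ℝ} (hp : Pos p) {a : ℕ → ℝ × ℝ} (hr : Rk m a)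
    (M : ℕ) {ε : ℝ} (hε : 0 < ε) :
    ∃ δ > 0, ∀ a' x' : ℕ → ℝ × ℝ, (∀ k < m, ‖a' k - a k‖ < δ) →
      (∀ j ≤ M, ‖x' j - arr m p a j 0‖ < δ) → x' 0 = a' 0 →
      ∃ p' : ℕ → ℕ → ℝ, Pos p' ∧ (∀ j k, |p' j k - p j k| < ε) ∧
        ∀ j ≤ M, arr m p' a' j 0 = x' j := by
  obtain ⟨P, hP, hP0, hPe, hPp⟩ := col_map hp hr M
  set x0 : (ℕ → ℝ × ℝ) × (ℕ → ℝ × ℝ) := (a, fun j => arr m p a j 0) with hx0
  have hm : 0 < m := by
    obtain ⟨i, l, h1, h2, -⟩ := hr
    omega
  -- smallness
  have hsm : ∀ᶠ x in 𝓝 x0, ∀ j ∈ Finset.range (M + 1), ∀ k ∈ Finset.range m,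
      |P x j k - p j k| < min ε (p j k) := by
    rw [Filter.eventually_all_finset]
    intro j _
    rw [Filter.eventually_all_finset]
    intro k _
    have h1 := (continuousAt_pi.mp ((continuousAt_pi.mp hP) j)) k
    have h2 := Metric.tendsto_nhds.mp h1 (min ε (p j k)) (lt_min hε (hp j k))
    filter_upwards [h2] with x hx
    rw [hP0, Real.dist_eq] at hx
    exact hx
  have hall := hPe.and hsm
  -- pull back to a metric space
  set Φ : (Fin m → ℝ × ℝ) × (Fin (M + 1) → ℝ × ℝ) → (ℕ → ℝ × ℝ) × (ℕ → ℝ × ℝ) :=
    fun z => (fun k => if h : k < m then z.1 ⟨k, h⟩ else a k,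
      fun j => if h : j < M + 1 then z.2 ⟨j, h⟩ else arr m p a j 0) with hΦ
  have hΦc : Continuous Φ := by
    refine Continuous.prodMk ?_ ?_
    · refine continuous_pi fun k => ?_
      by_cases h : k < m
      · simp only [h, dif_pos]
        exact (continuous_apply _).comp continuous_fst
      · simp only [h, dif_neg, not_false_eq_true]
        exact continuous_const
    · refine continuous_pi fun k => ?_
      by_cases h : k < M + 1
      · simp only [h, dif_pos]
        exact (continuous_apply _).comp continuous_snd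
      · simp only [h, dif_neg, not_false_eq_true]
        exact continuous_const
  set z0 : (Fin m → ℝ × ℝ) × (Fin (M + 1) → ℝ × ℝ) :=
    (fun k => a k, fun j => arr m p a j 0) with hz0
  have hΦ0 : Φ z0 = x0 := by
    refine Prod.ext ?_ ?_
    · funext k
      by_cases h : k < m
      · simp only [hΦ, hz0, hx0, h, dif_pos]
      · simp only [hΦ, hz0, hx0, h, dif_neg, not_false_eq_true]
    · funext k
      by_cases h : k < M + 1
      · simp only [hΦ, hz0, hx0, h, dif_pos]
      · simp only [hΦ, hz0, hx0, h, dif_neg, not_false_eq_true]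
  have hpull : ∀ᶠ z in 𝓝 z0, ((Φ z).2 0 = (Φ z).1 0 → ∀ j ≤ M,
        arr m (P (Φ z)) (Φ z).1 j 0 = (Φ z).2 j) ∧
      ∀ j ∈ Finset.range (M + 1), ∀ k ∈ Finset.range m,
        |P (Φ z) j k - p j k| < min ε (p j k) := by
    have h := hΦc.continuousAt (x := z0)
    rw [ContinuousAt, hΦ0] at h
    exact h.eventually hall
  obtain ⟨δ, hδ, hball⟩ := Metric.eventually_nhds_iff.mp hpull
  refine ⟨δ, hδ, fun a' x' ha' hx' h0 => ?_⟩
  set z : (Fin m → ℝ × ℝ) × (Fin (M + 1) → ℝ × ℝ) := (fun k => a' k, fun j => x' j) with hz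
  have hdist : dist z z0 < δ := by
    rw [Prod.dist_eq, max_lt_iff]
    constructor
    · rw [dist_pi_lt_iff hδ]
      intro k
      rw [dist_eq_norm]
      exact ha' k k.2
    · rw [dist_pi_lt_iff hδ]
      intro j
      rw [dist_eq_norm]
      exact hx' j (by have := j.2; omega)
  obtain ⟨hz1, hz2⟩ := hball hdist
  refine ⟨P (Φ z), ?_, ?_, ?_⟩
  · intro j k
    by_cases hjk : M < j ∨ m ≤ k
    · rw [hPp _ j k hjk]
      exact hp j k
    · have h := hz2 j (Finset.mem_range.mpr (by omega)) k (Finset.mem_range.mpr (by omega))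
      have h' := lt_of_lt_of_le h (min_le_right _ _)
      rw [abs_lt] at h'
      linarith [h'.1]
  · intro j k
    by_cases hjk : M < j ∨ m ≤ k
    · rw [hPp _ j k hjk, sub_self, abs_zero]
      exact hε
    · have h := hz2 j (Finset.mem_range.mpr (by omega)) k (Finset.mem_range.mpr (by omega))
      exact lt_of_lt_of_le h (min_le_left _ _)
  · intro j hj
    have e0 : (Φ z).2 0 = (Φ z).1 0 := by
      simp only [hΦ, hz, hm, dif_pos, Nat.succ_pos]
      exact h0
    have e1 := hz1 e0 j hj
    have e2 : (Φ z).2 j = x' j := by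
      have hj' : j < M + 1 := by omega
      simp only [hΦ, hz, hj', dif_pos]
    rw [e2] at e1
    rw [← e1]
    refine arr_congr (M := j) (fun _ _ _ _ => rfl) (fun k hk => ?_) j le_rfl 0
    simp only [hΦ, hz, hk, dif_pos]

end TR
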