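import Pool.Agent.TR.Frame

/-!
MODULE GEN2 (generic perturbation of a column system in a normal frame).

Y k = (1, k) for k < q, Y k = (0, q) for q <= k < m (so br (Y k) (Y l) = l - k > 0 for k < l < q,
and = q > 0 for k < q <= l; it is 0 for q <= k < l).
(1) For all j and k < l < m with k < q: br (arr m p Y j k) (arr m p Y j l) > 0, and
    (arr m p Y j k).2 > 0 for q <= k < m.  Induction on j: f' k = sum_{i >= k} p_i f_i,
    br (f' k) (f' l) = sum_{k <= i < l} sum_{l <= i' < m} p_i p_i' br (f_i) (f_i')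
    (the part i >= l cancels), all terms >= 0 (br = 0 if i, i' >= q), the term i = k, i' = l is > 0.
    So D m p Y j k > 0 for k < q (l = k + 1 <= q < m... note k + 1 < m).
(2) a' = a + t Y (t > 0): arr is linear (arr_add, arr_smul), so
    D a' j k = D a j k + t (...) + t^2 D Y j k, a polynomial in t of degree 2 with leading
    coefficient <> 0 for k < q: for all but finitely many t it is non-zero; for small t > 0 it keeps
    the sign of D a j k if that is non-zero; (arr a' j q).2 = (arr a j q).2 + t (positive) (q < m).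
    (a' (q-1)).1 = (a (q-1)).1 + t keeps its sign for small t; (a' (m-1)).2 > 0; a' k vertical for
    k >= q.  For k >= q the colours are 0 (col_top), nothing to show.  Finitely many conditions on
    j <= M, k < m: all hold for some small t > 0 (`Filter.Eventually` in nhdsWithin 0 (Ioi 0), or
    choose t explicitly).
-/

namespace TR

open Filter Topology

/-- the generic column system -/
private def g2Y (q : ℕ) (k : ℕ) : ℝ × ℝ := if k < q then (1, (k : ℝ)) else (0, (q : ℝ))

private theorem g2_br_sum_left {ι : Type*} (s : Finset ι) (f : ι → ℝ × ℝ) (v : ℝ × ℝ) :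
    br (∑ i ∈ s, f i) v = ∑ i ∈ s, br (f i) v := by
  classical
  induction s using Finset.induction_on with
  | empty => simp [br_zero_left]
  | insert i s hi ih => rw [Finset.sum_insert hi, Finset.sum_insert hi, br_add_left, ih]

private theorem g2_br_sum_right {ι : Type*} (s : Finset ι) (f : ι → ℝ × ℝ) (v : ℝ × ℝ) :
    br v (∑ i ∈ s, f i) = ∑ i ∈ s, br v (f i) := by
  classical
  induction s using Finset.induction_on with
  | empty => simp [br_zero_right]
  | insert i s hi ih => rw [Finset.sum_insert hi, Finset.sum_insert hi, br_add_right, ih]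

private theorem g2_top (q : ℕ) {m : ℕ} : ∀ k, q ≤ k → k < m → (g2Y q k).1 = 0 := by
  intro k hk _
  rw [g2Y, if_neg (by omega)]

private theorem g2_pos {m q : ℕ} {p : ℕ → ℕ → ℝ} (hp : Pos p) (j : ℕ) :
    ∀ k l, k < l → l < m → k < q → 0 < br (arr m p (g2Y q) j k) (arr m p (g2Y q) j l) := by
  induction j with
  | zero =>
    intro k l hkl hl hk
    rw [arr_zero p _ (by omega : k < m), arr_zero p _ hl]
    unfold g2Y br
    rw [if_pos hk]
    by_cases h : l < q
    · rw [if_pos h]
      have : (k : ℝ) < l := by exact_mod_cast hkl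
      simp only
      linarith
    · rw [if_neg h]
      have : (0 : ℝ) < q := by exact_mod_cast (by omega : 0 < q)
      simp only
      linarith
  | succ j ih =>
    intro k l hkl hl hk
    have hz : ∀ i i', i < i' → i' < m →
        0 ≤ br (arr m p (g2Y q) j i) (arr m p (g2Y q) j i') := by
      intro i i' hii hi'
      by_cases hiq : i < q
      · exact (ih i i' hii hi' hiq).le
      · have h1 := nf_top (p := p) (g2_top q (m := m)) j i (by omega)
        have h2 := nf_top (p := p) (g2_top q (m := m)) j i' (by omega)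
        rw [br, h1, h2]
        simp
    have hs : arr m p (g2Y q) (j + 1) k =
        ∑ i ∈ Finset.Ico k l, p (j + 1) i • arr m p (g2Y q) j i + arr m p (g2Y q) (j + 1) l := by
      rw [arr_succ', arr_succ', Finset.sum_Ico_consecutive _ hkl.le hl.le]
    rw [hs, br_add_left, br_self, add_zero, g2_br_sum_left]
    apply Finset.sum_pos'
    · intro i hi
      rw [Finset.mem_Ico] at hi
      rw [br_smul_left, arr_succ', g2_br_sum_right, smul_eq_mul]
      refine mul_nonneg (hp _ _).le (Finset.sum_nonneg ?_)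
      intro i' hi'
      rw [Finset.mem_Ico] at hi'
      rw [br_smul_right, smul_eq_mul]
      exact mul_nonneg (hp _ _).le (hz i i' (by omega) hi'.2)
    · refine ⟨k, Finset.mem_Ico.2 ⟨le_rfl, hkl⟩, ?_⟩
      rw [br_smul_left, arr_succ', g2_br_sum_right, smul_eq_mul]
      refine mul_pos (hp _ _) (Finset.sum_pos' ?_ ?_)
      · intro i' hi'
        rw [Finset.mem_Ico] at hi'
        rw [br_smul_right, smul_eq_mul]
        exact mul_nonneg (hp _ _).le (hz k i' (by omega) hi'.2)
      · refine ⟨l, Finset.mem_Ico.2 ⟨le_rfl, hl⟩, ?_⟩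
        rw [br_smul_right, smul_eq_mul]
        exact mul_pos (hp _ _) (ih k l hkl hl hk)

private theorem g2_snd {m q : ℕ} (hq : 1 ≤ q) {p : ℕ → ℕ → ℝ} (hp : Pos p) (j : ℕ) :
    ∀ k, q ≤ k → k < m → 0 < (arr m p (g2Y q) j k).2 := by
  induction j with
  | zero =>
    intro k hk hkm
    rw [arr_zero p _ hkm, g2Y, if_neg (by omega)]
    have : (0 : ℝ) < q := by exact_mod_cast (by omega : 0 < q)
    exact this
  | succ j ih =>
    intro k hk hkm
    rw [arr_succ', Prod.snd_sum]
    apply Finset.sum_pos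
    · intro i hi
      rw [Finset.mem_Ico] at hi
      rw [Prod.smul_snd, smul_eq_mul]
      exact mul_pos (hp _ _) (ih i (by omega) hi.2)
    · exact ⟨k, Finset.mem_Ico.2 ⟨le_rfl, hkm⟩⟩

private theorem g2_ev_sign (c0 c1 c2 : ℝ) (h : c0 ≠ 0) :
    ∀ᶠ t in 𝓝[>] (0 : ℝ), SignType.sign (c0 + t * c1 + t ^ 2 * c2) = SignType.sign c0 := by
  have hc : Tendsto (fun t : ℝ => c0 + t * c1 + t ^ 2 * c2) (𝓝[>] 0) (𝓝 c0) := by
    have h1 : Continuous (fun t : ℝ => c0 + t * c1 + t ^ 2 * c2) := by fun_prop
    have h2 := h1.tendsto 0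
    simp only [zero_mul, add_zero, ne_eq, OfNat.ofNat_ne_zero, not_false_eq_true,
      zero_pow] at h2
    exact h2.mono_left nhdsWithin_le_nhds
  rcases lt_or_gt_of_ne h with h0 | h0
  · filter_upwards [hc.eventually (gt_mem_nhds h0)] with t ht
    rw [sign_neg ht, sign_neg h0]
  · filter_upwards [hc.eventually (lt_mem_nhds h0)] with t ht
    rw [sign_pos ht, sign_pos h0]

private theorem g2_ev_ne (c0 c1 c2 : ℝ) (h : c2 ≠ 0) :
    ∀ᶠ t in 𝓝[>] (0 : ℝ), c0 + t * c1 + t ^ 2 * c2 ≠ 0 := by
  by_cases h0 : c0 = 0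
  · by_cases h1 : c1 = 0
    · filter_upwards [self_mem_nhdsWithin] with t ht
      rw [h0, h1, mul_zero, add_zero, zero_add]
      have : t ≠ 0 := (Set.mem_Ioi.1 ht).ne'
      positivity
    · filter_upwards [g2_ev_sign c1 c2 0 h1, self_mem_nhdsWithin] with t ht ht0
      have h2 : c1 + t * c2 + t ^ 2 * 0 ≠ 0 := by
        intro h3
        rw [h3, sign_zero] at ht
        exact h1 (sign_eq_zero_iff.1 ht.symm)
      have h3 : t ≠ 0 := (Set.mem_Ioi.1 ht0).ne'
      rw [h0]
      have h4 : 0 + t * c1 + t ^ 2 * c2 = t * (c1 + t * c2 + t ^ 2 * 0) := by ring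
      rw [h4]
      exact mul_ne_zero h3 h2
  · filter_upwards [g2_ev_sign c0 c1 c2 h0] with t ht
    intro h3
    rw [h3, sign_zero] at ht
    exact h0 (sign_eq_zero_iff.1 ht.symm)

theorem gen2 {m q : ℕ} (hq : 1 ≤ q) (hqm : q < m) {p : ℕ → ℕ → ℝ} (hp : Pos p)
    {a : ℕ → ℝ × ℝ} (ha : NF m q a) (M : ℕ) :
    ∃ a' : ℕ → ℝ × ℝ, NF m q a' ∧
      SignType.sign (a' (q - 1)).1 = SignType.sign (a (q - 1)).1 ∧
      (∀ j ≤ M, ∀ k < q, D m p a' j k ≠ 0) ∧
      (∀ j ≤ M, ∀ k < m, col m p a j k ≠ 0 → col m p a' j k = col m p a j k) ∧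
      (∀ j ≤ M, 0 ≤ (arr m p a j q).2 → 0 < (arr m p a' j q).2) ∧
      (∀ j ≤ M, (arr m p a j q).2 < 0 → (arr m p a' j q).2 < 0) := by
  set Y := g2Y q with hY
  have harr : ∀ (t : ℝ) (j k : ℕ), arr m p (fun i => a i + t • Y i) j k =
      arr m p a j k + t • arr m p Y j k := by
    intro t j k
    rw [arr_add, arr_smul]
  have hD : ∀ (t : ℝ) (j k : ℕ), D m p (fun i => a i + t • Y i) j k =
      D m p a j k + t * (br (arr m p a j k) (arr m p Y j (k + 1)) +
        br (arr m p Y j k) (arr m p a j (k + 1))) + t ^ 2 * D m p Y j k := by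
    intro t j k
    rw [D, harr, harr, D, D]
    simp only [br, Prod.fst_add, Prod.snd_add, Prod.smul_fst, Prod.smul_snd, smul_eq_mul]
    ring
  have e1 : ∀ᶠ t in 𝓝[>] (0 : ℝ), SignType.sign ((a (q - 1)).1 + t * 1 + t ^ 2 * 0) =
      SignType.sign (a (q - 1)).1 := g2_ev_sign _ _ _ ha.ne
  have e2 : ∀ᶠ t in 𝓝[>] (0 : ℝ), ∀ j ∈ Finset.range (M + 1), ∀ k ∈ Finset.range q,
      D m p (fun i => a i + t • Y i) j k ≠ 0 := by
    rw [Finset.eventually_all]
    intro j _
    rw [Finset.eventually_all]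
    intro k hk
    rw [Finset.mem_range] at hk
    have := g2_ev_ne (D m p a j k) (br (arr m p a j k) (arr m p Y j (k + 1)) +
        br (arr m p Y j k) (arr m p a j (k + 1))) (D m p Y j k)
        (g2_pos hp j k (k + 1) (by omega) (by omega) hk).ne'
    filter_upwards [this] with t ht
    rw [hD]
    exact ht
  have e3 : ∀ᶠ t in 𝓝[>] (0 : ℝ), ∀ j ∈ Finset.range (M + 1), ∀ k ∈ Finset.range m,
      col m p a j k ≠ 0 → col m p (fun i => a i + t • Y i) j k = col m p a j k := by
    rw [Finset.eventually_all]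
    intro j _
    rw [Finset.eventually_all]
    intro k _
    by_cases h : D m p a j k = 0
    · filter_upwards with t hc
      exact absurd (by rw [col, h, sign_zero]) hc
    · filter_upwards [g2_ev_sign (D m p a j k) (br (arr m p a j k) (arr m p Y j (k + 1)) +
        br (arr m p Y j k) (arr m p a j (k + 1))) (D m p Y j k) h] with t ht _
      rw [col, hD, ht, col]
  have e4 : ∀ᶠ t in 𝓝[>] (0 : ℝ), ∀ j ∈ Finset.range (M + 1), (arr m p a j q).2 < 0 →
      (arr m p (fun i => a i + t • Y i) j q).2 < 0 := by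
    rw [Finset.eventually_all]
    intro j _
    by_cases h : (arr m p a j q).2 < 0
    · filter_upwards [g2_ev_sign (arr m p a j q).2 (arr m p Y j q).2 0 h.ne] with t ht _
      rw [sign_neg h, sign_eq_neg_one_iff] at ht
      rw [harr, Prod.snd_add, Prod.smul_snd, smul_eq_mul]
      linarith
    · filter_upwards with t hc
      exact absurd hc h
  obtain ⟨t, ht0, h1, h2, h3, h4⟩ :=
    ((eventually_mem_nhdsWithin (a := (0 : ℝ)) (s := Set.Ioi 0)).and
      (e1.and (e2.and (e3.and e4)))).exists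
  have ht0' : 0 < t := ht0
  have hq1 : (Y (q - 1)).1 = 1 := by
    rw [hY, g2Y, if_pos (by omega)]
  have hqm1 : (Y (m - 1)).2 = q := by
    rw [hY, g2Y, if_neg (by omega)]
  have hs : SignType.sign ((a (q - 1)).1 + t * (Y (q - 1)).1) =
      SignType.sign (a (q - 1)).1 := by
    rw [hq1, ← h1]
    congr 1
    ring
  refine ⟨fun i => a i + t • Y i, ⟨?_, ?_, ?_⟩, ?_, ?_, ?_, ?_, ?_⟩
  · intro k hk hkm
    simp only [Prod.fst_add, Prod.smul_fst, smul_eq_mul]
    rw [ha.top k hk hkm, hY, g2_top q k hk hkm]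
    simp
  · simp only [Prod.snd_add, Prod.smul_snd, smul_eq_mul]
    rw [hqm1]
    have := ha.pos
    positivity
  · simp only [Prod.fst_add, Prod.smul_fst, smul_eq_mul]
    intro h
    rw [h, sign_zero] at hs
    exact ha.ne (sign_eq_zero_iff.1 hs.symm)
  · simp only [Prod.fst_add, Prod.smul_fst, smul_eq_mul]
    exact hs
  · intro j hj k hk
    exact h2 j (Finset.mem_range.2 (by omega)) k (Finset.mem_range.2 hk)
  · intro j hj k hk
    exact h3 j (Finset.mem_range.2 (by omega)) k (Finset.mem_range.2 hk)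
  · intro j hj h
    rw [harr, Prod.snd_add, Prod.smul_snd, smul_eq_mul]
    have := g2_snd hq hp j q le_rfl hqm
    rw [← hY] at this
    positivity
  · intro j hj
    exact h4 j (Finset.mem_range.2 (by omega))

end TR
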