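import Pool.Agent.TR.Frame

/-!
MODULE CHG (sign changes, Rolle).

chg_two: induct on n, with d n = if t n = s n then 1 else 0: claim chg n s <= chg n t + d n.
 n = 0: trivial.  Step (chg_succ): if s (n+1) = s n: chg s does not change; if t (n+1) = t n the
 same d; otherwise chg t grows by 1 and d n <= 1.  If s (n+1) <> s n: t (n+1) = s (n+1), d (n+1) = 1;
 if t n = t (n+1) then t n <> s n, d n = 0, fine; if t n <> t (n+1) = s (n+1) <> s n then (two
 values) t n = s n, d n = 1, chg t grows by 1, fine.

rolle_ps: s_k j = ps (arr m p a j k).2.  Descending induction on k (from k = m-1, where the scalars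
 are > 0 by nf_pos, so chg = 0): claim chg M s_k + (if s_k M = -1 then 1 else 0) <= m-1-k.
 If s_k j <> s_k (j+1): from sc_succ (arr (j+1) (k+1)).2 = (arr (j+1) k).2 - p (arr j k).2 has
 strictly the sign s_k (j+1) (if (arr j k).2 < 0 <= (arr (j+1) k).2 it is > 0; if
 (arr j k).2 >= 0 > (arr (j+1) k).2 it is < 0), so s_{k+1} (j+1) = s_k (j+1): chg_two.
rolle_ms: the same with ms.
-/

namespace TR

/-- Comparison of two two-valued sequences. -/
theorem chg_two {s t : ℕ → SignType} {n : ℕ} (hs : ∀ j ≤ n, s j = 1 ∨ s j = -1)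
    (ht : ∀ j ≤ n, t j = 1 ∨ t j = -1)
    (h : ∀ j < n, s j ≠ s (j + 1) → t (j + 1) = s (j + 1)) :
    chg n s ≤ chg n t + (if t n = s n then 1 else 0) := by
  induction n with
  | zero => simp [chg_zero]
  | succ n ih =>
    have ih' := ih (fun j hj => hs j (by omega)) (fun j hj => ht j (by omega))
      (fun j hj => h j (by omega))
    have h' := h n (by omega)
    rw [chg_succ, chg_succ]
    have e : (1 : SignType) ≠ -1 := by decide
    have e' : (-1 : SignType) ≠ 1 := by decide
    rcases hs n (by omega) with h1 | h1 <;> rcases hs (n + 1) le_rfl with h2 | h2 <;>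
      rcases ht n (by omega) with h3 | h3 <;> rcases ht (n + 1) le_rfl with h4 | h4 <;>
      rw [h1, h2, h4] at h' <;> rw [h1, h3] at ih' <;> rw [h1, h2, h3, h4] <;>
      simp only [ne_eq, e, e', not_true_eq_false, not_false_eq_true, if_true, if_false,
        false_implies, true_implies] at h' ih' ⊢ <;> omega

theorem chg_ps_cases (x : ℝ) : ps x = 1 ∨ ps x = -1 := by
  unfold ps
  split_ifs
  · exact Or.inl rfl
  · exact Or.inr rfl

theorem chg_ms_cases (x : ℝ) : ms x = 1 ∨ ms x = -1 := by
  unfold ms
  split_ifs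
  · exact Or.inl rfl
  · exact Or.inr rfl

theorem chg_ps1 {x : ℝ} (h : 0 ≤ x) : ps x = 1 := if_pos h

theorem chg_ps2 {x : ℝ} (h : x < 0) : ps x = -1 := if_neg (not_le.2 h)

theorem chg_ms1 {x : ℝ} (h : 0 < x) : ms x = 1 := if_pos h

theorem chg_ms2 {x : ℝ} (h : x ≤ 0) : ms x = -1 := if_neg (not_lt.2 h)

theorem chg_const {s : ℕ → SignType} {c : SignType} (h : ∀ j, s j = c) (M : ℕ) : chg M s = 0 := by
  unfold chg
  rw [Finset.card_eq_zero, Finset.filter_eq_empty_iff]
  intro j _
  rw [h j, h (j + 1)]
  simp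

theorem rolle_ps {m : ℕ} {p : ℕ → ℕ → ℝ} (hp : Pos p) {a : ℕ → ℝ × ℝ}
    (hpos : 0 < (a (m - 1)).2) {k : ℕ} (hk : k < m) (M : ℕ) :
    chg M (fun j => ps (arr m p a j k).2) + (if (arr m p a M k).2 < 0 then 1 else 0)
      ≤ m - 1 - k := by
  obtain ⟨d, hd⟩ : ∃ d, k + d = m - 1 := ⟨m - 1 - k, by omega⟩
  induction d generalizing k with
  | zero =>
    have hk' : k = m - 1 := by omega
    subst hk'
    have h1 : ∀ j, 0 < (arr m p a j (m - 1)).2 := nf_pos (by omega) hp hpos
    rw [chg_const (s := fun j => ps (arr m p a j (m - 1)).2) (c := 1)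
      (fun j => chg_ps1 (h1 j).le), if_neg (not_lt.2 (h1 M).le)]
    omega
  | succ d ih =>
    have ih' := ih (k := k + 1) (by omega) (by omega)
    have h2 := chg_two (n := M) (s := fun j => ps (arr m p a j k).2)
      (t := fun j => ps (arr m p a j (k + 1)).2) (fun j _ => chg_ps_cases _)
      (fun j _ => chg_ps_cases _) (by
        intro j _ hne
        have h3 := sc_succ (p := p) (a := a) j hk
        have h4 := hp (j + 1) k
        simp only [ps] at hne ⊢
        by_cases h5 : 0 ≤ (arr m p a j k).2
        · rw [if_pos h5] at hne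
          have h6 : ¬ 0 ≤ (arr m p a (j + 1) k).2 := fun h => hne (if_pos h).symm
          have h7 : ¬ 0 ≤ (arr m p a (j + 1) (k + 1)).2 := by
            have := mul_nonneg h4.le h5
            intro h
            exact h6 (by linarith)
          rw [if_neg h6, if_neg h7]
        · rw [if_neg h5] at hne
          have h6 : 0 ≤ (arr m p a (j + 1) k).2 := by
            by_contra h
            exact hne (if_neg h).symm
          have h7 : 0 ≤ (arr m p a (j + 1) (k + 1)).2 := by
            have := mul_neg_of_pos_of_neg h4 (not_le.1 h5)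
            linarith
          rw [if_pos h6, if_pos h7])
    refine le_trans (Nat.add_le_add_right h2 _) ?_
    have e : (1 : SignType) ≠ -1 := by decide
    have e' : (-1 : SignType) ≠ 1 := by decide
    by_cases h5 : (arr m p a M k).2 < 0 <;> by_cases h6 : (arr m p a M (k + 1)).2 < 0
    · rw [if_pos h6] at ih'
      rw [chg_ps2 h5, chg_ps2 h6, if_pos rfl, if_pos h5]
      omega
    · rw [if_neg h6] at ih'
      rw [chg_ps2 h5, chg_ps1 (not_lt.1 h6), if_neg e, if_pos h5]
      omega
    · rw [if_pos h6] at ih'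
      rw [chg_ps1 (not_lt.1 h5), chg_ps2 h6, if_neg e', if_neg h5]
      omega
    · rw [if_neg h6] at ih'
      rw [chg_ps1 (not_lt.1 h5), chg_ps1 (not_lt.1 h6), if_pos rfl, if_neg h5]
      omega

theorem rolle_ms {m : ℕ} {p : ℕ → ℕ → ℝ} (hp : Pos p) {a : ℕ → ℝ × ℝ}
    (hpos : 0 < (a (m - 1)).2) {k : ℕ} (hk : k < m) (M : ℕ) :
    chg M (fun j => ms (arr m p a j k).2) + (if (arr m p a M k).2 ≤ 0 then 1 else 0)
      ≤ m - 1 - k := by
  obtain ⟨d, hd⟩ : ∃ d, k + d = m - 1 := ⟨m - 1 - k, by omega⟩
  induction d generalizing k with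
  | zero =>
    have hk' : k = m - 1 := by omega
    subst hk'
    have h1 : ∀ j, 0 < (arr m p a j (m - 1)).2 := nf_pos (by omega) hp hpos
    rw [chg_const (s := fun j => ms (arr m p a j (m - 1)).2) (c := 1)
      (fun j => chg_ms1 (h1 j)), if_neg (not_le.2 (h1 M))]
    omega
  | succ d ih =>
    have ih' := ih (k := k + 1) (by omega) (by omega)
    have h2 := chg_two (n := M) (s := fun j => ms (arr m p a j k).2)
      (t := fun j => ms (arr m p a j (k + 1)).2) (fun j _ => chg_ms_cases _)
      (fun j _ => chg_ms_cases _) (by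
        intro j _ hne
        have h3 := sc_succ (p := p) (a := a) j hk
        have h4 := hp (j + 1) k
        simp only [ms] at hne ⊢
        by_cases h5 : 0 < (arr m p a j k).2
        · rw [if_pos h5] at hne
          have h6 : ¬ 0 < (arr m p a (j + 1) k).2 := fun h => hne (if_pos h).symm
          have h7 : ¬ 0 < (arr m p a (j + 1) (k + 1)).2 := by
            have := mul_pos h4 h5
            intro h
            exact h6 (by linarith)
          rw [if_neg h6, if_neg h7]
        · rw [if_neg h5] at hne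
          have h6 : 0 < (arr m p a (j + 1) k).2 := by
            by_contra h
            exact hne (if_neg h).symm
          have h7 : 0 < (arr m p a (j + 1) (k + 1)).2 := by
            have := mul_nonpos_of_nonneg_of_nonpos h4.le (not_lt.1 h5)
            linarith
          rw [if_pos h6, if_pos h7])
    refine le_trans (Nat.add_le_add_right h2 _) ?_
    have e : (1 : SignType) ≠ -1 := by decide
    have e' : (-1 : SignType) ≠ 1 := by decide
    by_cases h5 : (arr m p a M k).2 ≤ 0 <;> by_cases h6 : (arr m p a M (k + 1)).2 ≤ 0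
    · rw [if_pos h6] at ih'
      rw [chg_ms2 h5, chg_ms2 h6, if_pos rfl, if_pos h5]
      omega
    · rw [if_neg h6] at ih'
      rw [chg_ms2 h5, chg_ms1 (not_le.1 h6), if_neg e, if_pos h5]
      omega
    · rw [if_pos h6] at ih'
      rw [chg_ms1 (not_le.1 h5), chg_ms2 h6, if_neg e', if_neg h5]
      omega
    · rw [if_neg h6] at ih'
      rw [chg_ms1 (not_le.1 h5), chg_ms1 (not_le.1 h6), if_pos rfl, if_neg h5]
      omega

end TR
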