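import Pool.Agent.TR.Runs

/-!
MODULE PL (planarity).

Cells of the rectangle R = [0,M] x [0,q), adjacency `adj` (triangular lattice: (j,k) is adjacent to
(j+1,k), (j,k+1), (j+1,k+1)), two colours.  Claim: 2 C >= 2 + (number of colour changes along the
boundary cycle), C = number of clusters.

Proof A (adding cells one at a time).  For a region Rg let ConnR be connectivity inside Rg (same
colour, adjacent, both in Rg).  Order: column 0 first, then columns j = 1..M, each from the top
cell (j,q-1) down to (j,0).  After some steps the region is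
  Rg(j,k0) = {(i,k) : i < j, k < q} u {(j,k) : k0 <= k < q}, 0 <= k0 <= q,
with boundary number
 b(j,k0) = changes of the left column (0,0..q-1) + changes of the bottom row (0..j',0) +
   changes of the frontier + changes of the top row,
 frontier: (j-1,0), ..., (j-1,k0-1), (j,k0), ..., (j,q-1) (k0 >= 1; bottom row up to j-1, top row
 up to j if k0 < q), resp. column j if k0 = 0 (bottom row up to j).
Invariant: there is a finite S in Rg, pairwise not ConnR, with 2 |S| >= 2 + b.
 Start (column 0): path; S = one cell for each run, b = 2 * changes, |S| = changes + 1.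
 Adding z (Rg' = Rg u {z}), Nb = neighbours of z in Rg of the colour of z:
  (i) Nb empty: S u {z} is pairwise not connected in Rg'.
  (ii) all elements of Nb are connected in Rg: S stays pairwise not connected.
  (iii) Nb is contained in two clusters: at most one element of S must be removed.
  (A path in Rg' between cells of Rg either avoids z or passes through two cells of Nb.)
 z = (j,q-1), first cell of column j, neighbours in Rg: T = (j-1,q-1), T' = (j-1,q-2) (q >= 2):
  frontier ..T',T -> ..T',z and top row .. T -> .. T,z: ch(T',T) becomes ch(T',z) + ch(z,T).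
 z = (j,k), 1 <= k <= q-2: neighbours X = (j-1,k), Y = (j,k+1), X' = (j-1,k-1), X' ~ X ~ Y;
  frontier ..X',X,Y.. -> ..X',z,Y..
 z = (j,0), q >= 2: neighbours X = (j-1,0), Y = (j,1), X ~ Y; ch(X,Y) -> ch(X,z) + ch(z,Y).
 z = (j,0), q = 1: neighbour X = (j-1,0): b grows by 2 ch(X,z).
 In each case: if z has the colour of a middle cell nothing changes; new cluster: b grows by 2;
 merging of two clusters: b drops by 2.

Proof B (Euler characteristic; if you prefer counting): the number of components of the graph of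
monochromatic edges is >= V - E + T, T = number of monochromatic triangles (boundary maps over F_2:
the triangle boundaries are linearly independent), and V - E_all + T_all = 1, every non-monochromatic
triangle has exactly two non-monochromatic edges, so V - E + T = 1 + b/2.

Combined statement as below (nat numbers).
-/

namespace TR

/-- Links inside a region. -/
def lkR (c : ℕ → ℕ → SignType) (R : Set (ℕ × ℕ)) (x y : ℕ × ℕ) : Prop :=
  x ∈ R ∧ y ∈ R ∧ (adj x y ∨ adj y x) ∧ c x.1 x.2 = c y.1 y.2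

/-- Connectivity inside a region. -/
def CR (c : ℕ → ℕ → SignType) (R : Set (ℕ × ℕ)) (x y : ℕ × ℕ) : Prop :=
  Relation.ReflTransGen (lkR c R) x y

theorem CR.symm {c : ℕ → ℕ → SignType} {R : Set (ℕ × ℕ)} {x y : ℕ × ℕ} (h : CR c R x y) :
    CR c R y x := by
  unfold CR at *
  induction h with
  | refl => exact Relation.ReflTransGen.refl
  | tail _ hbc ih =>
    exact Relation.ReflTransGen.head ⟨hbc.2.1, hbc.1, hbc.2.2.1.symm, hbc.2.2.2.symm⟩ ih

theorem CR.trans {c : ℕ → ℕ → SignType} {R : Set (ℕ × ℕ)} {x y z : ℕ × ℕ} (h : CR c R x y)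
    (h' : CR c R y z) : CR c R x z := Relation.ReflTransGen.trans h h'

/-- A set of cells of the region which are pairwise not connected inside the region. -/
def PW (c : ℕ → ℕ → SignType) (R : Set (ℕ × ℕ)) (S : Finset (ℕ × ℕ)) : Prop :=
  (∀ x ∈ S, x ∈ R) ∧ ∀ x ∈ S, ∀ y ∈ S, x ≠ y → ¬ CR c R x y

/-- Neighbours of the same colour. -/
def NbR (c : ℕ → ℕ → SignType) (R : Set (ℕ × ℕ)) (z u : ℕ × ℕ) : Prop :=
  u ∈ R ∧ (adj u z ∨ adj z u) ∧ c u.1 u.2 = c z.1 z.2

theorem pl_path {c : ℕ → ℕ → SignType} {R : Set (ℕ × ℕ)} {z x w : ℕ × ℕ} (hz : z ∉ R)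
    (hx : x ∈ R) (h : CR c (insert z R) x w) :
    (w ≠ z → CR c R x w ∨ ∃ u v, NbR c R z u ∧ NbR c R z v ∧ CR c R x u ∧ CR c R v w) ∧
    (w = z → ∃ u, NbR c R z u ∧ CR c R x u) := by
  unfold CR at h
  induction h with
  | refl => exact ⟨fun _ => Or.inl Relation.ReflTransGen.refl, fun h => absurd (h ▸ hx) hz⟩
  | @tail w w' _ hbc ih =>
    obtain ⟨h1, h2, h3, h4⟩ := hbc
    by_cases hw : w = z
    · obtain ⟨u, hu, hxu⟩ := ih.2 hw
      refine ⟨fun hw' => Or.inr ⟨u, w', hu, ?_, hxu, Relation.ReflTransGen.refl⟩,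
        fun _ => ⟨u, hu, hxu⟩⟩
      subst hw
      exact ⟨(Set.mem_insert_iff.mp h2).resolve_left hw', h3.symm, h4.symm⟩
    · have hwR : w ∈ R := (Set.mem_insert_iff.mp h1).resolve_left hw
      refine ⟨fun hw' => ?_, fun hw' => ?_⟩
      · have hw'R : w' ∈ R := (Set.mem_insert_iff.mp h2).resolve_left hw'
        have hl : lkR c R w w' := ⟨hwR, hw'R, h3, h4⟩
        rcases ih.1 hw with h | ⟨u, v, hu, hv, h5, h6⟩
        · exact Or.inl (Relation.ReflTransGen.tail h hl)
        · exact Or.inr ⟨u, v, hu, hv, h5, Relation.ReflTransGen.tail h6 hl⟩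
      · subst hw'
        rcases ih.1 hw with h | ⟨u, v, hu, hv, h5, h6⟩
        · exact ⟨w, ⟨hwR, h3, h4⟩, h⟩
        · exact ⟨u, hu, h5⟩

/-- All neighbours connected: nothing changes. -/
theorem pl_ii {c : ℕ → ℕ → SignType} {R : Set (ℕ × ℕ)} {z : ℕ × ℕ} (hz : z ∉ R)
    (h : ∀ u v, NbR c R z u → NbR c R z v → CR c R u v) {S : Finset (ℕ × ℕ)} (hS : PW c R S) :
    PW c (insert z R) S := by
  refine ⟨fun x hx => Set.mem_insert_of_mem _ (hS.1 x hx), fun x hx y hy hxy hc => ?_⟩
  have hyz : y ≠ z := fun h0 => hz (h0 ▸ hS.1 y hy)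
  rcases (pl_path hz (hS.1 x hx) hc).1 hyz with h1 | ⟨u, v, hu, hv, h2, h3⟩
  · exact hS.2 x hx y hy hxy h1
  · exact hS.2 x hx y hy hxy (h2.trans ((h u v hu hv).trans h3))

/-- No neighbours: a new cluster. -/
theorem pl_i {c : ℕ → ℕ → SignType} {R : Set (ℕ × ℕ)} {z : ℕ × ℕ} (hz : z ∉ R)
    (h : ∀ u, ¬ NbR c R z u) {S : Finset (ℕ × ℕ)} (hS : PW c R S) :
    PW c (insert z R) (insert z S) ∧ (insert z S).card = S.card + 1 := by
  have hzS : z ∉ S := fun h0 => hz (hS.1 z h0)
  have h0 := pl_ii hz (fun u v hu _ => absurd hu (h u)) hS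
  refine ⟨⟨fun x hx => ?_, fun x hx y hy hxy hc => ?_⟩, Finset.card_insert_of_notMem hzS⟩
  · rcases Finset.mem_insert.mp hx with hx1 | hx1
    · rw [hx1]; exact Set.mem_insert _ _
    · exact h0.1 x hx1
  · rcases Finset.mem_insert.mp hx with hx1 | hx1
    · rcases Finset.mem_insert.mp hy with hy1 | hy1
      · exact hxy (hx1.trans hy1.symm)
      · obtain ⟨u, hu, -⟩ := (pl_path hz (hS.1 y hy1) hc.symm).2 hx1
        exact h u hu
    · rcases Finset.mem_insert.mp hy with hy1 | hy1
      · obtain ⟨u, hu, -⟩ := (pl_path hz (hS.1 x hx1) hc).2 hy1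
        exact h u hu
      · exact h0.2 x hx1 y hy1 hxy hc

/-- Two neighbours: at most one representative is lost. -/
theorem pl_iii {c : ℕ → ℕ → SignType} {R : Set (ℕ × ℕ)} {z X Y : ℕ × ℕ} (hz : z ∉ R)
    (h : ∀ u, NbR c R z u → u = X ∨ u = Y) {S : Finset (ℕ × ℕ)} (hS : PW c R S) :
    ∃ S', PW c (insert z R) S' ∧ S.card ≤ S'.card + 1 := by
  classical
  -- the elements which are not connected to `X`
  by_cases hex : ∃ s ∈ S, CR c R s X
  · obtain ⟨s0, hs0, hc0⟩ := hex
    refine ⟨S.erase s0, ⟨fun x hx => ?_, fun x hx y hy hxy hc => ?_⟩, ?_⟩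
    · exact Set.mem_insert_of_mem _ (hS.1 x (Finset.mem_of_mem_erase hx))
    · have hx' := Finset.mem_of_mem_erase hx
      have hy' := Finset.mem_of_mem_erase hy
      have hX : ∀ w ∈ S.erase s0, ¬ CR c R w X := by
        intro w hw hwX
        exact hS.2 w (Finset.mem_of_mem_erase hw) s0 hs0 (Finset.ne_of_mem_erase hw)
          (hwX.trans hc0.symm)
      have hyz : y ≠ z := fun h0 => hz (h0 ▸ hS.1 y hy')
      rcases (pl_path hz (hS.1 x hx') hc).1 hyz with h1 | ⟨u, v, hu, hv, h2, h3⟩
      · exact hS.2 x hx' y hy' hxy h1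
      · rcases h u hu with rfl | rfl
        · exact hX x hx h2
        · rcases h v hv with rfl | rfl
          · exact hX y hy h3.symm
          · exact hS.2 x hx' y hy' hxy (h2.trans h3)
    · rw [Finset.card_erase_of_mem hs0]; omega
  · push Not at hex
    refine ⟨S, ⟨fun x hx => Set.mem_insert_of_mem _ (hS.1 x hx), fun x hx y hy hxy hc => ?_⟩,
      by omega⟩
    have hyz : y ≠ z := fun h0 => hz (h0 ▸ hS.1 y hy)
    rcases (pl_path hz (hS.1 x hx) hc).1 hyz with h1 | ⟨u, v, hu, hv, h2, h3⟩
    · exact hS.2 x hx y hy hxy h1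
    · rcases h u hu with rfl | rfl
      · exact hex x hx h2
      · rcases h v hv with rfl | rfl
        · exact hex y hy h3.symm
        · exact hS.2 x hx y hy hxy (h2.trans h3)

/-- Colour change between two cells. -/
def dd (c : ℕ → ℕ → SignType) (x y : ℕ × ℕ) : ℕ := if c x.1 x.2 ≠ c y.1 y.2 then 1 else 0

theorem dd_eq {c : ℕ → ℕ → SignType} {x y : ℕ × ℕ} (h : c x.1 x.2 = c y.1 y.2) :
    dd c x y = 0 := by
  unfold dd
  rw [if_neg (fun h' => h' h)]

theorem dd_ne {c : ℕ → ℕ → SignType} {x y : ℕ × ℕ} (h : ¬ c x.1 x.2 = c y.1 y.2) :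
    dd c x y = 1 := by
  unfold dd
  rw [if_pos h]

theorem pl_step {c : ℕ → ℕ → SignType} {R : Set (ℕ × ℕ)} {z X' X Y : ℕ × ℕ} (hz : z ∉ R)
    (hX' : X' ∈ R) (hX : X ∈ R) (hY : Y ∈ R) (h1 : X' = X ∨ adj X' X) (h2 : X = Y ∨ adj X Y)
    (hnb : ∀ w ∈ R, (adj w z ∨ adj z w) → w = X' ∨ w = X ∨ w = Y)
    {S : Finset (ℕ × ℕ)} (hS : PW c R S) :
    ∃ S', PW c (insert z R) S' ∧
      2 * S.card + dd c X' z + dd c z Y ≤ 2 * S'.card + dd c X' X + dd c X Y := by
  by_cases hXz : c X.1 X.2 = c z.1 z.2
  · refine ⟨S, pl_ii hz ?_ hS, ?_⟩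
    · have key : ∀ u, NbR c R z u → CR c R X u := by
        rintro u ⟨hu, hn, hcu⟩
        rcases hnb u hu hn with rfl | rfl | rfl
        · rcases h1 with rfl | h1
          · exact Relation.ReflTransGen.refl
          · exact Relation.ReflTransGen.single ⟨hX, hu, Or.inr h1, hXz.trans hcu.symm⟩
        · exact Relation.ReflTransGen.refl
        · rcases h2 with rfl | h2
          · exact Relation.ReflTransGen.refl
          · exact Relation.ReflTransGen.single ⟨hX, hu, Or.inl h2, hXz.trans hcu.symm⟩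
      intro u v hu hv
      exact (key u hu).symm.trans (key v hv)
    · have e1 : dd c X' z = dd c X' X := by unfold dd; rw [hXz]
      have e2 : dd c z Y = dd c X Y := by unfold dd; rw [hXz]
      rw [e1, e2]
  · by_cases hX'z : c X'.1 X'.2 = c z.1 z.2
    · by_cases hYz : c Y.1 Y.2 = c z.1 z.2
      · obtain ⟨S', hS', hc⟩ := pl_iii (X := X') (Y := Y) hz (fun u hu => by
          rcases hnb u hu.1 hu.2.1 with h | h | h
          · exact Or.inl h
          · subst h; exact absurd hu.2.2 hXz
          · exact Or.inr h) hS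
        refine ⟨S', hS', ?_⟩
        rw [dd_eq hX'z, dd_eq hYz.symm, dd_ne (fun h => hXz (h.symm.trans hX'z)),
          dd_ne (fun h => hXz (h.trans hYz))]
        omega
      · refine ⟨S, pl_ii hz ?_ hS, ?_⟩
        · have key : ∀ u, NbR c R z u → u = X' := by
            rintro u ⟨hu, hn, hcu⟩
            rcases hnb u hu hn with h | h | h
            · exact h
            · subst h; exact absurd hcu hXz
            · subst h; exact absurd hcu hYz
          intro u v hu hv
          rw [key u hu, key v hv]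
          exact Relation.ReflTransGen.refl
        · rw [dd_eq hX'z, dd_ne (fun h => hYz h.symm), dd_ne (fun h => hXz (h.symm.trans hX'z))]
          omega
    · by_cases hYz : c Y.1 Y.2 = c z.1 z.2
      · refine ⟨S, pl_ii hz ?_ hS, ?_⟩
        · have key : ∀ u, NbR c R z u → u = Y := by
            rintro u ⟨hu, hn, hcu⟩
            rcases hnb u hu hn with h | h | h
            · subst h; exact absurd hcu hX'z
            · subst h; exact absurd hcu hXz
            · exact h
          intro u v hu hv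
          rw [key u hu, key v hv]
          exact Relation.ReflTransGen.refl
        · rw [dd_ne hX'z, dd_eq hYz.symm, dd_ne (fun h => hXz (h.trans hYz))]
          omega
      · obtain ⟨hS', hc⟩ := pl_i hz (fun u hu => by
          rcases hnb u hu.1 hu.2.1 with h | h | h
          · subst h; exact hX'z hu.2.2
          · subst h; exact hXz hu.2.2
          · subst h; exact hYz hu.2.2) hS
        refine ⟨_, hS', ?_⟩
        rw [hc, dd_ne hX'z, dd_ne (fun h => hYz h.symm)]
        omega

/-- The region: all columns before `j` and the cells `k0, …, q-1` of column `j`. -/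
def Rg (q j k0 : ℕ) : Set (ℕ × ℕ) := {x | x.2 < q ∧ (x.1 < j ∨ (x.1 = j ∧ k0 ≤ x.2))}

theorem mem_Rg {q j k0 a b : ℕ} : (a, b) ∈ Rg q j k0 ↔ b < q ∧ (a < j ∨ (a = j ∧ k0 ≤ b)) :=
  Iff.rfl

theorem Rg_insert {q j k0 : ℕ} (h : k0 < q) : insert (j, k0) (Rg q j (k0 + 1)) = Rg q j k0 := by
  ext ⟨a, b⟩
  rw [Set.mem_insert_iff, mem_Rg, mem_Rg, Prod.mk.injEq]
  omega

theorem Rg_succ (q j : ℕ) : Rg q (j + 1) q = Rg q j 0 := by
  ext ⟨a, b⟩
  rw [mem_Rg, mem_Rg]
  omega

/-- Changing a sequence at one place. -/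
theorem chg_upd {n k : ℕ} {F F' : ℕ → SignType} (hk : k ≤ n) (h : ∀ l, l ≠ k → F' l = F l) :
    chg n F' + (if 1 ≤ k then (if F (k - 1) ≠ F k then 1 else 0) else 0)
      + (if k < n then (if F k ≠ F (k + 1) then 1 else 0) else 0)
    = chg n F + (if 1 ≤ k then (if F (k - 1) ≠ F' k then 1 else 0) else 0)
      + (if k < n then (if F' k ≠ F (k + 1) then 1 else 0) else 0) := by
  induction n, hk using Nat.le_induction with
  | base =>
    rw [if_neg (lt_irrefl k), if_neg (lt_irrefl k), add_zero, add_zero]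
    rcases k with _ | k
    · simp [chg_zero]
    · have h1 : chg k F' = chg k F := chg_congr fun j hj => h j (by omega)
      have hk1 : 1 ≤ k + 1 := by omega
      rw [chg_succ, chg_succ, h1, h k (by omega), if_pos hk1, if_pos hk1,
        Nat.add_sub_cancel]
      omega
  | succ n hkn ih =>
    rw [chg_succ, chg_succ, if_pos (show k < n + 1 by omega), if_pos (show k < n + 1 by omega)]
    rcases Nat.eq_or_lt_of_le hkn with h1 | h1
    · subst h1
      rw [if_neg (lt_irrefl k), if_neg (lt_irrefl k), add_zero, add_zero] at ih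
      rw [h (k + 1) (by omega)]
      omega
    · rw [if_pos h1, if_pos h1] at ih
      rw [h n (by omega), h (n + 1) (by omega)]
      omega

/-- The first column. -/
theorem pl_col0 (q : ℕ) (hq : 1 ≤ q) (c : ℕ → ℕ → SignType) : ∀ t ≤ q - 1,
    ∃ S : Finset (ℕ × ℕ), PW c (Rg q 0 (q - 1 - t)) S ∧
      2 * chg (q - 1) (fun k => c 0 k) + 2 ≤ 2 * S.card + 2 * chg (q - 1 - t) (fun k => c 0 k) := by
  intro t
  induction t with
  | zero =>
    intro _
    refine ⟨{(0, q - 1)}, ⟨fun x hx => ?_, fun x hx y hy hxy => ?_⟩, ?_⟩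
    · rw [Finset.mem_singleton] at hx
      subst hx
      refine ⟨?_, Or.inr ⟨rfl, ?_⟩⟩
      · show q - 1 < q
        omega
      · show q - 1 - 0 ≤ q - 1
        omega
    · rw [Finset.mem_singleton] at hx hy
      exact absurd (hx.trans hy.symm) hxy
    · rw [Finset.card_singleton, Nat.sub_zero]
      omega
  | succ t ih =>
    intro ht
    obtain ⟨S, hS, hc⟩ := ih (by omega)
    obtain ⟨k, hk⟩ : ∃ k, q - 1 - (t + 1) = k := ⟨_, rfl⟩
    have hk1 : q - 1 - t = k + 1 := by omega
    rw [hk]
    rw [hk1] at hS hc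
    have hkq : k + 1 < q := by omega
    obtain ⟨S', hS', hc'⟩ := pl_step (c := c) (R := Rg q 0 (k + 1)) (z := (0, k))
      (X' := (0, k + 1)) (X := (0, k + 1)) (Y := (0, k + 1))
      (fun h => by
        rw [mem_Rg] at h
        omega)
      (by rw [mem_Rg]; omega)
      (by rw [mem_Rg]; omega)
      (by rw [mem_Rg]; omega)
      (Or.inl rfl) (Or.inl rfl)
      (by
        rintro ⟨a, b⟩ hw hn
        rw [mem_Rg] at hw
        simp only [adj] at hn
        simp only [Prod.mk.injEq]
        omega) hS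
    rw [Rg_insert (by omega)] at hS'
    refine ⟨S', hS', ?_⟩
    rw [chg_succ] at hc
    unfold dd at hc'
    simp only [ne_eq, not_true_eq_false, if_false] at hc' hc
    by_cases h0 : c 0 k = c 0 (k + 1)
    · rw [if_neg (fun h => h h0)] at hc
      omega
    · rw [if_pos h0] at hc
      rw [if_pos (fun h => h0 h.symm), if_pos h0] at hc'
      omega

/-- The frontier. -/
def Fr (c : ℕ → ℕ → SignType) (j k0 l : ℕ) : SignType := if l < k0 then c j l else c (j + 1) l

/-- The boundary number of the region without the left column. -/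
def BB (c : ℕ → ℕ → SignType) (q j k0 : ℕ) : ℕ :=
  chg j (fun i => c i 0) + chg j (fun i => c i (q - 1)) + chg (q - 1) (Fr c j k0) +
    (if k0 = 0 then dd c (j, 0) (j + 1, 0) else 0) +
    (if k0 < q then dd c (j, q - 1) (j + 1, q - 1) else 0)

theorem pl_inner (q : ℕ) (hq : 1 ≤ q) (c : ℕ → ℕ → SignType) (j L : ℕ)
    (h0 : ∃ S : Finset (ℕ × ℕ), PW c (Rg q j 0) S ∧
      chg j (fun i => c i 0) + chg j (fun i => c i (q - 1)) + L
        + chg (q - 1) (fun k => c j k) + 2 ≤ 2 * S.card) : ∀ t ≤ q,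
    ∃ S : Finset (ℕ × ℕ), PW c (Rg q (j + 1) (q - t)) S ∧
      BB c q j (q - t) + L + 2 ≤ 2 * S.card := by
  intro t
  induction t with
  | zero =>
    intro _
    obtain ⟨S, hS, hc⟩ := h0
    rw [Nat.sub_zero, Rg_succ]
    refine ⟨S, hS, ?_⟩
    unfold BB
    rw [if_neg (by omega), if_neg (lt_irrefl q)]
    have h1 : chg (q - 1) (Fr c j q) = chg (q - 1) (fun k => c j k) :=
      chg_congr fun l hl => by
        unfold Fr
        rw [if_pos (by omega)]
    rw [h1]
    omega
  | succ t ih =>
    intro ht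
    obtain ⟨S, hS, hc⟩ := ih (by omega)
    obtain ⟨k, hk⟩ : ∃ k, q - (t + 1) = k := ⟨_, rfl⟩
    have hk1 : q - t = k + 1 := by omega
    rw [hk]
    rw [hk1] at hS hc
    have hkq : k < q := by omega
    obtain ⟨X', hX'⟩ : ∃ X' : ℕ × ℕ, X' = if k = 0 then (j, k) else (j, k - 1) := ⟨_, rfl⟩
    obtain ⟨Y, hY⟩ : ∃ Y : ℕ × ℕ, Y = if k + 1 = q then (j, k) else (j + 1, k + 1) := ⟨_, rfl⟩
    obtain ⟨S', hS', hc'⟩ := pl_step (c := c) (R := Rg q (j + 1) (k + 1)) (z := (j + 1, k))
      (X' := X') (X := (j, k)) (Y := Y)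
      (fun h => by
        rw [mem_Rg] at h
        omega)
      (by
        rw [hX']
        split_ifs <;> rw [mem_Rg] <;> omega)
      (by rw [mem_Rg]; omega)
      (by
        rw [hY]
        split_ifs <;> rw [mem_Rg] <;> omega)
      (by
        rw [hX']
        split_ifs with h
        · exact Or.inl rfl
        · exact Or.inr (Or.inr (Or.inl ⟨rfl, by show k = k - 1 + 1; omega⟩)))
      (by
        rw [hY]
        split_ifs with h
        · exact Or.inl rfl
        · exact Or.inr (Or.inr (Or.inr ⟨rfl, rfl⟩)))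
      (by
        rintro ⟨a, b⟩ hw hn
        rw [mem_Rg] at hw
        simp only [adj] at hn
        rw [hX', hY]
        split_ifs <;> simp only [Prod.mk.injEq] <;> omega) hS
    rw [Rg_insert hkq] at hS'
    refine ⟨S', hS', ?_⟩
    have hup := chg_upd (n := q - 1) (k := k) (F := Fr c j (k + 1)) (F' := Fr c j k)
      (by omega) (fun l hl => by
        unfold Fr
        by_cases h : l < k
        · rw [if_pos h, if_pos (by omega)]
        · rw [if_neg h, if_neg (by omega)])
    unfold BB at hc ⊢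
    rw [if_neg (show ¬ k + 1 = 0 by omega)] at hc
    rw [if_pos hkq]
    have e1 : Fr c j (k + 1) k = c j k := by unfold Fr; rw [if_pos (by omega)]
    have e2 : Fr c j k k = c (j + 1) k := by unfold Fr; rw [if_neg (lt_irrefl k)]
    have e3 : Fr c j (k + 1) (k + 1) = c (j + 1) (k + 1) := by
      unfold Fr; rw [if_neg (lt_irrefl _)]
    rw [e1, e2, e3] at hup
    unfold dd at hc hc' ⊢
    by_cases hk0 : k = 0
    · subst hk0
      rw [if_pos rfl] at hX'
      subst hX'
      rw [if_pos rfl]
      rw [if_neg (show ¬ 1 ≤ 0 by omega), if_neg (show ¬ 1 ≤ 0 by omega)] at hup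
      by_cases hkq1 : 0 + 1 = q
      · rw [if_pos hkq1] at hY
        subst hY
        rw [if_neg (show ¬ 0 + 1 < q by omega)] at hc
        rw [if_neg (show ¬ 0 < q - 1 by omega), if_neg (show ¬ 0 < q - 1 by omega)] at hup
        have hq0 : q - 1 = 0 := by omega
        rw [hq0] at hc hup ⊢
        have hsw : (if ¬ c (j + 1) 0 = c j 0 then 1 else 0) =
            (if ¬ c j 0 = c (j + 1) 0 then 1 else 0) := if_congr (not_congr eq_comm) rfl rfl
        simp only [ne_eq, not_true_eq_false, if_false] at hc' hc hup ⊢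
        rw [hsw] at hc'
        omega
      · rw [if_neg hkq1] at hY
        subst hY
        rw [if_pos (show 0 + 1 < q by omega)] at hc
        rw [if_pos (show 0 < q - 1 by omega), if_pos (show 0 < q - 1 by omega)] at hup
        simp only [ne_eq, not_true_eq_false, if_false] at hc' hc hup ⊢
        omega
    · rw [if_neg hk0] at hX'
      subst hX'
      rw [if_neg hk0]
      have e4 : Fr c j (k + 1) (k - 1) = c j (k - 1) := by unfold Fr; rw [if_pos (by omega)]
      rw [if_pos (show 1 ≤ k by omega), if_pos (show 1 ≤ k by omega), e4] at hup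
      by_cases hkq1 : k + 1 = q
      · rw [if_pos hkq1] at hY
        subst hY
        rw [if_neg (show ¬ k + 1 < q by omega)] at hc
        rw [if_neg (show ¬ k < q - 1 by omega), if_neg (show ¬ k < q - 1 by omega)] at hup
        have hq0 : q - 1 = k := by omega
        rw [hq0] at hc hup ⊢
        have hsw : (if ¬ c (j + 1) k = c j k then 1 else 0) =
            (if ¬ c j k = c (j + 1) k then 1 else 0) := if_congr (not_congr eq_comm) rfl rfl
        simp only [ne_eq, not_true_eq_false, if_false] at hc' hc hup ⊢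
        rw [hsw] at hc'
        omega
      · rw [if_neg hkq1] at hY
        subst hY
        rw [if_pos (show k + 1 < q by omega)] at hc
        rw [if_pos (show k < q - 1 by omega), if_pos (show k < q - 1 by omega)] at hup
        simp only [ne_eq] at hc' hc hup ⊢
        omega

/-- (PL) number of clusters against the number of colour changes on the boundary. -/
theorem pl (M q : ℕ) (hq : 1 ≤ q) (c : ℕ → ℕ → SignType)
    (hc : ∀ j ≤ M, ∀ k < q, c j k ≠ 0) :
    ∃ S : Finset (ℕ × ℕ), (∀ x ∈ S, x.1 ≤ M ∧ x.2 < q) ∧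
      (∀ x ∈ S, ∀ y ∈ S, x ≠ y → ¬ Conn M q c x y) ∧
      chg M (fun j => c j 0) + chg M (fun j => c j (q - 1)) + chg (q - 1) (fun k => c 0 k)
        + chg (q - 1) (fun k => c M k) + 2 ≤ 2 * S.card := by
  have key : ∀ j : ℕ, ∃ S : Finset (ℕ × ℕ), PW c (Rg q j 0) S ∧
      chg j (fun i => c i 0) + chg j (fun i => c i (q - 1)) + chg (q - 1) (fun k => c 0 k)
        + chg (q - 1) (fun k => c j k) + 2 ≤ 2 * S.card := by
    intro j
    induction j with
    | zero =>
      obtain ⟨S, hS, h⟩ := pl_col0 q hq c (q - 1) le_rfl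
      rw [Nat.sub_self] at hS h
      refine ⟨S, hS, ?_⟩
      rw [chg_zero] at h ⊢
      rw [chg_zero]
      omega
    | succ j ih =>
      obtain ⟨S, hS, h⟩ := pl_inner q hq c j (chg (q - 1) (fun k => c 0 k)) ih q le_rfl
      rw [Nat.sub_self] at hS h
      refine ⟨S, hS, ?_⟩
      unfold BB at h
      rw [if_pos rfl, if_pos (by omega)] at h
      have e : chg (q - 1) (Fr c j 0) = chg (q - 1) (fun k => c (j + 1) k) :=
        chg_congr fun l _ => by
          unfold Fr
          rw [if_neg (by omega)]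
      rw [e] at h
      rw [chg_succ, chg_succ]
      unfold dd at h
      simp only [] at h ⊢
      omega
  obtain ⟨S, hS, h⟩ := key M
  refine ⟨S, fun x hx => ?_, fun x hx y hy hxy hcn => hS.2 x hx y hy hxy ?_, h⟩
  · have h1 : x.2 < q ∧ (x.1 < M ∨ (x.1 = M ∧ 0 ≤ x.2)) := hS.1 x hx
    omega
  · unfold Conn at hcn
    refine Relation.ReflTransGen.mono (fun u v huv => ?_) _ _ hcn
    obtain ⟨h1, h2, h3, h4, -⟩ := huv
    refine ⟨?_, ?_, h3, h4⟩
    · show u.2 < q ∧ (u.1 < M ∨ (u.1 = M ∧ 0 ≤ u.2))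
      omega
    · show v.2 < q ∧ (v.1 < M ∨ (v.1 = M ∧ 0 ≤ v.2))
      omega

end TR
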