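import Pool.Agent.TR.V2
import Pool.Agent.TR.PL
import Pool.Agent.TR.Chg

/-!
MODULE ZGEN (upper bound for families of clusters and for the sign changes of the bottom row, for
generic arrays).

r = chg M (fun j => col m p a j (q-1)) (changes of the top row).  By `col_topcell`
col j (q-1) = sigma * sign (arr j q).2 with sigma = sign (a (q-1)).1 <> 0, and the scalars
(arr j q).2 are non-zero (hgen, D_topcell), so sign = ps and r = chg M (ps ..) <= m - 1 - q
(`rolle_ps`).  [zgen_top]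

zgen_S: S pairwise not connected in the rectangle [0,M] x [0,q).  Split S = S1 u S2, S2 = those
connected to some top cell (j, q-1).  |S1| <= q - 1 by `v2`.  For x in S2 choose j x <= M with
Conn x (j x, q-1); j is injective on S2 and for x <> y the top cells (j x, q-1), (j y, q-1) are not
connected, so by `row_conn` the top row changes between them: `runs` gives |S2| <= r + 1.
So |S| <= q + r.

zgen_runs: if |S| >= q + r then |S2| >= r + 1, so the numbers chg (j x) (index of the run of j x),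
x in S2, are all of 0..r (distinct by the argument of `runs`, at most r).  If top cells i < j in
different runs (chg i < chg j) were connected, the two x in S2 with chg (j x) = chg i resp. chg j
would be connected (cells of one run are connected, `row_conn`): contradiction.

zgen: `pl` gives S with chg(bottom) + r + .. + 2 <= 2 |S| <= 2 (q + r), so
chg(bottom) + chg(left) + chg(right) + 2 <= 2 q + r <= 2 q + (m - 1 - q) = q + m - 1, i.e.
chg(bottom) + .. <= m + q - 3.
-/

namespace TR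

theorem zgen_ne {m q : ℕ} {p : ℕ → ℕ → ℝ} {a : ℕ → ℝ × ℝ} {M : ℕ}
    (hgen : ∀ j ≤ M, ∀ k < q, D m p a j k ≠ 0) : ∀ j ≤ M, ∀ k < q, col m p a j k ≠ 0 := by
  intro j hj k hk
  rw [col]
  exact sign_ne_zero.2 (hgen j hj k hk)

theorem zgen_sign_ps {x : ℝ} (hx : x ≠ 0) : SignType.sign x = ps x := by
  unfold ps
  rcases lt_or_gt_of_ne hx with h | h
  · rw [sign_neg h, if_neg (not_le.2 h)]
  · rw [sign_pos h, if_pos h.le]

theorem zgen_top {m q : ℕ} (hq : 1 ≤ q) (hqm : q < m) {p : ℕ → ℕ → ℝ} (hp : Pos p)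
    {a : ℕ → ℝ × ℝ} (ha : NF m q a) (M : ℕ) (hgen : ∀ j ≤ M, ∀ k < q, D m p a j k ≠ 0) :
    chg M (fun j => col m p a j (q - 1)) = chg M (fun j => ps (arr m p a j q).2) ∧
      chg M (fun j => col m p a j (q - 1)) ≤ m - 1 - q := by
  have h1 : ∀ j ≤ M, col m p a j (q - 1) =
      SignType.sign (a (q - 1)).1 * ps (arr m p a j q).2 := by
    intro j hj
    have h2 := hgen j hj (q - 1) (by omega)
    rw [D_topcell hq ha.top] at h2
    rw [col_topcell hq hqm hp ha.top, zgen_sign_ps (right_ne_zero_of_mul h2)]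
  have h0 : SignType.sign (a (q - 1)).1 ≠ 0 := sign_ne_zero.2 ha.ne
  have h3 : chg M (fun j => col m p a j (q - 1)) = chg M (fun j => ps (arr m p a j q).2) := by
    unfold chg
    congr 1
    refine Finset.filter_congr fun j hj => ?_
    rw [Finset.mem_range] at hj
    simp only
    rw [h1 j hj.le, h1 (j + 1) hj]
    exact not_congr ⟨fun h => mul_left_cancel₀ h0 h, fun h => by rw [h]⟩
  refine ⟨h3, ?_⟩
  rw [h3]
  exact (Nat.le_add_right _ _).trans (rolle_ps hp ha.pos hqm M)

/-- cells of the top row in one run are connected -/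
theorem zgen_run {M K : ℕ} {c : ℕ → ℕ → SignType} {k : ℕ} (hk : k < K)
    (hc : ∀ j ≤ M, c j k ≠ 0) {u v : ℕ} (hu : u ≤ M) (hv : v ≤ M)
    (huv : chg u (fun j => c j k) = chg v (fun j => c j k)) : Conn M K c (u, k) (v, k) := by
  have key : ∀ u v : ℕ, u ≤ v → v ≤ M → chg u (fun j => c j k) = chg v (fun j => c j k) →
      Conn M K c (u, k) (v, k) := by
    intro u v hle hvM h
    refine row_conn hle hvM hk (hc u (hle.trans hvM)) (fun l hl hl' => ?_)
    by_contra hne
    exact absurd h (ne_of_lt (chg_lt_of_change (s := fun j => c j k) hl hl' hne))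
  rcases le_total u v with h | h
  · exact key u v h hv huv
  · exact (key v u h hu huv.symm).symm

/-- splitting of `S` -/
theorem zgen_split {m q : ℕ} (hq : 1 ≤ q) (hqm : q < m) {p : ℕ → ℕ → ℝ} (hp : Pos p)
    {a : ℕ → ℝ × ℝ} (ha : NF m q a) (M : ℕ) (hgen : ∀ j ≤ M, ∀ k < q, D m p a j k ≠ 0)
    (S : Finset (ℕ × ℕ)) (hS : ∀ x ∈ S, x.1 ≤ M ∧ x.2 < q)
    (hd : ∀ x ∈ S, ∀ y ∈ S, x ≠ y → ¬ Conn M q (col m p a) x y) :
    ∃ (S2 : Finset (ℕ × ℕ)) (g : ℕ × ℕ → ℕ), S2 ⊆ S ∧ S.card ≤ (q - 1) + S2.card ∧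
      ∀ x ∈ S2, g x ≤ M ∧ Conn M q (col m p a) x (g x, q - 1) := by
  classical
  set S2 := S.filter (fun x => ∃ j ≤ M, Conn M q (col m p a) x (j, q - 1)) with hS2
  set S1 := S.filter (fun x => ¬ ∃ j ≤ M, Conn M q (col m p a) x (j, q - 1)) with hS1
  have hcard : S2.card + S1.card = S.card := Finset.card_filter_add_card_filter_not _
  have h1 : S1.card ≤ q - 1 := by
    refine v2 hq hqm hp ha M hgen S1 ?_ ?_ ?_
    · intro x hx
      exact hS x (Finset.mem_filter.1 hx).1
    · intro x hx y hy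
      exact hd x (Finset.mem_filter.1 hx).1 y (Finset.mem_filter.1 hy).1
    · intro x hx j hj hcon
      exact (Finset.mem_filter.1 hx).2 ⟨j, hj, hcon⟩
  have hg : ∀ x : ℕ × ℕ, ∃ j : ℕ, x ∈ S2 → j ≤ M ∧ Conn M q (col m p a) x (j, q - 1) := by
    intro x
    by_cases hx : x ∈ S2
    · obtain ⟨j, hj, hc⟩ := (Finset.mem_filter.1 hx).2
      exact ⟨j, fun _ => ⟨hj, hc⟩⟩
    · exact ⟨0, fun h => absurd h hx⟩
  choose g hg using hg
  exact ⟨S2, g, Finset.filter_subset _ _, by omega, fun x hx => hg x hx⟩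

theorem zgen_S {m q : ℕ} (hq : 1 ≤ q) (hqm : q < m) {p : ℕ → ℕ → ℝ} (hp : Pos p)
    {a : ℕ → ℝ × ℝ} (ha : NF m q a) (M : ℕ) (hgen : ∀ j ≤ M, ∀ k < q, D m p a j k ≠ 0)
    (S : Finset (ℕ × ℕ)) (hS : ∀ x ∈ S, x.1 ≤ M ∧ x.2 < q)
    (hd : ∀ x ∈ S, ∀ y ∈ S, x ≠ y → ¬ Conn M q (col m p a) x y) :
    S.card ≤ q + chg M (fun j => col m p a j (q - 1)) := by
  classical
  obtain ⟨S2, g, hsub, hcard, hg⟩ := zgen_split hq hqm hp ha M hgen S hS hd
  have hinj : Set.InjOn g (S2 : Set (ℕ × ℕ)) := by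
    intro x hx y hy hxy
    by_contra hne
    refine hd x (hsub hx) y (hsub hy) hne ?_
    have h1 := (hg x hx).2
    rw [hxy] at h1
    exact h1.trans (hg y hy).2.symm
  have hT : (S2.image g).card = S2.card := Finset.card_image_of_injOn hinj
  have hr := runs (M := M) (fun j => col m p a j (q - 1)) (S2.image g) (fun i hi => by
    obtain ⟨x, hx, rfl⟩ := Finset.mem_image.1 hi
    exact (hg x hx).1) (fun i hi j hj hij => by
    obtain ⟨x, hx, rfl⟩ := Finset.mem_image.1 hi
    obtain ⟨y, hy, rfl⟩ := Finset.mem_image.1 hj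
    by_contra hcon
    push Not at hcon
    have hxy : x ≠ y := by
      rintro rfl
      exact lt_irrefl _ hij
    refine hd x (hsub hx) y (hsub hy) hxy ?_
    refine ((hg x hx).2.trans ?_).trans (hg y hy).2.symm
    exact row_conn hij.le (hg y hy).1 (by omega)
      (zgen_ne hgen _ (hg x hx).1 _ (by omega)) (fun l hl hl' => hcon l hl hl'))
  omega

theorem zgen_runs {m q : ℕ} (hq : 1 ≤ q) (hqm : q < m) {p : ℕ → ℕ → ℝ} (hp : Pos p)
    {a : ℕ → ℝ × ℝ} (ha : NF m q a) (M : ℕ) (hgen : ∀ j ≤ M, ∀ k < q, D m p a j k ≠ 0)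
    (S : Finset (ℕ × ℕ)) (hS : ∀ x ∈ S, x.1 ≤ M ∧ x.2 < q)
    (hd : ∀ x ∈ S, ∀ y ∈ S, x ≠ y → ¬ Conn M q (col m p a) x y)
    (hcard : q + chg M (fun j => col m p a j (q - 1)) ≤ S.card)
    {i j : ℕ} (hj : j ≤ M)
    (hij : chg i (fun j => col m p a j (q - 1)) < chg j (fun j => col m p a j (q - 1))) :
    ¬ Conn M q (col m p a) (i, q - 1) (j, q - 1) := by
  classical
  intro hcon
  obtain ⟨S2, g, hsub, hcard2, hg⟩ := zgen_split hq hqm hp ha M hgen S hS hd
  have hlt : i < j := by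
    by_contra hle
    exact absurd (chg_mono (not_lt.1 hle) (fun j => col m p a j (q - 1))) (not_le.2 hij)
  have hne := zgen_ne hgen
  have hrun : ∀ u v : ℕ, u ≤ M → v ≤ M →
      chg u (fun j => col m p a j (q - 1)) = chg v (fun j => col m p a j (q - 1)) →
      Conn M q (col m p a) (u, q - 1) (v, q - 1) := fun u v hu hv huv =>
    zgen_run (by omega) (fun l hl => hne l hl _ (by omega)) hu hv huv
  have hinj : Set.InjOn (fun x => chg (g x) (fun j => col m p a j (q - 1)))
      (S2 : Set (ℕ × ℕ)) := by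
    intro x hx y hy hxy
    by_contra hne'
    refine hd x (hsub hx) y (hsub hy) hne' ?_
    exact ((hg x hx).2.trans (hrun _ _ (hg x hx).1 (hg y hy).1 hxy)).trans (hg y hy).2.symm
  set r := chg M (fun j => col m p a j (q - 1)) with hr
  have himg : S2.image (fun x => chg (g x) (fun j => col m p a j (q - 1))) =
      Finset.range (r + 1) := by
    refine Finset.eq_of_subset_of_card_le ?_ ?_
    · intro t ht
      obtain ⟨x, hx, rfl⟩ := Finset.mem_image.1 ht
      rw [Finset.mem_range]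
      exact Nat.lt_succ_of_le (chg_mono (hg x hx).1 _)
    · rw [Finset.card_image_of_injOn hinj, Finset.card_range]
      omega
  have hget : ∀ l ≤ M, ∃ x ∈ S2, chg (g x) (fun j => col m p a j (q - 1)) =
      chg l (fun j => col m p a j (q - 1)) := by
    intro l hl
    have h1 : chg l (fun j => col m p a j (q - 1)) ∈ Finset.range (r + 1) :=
      Finset.mem_range.2 (Nat.lt_succ_of_le (chg_mono hl _))
    rw [← himg, Finset.mem_image] at h1
    exact h1
  obtain ⟨x, hx, hxi⟩ := hget i (hlt.le.trans hj)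
  obtain ⟨y, hy, hyj⟩ := hget j hj
  have hxy : x ≠ y := by
    rintro rfl
    rw [hxi] at hyj
    exact absurd hyj (ne_of_lt hij)
  refine hd x (hsub hx) y (hsub hy) hxy ?_
  refine ((hg x hx).2.trans (hrun _ _ (hg x hx).1 (hlt.le.trans hj) hxi)).trans (hcon.trans ?_)
  exact (hrun _ _ hj (hg y hy).1 hyj.symm).trans (hg y hy).2.symm

theorem zgen {m q : ℕ} (hq : 1 ≤ q) (hqm : q < m) {p : ℕ → ℕ → ℝ} (hp : Pos p)
    {a : ℕ → ℝ × ℝ} (ha : NF m q a) (M : ℕ) (hgen : ∀ j ≤ M, ∀ k < q, D m p a j k ≠ 0) :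
    chg M (fun j => col m p a j 0) + chg (q - 1) (fun k => col m p a 0 k)
      + chg (q - 1) (fun k => col m p a M k) ≤ Nn m q := by
  obtain ⟨S, hS, hd, hcount⟩ := pl M q hq (col m p a) (zgen_ne hgen)
  have h1 := zgen_S hq hqm hp ha M hgen S hS hd
  have h2 := (zgen_top hq hqm hp ha M hgen).2
  unfold Nn
  omega

end TR
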