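import Pool.Agent.TR.Seq
import Pool.Agent.TR.Col
import Pool.Agent.TR.ZGen
import Pool.Agent.TR.Gen2

/-!
MODULE CL (sign changes of the bottom row, non-zero bottom vectors).

x j = arr m p a j 0.  By `seq_perturb` (with x, c on 1..M) and `col_prescribe` (a' = a; NF implies
Rk: br (a (q-1)) (a (m-1)) = (a (q-1)).1 * (a (m-1)).2 <> 0) there are positive data p' (no closeness
needed) with arr m p' a j 0 = x' j for j <= M and sign (br (x' (j-1)) (x' j)) = c j.  By `D_bot` the
cell (j,0) of (p', a) has colour c j for 1 <= j <= M.  `gen2` for (p', a): a' with the same colours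
where non-zero and all cells of the rows < q non-zero.  `zgen` for (p', a') bounds the changes of
j -> col m p' a' j 0 over [0,M], in particular over [1,M].
-/

namespace TR

/-- Any completion `c` of the signs of the bottom cells `1, …, M` has at most `N` changes. -/
theorem cl {m q : ℕ} (hq : 1 ≤ q) (hqm : q < m) {p : ℕ → ℕ → ℝ} (hp : Pos p)
    {a : ℕ → ℝ × ℝ} (ha : NF m q a) (M : ℕ) (hx : ∀ j ≤ M, arr m p a j 0 ≠ 0)
    (c : ℕ → SignType) (hc0 : ∀ j, 1 ≤ j → j ≤ M → c j ≠ 0)
    (hc : ∀ j, 1 ≤ j → j ≤ M → D m p a j 0 ≠ 0 → c j = col m p a j 0) :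
    ((Finset.Ico 1 M).filter (fun j => c j ≠ c (j + 1))).card ≤ Nn m q := by
  have hm : 0 < m := by omega
  -- signs of the bottom cells
  have hsgn : ∀ (p : ℕ → ℕ → ℝ), Pos p → ∀ j, 1 ≤ j →
      SignType.sign (D m p a j 0) = SignType.sign (br (arr m p a (j - 1) 0) (arr m p a j 0)) := by
    intro p hp j hj
    obtain ⟨i, rfl⟩ : ∃ i, j = i + 1 := ⟨j - 1, by omega⟩
    rw [D_bot hm p a i, Nat.add_sub_cancel, smul_eq_mul, sign_mul, sign_pos (hp _ _), one_mul]
  have hr : Rk m a := by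
    refine ⟨q - 1, m - 1, by omega, by omega, ?_⟩
    have h1 : (a (m - 1)).1 = 0 := ha.top (m - 1) (by omega) (by omega)
    have h2 := ha.pos
    unfold br
    rw [h1, mul_zero, sub_zero]
    exact mul_ne_zero ha.ne h2.ne'
  obtain ⟨δ, hδ, hpre⟩ := col_prescribe hp hr M one_pos
  obtain ⟨x', hx'0, hx'1, hx'2⟩ := seq_perturb M (fun j => arr m p a j 0) hx c hc0 (by
    intro j h1 h2 h3
    have h4 := hsgn p hp j h1
    have h5 : D m p a j 0 ≠ 0 := by
      intro h0
      rw [h0, sign_zero] at h4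
      exact h3 (sign_eq_zero_iff.1 h4.symm)
    rw [hc j h1 h2 h5, col, h4]) hδ
  obtain ⟨p', hp', -, harr⟩ := hpre a x' (fun k _ => by simpa using hδ) hx'1 (by
    rw [hx'0]
    simp only [arr]
    rw [if_pos hm])
  have hcol : ∀ j, 1 ≤ j → j ≤ M → col m p' a j 0 = c j := by
    intro j h1 h2
    rw [col, hsgn p' hp' j h1, harr j h2, harr (j - 1) (by omega)]
    exact hx'2 j h1 h2
  obtain ⟨a', ha', -, hgen, hcol', -, -⟩ := gen2 hq hqm hp' ha M
  have hz := zgen hq hqm hp' ha' M hgen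
  have hfin : ∀ j, 1 ≤ j → j ≤ M → col m p' a' j 0 = c j := by
    intro j h1 h2
    rw [hcol' j h2 0 hm (by rw [hcol j h1 h2]; exact hc0 j h1 h2), hcol j h1 h2]
  have hle : ((Finset.Ico 1 M).filter (fun j => c j ≠ c (j + 1))).card ≤
      chg M (fun j => col m p' a' j 0) := by
    unfold chg
    apply Finset.card_le_card
    intro j hj
    rw [Finset.mem_filter, Finset.mem_Ico] at hj
    rw [Finset.mem_filter, Finset.mem_range]
    refine ⟨hj.1.2, ?_⟩
    change col m p' a' j 0 ≠ col m p' a' (j + 1) 0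
    rw [hfin j hj.1.1 hj.1.2.le, hfin (j + 1) (by omega) (by omega)]
    exact hj.2
  omega

end TR
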