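import Pool.Agent.TR.Chains

/-!
MODULE CAT (ballot numbers and Catalan numbers).

Claim: (m - 1) * cnt m q = (m - q) * C(m + q - 3, q - 1) for 1 <= q < m, by induction on m + q with
`cnt_base`, `cnt_rec` (the right side vanishes for q = m and the absent term q = 0 corresponds to
C(.., -1) = 0).  For q = m - 1: (m - 1) cnt m (m-1) = C(2m-4, m-2) = centralBinom (m-2), and
catalan n = centralBinom n / (n+1) (`catalan_eq_centralBinom_div`).
Second statement: the formula of the problem, N! prod_{i=1}^{d} (i-1)! / (m-d+i-1)! with d = m - 2,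
N = 2 (m-2), equals catalan (m-2): prod_{i=1}^{n} (i-1)!/(i+1)! = 1 / (n! (n+1)!), n = m - 2.
-/

namespace TR

/-- `C(n, b - 1)`, zero for `b = 0`. -/
private def pc (n : ℕ) : ℕ → ℕ
  | 0 => 0
  | (b + 1) => n.choose b

private theorem pc_succ (n b : ℕ) : pc (n + 1) b = pc n b + pc n (b - 1) := by
  rcases b with _ | _ | b
  · simp [pc]
  · simp [pc]
  · simp only [pc, Nat.add_sub_cancel]
    rw [Nat.choose_succ_succ, add_comm]

private theorem cnt_ballot (s : ℕ) : ∀ a b : ℕ, a + b = s → b < a →
    cnt (a + 1) (b + 1) + pc (a + b - 1) b = (a + b - 1).choose b := by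
  induction s using Nat.strong_induction_on with
  | _ s ih =>
  intro a b hab hba
  by_cases ha : a = 1
  · have hb : b = 0 := by omega
    subst ha hb
    rw [cnt_base]
    rfl
  · have ha2 : 2 ≤ a := by omega
    rw [cnt_rec (m := a + 1) (q := b + 1) (by omega) (by omega) (by omega)]
    have e1 : a + b - 1 = (a + b - 2) + 1 := by omega
    rw [e1, pc_succ]
    -- the two terms
    have t1 : (if 2 ≤ b + 1 then cnt (a + 1) (b + 1 - 1) else 0) + pc (a + b - 2) (b - 1) =
        (if b = 0 then 0 else (a + b - 2).choose (b - 1)) := by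
      by_cases hb : b = 0
      · subst hb
        simp [pc]
      · rw [if_pos (by omega), if_neg hb]
        have h := ih (a + (b - 1)) (by omega) a (b - 1) rfl (by omega)
        have e2 : b + 1 - 1 = b - 1 + 1 := by omega
        have e3 : a + b - 2 = a + (b - 1) - 1 := by omega
        rw [e2, e3]
        exact h
    have t2 : (if b + 1 ≤ a + 1 - 2 then cnt (a + 1 - 1) (b + 1) else 0) + pc (a + b - 2) b =
        (a + b - 2).choose b := by
      by_cases hb : b + 1 ≤ a + 1 - 2
      · rw [if_pos hb]
        have h := ih ((a - 1) + b) (by omega) (a - 1) b rfl (by omega)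
        have e2 : a + 1 - 1 = a - 1 + 1 := by omega
        have e3 : a + b - 2 = a - 1 + b - 1 := by omega
        rw [e2, e3]
        exact h
      · rw [if_neg hb, zero_add]
        have hb1 : b = a - 1 := by omega
        obtain ⟨c, rfl⟩ : ∃ c, b = c + 1 := ⟨b - 1, by omega⟩
        have hc : a = c + 2 := by omega
        subst hc
        simp only [pc]
        have e2 : c + 2 + (c + 1) - 2 = 2 * c + 1 := by omega
        rw [e2]
        exact Nat.choose_symm_of_eq_add (by omega)
    have t3 : (a + b - 2 + 1).choose b =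
        (if b = 0 then 0 else (a + b - 2).choose (b - 1)) + (a + b - 2).choose b := by
      rcases b with _ | b
      · simp
      · rw [Nat.choose_succ_succ]
        simp
    omega

theorem cnt_catalan {m : ℕ} (hm : 2 ≤ m) : cnt m (m - 1) = catalan (m - 2) := by
  obtain ⟨b, rfl⟩ : ∃ b, m = b + 2 := ⟨m - 2, by omega⟩
  have h := cnt_ballot (b + 1 + b) (b + 1) b rfl (Nat.lt_succ_self b)
  have e0 : b + 2 - 1 = b + 1 := by omega
  have e1 : b + 2 - 2 = b := by omega
  have e2 : b + 1 + b - 1 = 2 * b := by omega
  rw [e0, e1]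
  rw [e2] at h
  have h1 := succ_mul_catalan_eq_centralBinom b
  rw [Nat.centralBinom_eq_two_mul_choose] at h1
  have h2 : pc (2 * b) b * (b + 1) = (2 * b).choose b * b := by
    rcases b with _ | b
    · simp [pc]
    · simp only [pc]
      have := Nat.choose_succ_right_eq (2 * (b + 1)) b
      rw [this]
      congr 1
      omega
  have h3 : (b + 1) * cnt (b + 2) (b + 1) = (b + 1) * catalan b := by
    rw [h1]
    have h4 : (b + 1) * cnt (b + 2) (b + 1) + (b + 1) * pc (2 * b) b =
        (b + 1) * (2 * b).choose b := by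
      rw [← mul_add]
      exact congrArg _ h
    nlinarith
  exact Nat.eq_of_mul_eq_mul_left (Nat.succ_pos b) h3

theorem catalan_formula (n : ℕ) :
    (catalan n : ℚ) = (2 * n).factorial *
      ∏ i ∈ Finset.Icc 1 n, ((i - 1).factorial : ℚ) / ((2 + i - 1).factorial : ℚ) := by
  have hprod : ∏ i ∈ Finset.Icc 1 n, ((i - 1).factorial : ℚ) / ((2 + i - 1).factorial : ℚ) =
      1 / ((n.factorial : ℚ) * ((n + 1).factorial : ℚ)) := by
    induction n with
    | zero => simp
    | succ n ih =>
      rw [Finset.prod_Icc_succ_top (by omega), ih]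
      have e1 : n + 1 - 1 = n := by omega
      have e2 : 2 + (n + 1) - 1 = n + 2 := by omega
      rw [e1, e2]
      have h1 : (n.factorial : ℚ) ≠ 0 := by exact_mod_cast n.factorial_ne_zero
      have h2 : ((n + 1).factorial : ℚ) ≠ 0 := by exact_mod_cast (n + 1).factorial_ne_zero
      have h3 : ((n + 2).factorial : ℚ) ≠ 0 := by exact_mod_cast (n + 2).factorial_ne_zero
      field_simp
  rw [hprod]
  have h1 := succ_mul_catalan_eq_centralBinom n
  have h2 : n.centralBinom * (n.factorial * n.factorial) = (2 * n).factorial := by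
    rw [Nat.centralBinom_eq_two_mul_choose]
    have := Nat.choose_mul_factorial_mul_factorial (n := 2 * n) (k := n) (by omega)
    have e : 2 * n - n = n := by omega
    rw [e] at this
    rw [← this]
    ring
  have h3 : (n.factorial : ℚ) ≠ 0 := by exact_mod_cast n.factorial_ne_zero
  have h4 : ((n : ℚ) + 1) ≠ 0 := by positivity
  rw [← h2, ← h1, Nat.factorial_succ]
  push_cast
  field_simp

end TR
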