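import Pool.Agent.TR.AlgDefs

/-!
MODULE CHAINS (counting multichains).

Let T(m,q,d) = set of chains s (IsCh) of cardinality d with elements in prs m q.
For 1 <= q < m, a chain s of cardinality d + 1 falls in (at least) one of three classes:
 (1) (q-1, m-1) in s: s = (q-1,m-1) ::ₘ s', s' in T(m,q,d);
 (2) all first coordinates are < q - 1: s in T(m,q-1,d+1) (empty class unless q >= 2, since d+1 > 0);
 (3) all second coordinates are < m - 1: s in T(m-1,q,d+1) (if q = m - 1: then the pairs have
     i < j <= m - 2, so i < q - 1, and we are in class (2)).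
 (If there are elements (q-1, j), j < m-1, and (i, m-1), i < q-1, they are incomparable.)
Let h(m,q,d) = |T(m,q,d)|.  So, with N = Nn m q >= 1, i.e. (m,q) <> (2,1):
 h(m,q,d+1) <= h(m,q,d) + [q >= 2] h(m,q-1,d+1) + [q <= m-2] h(m-1,q,d+1),
 h(m,q,0) = 1, h(2,1,d) = 1.
Claim h(m,q,d) <= cnt m q * C(d+N, N), by induction on N, then on d:
 cnt m q >= 1 for 1 <= q < m; cnt m q = cnt m (q-1) [q>=2] + cnt (m-1) q [q <= m-2]
 (unfold cnt, cntN; the value is 0 outside of 1 <= q < m), Nn m (q-1) = Nn (m-1) q = N - 1, and
 C(d+N,N) + C(d+1+N-1,N-1) = C(d+1+N,N) (Pascal).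
Suggested formalisation: build the Finset T recursively, T(m,q,d+1) =
 image (cons (q-1,m-1)) T(m,q,d) u T(m,q-1,d+1) u T(m-1,q,d+1).
Please prove also the recursion lemmas for cnt (used elsewhere).
-/

namespace TR

theorem cnt_base : cnt 2 1 = 1 := by
  simp [cnt, Nn, cntN]

theorem chains_cntN_zero (n m : ℕ) : cntN n m 0 = 0 := by
  cases n <;> simp [cntN]

theorem chains_cntN_diag (n m : ℕ) : cntN n m m = 0 := by
  cases n with
  | zero => simp only [cntN]; rw [if_neg (by omega)]
  | succ n => simp [cntN]

/-- Recursion; the terms with `q = 1` resp. `q = m - 1` are absent. -/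
theorem cnt_rec {m q : ℕ} (hq : 1 ≤ q) (hqm : q < m) (h : 3 ≤ m) :
    cnt m q = (if 2 ≤ q then cnt m (q - 1) else 0) + (if q ≤ m - 2 then cnt (m - 1) q else 0) := by
  have hN : Nn m q = (m + q - 4) + 1 := by unfold Nn; omega
  have h1 : cnt m q = cntN (m + q - 4) m (q - 1) + cntN (m + q - 4) (m - 1) q := by
    unfold cnt
    rw [hN]
    simp only [cntN]
    rw [if_pos ⟨hq, hqm⟩]
  have h2 : cntN (m + q - 4) m (q - 1) = if 2 ≤ q then cnt m (q - 1) else 0 := by
    split_ifs with h2
    · unfold cnt
      rw [show Nn m (q - 1) = m + q - 4 by unfold Nn; omega]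
    · rw [show q - 1 = 0 by omega]
      exact chains_cntN_zero _ _
  have h3 : cntN (m + q - 4) (m - 1) q = if q ≤ m - 2 then cnt (m - 1) q else 0 := by
    split_ifs with h3
    · unfold cnt
      rw [show Nn (m - 1) q = m + q - 4 by unfold Nn; omega]
    · rw [show q = m - 1 by omega]
      exact chains_cntN_diag _ _
  rw [h1, h2, h3]

theorem cnt_pos {m q : ℕ} (hq : 1 ≤ q) (hqm : q < m) : 0 < cnt m q := by
  induction hs : m + q using Nat.strong_induction_on generalizing m q with
  | _ s ih =>
    by_cases h : 3 ≤ m
    · rw [cnt_rec hq hqm h]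
      by_cases h2 : 2 ≤ q
      · rw [if_pos h2]
        have := @ih (m + (q - 1)) (by omega) m (q - 1) (by omega) (by omega) rfl
        omega
      · rw [if_pos (show q ≤ m - 2 by omega)]
        have := @ih (m - 1 + q) (by omega) (m - 1) q (by omega) (by omega) rfl
        omega
    · have hm : m = 2 := by omega
      have hq1 : q = 1 := by omega
      subst hm; subst hq1
      rw [cnt_base]; exact one_pos

theorem chains_mem {m q : ℕ} {x : ℕ × ℕ} : x ∈ prs m q ↔ x.1 < x.2 ∧ x.2 < m ∧ x.1 < q := by
  unfold prs
  rw [Finset.mem_filter, Finset.mem_product, Finset.mem_range, Finset.mem_range]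
  constructor
  · rintro ⟨⟨_, h2⟩, h3, h4⟩; exact ⟨h3, h2, h4⟩
  · rintro ⟨h1, h2, h3⟩; exact ⟨⟨by omega, h2⟩, h1, h3⟩

theorem chains_count {m q : ℕ} (hq : 1 ≤ q) (hqm : q < m) (d : ℕ) :
    ∃ T : Finset (Multiset (ℕ × ℕ)), T.card ≤ cnt m q * (d + Nn m q).choose (Nn m q) ∧
      ∀ s : Multiset (ℕ × ℕ), (∀ x ∈ s, x ∈ prs m q) → Multiset.card s = d → IsCh s → s ∈ T := by
  classical
  induction hs : m + q using Nat.strong_induction_on generalizing m q d with
  | _ S ih =>
    by_cases h : 3 ≤ m
    · induction d with
      | zero =>
        refine ⟨{0}, ?_, ?_⟩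
        · rw [Finset.card_singleton, Nat.zero_add, Nat.choose_self, mul_one]
          exact cnt_pos hq hqm
        · intro s _ hc _
          rw [Multiset.card_eq_zero] at hc
          rw [hc, Finset.mem_singleton]
      | succ d ihd =>
        obtain ⟨T1, hT1, hT1'⟩ := ihd
        -- the class with smaller first coordinates
        obtain ⟨T2, hT2, hT2'⟩ : ∃ T : Finset (Multiset (ℕ × ℕ)),
            T.card ≤ (if 2 ≤ q then cnt m (q - 1) else 0) *
              (d + 1 + (m + q - 4)).choose (m + q - 4) ∧
            (2 ≤ q → ∀ s : Multiset (ℕ × ℕ), (∀ x ∈ s, x ∈ prs m (q - 1)) →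
              Multiset.card s = d + 1 → IsCh s → s ∈ T) := by
          by_cases h2 : 2 ≤ q
          · obtain ⟨T, hT, hT'⟩ := @ih (m + (q - 1)) (by omega) m (q - 1) (by omega)
              (by omega) (d + 1) rfl
            refine ⟨T, ?_, fun _ => hT'⟩
            rw [if_pos h2]
            rwa [show Nn m (q - 1) = m + q - 4 by unfold Nn; omega] at hT
          · exact ⟨∅, by simp, fun h => absurd h h2⟩
        obtain ⟨T3, hT3, hT3'⟩ : ∃ T : Finset (Multiset (ℕ × ℕ)),
            T.card ≤ (if q ≤ m - 2 then cnt (m - 1) q else 0) *
              (d + 1 + (m + q - 4)).choose (m + q - 4) ∧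
            (q ≤ m - 2 → ∀ s : Multiset (ℕ × ℕ), (∀ x ∈ s, x ∈ prs (m - 1) q) →
              Multiset.card s = d + 1 → IsCh s → s ∈ T) := by
          by_cases h2 : q ≤ m - 2
          · obtain ⟨T, hT, hT'⟩ := @ih (m - 1 + q) (by omega) (m - 1) q (by omega)
              (by omega) (d + 1) rfl
            refine ⟨T, ?_, fun _ => hT'⟩
            rw [if_pos h2]
            rwa [show Nn (m - 1) q = m + q - 4 by unfold Nn; omega] at hT
          · exact ⟨∅, by simp, fun h => absurd h h2⟩
        refine ⟨T1.image (fun s => (q - 1, m - 1) ::ₘ s) ∪ (T2 ∪ T3), ?_, ?_⟩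
        · have hN : Nn m q = (m + q - 4) + 1 := by unfold Nn; omega
          have h1 : (T1.image (fun s => (q - 1, m - 1) ::ₘ s)).card ≤
              cnt m q * (d + ((m + q - 4) + 1)).choose ((m + q - 4) + 1) := by
            rw [← hN]
            exact Finset.card_image_le.trans hT1
          have h2 : (T2 ∪ T3).card ≤ cnt m q * (d + 1 + (m + q - 4)).choose (m + q - 4) := by
            refine (Finset.card_union_le _ _).trans ?_
            rw [cnt_rec hq hqm h, add_mul]
            exact Nat.add_le_add hT2 hT3
          refine (Finset.card_union_le _ _).trans ?_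
          rw [hN]
          have h3 : (d + 1 + ((m + q - 4) + 1)).choose ((m + q - 4) + 1) =
              (d + 1 + (m + q - 4)).choose (m + q - 4) +
              (d + ((m + q - 4) + 1)).choose ((m + q - 4) + 1) := by
            rw [show d + 1 + ((m + q - 4) + 1) = (d + 1 + (m + q - 4)) + 1 by ring,
              Nat.choose_succ_succ,
              show d + ((m + q - 4) + 1) = d + 1 + (m + q - 4) by ring]
          rw [h3, mul_add]
          omega
        · intro s hs1 hs2 hs3
          rw [Finset.mem_union, Finset.mem_union, Finset.mem_image]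
          by_cases hmem : (q - 1, m - 1) ∈ s
          · left
            refine ⟨s.erase (q - 1, m - 1), ?_, Multiset.cons_erase hmem⟩
            refine hT1' _ (fun x hx => hs1 x (Multiset.mem_of_mem_erase hx)) ?_ ?_
            · rw [Multiset.card_erase_of_mem hmem, hs2]; rfl
            · exact fun x hx y hy => hs3 x (Multiset.mem_of_mem_erase hx) y
                (Multiset.mem_of_mem_erase hy)
          · right
            have hne : s ≠ 0 := by
              rintro rfl
              simp at hs2
            obtain ⟨x0, hx0⟩ := Multiset.exists_mem_of_ne_zero hne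
            -- reduction to two classes
            have hcl : (∀ x ∈ s, x.1 < q - 1) ∨ (∀ x ∈ s, x.2 < m - 1) := by
              by_contra hcon
              rw [not_or] at hcon
              obtain ⟨hc1, hc2⟩ := hcon
              push Not at hc1 hc2
              obtain ⟨x, hx, hx1⟩ := hc1
              obtain ⟨y, hy, hy1⟩ := hc2
              have hx' := chains_mem.mp (hs1 x hx)
              have hy' := chains_mem.mp (hs1 y hy)
              have hxe : x.1 = q - 1 := by omega
              have hye : y.2 = m - 1 := by omega
              have hxn : x.2 ≠ m - 1 := by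
                intro h0
                apply hmem
                have : x = (q - 1, m - 1) := Prod.ext hxe h0
                rwa [this] at hx
              have hyn : y.1 ≠ q - 1 := by
                intro h0
                apply hmem
                have : y = (q - 1, m - 1) := Prod.ext h0 hye
                rwa [this] at hy
              rcases hs3 x hx y hy with h0 | h0 <;> omega
            have hA : (∀ x ∈ s, x.1 < q - 1) → s ∈ T2 := by
              intro hall
              refine hT2' ?_ s (fun x hx => ?_) hs2 hs3
              · have := hall x0 hx0; omega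
              · have := chains_mem.mp (hs1 x hx)
                exact chains_mem.mpr ⟨this.1, this.2.1, hall x hx⟩
            rcases hcl with hcl | hcl
            · exact Or.inl (hA hcl)
            · by_cases h2 : q ≤ m - 2
              · right
                refine hT3' h2 s (fun x hx => ?_) hs2 hs3
                have := chains_mem.mp (hs1 x hx)
                exact chains_mem.mpr ⟨this.1, hcl x hx, this.2.2⟩
              · left
                refine hA fun x hx => ?_
                have := chains_mem.mp (hs1 x hx)
                have := hcl x hx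
                omega
    · have hm : m = 2 := by omega
      have hq1 : q = 1 := by omega
      subst hm; subst hq1
      refine ⟨{Multiset.replicate d (0, 1)}, ?_, ?_⟩
      · rw [cnt_base, Finset.card_singleton, one_mul]
        exact Nat.choose_pos (by omega)
      · intro s hs1 hs2 _
        rw [Finset.mem_singleton, Multiset.eq_replicate]
        refine ⟨hs2, fun x hx => ?_⟩
        have := chains_mem.mp (hs1 x hx)
        exact Prod.ext (by simp only; omega) (by simp only; omega)

end TR
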