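import Pool.Agent.TR.Frame

/-!
MODULE CHART (points of the closed stratum outside of the hyperplane p_{q-1,m-1} = 0).

K a field.  chart_exists: if the top columns are pairwise parallel and
del = br (a (q-1)) (a (m-1)) <> 0, the matrix g with g (1,0) = a (q-1), g (0,1) = a (m-1), i.e.
gl (a (q-1)).1 (a (m-1)).1 (a (q-1)).2 (a (m-1)).2, has determinant del, and
g^{-1} a k = (br (a k) (a (m-1)) / del, br (a (q-1)) (a k) / del).  For q <= k < m the first
coordinate is 0.  Read off v: v_{2k}, v_{2k+1} for k < q-1, v_{2(q-1)+(k-q)} for q <= k < m-1;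
Nn m q = 2 (q-1) + (m-1-q).
chart_inj: ch m q v k = ch m q v' k for all k < m implies v = v' (every index i < Nn m q occurs).
chart_uniq: if ch m q v k = gl al be ga de (ch m q v' k) for all k < m then evaluating at q-1 and
m-1 gives the identity matrix, so v = v'.
mk_gl: Mk is invariant under gl with det <> 0 (K a domain), D_gl.
mk_congr: Mk only depends on a k, k < m.
-/

namespace TR

section ch

variable {K : Type*} [CommRing K] {m q n : ℕ}

theorem cht_ev_lt (v : Fin n → K) {i : ℕ} (h : i < n) : ev v i = v ⟨i, h⟩ := by simp [ev, h]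

theorem cht_ch_lt (v : Fin n → K) {k : ℕ} (h : k < q - 1) :
    ch m q v k = (ev v (2 * k), ev v (2 * k + 1)) := by simp [ch, h]

theorem cht_ch_eq (v : Fin n → K) : ch m q v (q - 1) = (1, 0) := by simp [ch]

theorem cht_ch_mid (v : Fin n → K) {k : ℕ} (hq : 1 ≤ q) (h : q ≤ k) (h' : k < m - 1) :
    ch m q v k = (0, ev v (2 * (q - 1) + (k - q))) := by
  have h1 : ¬ k < q - 1 := by omega
  have h2 : ¬ k = q - 1 := by omega
  simp [ch, h1, h2, h']

theorem cht_ch_last (v : Fin n → K) (hq : 1 ≤ q) (hqm : q < m) : ch m q v (m - 1) = (0, 1) := by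
  have h1 : ¬ m - 1 < q - 1 := by omega
  have h2 : ¬ m - 1 = q - 1 := by omega
  simp [ch, h1, h2]

end ch

theorem chart_exists {K : Type*} [Field K] {m q : ℕ} (hq : 1 ≤ q) (hqm : q < m)
    (a : ℕ → K × K) (hcl : Cl m q a) (hd : br (a (q - 1)) (a (m - 1)) ≠ 0) :
    ∃ v : Fin (Nn m q) → K, ∃ α β γ δ : K, α * δ - β * γ ≠ 0 ∧
      ∀ k < m, a k = gl α β γ δ (ch m q v k) := by
  set d := br (a (q - 1)) (a (m - 1)) with hdd
  have hdd' : d = (a (q - 1)).1 * (a (m - 1)).2 - (a (q - 1)).2 * (a (m - 1)).1 := rfl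
  refine ⟨fun i => if (i : ℕ) < 2 * (q - 1) then
      (if (i : ℕ) % 2 = 0 then br (a ((i : ℕ) / 2)) (a (m - 1)) / d
        else br (a (q - 1)) (a ((i : ℕ) / 2)) / d)
      else br (a (q - 1)) (a (q + ((i : ℕ) - 2 * (q - 1)))) / d,
    (a (q - 1)).1, (a (m - 1)).1, (a (q - 1)).2, (a (m - 1)).2, ?_, fun k hk => ?_⟩
  · have h1 : (a (q - 1)).1 * (a (m - 1)).2 - (a (m - 1)).1 * (a (q - 1)).2 = d := by
      rw [hdd']; ring
    rw [h1]
    exact hd
  -- the vector in terms of the two basis vectors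
  have key : ∀ u : K × K, u = gl (a (q - 1)).1 (a (m - 1)).1 (a (q - 1)).2 (a (m - 1)).2
      (br u (a (m - 1)) / d, br (a (q - 1)) u / d) := by
    intro u
    ext
    · simp only [gl]
      field_simp
      simp only [br, hdd']
      ring
    · simp only [gl]
      field_simp
      simp only [br, hdd']
      ring
  have key' : ∀ u w : K × K, w = (br u (a (m - 1)) / d, br (a (q - 1)) u / d) →
      u = gl (a (q - 1)).1 (a (m - 1)).1 (a (q - 1)).2 (a (m - 1)).2 w := by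
    rintro u w rfl
    exact key u
  apply key'
  rcases lt_trichotomy k (q - 1) with h | h | h
  · rw [cht_ch_lt _ h, cht_ev_lt _ (show 2 * k < Nn m q by unfold Nn; omega),
      cht_ev_lt _ (show 2 * k + 1 < Nn m q by unfold Nn; omega)]
    simp only
    rw [if_pos (by omega), if_pos (by omega), if_pos (by omega), if_neg (by omega),
      show 2 * k / 2 = k by omega, show (2 * k + 1) / 2 = k by omega]
  · subst h
    rw [cht_ch_eq, br_self, zero_div, ← hdd, div_self hd]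
  · have hq' : q ≤ k := by omega
    rcases lt_or_eq_of_le (show k ≤ m - 1 by omega) with h' | h'
    · rw [cht_ch_mid _ hq hq' h', cht_ev_lt _ (show 2 * (q - 1) + (k - q) < Nn m q by unfold Nn; omega)]
      simp only
      rw [if_neg (by omega), hcl k (m - 1) hq' h' (by omega), zero_div,
        show q + (2 * (q - 1) + (k - q) - 2 * (q - 1)) = k by omega]
    · subst h'
      rw [cht_ch_last _ hq hqm, br_self, zero_div, ← hdd, div_self hd]

theorem chart_inj {K : Type*} [CommRing K] {m q : ℕ} (hq : 1 ≤ q) (hqm : q < m)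
    {v v' : Fin (Nn m q) → K} (h : ∀ k < m, ch m q v k = ch m q v' k) : v = v' := by
  funext i
  obtain ⟨i, hi⟩ := i
  have hN : Nn m q = m + q - 3 := rfl
  by_cases h1 : i < 2 * (q - 1)
  · have h2 := h (i / 2) (by omega)
    rw [cht_ch_lt _ (by omega), cht_ch_lt _ (by omega)] at h2
    rcases Nat.even_or_odd' i with ⟨c, hc | hc⟩
    · have h3 := congrArg Prod.fst h2
      simp only at h3
      rw [show 2 * (i / 2) = i by omega, cht_ev_lt _ hi, cht_ev_lt _ hi] at h3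
      exact h3
    · have h3 := congrArg Prod.snd h2
      simp only at h3
      rw [show 2 * (i / 2) + 1 = i by omega, cht_ev_lt _ hi, cht_ev_lt _ hi] at h3
      exact h3
  · have h2 := h (q + (i - 2 * (q - 1))) (by omega)
    rw [cht_ch_mid _ hq (by omega) (by omega), cht_ch_mid _ hq (by omega) (by omega)] at h2
    have h3 := congrArg Prod.snd h2
    simp only at h3
    rw [show 2 * (q - 1) + (q + (i - 2 * (q - 1)) - q) = i by omega, cht_ev_lt _ hi, cht_ev_lt _ hi] at h3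
    exact h3

theorem chart_uniq {K : Type*} [Field K] {m q : ℕ} (hq : 1 ≤ q) (hqm : q < m)
    {v v' : Fin (Nn m q) → K} {α β γ δ : K}
    (h : ∀ k < m, ch m q v k = gl α β γ δ (ch m q v' k)) : v = v' := by
  have h1 := h (q - 1) (by omega)
  have h2 := h (m - 1) (by omega)
  rw [cht_ch_eq, cht_ch_eq] at h1
  rw [cht_ch_last _ hq hqm, cht_ch_last _ hq hqm] at h2
  simp only [gl, Prod.mk.injEq, mul_one, mul_zero, add_zero, zero_add] at h1 h2
  obtain ⟨rfl, rfl⟩ := h1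
  obtain ⟨rfl, rfl⟩ := h2
  refine chart_inj hq hqm fun k hk => ?_
  rw [h k hk]
  simp [gl]

theorem mk_gl {K : Type*} [Field K] [Algebra ℝ K] {m : ℕ} (p : ℕ → ℕ → ℝ) {α β γ δ : K}
    (h : α * δ - β * γ ≠ 0) (a : ℕ → K × K) (n : ℕ) :
    Mk m p (fun k => gl α β γ δ (a k)) n ↔ Mk m p a n := by
  unfold Mk
  refine forall₂_congr fun i _ => ?_
  rw [D_gl, mul_eq_zero]
  exact or_iff_right h

theorem mk_congr {K : Type*} [CommRing K] [Algebra ℝ K] {m : ℕ} {p p' : ℕ → ℕ → ℝ}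
    {a a' : ℕ → K × K} {n : ℕ} (hp : ∀ j ≤ 3 * n, ∀ k < m, p j k = p' j k)
    (ha : ∀ k < m, a k = a' k) : Mk m p a n ↔ Mk m p' a' n := by
  unfold Mk
  refine forall₂_congr fun i hi => ?_
  rw [D_congr hp ha (3 * i + 3) (by omega)]

theorem cht_ev_ofReal {n : ℕ} (w : Fin n → ℝ) (i : ℕ) :
    ev (fun i => (w i : ℂ)) i = ((ev w i : ℝ) : ℂ) := by
  unfold ev
  split_ifs <;> simp

/-- The real chart point maps to the complex one. -/
theorem ch_ofReal {m q n : ℕ} (w : Fin n → ℝ) (k : ℕ) :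
    ch m q (fun i => (w i : ℂ)) k = (((ch m q w k).1 : ℂ), ((ch m q w k).2 : ℂ)) := by
  unfold ch
  split_ifs <;> simp [cht_ev_ofReal] <;> rfl

theorem cht_ch0_ofReal {m q n : ℕ} (w : Fin n → ℝ) (k : ℕ) :
    ch0 m q (fun i => (w i : ℂ)) k = (((ch0 m q w k).1 : ℂ), ((ch0 m q w k).2 : ℂ)) := by
  unfold ch0
  split_ifs <;> simp [cht_ev_ofReal] <;> rfl

theorem cht_br_ofReal (u v : ℝ × ℝ) :
    br ((u.1 : ℂ), (u.2 : ℂ)) ((v.1 : ℂ), (v.2 : ℂ)) = ((br u v : ℝ) : ℂ) := by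
  simp [br]

theorem cht_arr_ofReal {m : ℕ} (p : ℕ → ℕ → ℝ) (a : ℕ → ℝ × ℝ) (j k : ℕ) :
    arr m p (fun i => (((a i).1 : ℂ), ((a i).2 : ℂ))) j k =
      (((arr m p a j k).1 : ℂ), ((arr m p a j k).2 : ℂ)) :=
  arr_map Complex.ofRealAm p a j k

theorem cht_D_ofReal {m : ℕ} (p : ℕ → ℕ → ℝ) (a : ℕ → ℝ × ℝ) (j k : ℕ) :
    D m p (fun i => (((a i).1 : ℂ), ((a i).2 : ℂ))) j k = ((D m p a j k : ℝ) : ℂ) :=
  D_map Complex.ofRealAm p a j k

theorem cht_mk_ofReal {m n : ℕ} (p : ℕ → ℕ → ℝ) (a : ℕ → ℝ × ℝ) :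
    Mk m p (fun i => (((a i).1 : ℂ), ((a i).2 : ℂ))) n ↔ Mk m p a n := by
  unfold Mk
  refine forall₂_congr fun i _ => ?_
  rw [cht_D_ofReal]
  exact Complex.ofReal_eq_zero

theorem sol_ofReal {m q : ℕ} (p : ℕ → ℕ → ℝ) (w : Fin (Nn m q) → ℝ) :
    (fun i => (w i : ℂ)) ∈ Sol ℂ m q p ↔ w ∈ Sol ℝ m q p := by
  change Mk m p (ch m q fun i => (w i : ℂ)) (Nn m q) ↔ Mk m p (ch m q w) (Nn m q)
  rw [show (ch m q fun i => (w i : ℂ)) =
    fun k => (((ch m q w k).1 : ℂ), ((ch m q w k).2 : ℂ)) from funext fun k => ch_ofReal w k]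
  exact cht_mk_ofReal p _

theorem prp_real {m q : ℕ} {p : ℕ → ℕ → ℝ} (h : Prp ℂ m q p) : Prp ℝ m q p := by
  rintro a ⟨i, j, hij, hj, hd⟩ hcl hmk h0
  refine h (fun i => (((a i).1 : ℂ), ((a i).2 : ℂ))) ⟨i, j, hij, hj, ?_⟩ ?_
    ((cht_mk_ofReal p a).2 hmk) ?_
  · rw [cht_br_ofReal]
    exact_mod_cast hd
  · intro i j hi hij hj
    rw [cht_br_ofReal, hcl i j hi hij hj, Complex.ofReal_zero]
  · rw [cht_br_ofReal, h0, Complex.ofReal_zero]

theorem nd_real {m q : ℕ} {p : ℕ → ℕ → ℝ} {w : Fin (Nn m q) → ℝ}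
    (h : Nd m q p (fun i => (w i : ℂ))) : Nd m q p w := by
  intro t ht
  have h1 := h (fun i => (t i : ℂ)) (fun i hi => ?_)
  · funext i
    have h2 := congrFun h1 i
    simp only [Pi.zero_apply, Complex.ofReal_eq_zero] at h2
    exact h2
  · have h3 := ht i hi
    rw [show (ch m q fun i => (w i : ℂ)) =
      fun k => (((ch m q w k).1 : ℂ), ((ch m q w k).2 : ℂ)) from funext fun k => ch_ofReal w k,
      show (ch0 m q fun i => (t i : ℂ)) =
      fun k => (((ch0 m q t k).1 : ℂ), ((ch0 m q t k).2 : ℂ)) from funext fun k => cht_ch0_ofReal t k]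
    unfold dD at h3 ⊢
    rw [cht_arr_ofReal, cht_arr_ofReal, cht_arr_ofReal, cht_arr_ofReal, cht_br_ofReal, cht_br_ofReal]
    rw [← Complex.ofReal_add, h3, Complex.ofReal_zero]

end TR
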