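import Mathlib

/-!
MODULE CNT (counting changes; pure combinatorics).

d j = c j for the cells j = 1..M, M = 3 n + 1, marks at j = 3 i + 3 (i < n), where d = 0 exactly...
We are given a sign sequence d with d (3i+3) = 0 for i < n, and the hypothesis (H): every completion
c of d (c j in {1,-1}, c j = d j whenever d j <> 0) has at most n changes on 1..M.
For a completion choose the value at each mark: stretch i = {3i+2, 3i+3, 3i+4}; if
c (3i+2) = c (3i+4) take c (3i+3) = - c (3i+2) (two changes in the stretch), otherwise anything (at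
least one change).  The stretches are disjoint, so a completion of this kind has at least n changes,
and at least n + 1 if
  * some stretch has c (3i+2) = c (3i+4), or
  * there is a change outside of the stretches, i.e. between 1 and 2, or between 3i+4 and 3i+5.
(a) if some non-mark cell j had d j = 0, complete it in the way which produces an additional change
    (j = 3i+2: equal to c (3i+4); j = 3i+4: equal to c (3i+2); j = 1: different from c 2):
    contradiction.  So d j <> 0 for all non-mark j in [1, 3n+1].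
(b) d (3i+2) = - d (3i+4), d 1 = d 2, d (3i+4) = d (3i+5).
cnt_extra: with n + 1 marks (cells 1..3n+4, marks 3i+3 for i <= n) some completion has at least
n + 1 changes, against (H).
For n = 0 the statement (b) about d 2 is empty (M = 1).
-/

namespace TR

/-- The completion used for counting: at a mark the value opposite to its left neighbour if the two
neighbours agree. -/
def cntC (n : ℕ) (e : ℕ → SignType) (j : ℕ) : SignType :=
  if j % 3 = 0 ∧ 3 ≤ j ∧ j ≤ 3 * n then (if e (j - 1) = e (j + 1) then - e (j - 1) else e (j - 1))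
  else e j

theorem cnt_ne_neg {x : SignType} (hx : x ≠ 0) : x ≠ - x := by
  revert hx; revert x; decide

theorem cntC_ne_zero {n : ℕ} {e : ℕ → SignType} (he : ∀ j, e j ≠ 0) (j : ℕ) :
    cntC n e j ≠ 0 := by
  have hneg : ∀ x : SignType, x ≠ 0 → - x ≠ 0 := by decide
  unfold cntC
  split_ifs
  · exact hneg _ (he _)
  · exact he _
  · exact he _

theorem cntC_off {n : ℕ} {e : ℕ → SignType} {j : ℕ} (hj : j % 3 ≠ 0) : cntC n e j = e j := by
  unfold cntC
  rw [if_neg (fun h => hj h.1)]

theorem cntC_mark {n : ℕ} {e : ℕ → SignType} {i : ℕ} (hi : i < n) :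
    cntC n e (3 * i + 3) = if e (3 * i + 2) = e (3 * i + 4) then - e (3 * i + 2)
      else e (3 * i + 2) := by
  unfold cntC
  rw [if_pos ⟨by omega, by omega, by omega⟩]
  rfl

/-- Lower bound for the number of changes. -/
theorem cnt_lower (n : ℕ) (e : ℕ → SignType) (he : ∀ j, e j ≠ 0) :
    n ≤ ((Finset.Ico 1 (3 * n + 1)).filter (fun j => cntC n e j ≠ cntC n e (j + 1))).card ∧
    ∀ x, 1 ≤ x → x < 3 * n + 1 → x % 3 ≠ 0 → cntC n e x ≠ cntC n e (x + 1) →
      n + 1 ≤ ((Finset.Ico 1 (3 * n + 1)).filter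
        (fun j => cntC n e j ≠ cntC n e (j + 1))).card := by
  classical
  set F := (Finset.Ico 1 (3 * n + 1)).filter (fun j => cntC n e j ≠ cntC n e (j + 1)) with hF
  set S := (Finset.range n).image (fun i => 3 * i + 3) with hS
  have hSc : S.card = n := by
    rw [hS, Finset.card_image_of_injective _ (fun a b h => by
      have h' : 3 * a + 3 = 3 * b + 3 := h
      omega),
      Finset.card_range]
  have hSF : S ⊆ F := by
    intro x hx
    rw [hS, Finset.mem_image] at hx
    obtain ⟨i, hi, rfl⟩ := hx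
    rw [Finset.mem_range] at hi
    rw [hF, Finset.mem_filter, Finset.mem_Ico]
    refine ⟨⟨by omega, by omega⟩, ?_⟩
    rw [cntC_mark hi, show 3 * i + 3 + 1 = 3 * i + 4 from rfl,
      cntC_off (n := n) (e := e) (j := 3 * i + 4) (by omega)]
    split_ifs with h
    · rw [h]; exact (cnt_ne_neg (he _)).symm
    · exact h
  refine ⟨hSc ▸ Finset.card_le_card hSF, fun x h1 h2 h3 h4 => ?_⟩
  have hxF : x ∈ F := by
    rw [hF, Finset.mem_filter, Finset.mem_Ico]
    exact ⟨⟨h1, h2⟩, h4⟩
  have hxS : x ∉ S := by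
    intro hx
    rw [hS, Finset.mem_image] at hx
    obtain ⟨i, _, rfl⟩ := hx
    omega
  have := Finset.card_le_card (Finset.insert_subset hxF hSF)
  rw [Finset.card_insert_of_notMem hxS, hSc] at this
  exact this

/-- The conclusions for an arbitrary completion at the non-marks. -/
theorem cnt_key (n : ℕ) (d : ℕ → SignType) (hd : ∀ i < n, d (3 * i + 3) = 0)
    (H : ∀ c : ℕ → SignType, (∀ j, 1 ≤ j → j ≤ 3 * n + 1 → c j ≠ 0) →
      (∀ j, 1 ≤ j → j ≤ 3 * n + 1 → d j ≠ 0 → c j = d j) →
      ((Finset.Ico 1 (3 * n + 1)).filter (fun j => c j ≠ c (j + 1))).card ≤ n)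
    (e : ℕ → SignType) (he : ∀ j, e j ≠ 0)
    (hed : ∀ j, d j ≠ 0 → e j = d j) :
    (∀ i < n, e (3 * i + 2) ≠ e (3 * i + 4)) ∧ (1 ≤ n → e 1 = e 2) ∧
      ∀ i, i + 1 < n → e (3 * i + 4) = e (3 * i + 5) := by
  have hH := H (cntC n e) (fun j _ _ => cntC_ne_zero he j) (fun j h1 h2 hj => by
    unfold cntC
    rw [if_neg, hed j hj]
    rintro ⟨h3, h4, h5⟩
    apply hj
    have := hd ((j - 3) / 3) (by omega)
    rwa [show 3 * ((j - 3) / 3) + 3 = j by omega] at this)
  obtain ⟨-, hL⟩ := cnt_lower n e he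
  refine ⟨fun i hi h => ?_, fun hn => ?_, fun i hi => ?_⟩
  · have := hL (3 * i + 2) (by omega) (by omega) (by omega) (by
      rw [cntC_off (n := n) (e := e) (j := 3 * i + 2) (by omega),
        show 3 * i + 2 + 1 = 3 * i + 3 from rfl, cntC_mark hi, if_pos h]
      exact cnt_ne_neg (he _))
    omega
  · by_contra h
    have := hL 1 (le_refl _) (by omega) (by omega) (by
      rw [cntC_off (n := n) (e := e) (j := 1) (by omega),
        cntC_off (n := n) (e := e) (j := 1 + 1) (by omega)]
      exact h)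
    omega
  · by_contra h
    have := hL (3 * i + 4) (by omega) (by omega) (by omega) (by
      rw [cntC_off (n := n) (e := e) (j := 3 * i + 4) (by omega),
        cntC_off (n := n) (e := e) (j := 3 * i + 4 + 1) (by omega)]
      exact h)
    omega

/-- Structure forced by the bound on the number of changes. -/
theorem cnt_struct (n : ℕ) (hn : 1 ≤ n) (d : ℕ → SignType) (hd : ∀ i < n, d (3 * i + 3) = 0)
    (H : ∀ c : ℕ → SignType, (∀ j, 1 ≤ j → j ≤ 3 * n + 1 → c j ≠ 0) →
      (∀ j, 1 ≤ j → j ≤ 3 * n + 1 → d j ≠ 0 → c j = d j) →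
      ((Finset.Ico 1 (3 * n + 1)).filter (fun j => c j ≠ c (j + 1))).card ≤ n) :
    d 1 ≠ 0 ∧ d 1 = d 2 ∧ (∀ i < n, d (3 * i + 2) ≠ 0 ∧ d (3 * i + 4) = - d (3 * i + 2)) ∧
      ∀ i, i + 1 < n → d (3 * i + 4) = d (3 * i + 5) := by
  have hkey := cnt_key n d hd H
  set e0 : ℕ → SignType := fun j => if d j = 0 then 1 else d j with he0
  have he0n : ∀ j, e0 j ≠ 0 := by
    intro j
    simp only [he0]
    split_ifs with h
    · decide
    · exact h
  have he0d : ∀ j, d j ≠ 0 → e0 j = d j := by
    intro j hj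
    simp only [he0]
    rw [if_neg hj]
  -- changing the value at a zero of `d`
  have hupd : ∀ (j : ℕ) (v : SignType), d j = 0 → v ≠ 0 →
      (∀ k, Function.update e0 j v k ≠ 0) ∧
      (∀ k, d k ≠ 0 → Function.update e0 j v k = d k) := by
    intro j v hj hv
    refine ⟨fun k => ?_, fun k hk => ?_⟩
    · by_cases hkj : k = j
      · subst hkj; rw [Function.update_self]; exact hv
      · rw [Function.update_of_ne hkj]; exact he0n k
    · have hkj : k ≠ j := by rintro rfl; exact hk hj
      rw [Function.update_of_ne hkj]; exact he0d k hk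
  have hneg : ∀ x : SignType, x ≠ 0 → - x ≠ 0 := by decide
  have h2 : ∀ i < n, d (3 * i + 2) ≠ 0 := by
    intro i hi h0
    obtain ⟨ha, hb⟩ := hupd (3 * i + 2) (e0 (3 * i + 4)) h0 (he0n _)
    obtain ⟨hc, -, -⟩ := hkey _ ha hb
    apply hc i hi
    rw [Function.update_self, Function.update_of_ne (by omega)]
  have h4 : ∀ i < n, d (3 * i + 4) ≠ 0 := by
    intro i hi h0
    obtain ⟨ha, hb⟩ := hupd (3 * i + 4) (e0 (3 * i + 2)) h0 (he0n _)
    obtain ⟨hc, -, -⟩ := hkey _ ha hb
    apply hc i hi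
    rw [Function.update_self, Function.update_of_ne (by omega)]
  have h1 : d 1 ≠ 0 := by
    intro h0
    obtain ⟨ha, hb⟩ := hupd 1 (- e0 2) h0 (hneg _ (he0n _))
    obtain ⟨-, hc, -⟩ := hkey _ ha hb
    have := hc hn
    rw [Function.update_self, Function.update_of_ne (by omega)] at this
    exact cnt_ne_neg (he0n 2) this.symm
  obtain ⟨hA, hB, hC⟩ := hkey e0 he0n he0d
  have hopp : ∀ x y : SignType, x ≠ 0 → y ≠ 0 → x ≠ y → y = - x := by decide
  refine ⟨h1, ?_, fun i hi => ⟨h2 i hi, ?_⟩, fun i hi => ?_⟩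
  · have := hB hn
    rwa [he0d 1 h1, he0d 2 (h2 0 (by omega))] at this
  · have := hA i hi
    rw [he0d _ (h2 i hi), he0d _ (h4 i hi)] at this
    exact hopp _ _ (h2 i hi) (h4 i hi) this
  · have := hC i hi
    rw [he0d _ (h4 i (by omega)), he0d (3 * i + 5) (h2 (i + 1) hi)] at this
    exact this

theorem cnt_extra (n : ℕ) (d : ℕ → SignType) (hd : ∀ i ≤ n, d (3 * i + 3) = 0)
    (H : ∀ c : ℕ → SignType, (∀ j, 1 ≤ j → j ≤ 3 * n + 4 → c j ≠ 0) →
      (∀ j, 1 ≤ j → j ≤ 3 * n + 4 → d j ≠ 0 → c j = d j) →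
      ((Finset.Ico 1 (3 * n + 4)).filter (fun j => c j ≠ c (j + 1))).card ≤ n) : False := by
  set e0 : ℕ → SignType := fun j => if d j = 0 then 1 else d j with he0
  have he0n : ∀ j, e0 j ≠ 0 := by
    intro j
    simp only [he0]
    split_ifs with h
    · decide
    · exact h
  have he0d : ∀ j, d j ≠ 0 → e0 j = d j := by
    intro j hj
    simp only [he0]
    rw [if_neg hj]
  have hH := H (cntC (n + 1) e0) (fun j _ _ => cntC_ne_zero he0n j) (fun j h1 h2 hj => by
    unfold cntC
    rw [if_neg, he0d j hj]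
    rintro ⟨h3, h4, h5⟩
    apply hj
    have := hd ((j - 3) / 3) (by omega)
    rwa [show 3 * ((j - 3) / 3) + 3 = j by omega] at this)
  obtain ⟨hL, -⟩ := cnt_lower (n + 1) e0 he0n
  rw [show 3 * (n + 1) + 1 = 3 * n + 4 by ring] at hL
  omega

end TR
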