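import Pool.Agent.TR.CL
import Pool.Agent.TR.Cnt

/-!
MODULE CLEAN (real solutions: test cells alternate, no additional mark).

Let x j = arr m p a j 0, n marks: cells 3 i + 3, i < n, vanish, i.e. br (x (3i+2)) (x (3i+3)) = 0
(`D_bot`, p > 0).

Cleaning.  `Cl.yy x` is a sequence of non-zero vectors with `yy j = x j` when `x j ≠ 0` and
`br (yy (3i+2)) (yy (3i+3)) = 0` at the marks.  For small e > 0 and signs lam put
x^lam j = x j if x j ≠ 0, and x^lam j = lam j * e * yy j if x j = 0.  By `col_prescribe` these are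
the bottom vectors of an array with positive data, to which `cl` applies (`Clean.core`).
`no_extra`: `cnt_extra`.  `alt_of_sol`: `cnt_struct` for lam = 1 and for lam flipped at an index j0
with x j0 = 0: this flips exactly d j0 and d (j0+1), which contradicts the structure.
So all x j ≠ 0, and `cnt_struct` for (p, a) itself gives the result.
-/

namespace TR

namespace Clean

/-- The direction used to replace the vector `x j` when it vanishes. -/
noncomputable def yy (x : ℕ → ℝ × ℝ) (j : ℕ) : ℝ × ℝ := by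
  classical
  exact if x j ≠ 0 then x j
    else if j % 3 = 2 ∧ x (j + 1) ≠ 0 then x (j + 1)
    else if j % 3 = 0 ∧ x (j - 1) ≠ 0 then x (j - 1)
    else (1, 0)

theorem yy_ne (x : ℕ → ℝ × ℝ) (j : ℕ) : yy x j ≠ 0 := by
  unfold yy
  split_ifs with h1 h2 h3
  · exact h1
  · exact h2.2
  · exact h3.2
  · intro h
    have := congrArg Prod.fst h
    simp at this

theorem yy_eq (x : ℕ → ℝ × ℝ) {j : ℕ} (h : x j ≠ 0) : yy x j = x j := by
  unfold yy
  rw [if_pos h]

theorem yy_mark (x : ℕ → ℝ × ℝ) (i : ℕ) (h : br (x (3 * i + 2)) (x (3 * i + 3)) = 0) :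
    br (yy x (3 * i + 2)) (yy x (3 * i + 3)) = 0 := by
  have e1 : (3 * i + 2) % 3 = 2 := by omega
  have e2 : (3 * i + 3) % 3 = 0 := by omega
  have e3 : ¬ (3 * i + 3) % 3 = 2 := by omega
  have e4 : 3 * i + 2 + 1 = 3 * i + 3 := by omega
  have e5 : 3 * i + 3 - 1 = 3 * i + 2 := by omega
  have e6 : ¬ (3 * i + 2) % 3 = 0 := by omega
  by_cases hP : x (3 * i + 2) = 0
  · by_cases hQ : x (3 * i + 3) = 0
    · have h1 : yy x (3 * i + 2) = (1, 0) := by
        unfold yy
        rw [if_neg (not_not.mpr hP), if_neg (by rw [e4]; exact fun h => h.2 hQ),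
          if_neg (fun h => e6 h.1)]
      have h2 : yy x (3 * i + 3) = (1, 0) := by
        unfold yy
        rw [if_neg (not_not.mpr hQ), if_neg (fun h => e3 h.1),
          if_neg (by rw [e5]; exact fun h => h.2 hP)]
      rw [h1, h2, br_self]
    · have h1 : yy x (3 * i + 2) = x (3 * i + 3) := by
        unfold yy
        rw [if_neg (not_not.mpr hP), if_pos (by rw [e4]; exact ⟨e1, hQ⟩), e4]
      rw [h1, yy_eq x hQ, br_self]
  · by_cases hQ : x (3 * i + 3) = 0
    · have h2 : yy x (3 * i + 3) = x (3 * i + 2) := by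
        unfold yy
        rw [if_neg (not_not.mpr hQ), if_neg (fun h => e3 h.1),
          if_pos (by rw [e5]; exact ⟨e2, hP⟩), e5]
      rw [h2, yy_eq x hP, br_self]
    · rw [yy_eq x hP, yy_eq x hQ, h]

/-- Sign of the scalar used at the index `j`. -/
noncomputable def sg (x : ℕ → ℝ × ℝ) (lam : ℕ → SignType) (j : ℕ) : SignType := by
  classical
  exact if x j = 0 then lam j else 1

/-- Colours of the cleaned bottom row (cell `j ≥ 1`). -/
noncomputable def cdd (x : ℕ → ℝ × ℝ) (lam : ℕ → SignType) (j : ℕ) : SignType :=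
  sg x lam (j - 1) * sg x lam j * SignType.sign (br (yy x (j - 1)) (yy x j))

theorem rk_of_nf {m q : ℕ} (hq : 1 ≤ q) (hqm : q < m) {a : ℕ → ℝ × ℝ} (ha : NF m q a) :
    Rk m a := by
  refine ⟨q - 1, m - 1, by omega, by omega, ?_⟩
  rw [br, ha.top (m - 1) (by omega) (by omega), mul_zero, sub_zero]
  exact mul_ne_zero ha.ne ha.pos.ne'

theorem sign_mul_ne {s : SignType} (hs : s ≠ 0) {r : ℝ} (hr : 0 < r) :
    SignType.sign ((s : ℝ) * r) = s := by
  rw [sign_mul, sign_pos hr, mul_one]
  cases s <;> simp_all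

theorem core {m q : ℕ} (hq : 1 ≤ q) (hqm : q < m) {p : ℕ → ℕ → ℝ} (hp : Pos p)
    {a : ℕ → ℝ × ℝ} (ha : NF m q a) (M : ℕ) (lam : ℕ → SignType) (hlam : ∀ j, lam j ≠ 0)
    (c : ℕ → SignType) (hc0 : ∀ j, 1 ≤ j → j ≤ M → c j ≠ 0)
    (hc : ∀ j, 1 ≤ j → j ≤ M → cdd (fun j => arr m p a j 0) lam j ≠ 0 →
      c j = cdd (fun j => arr m p a j 0) lam j) :
    ((Finset.Ico 1 M).filter (fun j => c j ≠ c (j + 1))).card ≤ Nn m q := by
  classical
  set x : ℕ → ℝ × ℝ := fun j => arr m p a j 0 with hx
  have hm : 0 < m := by omega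
  obtain ⟨δ, hδ, H⟩ := col_prescribe hp (rk_of_nf hq hqm ha) M one_pos
  -- the scalars
  set s : ℕ → ℝ := fun j => if x j = 0 then (lam j : ℝ) * (δ / (2 * ‖yy x j‖)) else 1 with hs
  have hny : ∀ j, 0 < ‖yy x j‖ := fun j => norm_pos_iff.mpr (yy_ne x j)
  have hpos : ∀ j, 0 < δ / (2 * ‖yy x j‖) := fun j => by
    have := hny j; positivity
  have hsg : ∀ j, SignType.sign (s j) = sg x lam j := by
    intro j
    simp only [hs, sg]
    split_ifs with h
    · exact sign_mul_ne (hlam j) (hpos j)
    · exact sign_one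
  have hsne : ∀ j, s j ≠ 0 := by
    intro j h
    have h1 := hsg j
    rw [h, sign_zero] at h1
    simp only [sg] at h1
    split_ifs at h1 with h2
    exact hlam j h1.symm
  set x' : ℕ → ℝ × ℝ := fun j => s j • yy x j with hx'
  have hx'ne : ∀ j, x' j ≠ 0 := fun j => smul_ne_zero (hsne j) (yy_ne x j)
  have hx'eq : ∀ j, x j ≠ 0 → x' j = x j := by
    intro j h
    simp only [hx', hs, if_neg h, one_smul, yy_eq x h]
  have hclose : ∀ j, ‖x' j - x j‖ < δ := by
    intro j
    by_cases h : x j = 0
    · have h1 : x' j - x j = ((lam j : ℝ) * (δ / (2 * ‖yy x j‖))) • yy x j := by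
        simp only [hx', hs]
        rw [if_pos h, h, sub_zero]
      rw [h1, norm_smul, norm_mul, Real.norm_of_nonneg (hpos j).le]
      have h2 : ‖((lam j : SignType) : ℝ)‖ = 1 := by
        have := hlam j
        generalize lam j = t at this
        cases t <;> simp_all
      rw [h2, one_mul]
      have h3 := hny j
      have h4 : δ / (2 * ‖yy x j‖) * ‖yy x j‖ = δ / 2 := by
        field_simp
      rw [h4]
      linarith
    · rw [hx'eq j h, sub_self, norm_zero]
      exact hδ
  set a' : ℕ → ℝ × ℝ := fun k => if k = 0 then x' 0 else a k with ha'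
  have hx0 : x 0 = a 0 := arr_zero p a hm
  have hnf : NF m q a' := by
    refine ⟨?_, ?_, ?_⟩
    · intro k hk hkm
      have : k ≠ 0 := by omega
      simp only [ha', if_neg this]
      exact ha.top k hk hkm
    · have : m - 1 ≠ 0 := by omega
      simp only [ha', if_neg this]
      exact ha.pos
    · by_cases h : q - 1 = 0
      · simp only [ha', if_pos h]
        have h1 : (a 0).1 ≠ 0 := by rw [← h]; exact ha.ne
        have h2 : x 0 ≠ 0 := by
          rw [hx0]
          intro h3
          rw [h3] at h1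
          exact h1 rfl
        rw [hx'eq 0 h2, hx0]
        exact h1
      · simp only [ha', if_neg h]
        exact ha.ne
  obtain ⟨p', hp', -, harr⟩ := H a' x' (by
      intro k hk
      by_cases h : k = 0
      · subst h
        simp only [ha', if_true]
        rw [← hx0]
        exact hclose 0
      · simp only [ha', if_neg h, sub_self, norm_zero]
        exact hδ) (fun j _ => hclose j) (by simp only [ha', if_true])
  -- colours of the new bottom row
  have hcol : ∀ j, 1 ≤ j → j ≤ M → col m p' a' j 0 = cdd x lam j := by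
    intro j hj hjM
    obtain ⟨j, rfl⟩ : ∃ j', j = j' + 1 := ⟨j - 1, by omega⟩
    rw [col, D_bot hm, harr j (by omega), harr (j + 1) hjM, smul_eq_mul, sign_mul,
      sign_pos (hp' _ _), one_mul]
    simp only [hx', br_mul_left, br_mul_right, sign_mul, hsg, cdd, Nat.add_sub_cancel]
    rw [mul_left_comm, mul_assoc]
  refine cl hq hqm hp' hnf M (fun j hj => ?_) c hc0 (fun j h1 h2 h3 => ?_)
  · rw [harr j hj]
    exact hx'ne j
  · rw [hcol j h1 h2]
    refine hc j h1 h2 ?_
    rw [← hcol j h1 h2, col]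
    exact fun h => h3 (sign_eq_zero_iff.mp h)

theorem cdd_mark {m : ℕ} (hm : 0 < m) {p : ℕ → ℕ → ℝ} (hp : Pos p) {a : ℕ → ℝ × ℝ} {n : ℕ}
    (h : Mk m p a n) (lam : ℕ → SignType) (i : ℕ) (hi : i < n) :
    cdd (fun j => arr m p a j 0) lam (3 * i + 3) = 0 := by
  have h1 := h i hi
  rw [show 3 * i + 3 = (3 * i + 2) + 1 by ring, D_bot hm, smul_eq_mul] at h1
  have h2 : br (arr m p a (3 * i + 2) 0) (arr m p a (3 * i + 3) 0) = 0 := by
    rcases mul_eq_zero.mp h1 with h | h
    · exact absurd h (hp _ _).ne'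
    · exact h
  unfold cdd
  rw [show 3 * i + 3 - 1 = 3 * i + 2 by omega,
    yy_mark (fun j => arr m p a j 0) i h2, sign_zero, mul_zero]

theorem sg_one (x : ℕ → ℝ × ℝ) (j : ℕ) : sg x (fun _ => 1) j = 1 := by
  simp only [sg]
  split_ifs <;> rfl

theorem sg_flip (x : ℕ → ℝ × ℝ) {j0 : ℕ} (h0 : x j0 = 0) (j : ℕ) :
    sg x (fun j => if j = j0 then -1 else 1) j = if j = j0 then -1 else 1 := by
  simp only [sg]
  split_ifs with h1 h2 h2
  · rfl
  · rfl
  · subst h2; exact absurd h0 h1
  · rfl

end Clean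

open Clean in
theorem no_extra {m q : ℕ} (hq : 1 ≤ q) (hqm : q < m) {p : ℕ → ℕ → ℝ} (hp : Pos p)
    {a : ℕ → ℝ × ℝ} (ha : NF m q a) : ¬ Mk m p a (Nn m q + 1) := by
  intro h
  refine cnt_extra (Nn m q) (cdd (fun j => arr m p a j 0) (fun _ => 1))
    (fun i hi => cdd_mark (by omega) hp h _ i (by omega)) ?_
  intro c hc0 hc
  exact core hq hqm hp ha (3 * Nn m q + 4) (fun _ => 1) (fun _ => by decide) c hc0 hc

open Clean in
theorem alt_of_sol {m q : ℕ} (hq : 1 ≤ q) (hqm : q < m) {p : ℕ → ℕ → ℝ} (hp : Pos p)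
    {a : ℕ → ℝ × ℝ} (ha : NF m q a) (h : Mk m p a (Nn m q)) : Alt m q p a := by
  have hm : 0 < m := by omega
  rcases Nat.eq_zero_or_pos (Nn m q) with hN | hN
  · -- m = 2, q = 1
    have hm2 : m = 2 := by unfold Nn at hN; omega
    have hq1 : q = 1 := by unfold Nn at hN; omega
    subst hm2; subst hq1
    refine ⟨?_, fun i hi => by omega⟩
    have h1 : D 2 p a 1 0 = p 1 0 • br (arr 2 p a 0 0) (arr 2 p a 1 1) :=
      D_succ p a 0 (by omega)
    have h2 : arr 2 p a 1 1 = p 1 1 • arr 2 p a 0 1 := arr_last (m := 2) (by omega) 0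
    rw [h1, h2, arr_zero p a (by omega : 0 < 2), arr_zero p a (by omega : 1 < 2), br_smul_right,
      smul_eq_mul, smul_eq_mul, br, ha.top 1 le_rfl (by omega), mul_zero, sub_zero]
    exact mul_ne_zero (hp _ _).ne' (mul_ne_zero (hp _ _).ne' (mul_ne_zero ha.ne ha.pos.ne'))
  · set x : ℕ → ℝ × ℝ := fun j => arr m p a j 0 with hx
    have str : ∀ lam : ℕ → SignType, (∀ j, lam j ≠ 0) →
        cdd x lam 1 ≠ 0 ∧ cdd x lam 1 = cdd x lam 2 ∧
        (∀ i < Nn m q, cdd x lam (3 * i + 2) ≠ 0 ∧
          cdd x lam (3 * i + 4) = - cdd x lam (3 * i + 2)) ∧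
        ∀ i, i + 1 < Nn m q → cdd x lam (3 * i + 4) = cdd x lam (3 * i + 5) := by
      intro lam hlam
      refine cnt_struct (Nn m q) hN (cdd x lam) (fun i hi => cdd_mark hm hp h lam i hi) ?_
      intro c hc0 hc
      exact core hq hqm hp ha (3 * Nn m q + 1) lam hlam c hc0 hc
    have str1 := str (fun _ => 1) (fun _ => by decide)
    have hnz : ∀ j ≤ 3 * Nn m q + 1, x j ≠ 0 := by
      intro j0 hj0 h0
      have str2 := str (fun j => if j = j0 then -1 else 1) (fun j => by
        by_cases hj : j = j0 <;> simp [hj])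
      have hsame : ∀ j, 1 ≤ j → j ≠ j0 → j - 1 ≠ j0 →
          cdd x (fun j => if j = j0 then -1 else 1) j = cdd x (fun _ => 1) j := by
        intro j hj h1 h2
        simp only [cdd, sg_flip x h0, sg_one, if_neg h1, if_neg h2]
      have hflip1 : 1 ≤ j0 →
          cdd x (fun j => if j = j0 then -1 else 1) j0 = - cdd x (fun _ => 1) j0 := by
        intro h1
        have h2 : j0 - 1 ≠ j0 := by omega
        simp only [cdd, sg_flip x h0, sg_one, if_neg h2, if_true, one_mul, neg_mul]
      have hflip2 :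
          cdd x (fun j => if j = j0 then -1 else 1) (j0 + 1) = - cdd x (fun _ => 1) (j0 + 1) := by
        have h2 : j0 + 1 ≠ j0 := by omega
        simp only [cdd, sg_flip x h0, sg_one, Nat.add_sub_cancel, if_neg h2, if_true, one_mul,
          neg_mul, mul_one]
      have sneg : ∀ t : SignType, t = - t → t = 0 := by decide
      obtain ⟨a1, a2, a3, a4⟩ := str1
      obtain ⟨b1, b2, b3, b4⟩ := str2
      rcases Nat.lt_or_ge j0 2 with hlt | hge
      · interval_cases j0
        · -- flips d 1 only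
          have e1 := hflip2
          rw [zero_add] at e1
          have e2 := hsame 2 (by omega) (by omega) (by omega)
          rw [e1, e2, ← a2] at b2
          exact a1 (sneg _ b2.symm)
        · -- flips d 1, d 2, not d 4
          have e1 := hflip2
          have e2 := hsame 4 (by omega) (by omega) (by omega)
          have a5 := a3 0 hN
          have b5 := b3 0 hN
          simp only [mul_zero, zero_add] at a5 b5
          norm_num at e1
          rw [e1, e2, a5.2, neg_neg] at b5
          exact a5.1 (sneg _ b5.2.symm)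
      · -- j0 in the stretch i
        obtain ⟨i, hi⟩ : ∃ i, j0 = 3 * i + 2 ∨ j0 = 3 * i + 3 ∨ j0 = 3 * i + 4 :=
          ⟨(j0 - 2) / 3, by omega⟩
        have hiN : i < Nn m q := by omega
        have a5 := a3 i hiN
        have b5 := b3 i hiN
        rcases hi with hi | hi | hi
        · have e1 := hflip1 (by omega)
          have e2 := hsame (3 * i + 4) (by omega) (by omega) (by omega)
          rw [hi] at e1 e2 b5
          rw [e1, e2, a5.2, neg_neg] at b5
          exact a5.1 (sneg _ b5.2.symm)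
        · have e1 := hflip2
          have e2 := hsame (3 * i + 2) (by omega) (by omega) (by omega)
          rw [hi] at e1 e2 b5
          rw [show 3 * i + 3 + 1 = 3 * i + 4 by ring] at e1
          rw [e1, e2, a5.2, neg_neg] at b5
          exact a5.1 (sneg _ b5.2)
        · have e1 := hflip1 (by omega)
          have e2 := hsame (3 * i + 2) (by omega) (by omega) (by omega)
          rw [hi] at e1 e2 b5
          rw [e1, e2, a5.2, neg_neg] at b5
          exact a5.1 (sneg _ b5.2)
    -- now the structure for (p, a) itself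
    have hd : ∀ j, 1 ≤ j → j ≤ 3 * Nn m q + 1 → cdd x (fun _ => 1) j = col m p a j 0 := by
      intro j hj hjM
      obtain ⟨j, rfl⟩ : ∃ j', j = j' + 1 := ⟨j - 1, by omega⟩
      simp only [cdd, sg_one, mul_one, one_mul, Nat.add_sub_cancel]
      rw [yy_eq x (hnz j (by omega)), yy_eq x (hnz (j + 1) hjM), col, D_bot hm, smul_eq_mul,
        sign_mul, sign_pos (hp _ _), one_mul]
    obtain ⟨a1, a2, a3, a4⟩ := str1
    refine ⟨?_, ?_⟩
    · rw [hd 1 le_rfl (by omega)] at a1
      intro h0
      rw [col, h0, sign_zero] at a1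
      exact a1 rfl
    · intro i hi
      obtain ⟨c1, c2⟩ := a3 i hi
      have c3 : cdd x (fun _ => 1) (3 * i + 1) = cdd x (fun _ => 1) (3 * i + 2) := by
        rcases Nat.eq_zero_or_pos i with h0 | h0
        · subst h0; simpa using a2
        · obtain ⟨i, rfl⟩ : ∃ i', i = i' + 1 := ⟨i - 1, by omega⟩
          have := a4 i hi
          rw [show 3 * (i + 1) + 1 = 3 * i + 4 by ring, show 3 * (i + 1) + 2 = 3 * i + 5 by ring]
          exact this
      rw [← c3] at c1 c2
      rw [hd (3 * i + 1) (by omega) (by omega)] at c1 c2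
      rw [hd (3 * i + 4) (by omega) (by omega)] at c2
      rw [← sign_eq_neg_one_iff, sign_mul]
      change col m p a (3 * i + 1) 0 * col m p a (3 * i + 4) 0 = -1
      rw [c2]
      revert c1
      generalize col m p a (3 * i + 1) 0 = t
      revert t
      decide

end TR
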