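import Pool.Agent.TR.Frame

/-!
MODULE PERSIST (continuity of the array, persistence of signs).

Topologies: product topologies on `ℕ → ℕ → ℝ` and `ℕ → ℝ × ℝ` (only finitely many coordinates enter
arr m p a j k, and it is a polynomial in them).
 * arr_continuous: induction on j.
 * persist: strict inequalities are open conditions; finitely many j <= M, k < m
   (`Filter.eventually_all_finset` / `(Set.finite_le_nat M).eventually_all`-style).
-/

open Filter Topology

namespace TR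

theorem arr_continuous (m j k : ℕ) :
    Continuous (fun x : (ℕ → ℕ → ℝ) × (ℕ → ℝ × ℝ) => arr m x.1 x.2 j k) := by
  induction j generalizing k with
  | zero =>
    by_cases hk : k < m
    · have : (fun x : (ℕ → ℕ → ℝ) × (ℕ → ℝ × ℝ) => arr m x.1 x.2 0 k) = fun x => x.2 k :=
        funext fun x => arr_zero x.1 x.2 hk
      rw [this]; fun_prop
    · have : (fun x : (ℕ → ℕ → ℝ) × (ℕ → ℝ × ℝ) => arr m x.1 x.2 0 k) = fun _ => 0 :=
        funext fun x => arr_ge x.1 x.2 0 (not_lt.mp hk)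
      rw [this]; exact continuous_const
  | succ j ih =>
    have : (fun x : (ℕ → ℕ → ℝ) × (ℕ → ℝ × ℝ) => arr m x.1 x.2 (j + 1) k)
        = fun x => ∑ i ∈ Finset.Ico k m, x.1 (j + 1) i • arr m x.1 x.2 j i :=
      funext fun x => arr_succ' x.1 x.2 j k
    rw [this]
    refine continuous_finsetSum _ fun i _ => ?_
    have h1 : Continuous (fun x : (ℕ → ℕ → ℝ) × (ℕ → ℝ × ℝ) => x.1 (j + 1) i) := by fun_prop
    exact h1.smul (ih i)

theorem D_continuous (m j k : ℕ) :
    Continuous (fun x : (ℕ → ℕ → ℝ) × (ℕ → ℝ × ℝ) => D m x.1 x.2 j k) := by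
  have h1 := arr_continuous m j k
  have h2 := arr_continuous m j (k + 1)
  unfold D br
  exact (h1.fst.mul h2.snd).sub (h1.snd.mul h2.fst)

theorem persist (m M : ℕ) (p : ℕ → ℕ → ℝ) (a : ℕ → ℝ × ℝ) :
    ∀ᶠ x : (ℕ → ℕ → ℝ) × (ℕ → ℝ × ℝ) in 𝓝 (p, a),
      (∀ j ≤ M, ∀ k < m, col m p a j k ≠ 0 → col m x.1 x.2 j k = col m p a j k) ∧
      (∀ j ≤ M, ∀ k < m, (0 < (arr m p a j k).2 → 0 < (arr m x.1 x.2 j k).2) ∧
        ((arr m p a j k).2 < 0 → (arr m x.1 x.2 j k).2 < 0)) := by
  have hD : ∀ j k, Tendsto (fun x : (ℕ → ℕ → ℝ) × (ℕ → ℝ × ℝ) => D m x.1 x.2 j k)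
      (𝓝 (p, a)) (𝓝 (D m p a j k)) := fun j k => (D_continuous m j k).tendsto (p, a)
  have hA : ∀ j k, Tendsto (fun x : (ℕ → ℕ → ℝ) × (ℕ → ℝ × ℝ) => (arr m x.1 x.2 j k).2)
      (𝓝 (p, a)) (𝓝 (arr m p a j k).2) :=
    fun j k => (arr_continuous m j k).snd.tendsto (p, a)
  have h1 : ∀ j k, ∀ᶠ x : (ℕ → ℕ → ℝ) × (ℕ → ℝ × ℝ) in 𝓝 (p, a),
      col m p a j k ≠ 0 → col m x.1 x.2 j k = col m p a j k := by
    intro j k
    rcases lt_trichotomy (D m p a j k) 0 with h | h | h
    · filter_upwards [(hD j k).eventually (gt_mem_nhds h)] with x hx _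
      rw [col, col, sign_neg h, sign_neg hx]
    · refine Eventually.of_forall fun x hx => ?_
      exact absurd (by rw [col, h, sign_zero]) hx
    · filter_upwards [(hD j k).eventually (lt_mem_nhds h)] with x hx _
      rw [col, col, sign_pos h, sign_pos hx]
  have h2 : ∀ j k, ∀ᶠ x : (ℕ → ℕ → ℝ) × (ℕ → ℝ × ℝ) in 𝓝 (p, a),
      (0 < (arr m p a j k).2 → 0 < (arr m x.1 x.2 j k).2) ∧
        ((arr m p a j k).2 < 0 → (arr m x.1 x.2 j k).2 < 0) := by
    intro j k
    refine Eventually.and ?_ ?_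
    · by_cases h : 0 < (arr m p a j k).2
      · filter_upwards [(hA j k).eventually (lt_mem_nhds h)] with x hx _ using hx
      · exact Eventually.of_forall fun x hx => absurd hx h
    · by_cases h : (arr m p a j k).2 < 0
      · filter_upwards [(hA j k).eventually (gt_mem_nhds h)] with x hx _ using hx
      · exact Eventually.of_forall fun x hx => absurd hx h
  refine Eventually.and ?_ ?_
  · have := (Set.finite_Iic M).eventually_all (l := 𝓝 (p, a))
      (p := fun j (x : (ℕ → ℕ → ℝ) × (ℕ → ℝ × ℝ)) => ∀ k ∈ Set.Iio m,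
        col m p a j k ≠ 0 → col m x.1 x.2 j k = col m p a j k)
    exact this.2 fun j _ => ((Set.finite_Iio m).eventually_all).2 fun k _ => h1 j k
  · have := (Set.finite_Iic M).eventually_all (l := 𝓝 (p, a))
      (p := fun j (x : (ℕ → ℕ → ℝ) × (ℕ → ℝ × ℝ)) => ∀ k ∈ Set.Iio m,
        (0 < (arr m p a j k).2 → 0 < (arr m x.1 x.2 j k).2) ∧
        ((arr m p a j k).2 < 0 → (arr m x.1 x.2 j k).2 < 0))
    exact this.2 fun j _ => ((Set.finite_Iio m).eventually_all).2 fun k _ => h2 j k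

theorem ev_continuous {n : ℕ} (i : ℕ) : Continuous (fun v : Fin n → ℝ => (ev v i : ℝ)) := by
  unfold ev
  split_ifs with h
  · exact continuous_apply (⟨i, h⟩ : Fin n)
  · exact continuous_const

theorem ch_continuous (m q : ℕ) {n : ℕ} :
    Continuous (fun v : Fin n → ℝ => (ch m q v : ℕ → ℝ × ℝ)) := by
  refine continuous_pi fun k => ?_
  unfold ch
  split_ifs
  · exact (ev_continuous _).prodMk (ev_continuous _)
  · exact continuous_const
  · exact continuous_const.prodMk (ev_continuous _)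
  · exact continuous_const
  · exact continuous_const

end TR
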