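import Pool.Agent.TR.Chart
import Pool.Agent.TR.Persist

/-!
MODULE COMPACT (no solution escapes to infinity).

For w n choose a pair i < j < m with |br (a i) (a j)| maximal, a = ch m q (w n); it is >= 1 since
br (a (q-1)) (a (m-1)) = 1.  Pass to a subsequence where the pair (i,j) is constant (finitely many
pairs).  Normalise: b n k = (br (a k) (a j) / D, br (a i) (a k) / D), D = br (a i) (a j): then
b n k in [-1,1]^2, b n i = (1,0), b n j = (0,1), and b n = gl(..) a with non-zero determinant.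
Compactness of the box (pi of k < m; take b n k = 0 for k >= m): subsequence b n -> b (product
topology).  b i = (1,0), b j = (0,1), so Rk m b; Cl m q b (closed condition, Cl holds for ch),
Mk m p b (closed: D_continuous, P n -> p).  By hprp br (b (q-1)) (b (m-1)) <> 0.  The inverse
normalisation: a n k = (br (b k) (b (m-1)) / E, br (b (q-1)) (b k) / E), E = br (b (q-1)) (b (m-1))
(for b = b n: since a n (q-1) = (1,0), a n (m-1) = (0,1)), which converges as E n -> E <> 0.
So w n = coordinates of a n converge (each coordinate of w is a coordinate of some a k) to w', and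
ch m q w' = lim ch m q (w n); w' in Sol by continuity (Mk is closed).
-/

open Filter Topology

namespace TR

private lemma chq1 {m q n : ℕ} (v : Fin n → ℝ) : ch m q v (q - 1) = (1, 0) := by
  simp [ch]

private lemma chm1 {m q n : ℕ} (hq : 1 ≤ q) (hqm : q < m) (v : Fin n → ℝ) :
    ch m q v (m - 1) = (0, 1) := by
  have h1 : ¬ (m - 1 < q - 1) := by omega
  have h2 : ¬ (m - 1 = q - 1) := by omega
  simp [ch, h1, h2]

private lemma ch_ge' {m q n : ℕ} (hq : 1 ≤ q) (hqm : q < m) (v : Fin n → ℝ) {k : ℕ}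
    (hk : m ≤ k) : ch m q v k = 0 := by
  have h1 : ¬ (k < q - 1) := by omega
  have h2 : ¬ (k = q - 1) := by omega
  have h3 : ¬ (k < m - 1) := by omega
  have h4 : ¬ (k = m - 1) := by omega
  simp [ch, h1, h2, h3, h4]

private lemma ch_top' {m q n : ℕ} (hq : 1 ≤ q) (v : Fin n → ℝ) {k : ℕ}
    (hk : q ≤ k) : (ch m q v k).1 = 0 := by
  have h1 : ¬ (k < q - 1) := by omega
  have h2 : ¬ (k = q - 1) := by omega
  unfold ch
  rw [if_neg h1, if_neg h2]
  split_ifs <;> simp

/-- every unknown is a coordinate of some column -/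
private lemma coord {m q : ℕ} (hq : 1 ≤ q) (hqm : q < m) (i : Fin (Nn m q)) :
    ∃ k, (∀ v : Fin (Nn m q) → ℝ, (ch m q v k).1 = v i) ∨
      (∀ v : Fin (Nn m q) → ℝ, (ch m q v k).2 = v i) := by
  have hi : (i : ℕ) < m + q - 3 := i.2
  rcases Nat.lt_or_ge (i : ℕ) (2 * (q - 1)) with h | h
  · rcases Nat.even_or_odd' (i : ℕ) with ⟨c, hc | hc⟩
    · refine ⟨c, Or.inl fun v => ?_⟩
      have h1 : c < q - 1 := by omega
      have h2 : 2 * c < Nn m q := by rw [← hc]; exact i.2
      simp only [ch, h1, if_true, ev, h2, dif_pos]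
      congr 1
      exact Fin.ext hc.symm
    · refine ⟨c, Or.inr fun v => ?_⟩
      have h1 : c < q - 1 := by omega
      have h2 : 2 * c + 1 < Nn m q := by rw [← hc]; exact i.2
      simp only [ch, h1, if_true, ev, h2, dif_pos]
      congr 1
      exact Fin.ext hc.symm
  · refine ⟨q + (i - 2 * (q - 1)), Or.inr fun v => ?_⟩
    have h1 : ¬ (q + (i - 2 * (q - 1)) < q - 1) := by omega
    have h2 : ¬ (q + (i - 2 * (q - 1)) = q - 1) := by omega
    have h3 : q + (i - 2 * (q - 1)) < m - 1 := by omega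
    have h4 : 2 * (q - 1) + (q + (i - 2 * (q - 1)) - q) = (i : ℕ) := by omega
    have h5 : 2 * (q - 1) + (q + (i - 2 * (q - 1)) - q) < Nn m q := by rw [h4]; exact i.2
    simp only [ch, h1, h2, h3, if_true, if_false, ev, h5, dif_pos]
    congr 1
    exact Fin.ext h4

/-- the normalisation of one column system -/
private lemma normal {m q : ℕ} (hq : 1 ≤ q) (hqm : q < m) (p : ℕ → ℕ → ℝ)
    (v : Fin (Nn m q) → ℝ) (hv : v ∈ Sol ℝ m q p) :
    ∃ b : ℕ → ℝ × ℝ, (∀ k, b k ∈ Set.Icc ((-1 : ℝ), (-1 : ℝ)) (1, 1)) ∧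
      (∃ i ∈ Finset.range m, ∃ j ∈ Finset.range m, b i = (1, 0) ∧ b j = (0, 1)) ∧
      Cl m q b ∧ Mk m p b (Nn m q) ∧ br (b (q - 1)) (b (m - 1)) ≠ 0 ∧
      ∀ k, ch m q v k = (br (b k) (b (m - 1)) / br (b (q - 1)) (b (m - 1)),
        br (b (q - 1)) (b k) / br (b (q - 1)) (b (m - 1))) := by
  classical
  set a : ℕ → ℝ × ℝ := ch m q v with ha
  have haq : a (q - 1) = (1, 0) := chq1 v
  have ham : a (m - 1) = (0, 1) := chm1 hq hqm v
  obtain ⟨x, hx, hmax⟩ := Finset.exists_max_image (Finset.range m ×ˢ Finset.range m)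
    (fun x : ℕ × ℕ => |br (a x.1) (a x.2)|)
    ⟨(q - 1, m - 1), by
      rw [Finset.mem_product, Finset.mem_range, Finset.mem_range]
      constructor <;> dsimp only <;> omega⟩
  obtain ⟨i, j⟩ := x
  rw [Finset.mem_product] at hx
  obtain ⟨hi, hj⟩ := hx
  dsimp only at hi hj hmax
  set D0 := br (a i) (a j) with hD0
  have hD1 : 1 ≤ |D0| := by
    have := hmax (q - 1, m - 1) (by
      rw [Finset.mem_product, Finset.mem_range, Finset.mem_range]
      constructor <;> dsimp only <;> omega)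
    dsimp only at this
    rw [haq, ham] at this
    simpa [br] using this
  have hDne : D0 ≠ 0 := by
    intro h
    rw [h] at hD1
    simp at hD1
    linarith
  set α := (a j).2 / D0 with hα
  set β := -(a j).1 / D0 with hβ
  set γ := -(a i).2 / D0 with hγ
  set δ := (a i).1 / D0 with hδ
  have hdet : α * δ - β * γ = 1 / D0 := by
    rw [hα, hβ, hγ, hδ]
    have : (a i).1 * (a j).2 - (a i).2 * (a j).1 = D0 := rfl
    field_simp
    linarith
  have hdet0 : α * δ - β * γ ≠ 0 := by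
    rw [hdet]
    exact one_div_ne_zero hDne
  have hb : ∀ k, gl α β γ δ (a k) = (br (a k) (a j) / D0, br (a i) (a k) / D0) := by
    intro k
    simp only [gl, br, hα, hβ, hγ, hδ]
    ext
    · simp only
      ring
    · simp only
      ring
  have hbr : ∀ k l, br (gl α β γ δ (a k)) (gl α β γ δ (a l)) = (1 / D0) * br (a k) (a l) := by
    intro k l
    rw [br_gl, hdet]
  have hle : ∀ k l, |br (a k) (a l)| ≤ |D0| := by
    intro k l
    by_cases hk : k < m
    · by_cases hl : l < m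
      · exact hmax (k, l) (by
          rw [Finset.mem_product]
          exact ⟨Finset.mem_range.2 hk, Finset.mem_range.2 hl⟩)
      · rw [show a l = 0 from ch_ge' hq hqm v (not_lt.1 hl), br_zero_right, abs_zero]
        positivity
    · rw [show a k = 0 from ch_ge' hq hqm v (not_lt.1 hk), br_zero_left, abs_zero]
      positivity
  have hle1 : ∀ k l, |br (a k) (a l) / D0| ≤ 1 := by
    intro k l
    rw [abs_div, div_le_one (by linarith)]
    exact hle k l
  refine ⟨fun k => gl α β γ δ (a k), ?_, ⟨i, hi, j, hj, ?_, ?_⟩, ?_, ?_, ?_, ?_⟩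
  · intro k
    dsimp only
    rw [hb k]
    have h1 := abs_le.1 (hle1 k j)
    have h2 := abs_le.1 (hle1 i k)
    exact ⟨⟨h1.1, h2.1⟩, ⟨h1.2, h2.2⟩⟩
  · dsimp only
    rw [hb i, br_self, ← hD0, div_self hDne, zero_div]
  · dsimp only
    rw [hb j, br_self, ← hD0, div_self hDne, zero_div]
  · intro k l hk hkl hl
    dsimp only
    rw [hbr]
    have h1 : (a k).1 = 0 := ch_top' hq v hk
    have h2 : (a l).1 = 0 := ch_top' hq v (hk.trans hkl.le)
    simp [br, h1, h2]
  · exact (mk_gl p hdet0 a _).2 hv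
  · dsimp only
    rw [hbr, haq, ham]
    simp [br, hDne]
  · intro k
    dsimp only
    rw [hbr, hbr, hbr, haq, ham]
    simp only [br]
    ext
    · simp only
      field_simp
      ring
    · simp only
      field_simp
      ring

private lemma tD (m j : ℕ) {F : ℕ → ℕ → ℕ → ℝ} {p : ℕ → ℕ → ℝ} {G : ℕ → ℕ → ℝ × ℝ}
    {b : ℕ → ℝ × ℝ} (h1 : Tendsto F atTop (𝓝 p)) (h2 : Tendsto G atTop (𝓝 b))
    (h0 : ∀ n, D m (F n) (G n) j 0 = 0) : D m p b j 0 = 0 := by
  have h3 : Tendsto (fun n => D m (F n) (G n) j 0) atTop (𝓝 (D m p b j 0)) :=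
    ((D_continuous m j 0).tendsto (p, b)).comp (h1.prodMk_nhds h2)
  have h4 : (fun n => D m (F n) (G n) j 0) = fun _ => (0 : ℝ) := funext h0
  rw [h4] at h3
  exact tendsto_nhds_unique h3 tendsto_const_nhds

theorem proper_seq {m q : ℕ} (hq : 1 ≤ q) (hqm : q < m) (P : ℕ → ℕ → ℕ → ℝ)
    (p : ℕ → ℕ → ℝ) (hlim : Tendsto P atTop (𝓝 p)) (hprp : Prp ℝ m q p)
    (w : ℕ → Fin (Nn m q) → ℝ) (hw : ∀ n, w n ∈ Sol ℝ m q (P n)) :
    ∃ φ : ℕ → ℕ, StrictMono φ ∧ ∃ w' ∈ Sol ℝ m q p, Tendsto (w ∘ φ) atTop (𝓝 w') := by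
  classical
  choose B hBox hUnit hCl hMk hne hch using fun n => normal hq hqm (P n) (w n) (hw n)
  have hK : IsCompact (Set.pi Set.univ
      (fun _ : ℕ => Set.Icc ((-1 : ℝ), (-1 : ℝ)) ((1 : ℝ), (1 : ℝ)))) :=
    isCompact_univ_pi fun _ => isCompact_Icc
  obtain ⟨b, hbK, φ, hφ, hb⟩ := hK.tendsto_subseq (x := B) (fun n => fun k _ => hBox n k)
  have hbk : ∀ k, Tendsto (fun n => B (φ n) k) atTop (𝓝 (b k)) := fun k =>
    (tendsto_pi_nhds.1 hb) k
  have hPφ : Tendsto (fun n => P (φ n)) atTop (𝓝 p) := hlim.comp hφ.tendsto_atTop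
  have hbrc : Continuous (fun x : (ℝ × ℝ) × (ℝ × ℝ) => br x.1 x.2) := by
    unfold br
    fun_prop
  have hbr : ∀ k l, Tendsto (fun n => br (B (φ n) k) (B (φ n) l)) atTop (𝓝 (br (b k) (b l))) := by
    intro k l
    have := (hbrc.tendsto (b k, b l)).comp ((hbk k).prodMk_nhds (hbk l))
    exact this
  -- rank two
  have hC : IsClosed (⋃ i ∈ Finset.range m, ⋃ j ∈ Finset.range m,
      {c : ℕ → ℝ × ℝ | c i = (1, 0) ∧ c j = (0, 1)}) := by
    refine isClosed_biUnion_finset fun i _ => isClosed_biUnion_finset fun j _ => ?_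
    exact (isClosed_eq (continuous_apply i) continuous_const).inter
      (isClosed_eq (continuous_apply j) continuous_const)
  have hbC : b ∈ ⋃ i ∈ Finset.range m, ⋃ j ∈ Finset.range m,
      {c : ℕ → ℝ × ℝ | c i = (1, 0) ∧ c j = (0, 1)} := by
    refine hC.mem_of_tendsto hb (Eventually.of_forall fun n => ?_)
    obtain ⟨i, hi, j, hj, h⟩ := hUnit (φ n)
    simp only [Set.mem_iUnion]
    exact ⟨i, hi, j, hj, h⟩
  simp only [Set.mem_iUnion] at hbC
  obtain ⟨i, hi, j, hj, hbi, hbj⟩ := hbC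
  have hRk : Rk m b := by
    have hij : i ≠ j := by
      intro h
      rw [h, hbj] at hbi
      simp at hbi
    rcases lt_or_gt_of_ne hij with h | h
    · refine ⟨i, j, h, Finset.mem_range.1 hj, ?_⟩
      rw [hbi, hbj]
      simp [br]
    · refine ⟨j, i, h, Finset.mem_range.1 hi, ?_⟩
      rw [hbi, hbj]
      simp [br]
  have hClb : Cl m q b := by
    intro k l hk hkl hl
    have h1 := hbr k l
    have h2 : (fun n => br (B (φ n) k) (B (φ n) l)) = fun _ => (0 : ℝ) :=
      funext fun n => hCl (φ n) k l hk hkl hl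
    rw [h2] at h1
    exact (tendsto_nhds_unique h1 tendsto_const_nhds)
  have hMkb : Mk m p b (Nn m q) := by
    intro l hl
    exact tD m (3 * l + 3) hPφ hb fun n => hMk (φ n) l hl
  have hE := hprp b hRk hClb hMkb
  -- convergence of the columns
  have hcol1 : ∀ k, Tendsto (fun n => (ch m q (w (φ n)) k).1) atTop
      (𝓝 (br (b k) (b (m - 1)) / br (b (q - 1)) (b (m - 1)))) := by
    intro k
    have h1 := (hbr k (m - 1)).div (hbr (q - 1) (m - 1)) hE
    refine h1.congr fun n => ?_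
    simp only [Pi.div_apply, hch (φ n) k]
  have hcol2 : ∀ k, Tendsto (fun n => (ch m q (w (φ n)) k).2) atTop
      (𝓝 (br (b (q - 1)) (b k) / br (b (q - 1)) (b (m - 1)))) := by
    intro k
    have h1 := (hbr (q - 1) k).div (hbr (q - 1) (m - 1)) hE
    refine h1.congr fun n => ?_
    simp only [Pi.div_apply, hch (φ n) k]
  have hcoord : ∀ l : Fin (Nn m q), ∃ y : ℝ, Tendsto (fun n => w (φ n) l) atTop (𝓝 y) := by
    intro l
    obtain ⟨k, h | h⟩ := coord hq hqm l
    · refine ⟨_, (hcol1 k).congr fun n => h (w (φ n))⟩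
    · refine ⟨_, (hcol2 k).congr fun n => h (w (φ n))⟩
  choose w' hw' using hcoord
  have hwlim : Tendsto (w ∘ φ) atTop (𝓝 w') := tendsto_pi_nhds.2 hw'
  refine ⟨φ, hφ, w', ?_, hwlim⟩
  intro l hl
  have h0 : Tendsto (fun n => ch m q (w (φ n))) atTop (𝓝 (ch m q w')) :=
    ((ch_continuous m q).tendsto w').comp hwlim
  exact tD m (3 * l + 3) hPφ h0 fun n => hw (φ n) l hl

end TR
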