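import Mathlib

/-!
MODULE IFT.

G (th, v) = (th, F (th, v)) : R x E -> R x E' has strict derivative (C^1) at (th0, v0), which is
injective by hnd (if G'(dth, t) = 0 then dth = 0 and F'(0, t) = 0), and dim (R x E) = dim (R x E'),
so it is an equivalence (LinearEquiv.ofInjectiveEndo-like: `LinearMap.linearEquivOfInjective`,
`ContinuousLinearEquiv.ofBijective` / `LinearEquiv.toContinuousLinearEquiv`).
`HasStrictFDerivAt.map_nhds_eq_of_equiv`: map G (nhds (th0,v0)) = nhds (th0, 0).  So the image under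
G of (everything) x U contains a neighbourhood of (th0, 0), in particular (th, 0) for th close to
th0: (th, 0) = G (th', v) means th' = th, F (th, v) = 0, v in U.
-/

open Filter Topology

namespace TR

theorem ift {E E' : Type*} [NormedAddCommGroup E] [NormedSpace ℝ E] [FiniteDimensional ℝ E]
    [NormedAddCommGroup E'] [NormedSpace ℝ E'] [FiniteDimensional ℝ E']
    (hdim : Module.finrank ℝ E = Module.finrank ℝ E')
    (F : ℝ × E → E') (hF : ContDiff ℝ 1 F) (θ₀ : ℝ) (v₀ : E) (h0 : F (θ₀, v₀) = 0)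
    (hnd : ∀ t : E, fderiv ℝ F (θ₀, v₀) (0, t) = 0 → t = 0) {U : Set E} (hU : U ∈ 𝓝 v₀) :
    ∀ᶠ θ in 𝓝 θ₀, ∃ v ∈ U, F (θ, v) = 0 := by
  have h1 : HasStrictFDerivAt F (fderiv ℝ F (θ₀, v₀)) (θ₀, v₀) :=
    (hF.contDiffAt).hasStrictFDerivAt one_ne_zero
  let L : ℝ × E →L[ℝ] ℝ × E' := (ContinuousLinearMap.fst ℝ ℝ E).prod (fderiv ℝ F (θ₀, v₀))
  have h2 : HasStrictFDerivAt (fun x : ℝ × E => (x.1, F x)) L (θ₀, v₀) :=
    hasStrictFDerivAt_fst.prodMk h1
  have hinj : Function.Injective L.toLinearMap := by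
    rw [injective_iff_map_eq_zero]
    rintro ⟨s, t⟩ hst
    have hst' : (s, fderiv ℝ F (θ₀, v₀) (s, t)) = (0 : ℝ × E') := hst
    have hs : s = 0 := congrArg Prod.fst hst'
    subst hs
    have ht : t = 0 := hnd t (congrArg Prod.snd hst')
    rw [ht]
    rfl
  have hfin : Module.finrank ℝ (ℝ × E) = Module.finrank ℝ (ℝ × E') := by
    rw [Module.finrank_prod, Module.finrank_prod, hdim]
  let e : (ℝ × E) ≃L[ℝ] (ℝ × E') :=
    (LinearMap.linearEquivOfInjective L.toLinearMap hinj hfin).toContinuousLinearEquiv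
  have he : (e : ℝ × E →L[ℝ] ℝ × E') = L := by
    ext x <;> rfl
  rw [← he] at h2
  have h3 := h2.map_nhds_eq_of_equiv
  have h4 : (Set.univ ×ˢ U : Set (ℝ × E)) ∈ 𝓝 (θ₀, v₀) := prod_mem_nhds Filter.univ_mem hU
  have h5 : (fun x : ℝ × E => (x.1, F x)) '' (Set.univ ×ˢ U) ∈ 𝓝 ((θ₀, (0 : E')) : ℝ × E') := by
    have h6 := Filter.image_mem_map (m := fun x : ℝ × E => (x.1, F x)) h4
    rw [h3] at h6
    simpa [h0] using h6
  have h7 : Filter.Tendsto (fun θ : ℝ => ((θ, (0 : E')) : ℝ × E')) (𝓝 θ₀) (𝓝 (θ₀, 0)) := by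
    apply Continuous.tendsto
    fun_prop
  filter_upwards [h7 h5] with θ hθ
  obtain ⟨⟨θ', v⟩, ⟨-, hv⟩, hx⟩ := hθ
  have hθ' : θ' = θ := congrArg Prod.fst hx
  subst hθ'
  exact ⟨v, hv, congrArg Prod.snd hx⟩

end TR
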