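import Pool.Agent.TR.LocDefs

/-!
MODULE GENE (existence of generic functionals).

All four statements: take e = u + s w with s > 0 outside a finite set.  For a vector v the
function s -> br v u + s br v w vanishes for all s only if br v u = br v w = 0, i.e. v = 0 when
u, w are independent; otherwise it has at most one zero.
 * exists_gen: u = (1,0), w = (0,1).
 * exists_sep: u = Q, w = R: br Q e = s br Q R, br R e = - br Q R, opposite signs for s > 0.
 * exists_nsep: u = -Q, w = B: br Q e = s br Q B, br B e = - br B Q = br Q B.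
 * exists_near: if v = 0 then G is empty (exists_gen); else u = v, w = (-v.2, v.1) and s > 0 small:
   br f e = br f v + s br f w has the sign of br f v for the finitely many f in G.
-/

namespace TR

/-- the one-parameter family -/
theorem genE_family (F : Finset (ℝ × ℝ)) {u w : ℝ × ℝ} (h : br u w ≠ 0) {δ : ℝ} (hδ : 0 < δ) :
    ∃ s : ℝ, 0 < s ∧ s < δ ∧ ∀ v ∈ F, Gn (u + s • w) v := by
  classical
  suffices hsuf : ∃ s : ℝ, 0 < s ∧ s < δ ∧ ∀ v ∈ F, v ≠ 0 → br v (u + s • w) ≠ 0 by
    obtain ⟨s, h1, h2, h3⟩ := hsuf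
    exact ⟨s, h1, h2, fun v hv h0 => by
      by_contra hne
      exact h3 v hv hne h0⟩
  obtain ⟨s, hs, hs'⟩ := (Set.Ioo_infinite hδ).exists_notMem_finset
    (F.image fun v => - br v u / br v w)
  refine ⟨s, hs.1, hs.2, ?_⟩
  intro v hv hv0 h0
  rw [br_add_right, br_mul_right] at h0
  by_cases hw : br v w = 0
  · rw [hw, mul_zero, add_zero] at h0
    apply hv0
    unfold br at h0 hw h
    have e1 : v.1 * (u.1 * w.2 - u.2 * w.1) = 0 := by linear_combination -w.1 * h0 + u.1 * hw
    have e2 : v.2 * (u.1 * w.2 - u.2 * w.1) = 0 := by linear_combination -w.2 * h0 + u.2 * hw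
    have e3 := (mul_eq_zero.1 e1).resolve_right h
    have e4 := (mul_eq_zero.1 e2).resolve_right h
    exact Prod.ext e3 e4
  · apply hs'
    rw [Finset.mem_image]
    refine ⟨v, hv, ?_⟩
    rw [div_eq_iff hw]
    linarith

theorem exists_gen (F : Finset (ℝ × ℝ)) : ∃ e : ℝ × ℝ, ∀ v ∈ F, Gn e v := by
  obtain ⟨s, -, -, hs⟩ := genE_family F (u := (1, 0)) (w := (0, 1)) (by simp [br]) one_pos
  exact ⟨_, fun v hv => hs v hv⟩

theorem exists_sep (F : Finset (ℝ × ℝ)) {Q R : ℝ × ℝ} (h : br Q R ≠ 0) :
    ∃ e : ℝ × ℝ, (∀ v ∈ F, Gn e v) ∧ br Q e * br R e < 0 := by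
  obtain ⟨s, hs0, -, hs⟩ := genE_family F (u := Q) (w := R) h one_pos
  refine ⟨_, fun v hv => hs v hv, ?_⟩
  have h1 : 0 < br Q R ^ 2 := by positivity
  have e1 : br Q (Q + s • R) = s * br Q R := by
    rw [br_add_right, br_self, zero_add, br_mul_right]
  have e2 : br R (Q + s • R) = - br Q R := by
    rw [br_add_right, br_mul_right, br_self, mul_zero, add_zero, br_comm]
  rw [e1, e2]
  nlinarith

theorem exists_nsep (F : Finset (ℝ × ℝ)) {Q B : ℝ × ℝ} (h : br Q B ≠ 0) :
    ∃ e : ℝ × ℝ, (∀ v ∈ F, Gn e v) ∧ 0 < br Q e * br B e := by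
  have hne : br (-Q) B ≠ 0 := by
    have : br (-Q) B = - br Q B := by simp [br]; ring
    rw [this]
    exact neg_ne_zero.2 h
  obtain ⟨s, hs0, -, hs⟩ := genE_family F (u := -Q) (w := B) hne one_pos
  refine ⟨_, fun v hv => hs v hv, ?_⟩
  have h1 : 0 < br Q B ^ 2 := by positivity
  have e1 : br Q (-Q + s • B) = s * br Q B := by
    simp [br]; ring
  have e2 : br B (-Q + s • B) = br Q B := by
    simp [br]; ring
  rw [e1, e2]
  nlinarith

theorem exists_near (F G : Finset (ℝ × ℝ)) (v : ℝ × ℝ) (h : ∀ f ∈ G, br f v ≠ 0) :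
    ∃ e : ℝ × ℝ, (∀ v ∈ F, Gn e v) ∧
      ∀ f ∈ G, SignType.sign (br f e) = SignType.sign (br f v) := by
  classical
  by_cases hv : v = 0
  · obtain ⟨e, he⟩ := exists_gen F
    refine ⟨e, he, ?_⟩
    intro f hf
    exact absurd (by rw [hv, br_zero_right]) (h f hf)
  · set w : ℝ × ℝ := (-v.2, v.1) with hw
    have hvw : br v w ≠ 0 := by
      rw [hw]
      unfold br
      simp only
      intro h0
      apply hv
      have h1 : v.1 ^ 2 + v.2 ^ 2 = 0 := by linarith
      have h2 : v.1 ^ 2 = 0 := by nlinarith [sq_nonneg v.1, sq_nonneg v.2]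
      have h3 : v.2 ^ 2 = 0 := by nlinarith [sq_nonneg v.1, sq_nonneg v.2]
      exact Prod.ext (pow_eq_zero_iff two_ne_zero |>.1 h2) (pow_eq_zero_iff two_ne_zero |>.1 h3)
    -- a common small bound
    obtain ⟨δ, hδ, hδG⟩ : ∃ δ : ℝ, 0 < δ ∧ ∀ f ∈ G, δ * |br f w| < |br f v| := by
      induction G using Finset.induction_on with
      | empty => exact ⟨1, one_pos, by simp⟩
      | insert f G hfG ih =>
        obtain ⟨δ, hδ, hδG⟩ := ih fun f hf => h f (Finset.mem_insert_of_mem hf)
        have hf0 : 0 < |br f v| := abs_pos.2 (h f (Finset.mem_insert_self _ _))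
        refine ⟨min δ (|br f v| / (|br f w| + 1)), lt_min hδ (by positivity), ?_⟩
        intro g hg
        rcases Finset.mem_insert.1 hg with rfl | hg
        · calc min δ (|br g v| / (|br g w| + 1)) * |br g w|
              ≤ |br g v| / (|br g w| + 1) * |br g w| := by
                gcongr
                exact min_le_right _ _
            _ < |br g v| := by
                rw [div_mul_eq_mul_div, div_lt_iff₀ (by positivity)]
                nlinarith
        · calc min δ (|br f v| / (|br f w| + 1)) * |br g w| ≤ δ * |br g w| := by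
                gcongr
                exact min_le_left _ _
            _ < |br g v| := hδG g hg
    obtain ⟨s, hs0, hsδ, hs⟩ := genE_family F (u := v) (w := w) hvw hδ
    refine ⟨_, fun v hv => hs v hv, ?_⟩
    intro f hf
    rw [br_add_right, br_mul_right]
    have h1 := hδG f hf
    have h2 : |s * br f w| < |br f v| := by
      rw [abs_mul, abs_of_pos hs0]
      refine lt_of_le_of_lt ?_ h1
      gcongr
    rcases lt_or_gt_of_ne (h f hf) with h3 | h3
    · rw [sign_neg h3, sign_neg]
      rw [abs_of_neg h3] at h2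
      linarith [(abs_lt.1 h2).2]
    · rw [sign_pos h3, sign_pos]
      rw [abs_of_pos h3] at h2
      linarith [(abs_lt.1 h2).1]

end TR
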