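import Pool.Agent.TR.LocDefs

/-!
MODULE LOC1 (local inequality in the plane).

Only signs matter. Put x = br P Q, y = br Q B, z = br P R (note br R B = t * br Q B and
br Q R = br Q B = y since R = t Q + B).  For every functional e:
  (1) br R e = t * br Q e + br B e,
  (2) y * br P e - z * br Q e + x * br R e = 0   (three term relation).
The sign facts are collected in `PC` (positive combinations) and the final inequalities are checked
on signs.
-/

namespace TR

/-- Doubled crossing number on signs. -/
def loc1_hs (a b : SignType) : ℕ :=
  if a * b = -1 then 2 else if a * b = 1 then 0 else if a = 0 ∧ b = 0 then 2 else 1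

/-- `c` can be the sign of a positive combination of numbers of signs `a`, `b`. -/
def loc1_PC (a b c : SignType) : Prop := (a = b → c = a) ∧ (a = 0 → c = b) ∧ (b = 0 → c = a)

instance (a b c : SignType) : Decidable (loc1_PC a b c) := by
  unfold loc1_PC
  infer_instance

theorem loc1_hh (a b : ℝ) : hh a b = loc1_hs (SignType.sign a) (SignType.sign b) := by
  unfold hh
  rcases lt_trichotomy a 0 with ha | ha | ha <;> rcases lt_trichotomy b 0 with hb | hb | hb
  · rw [sign_neg ha, sign_neg hb, if_neg (by nlinarith), if_pos (by nlinarith)]; rfl
  · subst hb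
    rw [sign_neg ha, sign_zero, if_neg (by simp), if_neg (by simp), if_neg (by simp [ha.ne])]; rfl
  · rw [sign_neg ha, sign_pos hb, if_pos (by nlinarith)]; rfl
  · subst ha
    rw [sign_neg hb, sign_zero, if_neg (by simp), if_neg (by simp), if_neg (by simp [hb.ne])]; rfl
  · subst ha
    subst hb
    rw [sign_zero, if_neg (by simp), if_neg (by simp), if_pos (by simp)]; rfl
  · subst ha
    rw [sign_pos hb, sign_zero, if_neg (by simp), if_neg (by simp), if_neg (by simp [hb.ne'])]; rfl
  · rw [sign_pos ha, sign_neg hb, if_pos (by nlinarith)]; rfl
  · subst hb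
    rw [sign_pos ha, sign_zero, if_neg (by simp), if_neg (by simp), if_neg (by simp [ha.ne'])]; rfl
  · rw [sign_pos ha, sign_pos hb, if_neg (by nlinarith), if_pos (by nlinarith)]; rfl

theorem loc1_comb {s u q b r : ℝ} (hs : 0 < s) (hu : 0 < u) (h : r = s * q + u * b) :
    loc1_PC (SignType.sign q) (SignType.sign b) (SignType.sign r) := by
  subst h
  unfold loc1_PC
  rcases lt_trichotomy q 0 with hq | hq | hq <;> rcases lt_trichotomy b 0 with hb | hb | hb
  · have h1 : s * q < 0 := mul_neg_of_pos_of_neg hs hq
    have h2 : u * b < 0 := mul_neg_of_pos_of_neg hu hb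
    rw [sign_neg hq, sign_neg hb, sign_neg (by linarith)]; decide
  · subst hb
    have h1 : s * q < 0 := mul_neg_of_pos_of_neg hs hq
    rw [sign_neg hq, sign_zero, sign_neg (by linarith)]; decide
  · rw [sign_neg hq, sign_pos hb]
    refine ⟨fun h => absurd h (by decide), fun h => absurd h (by decide),
      fun h => absurd h (by decide)⟩
  · subst hq
    have h2 : u * b < 0 := mul_neg_of_pos_of_neg hu hb
    rw [sign_neg hb, sign_zero, sign_neg (by linarith)]; decide
  · subst hq
    subst hb
    simp
  · subst hq
    have h2 : 0 < u * b := mul_pos hu hb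
    rw [sign_pos hb, sign_zero, sign_pos (by linarith)]; decide
  · rw [sign_pos hq, sign_neg hb]
    refine ⟨fun h => absurd h (by decide), fun h => absurd h (by decide),
      fun h => absurd h (by decide)⟩
  · subst hb
    have h1 : 0 < s * q := mul_pos hs hq
    rw [sign_pos hq, sign_zero, sign_pos (by linarith)]; decide
  · have h1 : 0 < s * q := mul_pos hs hq
    have h2 : 0 < u * b := mul_pos hu hb
    rw [sign_pos hq, sign_pos hb, sign_pos (by linarith)]; decide

theorem loc1_A : ∀ p q b r : SignType, loc1_PC q b r →
    loc1_hs p r + loc1_hs r b ≤ loc1_hs p q + loc1_hs q b := by decide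

theorem loc1_B : ∀ q b r : SignType, loc1_PC q b r → loc1_hs r b ≤ loc1_hs q b := by decide

theorem loc1_B' : ∀ p q r : SignType, loc1_PC q p r → loc1_hs p r ≤ loc1_hs p q := by decide

theorem loc1_le : ∀ a b : SignType, loc1_hs a b ≤ 2 := by decide

theorem loc1_C' : ∀ p q b r : SignType, (p ≠ 0 ∧ q ≠ 0 ∧ b ≠ 0 ∧ r ≠ 0 ∧ loc1_PC q b r ∧
    ¬ (p = q ∧ q = r)) → 2 + loc1_hs r b ≤ loc1_hs p q + loc1_hs q b := by decide

theorem loc1_C (p q b r : SignType) (h1 : p ≠ 0) (h2 : q ≠ 0) (h3 : b ≠ 0) (h4 : r ≠ 0)
    (h5 : loc1_PC q b r) (h6 : ¬ (p = q ∧ q = r)) :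
    2 + loc1_hs r b ≤ loc1_hs p q + loc1_hs q b :=
  loc1_C' p q b r ⟨h1, h2, h3, h4, h5, h6⟩

theorem loc1_D' : ∀ p q b r : SignType, (q ≠ 0 ∧ b ≠ 0 ∧ r ≠ 0 ∧ loc1_PC q b r ∧ loc1_PC q r p) →
    loc1_hs p r + loc1_hs r b ≤ loc1_hs q b := by decide

theorem loc1_D (p q b r : SignType) (h1 : q ≠ 0) (h2 : b ≠ 0) (h3 : r ≠ 0) (h4 : loc1_PC q b r)
    (h5 : loc1_PC q r p) : loc1_hs p r + loc1_hs r b ≤ loc1_hs q b :=
  loc1_D' p q b r ⟨h1, h2, h3, h4, h5⟩

theorem loc1_E : ∀ q b r : SignType, q ≠ 0 → r = - q → loc1_PC q b r →
    2 + loc1_hs r b ≤ loc1_hs q b := by decide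

theorem loc1_F : ∀ a : SignType, a ≠ 0 → loc1_hs a a = 0 ∧ loc1_hs a (-a) = 2 ∧
    loc1_hs (-a) a = 2 := by decide

theorem loc1_three (u v w e : ℝ × ℝ) :
    br u v * br w e - br u w * br v e + br v w * br u e = 0 := by
  simp only [br]
  ring

/-- The value of a zero cell does not depend on the generic functional. -/
theorem cv_zero {u v e e' : ℝ × ℝ} (h : br u v = 0) (h1 : Gn e u) (h2 : Gn e v) (h3 : Gn e' u)
    (h4 : Gn e' v) : cv e u v = cv e' u v := by
  unfold cv
  have hz : ∀ f : ℝ × ℝ, br (0 : ℝ × ℝ) f = 0 := by
    intro f
    simp [br]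
  by_cases hu : u = 0
  · subst hu
    rw [hz, hz]
    by_cases hv : v = 0
    · subst hv
      rw [hz, hz]
    · have a1 : br v e ≠ 0 := fun hc => hv (h2 hc)
      have a2 : br v e' ≠ 0 := fun hc => hv (h4 hc)
      unfold hh
      simp [a1, a2]
  · have a1 : br u e ≠ 0 := fun hc => hu (h1 hc)
    have a2 : br u e' ≠ 0 := fun hc => hu (h3 hc)
    by_cases hv : v = 0
    · subst hv
      rw [hz, hz]
      unfold hh
      simp [a1, a2]
    · have b1 : br v e ≠ 0 := fun hc => hv (h2 hc)
      have b2 : br v e' ≠ 0 := fun hc => hv (h4 hc)
      have key : br u e * br v e' = br u e' * br v e := by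
        have := loc1_three u v e e'
        rw [h, zero_mul] at this
        have h5 : br v e * br u e' = br u e * br v e' := by linarith
        linarith
      have hpos : 0 < (br u e * br v e) * (br u e' * br v e') := by
        have h6 : (br u e * br v e) * (br u e' * br v e') = (br u e * br v e') ^ 2 := by
          calc (br u e * br v e) * (br u e' * br v e') =
              (br u e * br v e') * (br u e' * br v e) := by ring
            _ = (br u e * br v e') ^ 2 := by rw [← key]; ring
        rw [h6]
        positivity
      unfold hh
      rcases lt_or_gt_of_ne (mul_ne_zero a1 b1) with hneg | hp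
      · have h7 : br u e' * br v e' < 0 := by
          by_contra hc
          push Not at hc
          nlinarith
        rw [if_pos hneg, if_pos h7]
      · have h7 : 0 < br u e' * br v e' := by
          by_contra hc
          push Not at hc
          nlinarith
        rw [if_neg hp.not_gt, if_pos hp, if_neg h7.not_gt, if_pos h7]

/-- Local inequality. `X = (P,Q)`, `Y = (Q,B)` and later `(R,B)`, `Z = (P,R)`. -/
theorem loc1 {P Q B R eX eY eZ : ℝ × ℝ} {t : ℝ} (ht : 0 < t) (hR : R = t • Q + B)
    (gX : Gn eX P ∧ Gn eX Q ∧ Gn eX B ∧ Gn eX R) (gY : Gn eY P ∧ Gn eY Q ∧ Gn eY B ∧ Gn eY R)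
    (gZ : Gn eZ P ∧ Gn eZ Q ∧ Gn eZ B ∧ Gn eZ R)
    (hXY : 0 < br P Q * br Q B → eX = eY) (hXZ : 0 < br P Q * br P R → eX = eZ)
    (hYZ : 0 < br Q B * br P R → eY = eZ) :
    cv eZ P R + cv eY R B ≤ cv eX P Q + cv eY Q B := by
  have hzl : ∀ f : ℝ × ℝ, br (0 : ℝ × ℝ) f = 0 := by
    intro f
    simp [br]
  have hzr : ∀ f : ℝ × ℝ, br f (0 : ℝ × ℝ) = 0 := by
    intro f
    simp [br]
  have e1 : ∀ f, br R f = t * br Q f + 1 * br B f := by
    intro f
    rw [hR]
    simp only [br, Prod.fst_add, Prod.snd_add, Prod.smul_fst, Prod.smul_snd, smul_eq_mul]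
    ring
  have eQR : br Q R = br Q B := by
    rw [hR]
    simp only [br, Prod.fst_add, Prod.snd_add, Prod.smul_fst, Prod.smul_snd, smul_eq_mul]
    ring
  have eRB : br R B = t * br Q B := by
    rw [e1]
    simp only [br]
    ring
  have e2 : ∀ f, br P Q * br R f - br P R * br Q f + br Q B * br P f = 0 := by
    intro f
    rw [← eQR]
    exact loc1_three P Q R f
  have pc : ∀ f, loc1_PC (SignType.sign (br Q f)) (SignType.sign (br B f))
      (SignType.sign (br R f)) := fun f => loc1_comb ht one_pos (e1 f)
  -- nonvanishing
  have nP : ∀ {f}, Gn f P → (br P Q ≠ 0 ∨ br P R ≠ 0) → SignType.sign (br P f) ≠ 0 := by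
    intro f hf hn hc
    have := hf (sign_eq_zero_iff.1 hc)
    rw [this, hzl, hzl] at hn
    exact hn.elim (fun h => h rfl) (fun h => h rfl)
  have nQ : ∀ {f}, Gn f Q → (br P Q ≠ 0 ∨ br Q B ≠ 0) → SignType.sign (br Q f) ≠ 0 := by
    intro f hf hn hc
    have := hf (sign_eq_zero_iff.1 hc)
    rw [this, hzl, hzr] at hn
    exact hn.elim (fun h => h rfl) (fun h => h rfl)
  have nR : ∀ {f}, Gn f R → (br P R ≠ 0 ∨ br Q B ≠ 0) → SignType.sign (br R f) ≠ 0 := by
    intro f hf hn hc
    have := hf (sign_eq_zero_iff.1 hc)
    rw [← eQR, this, hzr, hzr] at hn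
    exact hn.elim (fun h => h rfl) (fun h => h rfl)
  have nB : ∀ {f}, Gn f B → br Q B ≠ 0 → SignType.sign (br B f) ≠ 0 := by
    intro f hf hn hc
    have := hf (sign_eq_zero_iff.1 hc)
    rw [this, hzr] at hn
    exact hn rfl
  -- one functional
  have one : ∀ f, cv f P R + cv f R B ≤ cv f P Q + cv f Q B := by
    intro f
    simp only [cv, loc1_hh]
    exact loc1_A _ _ _ _ (pc f)
  -- replacing functionals of zero cells
  have rX : br P Q = 0 → ∀ f, Gn f P → Gn f Q → cv eX P Q = cv f P Q :=
    fun h f h1 h2 => cv_zero h gX.1 gX.2.1 h1 h2
  have rY : br Q B = 0 → ∀ f, Gn f Q → Gn f B → cv eY Q B = cv f Q B :=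
    fun h f h1 h2 => cv_zero h gY.2.1 gY.2.2.1 h1 h2
  have rY' : br Q B = 0 → ∀ f, Gn f R → Gn f B → cv eY R B = cv f R B :=
    fun h f h1 h2 => cv_zero (by rw [eRB, h, mul_zero]) gY.2.2.2 gY.2.2.1 h1 h2
  have rZ : br P R = 0 → ∀ f, Gn f P → Gn f R → cv eZ P R = cv f P R :=
    fun h f h1 h2 => cv_zero h gZ.1 gZ.2.2.2 h1 h2
  have hB : ∀ f, cv f R B ≤ cv f Q B := by
    intro f
    simp only [cv, loc1_hh]
    exact loc1_B _ _ _ (pc f)
  have h2 : ∀ f u v, cv f u v ≤ 2 := by
    intro f u v
    simp only [cv, loc1_hh]
    exact loc1_le _ _
  by_cases hx : br P Q = 0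
  · by_cases hy : br Q B = 0
    · -- x = y = 0
      rw [rX hx eZ gZ.1 gZ.2.1, rY hy eZ gZ.2.1 gZ.2.2.1, rY' hy eZ gZ.2.2.2 gZ.2.2.1]
      exact one eZ
    · by_cases hz : br P R = 0
      · rw [rX hx eY gY.1 gY.2.1, rZ hz eY gY.1 gY.2.2.2]
        exact one eY
      · rcases lt_or_gt_of_ne (mul_ne_zero hy hz) with hneg | hpos
        · -- P is a negative multiple of Q
          have hPQ : SignType.sign (br P eY) = - SignType.sign (br Q eY) := by
            have h3 := e2 eY
            rw [hx, zero_mul] at h3
            have h4 : br Q B ^ 2 * br P eY = (br Q B * br P R) * br Q eY := by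
              have : br Q B * (br Q B * br P eY) = br Q B * (br P R * br Q eY) := by
                rw [show br Q B * br P eY = br P R * br Q eY by linarith]
              linarith
            have h5 : SignType.sign (br Q B ^ 2 * br P eY) =
                SignType.sign ((br Q B * br P R) * br Q eY) := by rw [h4]
            rw [sign_mul, sign_mul, sign_pos (by positivity : (0:ℝ) < br Q B ^ 2), one_mul,
              sign_neg hneg] at h5
            rw [h5]
            simp
          have h6 : cv eX P Q = 2 := by
            rw [rX hx eY gY.1 gY.2.1]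
            simp only [cv, loc1_hh, hPQ]
            exact (loc1_F _ (nQ gY.2.1 (Or.inr hy))).2.2
          have := h2 eZ P R
          have := hB eY
          omega
        · have hyz := hYZ hpos
          subst hyz
          rw [rX hx eY gY.1 gY.2.1]
          exact one eY
  · by_cases hy : br Q B = 0
    · by_cases hz : br P R = 0
      · rw [rZ hz eX gX.1 gX.2.2.2, rY hy eX gX.2.1 gX.2.2.1, rY' hy eX gX.2.2.2 gX.2.2.1]
        exact one eX
      · rcases lt_or_gt_of_ne (mul_ne_zero hx hz) with hneg | hpos
        · -- R is a negative multiple of Q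
          have hRQ : SignType.sign (br R eY) = - SignType.sign (br Q eY) := by
            have h3 := e2 eY
            rw [hy, zero_mul] at h3
            have h4 : br P Q ^ 2 * br R eY = (br P Q * br P R) * br Q eY := by
              have : br P Q * (br P Q * br R eY) = br P Q * (br P R * br Q eY) := by
                rw [show br P Q * br R eY = br P R * br Q eY by linarith]
              linarith
            have h5 : SignType.sign (br P Q ^ 2 * br R eY) =
                SignType.sign ((br P Q * br P R) * br Q eY) := by rw [h4]
            rw [sign_mul, sign_mul, sign_pos (by positivity : (0:ℝ) < br P Q ^ 2), one_mul,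
              sign_neg hneg] at h5
            rw [h5]
            simp
          have h6 : 2 + cv eY R B ≤ cv eY Q B := by
            simp only [cv, loc1_hh]
            exact loc1_E _ _ _ (nQ gY.2.1 (Or.inl hx)) hRQ (pc eY)
          have := h2 eZ P R
          omega
        · have hxz := hXZ hpos
          subst hxz
          rw [rY hy eX gX.2.1 gX.2.2.1, rY' hy eX gX.2.2.2 gX.2.2.1]
          exact one eX
    · by_cases hz : br P R = 0
      · rcases lt_or_gt_of_ne (mul_ne_zero hx hy) with hneg | hpos
        · -- R is a positive multiple of P
          have hRP : SignType.sign (br R eZ) = SignType.sign (br P eZ) := by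
            have h3 := e2 eZ
            rw [hz, zero_mul] at h3
            have h4 : br P Q ^ 2 * br R eZ = (- (br P Q * br Q B)) * br P eZ := by
              have : br P Q * (br P Q * br R eZ) = br P Q * (- (br Q B * br P eZ)) := by
                rw [show br P Q * br R eZ = - (br Q B * br P eZ) by linarith]
              linarith
            have h5 : SignType.sign (br P Q ^ 2 * br R eZ) =
                SignType.sign ((- (br P Q * br Q B)) * br P eZ) := by rw [h4]
            rw [sign_mul, sign_mul, sign_pos (by positivity : (0:ℝ) < br P Q ^ 2), one_mul,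
              sign_pos (show (0:ℝ) < - (br P Q * br Q B) by linarith), one_mul] at h5
            exact h5
          have h6 : cv eZ P R = 0 := by
            simp only [cv, loc1_hh, hRP]
            exact (loc1_F _ (nP gZ.1 (Or.inl hx))).1
          have := hB eY
          omega
        · have hxy := hXY hpos
          subst hxy
          rw [rZ hz eX gX.1 gX.2.2.2]
          exact one eX
      · -- all three are non-zero
        rcases lt_or_gt_of_ne (mul_ne_zero hx hy) with hxy | hxy
        · rcases lt_or_gt_of_ne (mul_ne_zero hx hz) with hxz | hxz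
          · -- y, z of the same sign, x opposite
            have hyz : 0 < br Q B * br P R := by
              by_contra hc
              push Not at hc
              have : 0 < br P Q ^ 2 := by positivity
              nlinarith [mul_pos_of_neg_of_neg hxy hxz]
            have := hYZ hyz
            subst this
            have hpc : loc1_PC (SignType.sign (br Q eY)) (SignType.sign (br R eY))
                (SignType.sign (br P eY)) := by
              refine loc1_comb (s := br P R / br Q B) (u := - (br P Q / br Q B)) ?_ ?_ ?_
              · have : br P R / br Q B = (br Q B * br P R) / br Q B ^ 2 := by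
                  field_simp
                rw [this]
                positivity
              · have : - (br P Q / br Q B) = (- (br P Q * br Q B)) / br Q B ^ 2 := by
                  field_simp
                rw [this]
                have : 0 < - (br P Q * br Q B) := by linarith
                positivity
              · have h3 := e2 eY
                field_simp
                linarith
            have h6 : cv eY P R + cv eY R B ≤ cv eY Q B := by
              simp only [cv, loc1_hh]
              exact loc1_D _ _ _ _ (nQ gY.2.1 (Or.inr hy)) (nB gY.2.2.1 hy)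
                (nR gY.2.2.2 (Or.inr hy)) (pc eY) hpc
            omega
          · -- x, z of the same sign, y opposite
            have := hXZ hxz
            subst this
            have hpc : loc1_PC (SignType.sign (br Q eX)) (SignType.sign (br P eX))
                (SignType.sign (br R eX)) := by
              refine loc1_comb (s := br P R / br P Q) (u := - (br Q B / br P Q)) ?_ ?_ ?_
              · have : br P R / br P Q = (br P Q * br P R) / br P Q ^ 2 := by
                  field_simp
                rw [this]
                positivity
              · have : - (br Q B / br P Q) = (- (br P Q * br Q B)) / br P Q ^ 2 := by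
                  field_simp
                rw [this]
                have : 0 < - (br P Q * br Q B) := by linarith
                positivity
              · have h3 := e2 eX
                field_simp
                linarith
            have h6 : cv eX P R ≤ cv eX P Q := by
              simp only [cv, loc1_hh]
              exact loc1_B' _ _ _ hpc
            have := hB eY
            omega
        · have := hXY hxy
          subst this
          rcases lt_or_gt_of_ne (mul_ne_zero hx hz) with hxz | hxz
          · -- x, y of the same sign, z opposite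
            have hn : ¬ (SignType.sign (br P eX) = SignType.sign (br Q eX) ∧
                SignType.sign (br Q eX) = SignType.sign (br R eX)) := by
              rintro ⟨h3, h4⟩
              have h5 := e2 eX
              have h6 : br P Q ^ 2 * br R eX + (- (br P Q * br P R)) * br Q eX +
                  (br P Q * br Q B) * br P eX = 0 := by
                have : br P Q * (br P Q * br R eX - br P R * br Q eX + br Q B * br P eX) = 0 := by
                  rw [h5, mul_zero]
                linarith
              have c1 : 0 < br P Q ^ 2 := by positivity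
              have c2 : 0 < - (br P Q * br P R) := by linarith
              have hq0 := nQ (f := eX) gX.2.1 (Or.inl hx)
              rcases lt_trichotomy (br Q eX) 0 with hq | hq | hq
              · have hr : br R eX < 0 := by
                  rw [sign_neg hq] at h4
                  exact sign_eq_neg_one_iff.1 h4.symm
                have hp : br P eX < 0 := by
                  rw [sign_neg hq] at h3
                  exact sign_eq_neg_one_iff.1 h3
                have a1 := mul_neg_of_pos_of_neg c1 hr
                have a2 := mul_neg_of_pos_of_neg c2 hq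
                have a3 := mul_neg_of_pos_of_neg hxy hp
                linarith
              · rw [hq, sign_zero] at hq0
                exact hq0 rfl
              · have hr : 0 < br R eX := by
                  rw [sign_pos hq] at h4
                  exact sign_eq_one_iff.1 h4.symm
                have hp : 0 < br P eX := by
                  rw [sign_pos hq] at h3
                  exact sign_eq_one_iff.1 h3
                have a1 := mul_pos c1 hr
                have a2 := mul_pos c2 hq
                have a3 := mul_pos hxy hp
                linarith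
            have h6 : 2 + cv eX R B ≤ cv eX P Q + cv eX Q B := by
              simp only [cv, loc1_hh]
              exact loc1_C _ _ _ _ (nP gX.1 (Or.inl hx)) (nQ gX.2.1 (Or.inl hx))
                (nB gX.2.2.1 hy) (nR gX.2.2.2 (Or.inl hz)) (pc eX) hn
            have := h2 eZ P R
            omega
          · have := hXZ hxz
            subst this
            exact one eX

end TR
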