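import Pool.Agent.TR.LocDefs
import Pool.Agent.TR.Loc1

/-!
MODULE LOC2 (two special local inequalities).

loc2: since br Q eY and br R eY have opposite signs and br R eY = t br Q eY + br B eY, the value
br B eY has the sign of br R eY, so cv eY Q B = 2 and cv eY R B = 0.  It remains to show
cv eZ P R <= cv eX P Q.  Let y = br Q B > 0 (the case y < 0 is symmetric); then x = br P Q <= 0 and
z = br P R <= 0.
 * x, z < 0: eX = eZ =: e and y br P e - z br Q e + x br R e = 0 (`br_three`, br Q R = br Q B), so
   br R e is a positive combination of br P e and br Q e, hence hh(P,R) <= hh(P,Q).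
 * x = 0 > z: P and Q are non-zero and proportional, P = s Q, z = s br Q R = s y < 0, so s < 0 and
   cv eX P Q = 2.
 * x < 0 = z: P = s R with x = s br R Q = - s y, so s > 0 and cv eZ P R = 0.
 * x = z = 0: P = 0 (Q, R are independent), both sides are 1 (Q, R non-zero, generic).

loc3: let y = br Q R > 0 (the other case is symmetric), x = br P Q, z = br P R, all non-zero,
y br P e - z br Q e + x br R e = 0 for all e.
 * x, z > 0: eX = eZ = et and br Q et, br R et have the same sign: equality.
 * x, z < 0: eX = eZ = e, br R e is a positive combination of br P e, br Q e: hh(P,R) <= hh(P,Q).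
 * x > 0 > z: eX = et; y br P et + |z| br Q et + x br R et = 0 with br Q et, br R et of the same
   sign, so br P et has the other sign and cv eX P Q = 2.
 * x < 0 < z: eZ = et; y br P et = z br Q et + |x| br R et, so br P et has the sign of br R et and
   cv eZ P R = 0.
-/

namespace TR

theorem loc2_zl (f : ℝ × ℝ) : br (0 : ℝ × ℝ) f = 0 := by simp [br]

theorem loc2_zr (f : ℝ × ℝ) : br f (0 : ℝ × ℝ) = 0 := by simp [br]

/-- `z Q - y P = x R`, all of `x`, `-y`, `z` of one sign: `R` is a positive combination. -/
theorem loc2_mid {P Q R f : ℝ × ℝ} {y : ℝ}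
    (e2 : br P Q * br R f - br P R * br Q f + y * br P f = 0)
    (hxy : br P Q * y < 0) (hxz : 0 < br P Q * br P R) : cv f P R ≤ cv f P Q := by
  have hx : br P Q ≠ 0 := by
    intro hc
    rw [hc, zero_mul] at hxy
    exact lt_irrefl _ hxy
  have hpc : loc1_PC (SignType.sign (br Q f)) (SignType.sign (br P f))
      (SignType.sign (br R f)) := by
    refine loc1_comb (s := br P R / br P Q) (u := - (y / br P Q)) ?_ ?_ ?_
    · have : br P R / br P Q = (br P Q * br P R) / br P Q ^ 2 := by
        field_simp
      rw [this]
      positivity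
    · have : - (y / br P Q) = (- (br P Q * y)) / br P Q ^ 2 := by
        field_simp
      rw [this]
      have : 0 < - (br P Q * y) := by linarith
      positivity
    · field_simp
      linarith
  simp only [cv, loc1_hh]
  exact loc1_B' _ _ _ hpc

/-- Special drop: the lowest cell `Y` of a cluster, functional separating `Q` and `R`. -/
theorem loc2 {P Q B R eX eY eZ : ℝ × ℝ} {t : ℝ} (ht : 0 < t) (hR : R = t • Q + B)
    (gX : Gn eX P ∧ Gn eX Q ∧ Gn eX B ∧ Gn eX R) (gZ : Gn eZ P ∧ Gn eZ Q ∧ Gn eZ B ∧ Gn eZ R)
    (hXZ : 0 < br P Q * br P R → eX = eZ)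
    (hy : br Q B ≠ 0) (hx : br P Q * br Q B ≤ 0) (hz : br P R * br Q B ≤ 0)
    (hsep : br Q eY * br R eY < 0) :
    cv eZ P R + cv eY R B + 2 ≤ cv eX P Q + cv eY Q B := by
  have e1 : br R eY = t * br Q eY + br B eY := by
    rw [hR]
    simp only [br, Prod.fst_add, Prod.snd_add, Prod.smul_fst, Prod.smul_snd, smul_eq_mul]
    ring
  have eQR : br Q R = br Q B := by
    rw [hR]
    simp only [br, Prod.fst_add, Prod.snd_add, Prod.smul_fst, Prod.smul_snd, smul_eq_mul]
    ring
  have e2 : ∀ f, br P Q * br R f - br P R * br Q f + br Q B * br P f = 0 := by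
    intro f
    rw [← eQR]
    exact loc1_three P Q R f
  have hQB : cv eY Q B = 2 := by
    have h1 : br Q eY * br B eY < 0 := by
      have : br Q eY * br B eY = br Q eY * br R eY - t * br Q eY ^ 2 := by
        rw [e1]
        ring
      rw [this]
      have : 0 ≤ t * br Q eY ^ 2 := by positivity
      linarith
    unfold cv hh
    rw [if_pos h1]
  have hRB : cv eY R B = 0 := by
    have h1 : 0 < br R eY * br B eY := by
      have h3 : br R eY * br B eY = br R eY ^ 2 - t * (br Q eY * br R eY) := by
        rw [show br B eY = br R eY - t * br Q eY by linarith]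
        ring
      rw [h3]
      have h4 : 0 ≤ br R eY ^ 2 := by positivity
      have h5 : t * (br Q eY * br R eY) < 0 := mul_neg_of_pos_of_neg ht hsep
      linarith
    unfold cv hh
    rw [if_neg h1.not_gt, if_pos h1]
  have hQ0 : Q ≠ 0 := by
    intro hc
    rw [hc] at hy
    exact hy (loc2_zl _)
  have hR0 : R ≠ 0 := by
    intro hc
    rw [← eQR, hc] at hy
    exact hy (loc2_zr _)
  have h2 : ∀ f u v, cv f u v ≤ 2 := by
    intro f u v
    simp only [cv, loc1_hh]
    exact loc1_le _ _
  have key : cv eZ P R ≤ cv eX P Q := by
    by_cases hx0 : br P Q = 0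
    · by_cases hz0 : br P R = 0
      · -- P = 0
        have hP : P = 0 := by
          apply gX.1
          have h3 := e2 eX
          rw [hx0, hz0, zero_mul, zero_mul, sub_zero, zero_add] at h3
          exact (mul_eq_zero.1 h3).resolve_left hy
        have hq : br Q eX ≠ 0 := fun hc => hQ0 (gX.2.1 hc)
        have hr : br R eZ ≠ 0 := fun hc => hR0 (gZ.2.2.2 hc)
        unfold cv hh
        rw [hP, loc2_zl, loc2_zl]
        simp [hq, hr]
      · -- P is a negative multiple of Q
        have hneg : br P R * br Q B < 0 := lt_of_le_of_ne hz (mul_ne_zero hz0 hy)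
        have hPQ : br P eX * br Q eX < 0 := by
          have h3 := e2 eX
          rw [hx0, zero_mul] at h3
          have h4 : br Q B ^ 2 * (br P eX * br Q eX) = (br P R * br Q B) * br Q eX ^ 2 := by
            have h5 : br Q B * br P eX = br P R * br Q eX := by linarith
            calc br Q B ^ 2 * (br P eX * br Q eX) =
                br Q B * (br Q B * br P eX) * br Q eX := by ring
              _ = (br P R * br Q B) * br Q eX ^ 2 := by rw [h5]; ring
          have hq : br Q eX ≠ 0 := fun hc => hQ0 (gX.2.1 hc)
          have h6 : (br P R * br Q B) * br Q eX ^ 2 < 0 :=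
            mul_neg_of_neg_of_pos hneg (by positivity)
          by_contra hc
          push Not at hc
          have : 0 ≤ br Q B ^ 2 * (br P eX * br Q eX) := by positivity
          linarith
        have h6 : cv eX P Q = 2 := by
          unfold cv hh
          rw [if_pos hPQ]
        rw [h6]
        exact h2 _ _ _
    · have hxy : br P Q * br Q B < 0 := lt_of_le_of_ne hx (mul_ne_zero hx0 hy)
      by_cases hz0 : br P R = 0
      · -- R is a positive multiple of P
        have hPR : 0 < br P eZ * br R eZ := by
          have h3 := e2 eZ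
          rw [hz0, zero_mul] at h3
          have h5 : br P Q * br R eZ = - (br Q B * br P eZ) := by linarith
          have h4 : br P Q ^ 2 * (br P eZ * br R eZ) =
              (- (br P Q * br Q B)) * br P eZ ^ 2 := by
            calc br P Q ^ 2 * (br P eZ * br R eZ) =
                br P Q * (br P Q * br R eZ) * br P eZ := by ring
              _ = (- (br P Q * br Q B)) * br P eZ ^ 2 := by rw [h5]; ring
          have hP0 : P ≠ 0 := by
            intro hc
            rw [hc] at hx0
            exact hx0 (loc2_zl _)
          have hp : br P eZ ≠ 0 := fun hc => hP0 (gZ.1 hc)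
          have h6 : 0 < (- (br P Q * br Q B)) * br P eZ ^ 2 :=
            mul_pos (by linarith) (by positivity)
          by_contra hc
          push Not at hc
          have : br P Q ^ 2 * (br P eZ * br R eZ) ≤ 0 :=
            mul_nonpos_of_nonneg_of_nonpos (by positivity) hc
          linarith
        have h6 : cv eZ P R = 0 := by
          unfold cv hh
          rw [if_neg hPR.not_gt, if_pos hPR]
        rw [h6]
        exact Nat.zero_le _
      · have hzy : br P R * br Q B < 0 := lt_of_le_of_ne hz (mul_ne_zero hz0 hy)
        have hxz : 0 < br P Q * br P R := by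
          by_contra hc
          push Not at hc
          have h3 : 0 < (br P Q * br Q B) * (br P R * br Q B) := mul_pos_of_neg_of_neg hxy hzy
          have h4 : (br P Q * br P R) * br Q B ^ 2 ≤ 0 :=
            mul_nonpos_of_nonpos_of_nonneg hc (by positivity)
          have h5 : (br P Q * br Q B) * (br P R * br Q B) =
              (br P Q * br P R) * br Q B ^ 2 := by ring
          linarith
        have := hXZ hxz
        subst this
        exact loc2_mid (e2 eX) hxy hxz
  omega

/-- The top event. -/
theorem loc3 {P Q R et eX eZ : ℝ × ℝ} (hy : br Q R ≠ 0) (hx : br P Q ≠ 0) (hz : br P R ≠ 0)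
    (gX : Gn eX P ∧ Gn eX Q ∧ Gn eX R) (gZ : Gn eZ P ∧ Gn eZ Q ∧ Gn eZ R)
    (hqr : 0 < br Q et * br R et)
    (hX : 0 < br P Q * br Q R → eX = et) (hZ : 0 < br P R * br Q R → eZ = et)
    (hXZ : 0 < br P Q * br P R → eX = eZ) :
    cv eZ P R ≤ cv eX P Q := by
  have e2 : ∀ f, br P Q * br R f - br P R * br Q f + br Q R * br P f = 0 :=
    fun f => loc1_three P Q R f
  have h2 : ∀ f u v, cv f u v ≤ 2 := by
    intro f u v
    simp only [cv, loc1_hh]
    exact loc1_le _ _
  have hy2 : 0 < br Q R ^ 2 := by positivity
  rcases lt_or_gt_of_ne (mul_ne_zero hx hy) with hxy | hxy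
  · rcases lt_or_gt_of_ne (mul_ne_zero hz hy) with hzy | hzy
    · have hxz : 0 < br P Q * br P R := by
        by_contra hc
        push Not at hc
        have h3 : 0 < (br P Q * br Q R) * (br P R * br Q R) := mul_pos_of_neg_of_neg hxy hzy
        have h4 : (br P Q * br P R) * br Q R ^ 2 ≤ 0 :=
          mul_nonpos_of_nonpos_of_nonneg hc hy2.le
        have h5 : (br P Q * br Q R) * (br P R * br Q R) =
            (br P Q * br P R) * br Q R ^ 2 := by ring
        linarith
      have := hXZ hxz
      subst this
      exact loc2_mid (e2 eX) hxy hxz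
    · have := hZ hzy
      subst this
      have hPR : 0 < br P eZ * br R eZ := by
        have h4 : br Q R ^ 2 * (br P eZ * br R eZ) =
            (br P R * br Q R) * (br Q eZ * br R eZ) +
              (- (br P Q * br Q R)) * br R eZ ^ 2 := by
          have h3 := e2 eZ
          have h5 : br Q R * br P eZ = br P R * br Q eZ - br P Q * br R eZ := by linarith
          calc br Q R ^ 2 * (br P eZ * br R eZ) =
              br Q R * (br Q R * br P eZ) * br R eZ := by ring
            _ = _ := by rw [h5]; ring
        have h6 : 0 < (br P R * br Q R) * (br Q eZ * br R eZ) := mul_pos hzy hqr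
        have h7 : 0 ≤ (- (br P Q * br Q R)) * br R eZ ^ 2 :=
          mul_nonneg (by linarith) (by positivity)
        by_contra hc
        push Not at hc
        have : br Q R ^ 2 * (br P eZ * br R eZ) ≤ 0 :=
          mul_nonpos_of_nonneg_of_nonpos hy2.le hc
        linarith
      have h6 : cv eZ P R = 0 := by
        unfold cv hh
        rw [if_neg hPR.not_gt, if_pos hPR]
      rw [h6]
      exact Nat.zero_le _
  · have := hX hxy
    subst this
    rcases lt_or_gt_of_ne (mul_ne_zero hz hy) with hzy | hzy
    · have hPQ : br P eX * br Q eX < 0 := by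
        have h4 : br Q R ^ 2 * (br P eX * br Q eX) =
            (br P R * br Q R) * br Q eX ^ 2 +
              (- (br P Q * br Q R)) * (br Q eX * br R eX) := by
          have h3 := e2 eX
          have h5 : br Q R * br P eX = br P R * br Q eX - br P Q * br R eX := by linarith
          calc br Q R ^ 2 * (br P eX * br Q eX) =
              br Q R * (br Q R * br P eX) * br Q eX := by ring
            _ = _ := by rw [h5]; ring
        have h6 : (br P R * br Q R) * br Q eX ^ 2 ≤ 0 :=
          mul_nonpos_of_nonpos_of_nonneg hzy.le (by positivity)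
        have h7 : (- (br P Q * br Q R)) * (br Q eX * br R eX) < 0 :=
          mul_neg_of_neg_of_pos (by linarith) hqr
        by_contra hc
        push Not at hc
        have : 0 ≤ br Q R ^ 2 * (br P eX * br Q eX) := mul_nonneg hy2.le hc
        linarith
      have h6 : cv eX P Q = 2 := by
        unfold cv hh
        rw [if_pos hPQ]
      rw [h6]
      exact h2 _ _ _
    · have := hZ hzy
      subst this
      have hs : SignType.sign (br Q eZ) = SignType.sign (br R eZ) := by
        rcases pos_and_pos_or_neg_and_neg_of_mul_pos hqr with ⟨h3, h4⟩ | ⟨h3, h4⟩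
        · rw [sign_pos h3, sign_pos h4]
        · rw [sign_neg h3, sign_neg h4]
      simp only [cv, loc1_hh, hs]
      exact le_refl _

end TR
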