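import Mathlib

/-!
MODULE POT (telescoping of the potential).

`A j k` is the value of the pair (f j k, f j (k+1)), `B (j+1) k` the value of the junction pair
(f j k, f (j+1) (k+1)), `v j` the value of the virtual pair (0, f j 0), `sp` the special drops.
For fixed j add `htop j`, `hmid j k` for k = 1, ..., K-1 and `hbot j`: the B's cancel and
  v (j+1) + sum_k A (j+1) k + sum_k sp (j+1) k <= v j + sum_k A j k.
Then induct on M.
-/

namespace TR

theorem pot {M K : ℕ} (hK : 1 ≤ K) (A B sp : ℕ → ℕ → ℕ) (v : ℕ → ℕ)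
    (hmid : ∀ j < M, ∀ k, 1 ≤ k → k < K →
      B (j + 1) (k - 1) + A (j + 1) k + sp (j + 1) k ≤ A j (k - 1) + B (j + 1) k)
    (htop : ∀ j < M, B (j + 1) (K - 1) ≤ A j (K - 1))
    (hbot : ∀ j < M, v (j + 1) + A (j + 1) 0 + sp (j + 1) 0 ≤ v j + B (j + 1) 0) :
    v M + ∑ k ∈ Finset.range K, A M k
      + ∑ j ∈ Finset.range M, ∑ k ∈ Finset.range K, sp (j + 1) k
      ≤ v 0 + ∑ k ∈ Finset.range K, A 0 k := by
  obtain ⟨K, rfl⟩ : ∃ K', K = K' + 1 := ⟨K - 1, by omega⟩
  -- one step
  have step : ∀ j < M, v (j + 1) + ∑ k ∈ Finset.range (K + 1), A (j + 1) k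
      + ∑ k ∈ Finset.range (K + 1), sp (j + 1) k ≤ v j + ∑ k ∈ Finset.range (K + 1), A j k := by
    intro j hj
    have key : ∀ l ≤ K, B (j + 1) (K - l)
        + ∑ k ∈ Finset.Ico (K - l + 1) (K + 1), (A (j + 1) k + sp (j + 1) k)
        ≤ ∑ k ∈ Finset.Ico (K - l) (K + 1), A j k := by
      intro l
      induction l with
      | zero =>
        intro _
        simpa using htop j hj
      | succ l ih =>
        intro hl
        have h1 := ih (by omega)
        have h2 := hmid j hj (K - l) (by omega) (by omega)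
        have e1 : K - (l + 1) + 1 = K - l := by omega
        have e2 : K - l - 1 = K - (l + 1) := by omega
        rw [e1, Finset.sum_eq_sum_Ico_succ_bot (show K - l < K + 1 by omega),
          Finset.sum_eq_sum_Ico_succ_bot (show K - (l + 1) < K + 1 by omega), e1]
        rw [e2] at h2
        omega
    have h1 := key K le_rfl
    have h2 := hbot j hj
    simp only [Nat.sub_self, zero_add] at h1
    rw [Finset.sum_add_distrib] at h1
    have e3 : ∀ f : ℕ → ℕ, ∑ k ∈ Finset.range (K + 1), f k
        = f 0 + ∑ k ∈ Finset.Ico 1 (K + 1), f k := by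
      intro f
      rw [Finset.range_eq_Ico, Finset.sum_eq_sum_Ico_succ_bot (Nat.succ_pos K)]
    rw [e3 (A (j + 1)), e3 (sp (j + 1))]
    rw [← Finset.range_eq_Ico] at h1
    omega
  clear hmid htop hbot
  induction M with
  | zero => simp
  | succ M ih =>
    have h1 := ih (fun j hj => step j (by omega))
    have h2 := step M (by omega)
    rw [Finset.sum_range_succ (fun j => ∑ k ∈ Finset.range (K + 1), sp (j + 1) k)]
    omega

end TR
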