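import Pool.Agent.TR.Frame
import Pool.Agent.TR.Pot
import Pool.Agent.TR.Loc1
import Pool.Agent.TR.Loc2
import Pool.Agent.TR.GenE

/-!
The number of clusters of an arbitrary array is at most `m - 1`.
-/

namespace TR

private theorem v1_hh_le (a b : ℝ) : hh a b ≤ 2 := by
  unfold hh; split_ifs <;> norm_num

private theorem v1_hh_zero (b : ℝ) : 1 ≤ hh 0 b := by
  unfold hh
  rw [if_neg (by simp), if_neg (by simp)]
  split_ifs <;> norm_num

private theorem v1_hh_pos {a b : ℝ} (h : 0 < a * b) : hh a b = 0 := by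
  unfold hh
  rw [if_neg (not_lt.2 h.le), if_pos h]

private theorem v1_hh_mul {a b t : ℝ} (ht : 0 < t) : hh a (t * b) = hh a b := by
  unfold hh
  have h1 : a * (t * b) = t * (a * b) := by ring
  have h2 : t * (a * b) < 0 ↔ a * b < 0 :=
    ⟨fun h => by
      by_contra h'
      exact absurd h (not_lt.2 (mul_nonneg ht.le (not_lt.1 h'))),
     fun h => mul_neg_of_pos_of_neg ht h⟩
  have h3 : 0 < t * (a * b) ↔ 0 < a * b :=
    ⟨fun h => by
      by_contra h'
      exact absurd h (not_lt.2 (mul_nonpos_of_nonneg_of_nonpos ht.le (not_lt.1 h'))),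
     fun h => mul_pos ht h⟩
  have h4 : t * b = 0 ↔ b = 0 := by simp [ht.ne']
  simp only [h1, h2, h3, h4]

private theorem v1_cv_smul {e u v : ℝ × ℝ} {t : ℝ} (ht : 0 < t) : cv e u (t • v) = cv e u v := by
  unfold cv
  rw [br_smul_left, smul_eq_mul, v1_hh_mul ht]

private theorem v1_lk {m M K : ℕ} {p : ℕ → ℕ → ℝ} {a : ℕ → ℝ × ℝ} {x y : ℕ × ℕ}
    (hx : x.1 ≤ M ∧ x.2 < K) (hy : y.1 ≤ M ∧ y.2 < K) (hadj : adj x y ∨ adj y x)
    (h : 0 < D m p a x.1 x.2 * D m p a y.1 y.2) : lk M K (col m p a) x y := by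
  rcases pos_and_pos_or_neg_and_neg_of_mul_pos h with ⟨h1, h2⟩ | ⟨h1, h2⟩
  · refine ⟨hx, hy, hadj, ?_, ?_⟩
    · simp only [col, sign_pos h1, sign_pos h2]
    · simp only [col, sign_pos h1]; decide
  · refine ⟨hx, hy, hadj, ?_, ?_⟩
    · simp only [col, sign_neg h1, sign_neg h2]
    · simp only [col, sign_neg h1]; decide

/-- (V1) any family of non-zero cells in pairwise different clusters has at most `m - 1`
elements. -/
theorem v1 {m : ℕ} {p : ℕ → ℕ → ℝ} (hp : Pos p) (a : ℕ → ℝ × ℝ) (M : ℕ)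
    (S : Finset (ℕ × ℕ))
    (hS : ∀ x ∈ S, x.1 ≤ M ∧ x.2 < m - 1 ∧ col m p a x.1 x.2 ≠ 0)
    (hd : ∀ x ∈ S, ∀ y ∈ S, x ≠ y → ¬ Conn M (m - 1) (col m p a) x y) :
    S.card ≤ m - 1 := by
  classical
  rcases Nat.lt_or_ge m 2 with hm | hm
  · have : S = ∅ := by
      rw [Finset.eq_empty_iff_forall_notMem]
      intro x hx
      have := (hS x hx).2.1
      omega
    rw [this]; simp
  obtain ⟨K, rfl⟩ : ∃ K, m = K + 1 := ⟨m - 1, by omega⟩
  have hK : 1 ≤ K := by omega
  simp only [Nat.add_sub_cancel] at hS hd ⊢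
  set f : ℕ → ℕ → ℝ × ℝ := fun j k => arr (K + 1) p a j k with hf
  set c : ℕ → ℕ → SignType := col (K + 1) p a with hc
  have hDf : ∀ j k, D (K + 1) p a j k = br (f j k) (f j (k + 1)) := fun j k => rfl
  have hDs : ∀ j k, k < K + 1 →
      D (K + 1) p a (j + 1) k = p (j + 1) k * br (f j k) (f (j + 1) (k + 1)) := fun j k hk => by
    rw [D_succ p a j hk, smul_eq_mul]
  have hbs : ∀ j k, k < K + 1 →
      br (f j k) (f (j + 1) k) = br (f j k) (f (j + 1) (k + 1)) := fun j k hk => br_succ p a j hk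
  have hfs : ∀ j k, k < K + 1 → f (j + 1) k = p (j + 1) k • f j k + f (j + 1) (k + 1) :=
    fun j k hk => arr_succ p a j hk
  set F : Finset (ℝ × ℝ) :=
    (Finset.range (M + 1) ×ˢ Finset.range (K + 2)).image (fun x => f x.1 x.2) with hFdef
  have hF : ∀ j k, j ≤ M → k ≤ K + 1 → f j k ∈ F := by
    intro j k hj hk
    rw [hFdef, Finset.mem_image]
    exact ⟨(j, k), by simp only [Finset.mem_product, Finset.mem_range]; omega, rfl⟩
  have hlow : ∀ s : ℕ × ℕ, ∃ y, Conn M K c s y ∧ ∀ z, Conn M K c s z → y.2 ≤ z.2 := by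
    intro s
    have hne : ∃ n, ∃ y, Conn M K c s y ∧ y.2 = n := ⟨s.2, s, Conn.refl s, rfl⟩
    obtain ⟨y, hy1, hy2⟩ := Nat.find_spec hne
    exact ⟨y, hy1, fun z hz => hy2 ▸ Nat.find_min' hne ⟨z, hz, rfl⟩⟩
  choose low hlow1 hlow2 using hlow
  have hlr : ∀ s ∈ S, (low s).1 ≤ M ∧ (low s).2 < K ∧ c (low s).1 (low s).2 ≠ 0 := by
    intro s hs
    obtain ⟨h1, h2, h3⟩ := hS s hs
    have h4 := (hlow1 s).col_eq
    rcases (hlow1 s).eq_or with h | h
    · rw [← h]; exact ⟨h1, h2, h3⟩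
    · exact ⟨h.2.1.1, h.2.1.2, h4 ▸ h3⟩
  have hcD : ∀ j k, c j k ≠ 0 → D (K + 1) p a j k ≠ 0 := by
    intro j k h h0
    apply h
    rw [hc]
    simp only [col, h0, sign_zero]
  have hes : ∀ s : ℕ × ℕ, ∃ e : ℝ × ℝ, s ∈ S → (∀ v ∈ F, Gn e v) ∧
      (1 ≤ (low s).1 → br (f ((low s).1 - 1) (low s).2) e * br (f (low s).1 (low s).2) e < 0) ∧
      ((low s).1 = 0 → 0 < br (f 0 (low s).2) e * br (f 0 ((low s).2 + 1)) e) := by
    intro s
    by_cases hs : s ∈ S
    · obtain ⟨h1, h2, h3⟩ := hlr s hs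
      have h4 := hcD _ _ h3
      rcases Nat.eq_zero_or_pos (low s).1 with h5 | h5
      · rw [h5, hDf] at h4
        obtain ⟨e, he1, he2⟩ := exists_nsep F h4
        exact ⟨e, fun _ => ⟨he1, fun h => by omega, fun _ => he2⟩⟩
      · obtain ⟨j, hj⟩ : ∃ j, (low s).1 = j + 1 := ⟨(low s).1 - 1, by omega⟩
        rw [hj, hDs j _ (by omega)] at h4
        have h6 : br (f j (low s).2) (f (j + 1) (low s).2) ≠ 0 := by
          rw [hbs j _ (by omega)]
          exact right_ne_zero_of_mul h4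
        obtain ⟨e, he1, he2⟩ := exists_sep F h6
        refine ⟨e, fun _ => ⟨he1, fun _ => ?_, fun h => by omega⟩⟩
        rw [hj, Nat.add_sub_cancel]
        exact he2
    · exact ⟨0, fun h => absurd h hs⟩
  choose es hes1 using hes
  obtain ⟨e0, he0⟩ := exists_gen F
  set E : ℕ × ℕ → ℝ × ℝ :=
    fun x => if h : ∃ s ∈ S, Conn M K c s x then es h.choose else e0 with hE
  have hE1 : ∀ s ∈ S, ∀ x, Conn M K c s x → E x = es s := by
    intro s hs x hx
    have h : ∃ s ∈ S, Conn M K c s x := ⟨s, hs, hx⟩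
    have h2 : h.choose = s := by
      by_contra hne
      exact hd _ h.choose_spec.1 s hs hne (h.choose_spec.2.trans hx.symm)
    simp only [hE]
    rw [dif_pos h, h2]
  have hE2 : ∀ x y, lk M K c x y → E x = E y := by
    intro x y hxy
    by_cases h : ∃ s ∈ S, Conn M K c s x
    · obtain ⟨s, hs, hsx⟩ := h
      rw [hE1 s hs x hsx, hE1 s hs y (hsx.trans (Conn.of_lk hxy))]
    · have h' : ¬ ∃ s ∈ S, Conn M K c s y := fun ⟨s, hs, hsy⟩ =>
        h ⟨s, hs, hsy.trans (Conn.of_lk (lk_symm hxy))⟩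
      simp only [hE]
      rw [dif_neg h, dif_neg h']
  have hE3 : ∀ x, ∀ v ∈ F, Gn (E x) v := by
    intro x v hv
    by_cases h : ∃ s ∈ S, Conn M K c s x
    · obtain ⟨s, hs, hsx⟩ := h
      rw [hE1 s hs x hsx]
      exact (hes1 s hs).1 v hv
    · simp only [hE]
      rw [dif_neg h]
      exact he0 v hv
  -- the potential
  set A : ℕ → ℕ → ℕ := fun j k => cv (E (j, k)) (f j k) (f j (k + 1)) with hA
  set B' : ℕ → ℕ → ℕ := fun j k => cv (E (j, k)) (f (j - 1) k) (f j (k + 1)) with hB'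
  set v : ℕ → ℕ := fun j => cv e0 0 (f j 0) with hv
  set sp : ℕ → ℕ → ℕ := fun j k => if ∃ s ∈ S, low s = (j, k) then 2 else 0 with hsp
  have hGn0 : ∀ e : ℝ × ℝ, Gn e 0 := fun e _ => rfl
  -- facts on a lowest cell
  have hlowc : ∀ s ∈ S, ∀ j k, low s = (j + 1, k) →
      br (f j k) (f (j + 1) (k + 1)) ≠ 0 ∧
      br (f j k) (E (j + 1, k)) * br (f (j + 1) k) (E (j + 1, k)) < 0 := by
    intro s hs j k hjk
    obtain ⟨h1, h2, h3⟩ := hlr s hs
    have h4 := hcD _ _ h3
    rw [hjk] at h4 h2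
    simp only at h4 h2
    rw [hDs j k (by omega)] at h4
    refine ⟨right_ne_zero_of_mul h4, ?_⟩
    have h5 := (hes1 s hs).2.1
    rw [hjk] at h5
    simp only [Nat.add_sub_cancel] at h5
    have h6 : E (j + 1, k) = es s := hE1 s hs _ (hjk ▸ hlow1 s)
    rw [h6]
    exact h5 (by omega)
  have hmid : ∀ j < M, ∀ k, 1 ≤ k → k < K →
      B' (j + 1) (k - 1) + A (j + 1) k + sp (j + 1) k ≤ A j (k - 1) + B' (j + 1) k := by
    intro j hj k hk1 hk
    obtain ⟨i, rfl⟩ : ∃ i, k = i + 1 := ⟨k - 1, by omega⟩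
    simp only [hA, hB', hsp, Nat.add_sub_cancel]
    have hDX : D (K + 1) p a j i = br (f j i) (f j (i + 1)) := hDf j i
    have hDY : D (K + 1) p a (j + 1) (i + 1) =
        p (j + 1) (i + 1) * br (f j (i + 1)) (f (j + 1) (i + 1 + 1)) := hDs j (i + 1) (by omega)
    have hDZ : D (K + 1) p a (j + 1) i = p (j + 1) i * br (f j i) (f (j + 1) (i + 1)) :=
      hDs j i (by omega)
    have hpY := hp (j + 1) (i + 1)
    have hpZ := hp (j + 1) i
    have hXY : 0 < br (f j i) (f j (i + 1)) * br (f j (i + 1)) (f (j + 1) (i + 1 + 1)) →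
        lk M K c (j, i) (j + 1, i + 1) := by
      intro h
      refine v1_lk ⟨by simp; omega, by simp; omega⟩ ⟨by simp; omega, by simp; omega⟩
        (Or.inl (Or.inr (Or.inr ⟨rfl, rfl⟩))) ?_
      simp only [hDX, hDY]
      have := mul_pos hpY h
      nlinarith
    have hXZ : 0 < br (f j i) (f j (i + 1)) * br (f j i) (f (j + 1) (i + 1)) →
        lk M K c (j, i) (j + 1, i) := by
      intro h
      refine v1_lk ⟨by simp; omega, by simp; omega⟩ ⟨by simp; omega, by simp; omega⟩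
        (Or.inl (Or.inl ⟨rfl, rfl⟩)) ?_
      simp only [hDX, hDZ]
      have := mul_pos hpZ h
      nlinarith
    have hYZ : 0 < br (f j (i + 1)) (f (j + 1) (i + 1 + 1)) * br (f j i) (f (j + 1) (i + 1)) →
        lk M K c (j + 1, i + 1) (j + 1, i) := by
      intro h
      refine v1_lk ⟨by simp; omega, by simp; omega⟩ ⟨by simp; omega, by simp; omega⟩
        (Or.inr (Or.inr (Or.inl ⟨rfl, rfl⟩))) ?_
      simp only [hDY, hDZ]
      have := mul_pos (mul_pos hpY hpZ) h
      nlinarith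
    have gg : ∀ e : ℝ × ℝ, (∀ v ∈ F, Gn e v) → Gn e (f j i) ∧ Gn e (f j (i + 1)) ∧
        Gn e (f (j + 1) (i + 1 + 1)) ∧ Gn e (f (j + 1) (i + 1)) := fun e he =>
      ⟨he _ (hF _ _ (by omega) (by omega)), he _ (hF _ _ (by omega) (by omega)),
        he _ (hF _ _ (by omega) (by omega)), he _ (hF _ _ (by omega) (by omega))⟩
    by_cases hs : ∃ s ∈ S, low s = (j + 1, i + 1)
    · rw [if_pos hs]
      obtain ⟨s, hs, hls⟩ := hs
      obtain ⟨h1, h2⟩ := hlowc s hs j (i + 1) hls
      have hYc : Conn M K c s (j + 1, i + 1) := hls ▸ hlow1 s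
      refine loc2 hpY (hfs j (i + 1) (by omega)) (gg _ (hE3 _)) (gg _ (hE3 _))
        (fun h => hE2 _ _ (hXZ h)) h1 ?_ ?_ h2
      · by_contra hcon
        have h3 := hlow2 s (j, i) (hYc.trans (Conn.of_lk (lk_symm (hXY (not_le.1 hcon)))))
        rw [hls] at h3
        simp only at h3
        omega
      · by_contra hcon
        have h3 := hlow2 s (j + 1, i) (hYc.trans (Conn.of_lk (hYZ (by
          rw [mul_comm]; exact not_le.1 hcon))))
        rw [hls] at h3
        simp only at h3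
        omega
    · rw [if_neg hs, add_zero]
      exact loc1 hpY (hfs j (i + 1) (by omega)) (gg _ (hE3 _)) (gg _ (hE3 _)) (gg _ (hE3 _))
        (fun h => hE2 _ _ (hXY h)) (fun h => hE2 _ _ (hXZ h)) (fun h => hE2 _ _ (hYZ h))
  have htop : ∀ j < M, B' (j + 1) (K - 1) ≤ A j (K - 1) := by
    intro j hj
    obtain ⟨i, hi⟩ : ∃ i, K = i + 1 := ⟨K - 1, by omega⟩
    have hi' : K - 1 = i := by omega
    rw [hi']
    simp only [hA, hB', Nat.add_sub_cancel]
    have hR : f (j + 1) (i + 1) = p (j + 1) (i + 1) • f j (i + 1) := by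
      have := arr_last (m := K + 1) (p := p) (a := a) (by omega) j
      rw [Nat.add_sub_cancel, hi] at this
      simp only [hf, hi]
      exact this
    have hpR := hp (j + 1) (i + 1)
    have hpZ := hp (j + 1) i
    rw [hR, v1_cv_smul hpR]
    rcases eq_or_ne (br (f j i) (f j (i + 1))) 0 with h | h
    · refine (cv_zero h ?_ ?_ ?_ ?_).le
      · exact hE3 _ _ (hF _ _ (by omega) (by omega))
      · exact hE3 _ _ (hF _ _ (by omega) (by omega))
      · exact hE3 _ _ (hF _ _ (by omega) (by omega))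
      · exact hE3 _ _ (hF _ _ (by omega) (by omega))
    · have hl : lk M K c (j, i) (j + 1, i) := by
        refine v1_lk ⟨by simp; omega, by simp; omega⟩ ⟨by simp; omega, by simp; omega⟩
          (Or.inl (Or.inl ⟨rfl, rfl⟩)) ?_
        simp only [hDf j i, hDs j i (by omega), hR, br_smul_right, smul_eq_mul]
        have h1 : 0 < br (f j i) (f j (i + 1)) ^ 2 := by positivity
        have := mul_pos (mul_pos hpR hpZ) h1
        nlinarith
      rw [hE2 _ _ hl]
  have hbot : ∀ j < M, v (j + 1) + A (j + 1) 0 + sp (j + 1) 0 ≤ v j + B' (j + 1) 0 := by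
    intro j hj
    simp only [hA, hB', hv, hsp, Nat.add_sub_cancel]
    have gg : ∀ e : ℝ × ℝ, (∀ v ∈ F, Gn e v) → Gn e 0 ∧ Gn e (f j 0) ∧
        Gn e (f (j + 1) (0 + 1)) ∧ Gn e (f (j + 1) 0) := fun e he =>
      ⟨hGn0 e, he _ (hF _ _ (by omega) (by omega)),
        he _ (hF _ _ (by omega) (by omega)), he _ (hF _ _ (by omega) (by omega))⟩
    by_cases hs : ∃ s ∈ S, low s = (j + 1, 0)
    · rw [if_pos hs]
      obtain ⟨s, hs, hls⟩ := hs
      obtain ⟨h1, h2⟩ := hlowc s hs j 0 hls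
      refine loc2 (hp (j + 1) 0) (hfs j 0 (by omega)) (gg _ he0) (gg _ he0)
        (fun _ => rfl) h1 ?_ ?_ h2
      · rw [br_zero_left, zero_mul]
      · rw [br_zero_left, zero_mul]
    · rw [if_neg hs, add_zero]
      refine loc1 (hp (j + 1) 0) (hfs j 0 (by omega)) (gg _ he0) (gg _ (hE3 _)) (gg _ he0)
        (fun h => ?_) (fun _ => rfl) (fun h => ?_)
      · rw [br_zero_left, zero_mul] at h
        exact absurd h (lt_irrefl _)
      · rw [br_zero_left, mul_zero] at h
        exact absurd h (lt_irrefl _)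
  have hpot := pot hK A B' sp v hmid htop hbot
  -- counting
  have hinj : ∀ s ∈ S, ∀ s' ∈ S, low s = low s' → s = s' := by
    intro s hs s' hs' h
    by_contra hne
    exact hd s hs s' hs' hne ((hlow1 s).trans (h ▸ (hlow1 s').symm))
  have hvM : 1 ≤ v M := by
    simp only [hv, cv, br_zero_left]
    exact v1_hh_zero _
  have hv0 : v 0 ≤ 2 := v1_hh_le _ _
  set S0 := S.filter (fun s => (low s).1 = 0) with hS0
  set S1 := S.filter (fun s => ¬ (low s).1 = 0) with hS1
  have hcard : S0.card + S1.card = S.card := Finset.card_filter_add_card_filter_not _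
  set T0 := S0.image (fun s => (low s).2) with hT0
  set T1 := S1.image (fun s => ((low s).1 - 1, (low s).2)) with hT1
  have hT0c : T0.card = S0.card := by
    apply Finset.card_image_of_injOn
    intro s hs s' hs' h
    simp only [hS0, Finset.coe_filter, Set.mem_ofPred_eq] at hs hs' h
    exact hinj s hs.1 s' hs'.1 (Prod.ext (hs.2.trans hs'.2.symm) h)
  have hT1c : T1.card = S1.card := by
    apply Finset.card_image_of_injOn
    intro s hs s' hs' h
    simp only [hS1, Finset.coe_filter, Set.mem_ofPred_eq, Prod.mk.injEq] at hs hs' h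
    exact hinj s hs.1 s' hs'.1 (Prod.ext (by omega) h.2)
  have hA0 : ∑ k ∈ Finset.range K, A 0 k + 2 * T0.card ≤ 2 * K := by
    have h1 : ∀ k ∈ Finset.range K, A 0 k + (if k ∈ T0 then 2 else 0) ≤ 2 := by
      intro k hk
      split_ifs with h
      · rw [hT0, Finset.mem_image] at h
        obtain ⟨s, hs, hsk⟩ := h
        rw [hS0, Finset.mem_filter] at hs
        have h2 := (hes1 s hs.1).2.2 hs.2
        have h3 : low s = (0, k) := Prod.ext hs.2 hsk
        have h4 : E (0, k) = es s := hE1 s hs.1 _ (h3 ▸ hlow1 s)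
        have h5 : A 0 k = 0 := by
          simp only [hA, cv]
          rw [h4]
          rw [hsk] at h2
          exact v1_hh_pos h2
        omega
      · have : A 0 k ≤ 2 := v1_hh_le _ _
        omega
    have h2 := Finset.sum_le_sum h1
    rw [Finset.sum_add_distrib, Finset.sum_ite_mem] at h2
    have h3 : Finset.range K ∩ T0 = T0 := by
      rw [Finset.inter_eq_right]
      intro k hk
      rw [hT0, Finset.mem_image] at hk
      obtain ⟨s, hs, hsk⟩ := hk
      rw [hS0, Finset.mem_filter] at hs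
      rw [Finset.mem_range, ← hsk]
      exact (hlr s hs.1).2.1
    rw [h3, Finset.sum_const, Finset.sum_const, Finset.card_range, smul_eq_mul, smul_eq_mul] at h2
    omega
  have hsp1 : 2 * T1.card ≤ ∑ j ∈ Finset.range M, ∑ k ∈ Finset.range K, sp (j + 1) k := by
    rw [← Finset.sum_product' (Finset.range M) (Finset.range K) (fun j k => sp (j + 1) k)]
    have h1 : T1 ⊆ Finset.range M ×ˢ Finset.range K := by
      intro x hx
      rw [hT1, Finset.mem_image] at hx
      obtain ⟨s, hs, rfl⟩ := hx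
      rw [hS1, Finset.mem_filter] at hs
      obtain ⟨h2, h3, h4⟩ := hlr s hs.1
      simp only [Finset.mem_product, Finset.mem_range]
      omega
    calc 2 * T1.card = ∑ x ∈ T1, 2 := by rw [Finset.sum_const, smul_eq_mul, mul_comm]
      _ = ∑ x ∈ T1, sp (x.1 + 1) x.2 := by
          refine Finset.sum_congr rfl fun x hx => ?_
          rw [hT1, Finset.mem_image] at hx
          obtain ⟨s, hs, rfl⟩ := hx
          rw [hS1, Finset.mem_filter] at hs
          simp only [hsp]
          rw [if_pos]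
          exact ⟨s, hs.1, Prod.ext (by simp only; omega) rfl⟩
      _ ≤ ∑ x ∈ Finset.range M ×ˢ Finset.range K, sp (x.1 + 1) x.2 :=
          Finset.sum_le_sum_of_subset h1
  omega

end TR
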