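import Pool.Agent.TR.EQ
import Pool.Agent.TR.V1
import Pool.Agent.TR.Gen2

/-!
MODULE EXACT (structure of real column systems with alternating test cells).

Let N = Nn m q, M = 3 N + 1, a' = perturbation of a by `gen2` (for this M).  Alt passes to a'
(signs of the test cells).  Let T be the set of `eqgen` for a'.
X1: pairwise not connected for a': if Conn M (m-1) (col a) x y then (Conn.mono)
    Conn M (m-1) (col a') x y and (`conn_nf`) Conn M q (col a') x y.
X2: otherwise insert the cell x into the set of test cells of T (they are non-zero for a by Alt):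
    m non-zero cells pairwise not connected, against `v1`.
    [the test cells (3i+1,0), i <= N, are non-zero: Alt.]
X3: ps (arr a j q).2 = ps (arr a' j q).2 by gen2.
X4: col a' M 0 = col a' M (q-1) = sign (a' (q-1)).1 * sign (arr a' M q).2; by `rolle_ps` with
    chg = m-1-q the last factor is not < 0, and it is <> 0, so it is 1.
X5: (M, q-1) is a non-zero cell of a (D_topcell).  By X2 it is connected (in a) to a test i; by X2
    (M,0) is connected in a to ... in fact use T: as in X2 every non-zero cell of a is connected to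
    a test cell of T.  Let (M,q-1) ~ t, (M,0) ~ t' in a (t, t' in T), hence also in a'.  In a' the
    last column is monochromatic: (M,0) ~ (M,q-1) (`column_conn`), so t ~ t' in a', t = t', and
    (M,0) ~ (M,q-1) in a.
-/

namespace TR

theorem exact_alt {m q : ℕ} {p : ℕ → ℕ → ℝ} {a : ℕ → ℝ × ℝ} (hA : Alt m q p a) :
    ∀ i ≤ Nn m q, col m p a (3 * i + 1) 0 ≠ 0 := by
  intro i hi
  rw [col, Ne, sign_eq_zero_iff]
  rcases Nat.eq_zero_or_pos i with h | h
  · subst h
    exact hA.1
  · obtain ⟨k, rfl⟩ : ∃ k, i = k + 1 := ⟨i - 1, by omega⟩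
    have h1 := hA.2 k (by omega)
    intro h0
    rw [show 3 * k + 4 = 3 * (k + 1) + 1 by ring, h0, mul_zero] at h1
    exact lt_irrefl _ h1

theorem exact_alt' {m q : ℕ} {p : ℕ → ℕ → ℝ} {a a' : ℕ → ℝ × ℝ} (hA : Alt m q p a)
    (h : ∀ j ≤ 3 * Nn m q + 1, col m p a j 0 ≠ 0 → col m p a' j 0 = col m p a j 0) :
    Alt m q p a' := by
  have h0 := exact_alt hA
  refine ⟨?_, fun i hi => ?_⟩
  · have h1 := h0 0 (Nat.zero_le _)
    have h2 := h 1 (by omega) h1
    rw [show 3 * 0 + 1 = 1 by norm_num, ← h2, col, Ne, sign_eq_zero_iff] at h1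
    exact h1
  · have e1 := h (3 * i + 1) (by omega) (h0 i hi.le)
    have e2 := h (3 * i + 4) (by omega) (by
      have := h0 (i + 1) hi
      rwa [show 3 * (i + 1) + 1 = 3 * i + 4 by ring] at this)
    have h3 := hA.2 i hi
    rw [← sign_eq_neg_one_iff, sign_mul] at h3 ⊢
    unfold col at e1 e2
    rw [e1, e2]
    exact h3

theorem exact_inj (T : Finset ℕ) : (T.image (fun i => ((3 * i + 1, 0) : ℕ × ℕ))).card = T.card := by
  apply Finset.card_image_of_injective
  intro i j hij
  have := (Prod.mk.inj hij).1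
  omega

theorem exact_X {m q : ℕ} (hq : 1 ≤ q) (hqm : q < m) {p : ℕ → ℕ → ℝ} (hp : Pos p)
    {a : ℕ → ℝ × ℝ} (ha : NF m q a) (hA : Alt m q p a) :
    -- X1
    (∃ T : Finset ℕ, (∀ i ∈ T, i ≤ Nn m q) ∧ T.card = m - 1 ∧
      ∀ i ∈ T, ∀ j ∈ T, i ≠ j → ¬ lab m q p a i j) ∧
    -- X2
    (∀ j ≤ 3 * Nn m q + 1, ∀ k < m - 1, col m p a j k ≠ 0 →
      ∃ i ≤ Nn m q, Conn (3 * Nn m q + 1) (m - 1) (col m p a) (j, k) (3 * i + 1, 0)) ∧
    -- X3
    chg (3 * Nn m q + 1) (fun j => ps (arr m p a j q).2) = m - 1 - q ∧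
    -- X4
    col m p a (3 * Nn m q + 1) 0 = SignType.sign (a (q - 1)).1 ∧
    -- X5
    (0 < (arr m p a (3 * Nn m q + 1) q).2 →
      Conn (3 * Nn m q + 1) (m - 1) (col m p a) (3 * Nn m q + 1, 0) (3 * Nn m q + 1, q - 1)) := by
  obtain ⟨a', ha', hsg, hgen', hcol, hpos', hneg'⟩ := gen2 hq hqm hp ha (3 * Nn m q + 1)
  have hA' : Alt m q p a' :=
    exact_alt' hA (fun j hj h => hcol j hj 0 (by omega) h)
  obtain ⟨⟨T, hT, hTc, hTd⟩, hchg, hlast⟩ := eqgen hq hqm hp ha' hA' hgen'
  have h0 := exact_alt hA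
  have htr : ∀ x y : ℕ × ℕ, Conn (3 * Nn m q + 1) (m - 1) (col m p a) x y →
      Conn (3 * Nn m q + 1) q (col m p a') x y := by
    intro x y h
    exact conn_nf ha'.top (h.mono le_rfl le_rfl (fun j hj k hk hc => hcol j hj k (by omega) hc))
  have hX1 : ∀ i ∈ T, ∀ j ∈ T, i ≠ j → ¬ lab m q p a i j := by
    intro i hi j hj hij hl
    exact hTd i hi j hj hij (htr _ _ hl)
  have hX2 : ∀ j ≤ 3 * Nn m q + 1, ∀ k < m - 1, col m p a j k ≠ 0 →
      ∃ i ∈ T, Conn (3 * Nn m q + 1) (m - 1) (col m p a) (j, k) (3 * i + 1, 0) := by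
    intro j hj k hk hc
    by_contra hno
    push Not at hno
    have hnot : ((j, k) : ℕ × ℕ) ∉ T.image (fun i => ((3 * i + 1, 0) : ℕ × ℕ)) := by
      intro hmem
      obtain ⟨i, hi, he⟩ := Finset.mem_image.1 hmem
      apply hno i hi
      rw [← he]
      exact Conn.refl _
    have hcard := v1 hp a (3 * Nn m q + 1)
      (insert (j, k) (T.image (fun i => ((3 * i + 1, 0) : ℕ × ℕ)))) (by
        intro x hx
        rcases Finset.mem_insert.1 hx with h | h
        · subst h
          exact ⟨hj, hk, hc⟩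
        · obtain ⟨i, hi, he⟩ := Finset.mem_image.1 h
          subst he
          have := hT i hi
          exact ⟨by simp only; omega, by simp only; omega, h0 i this⟩) (by
        intro x hx y hy hxy
        rcases Finset.mem_insert.1 hx with h | h
        · rcases Finset.mem_insert.1 hy with h' | h'
          · exact absurd (h.trans h'.symm) hxy
          · obtain ⟨i, hi, he⟩ := Finset.mem_image.1 h'
            subst h he
            exact hno i hi
        · obtain ⟨i, hi, he⟩ := Finset.mem_image.1 h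
          rcases Finset.mem_insert.1 hy with h' | h'
          · subst h' he
            exact fun hc => hno i hi hc.symm
          · obtain ⟨i', hi', he'⟩ := Finset.mem_image.1 h'
            subst he he'
            exact hX1 i hi i' hi' (fun hii => hxy (by rw [hii])))
    rw [Finset.card_insert_of_notMem hnot, exact_inj, hTc] at hcard
    omega
  have hMN := h0 (Nn m q) le_rfl
  have hcM : col m p a' (3 * Nn m q + 1) 0 = col m p a (3 * Nn m q + 1) 0 :=
    hcol _ le_rfl 0 (by omega) hMN
  refine ⟨⟨T, hT, hTc, hX1⟩, ?_, ?_, ?_, ?_⟩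
  · intro j hj k hk hc
    obtain ⟨i, hi, h⟩ := hX2 j hj k hk hc
    exact ⟨i, hT i hi, h⟩
  · rw [← hchg]
    apply chg_congr
    intro j hj
    simp only [ps]
    by_cases h : 0 ≤ (arr m p a j q).2
    · rw [if_pos h, if_pos (hpos' j hj h).le]
    · rw [if_neg h, if_neg (not_le.2 (hneg' j hj (not_le.1 h)))]
  · rw [← hcM, ← hlast (q - 1) (by omega), col_topcell hq hqm hp ha'.top, hsg]
    have h1 := rolle_ps hp ha'.pos hqm (3 * Nn m q + 1)
    rw [hchg] at h1
    have h2 : ¬ (arr m p a' (3 * Nn m q + 1) q).2 < 0 := by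
      intro h
      rw [if_pos h] at h1
      omega
    have h3 : (arr m p a' (3 * Nn m q + 1) q).2 ≠ 0 := by
      intro h
      have h4 := hgen' _ le_rfl (q - 1) (by omega)
      rw [D_topcell hq ha'.top, h, mul_zero] at h4
      exact h4 rfl
    have h4 : 0 < (arr m p a' (3 * Nn m q + 1) q).2 := lt_of_le_of_ne (not_lt.1 h2) h3.symm
    rw [sign_pos h4, mul_one]
  · intro h
    have hne : col m p a (3 * Nn m q + 1) (q - 1) ≠ 0 := by
      rw [col_topcell hq hqm hp ha.top, sign_pos h, mul_one, Ne, sign_eq_zero_iff]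
      exact ha.ne
    obtain ⟨t, ht, hct⟩ := hX2 _ le_rfl (q - 1) (by omega) hne
    obtain ⟨t', ht', hct'⟩ := hX2 _ le_rfl 0 (by omega) hMN
    have hcc : Conn (3 * Nn m q + 1) q (col m p a') (3 * Nn m q + 1, 0)
        (3 * Nn m q + 1, q - 1) := by
      apply column_conn (Nat.zero_le _) (by omega) le_rfl
      · rw [hcM]
        exact hMN
      · intro i _ hi
        rw [hlast i (by omega), hlast (i + 1) (by omega)]
    have htt : t' = t := by
      by_contra hne'
      exact hTd t' ht' t ht hne' (((htr _ _ hct').symm.trans hcc).trans (htr _ _ hct))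
    rw [htt] at hct'
    exact hct'.trans hct.symm

/-- Any set of test cells in pairwise different clusters has at most `m - 1` elements. -/
theorem exact_ub {m q : ℕ} {p : ℕ → ℕ → ℝ} (hp : Pos p) {a : ℕ → ℝ × ℝ} (hm : 2 ≤ m)
    (hA : Alt m q p a) (T : Finset ℕ) (hT : ∀ i ∈ T, i ≤ Nn m q)
    (hd : ∀ i ∈ T, ∀ j ∈ T, i ≠ j → ¬ lab m q p a i j) : T.card ≤ m - 1 := by
  have h0 := exact_alt hA
  have h := v1 hp a (3 * Nn m q + 1) (T.image (fun i => ((3 * i + 1, 0) : ℕ × ℕ))) (by
    intro x hx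
    obtain ⟨i, hi, he⟩ := Finset.mem_image.1 hx
    subst he
    have := hT i hi
    exact ⟨by simp only; omega, by simp only; omega, h0 i this⟩) (by
    intro x hx y hy hxy
    obtain ⟨i, hi, he⟩ := Finset.mem_image.1 hx
    obtain ⟨j, hj, he'⟩ := Finset.mem_image.1 hy
    subst he he'
    exact hd i hi j hj (fun hij => hxy (by rw [hij])))
  rwa [exact_inj] at h

end TR
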