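import Mathlib

/-!
MODULE MAXL (combinatorics of labels; r, r0 are equivalence relations given as symmetric,
transitive relations on N; all sets are finite sets of numbers <= n).

Common principle (*): if T is a set of n0 elements <= n, pairwise not r0-related, and every set of
pairwise not r0-related elements <= n has at most n0 elements, then every i <= n is r0-related to
some t in T (r0 reflexive; otherwise insert i).
max_eq: r0 i j -> r i j; T pairwise not r, |T| = n0; every set pairwise not r0 has <= n0 elements.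
  Then r i j -> r0 i j: T is pairwise not r0, so i r0 t, j r0 t' (*), t r i r j r t', so t = t'.
max_top (first kind, n -> n + 1): r on {0..n+1}, r0 on {0..n}, r0 -> r; sets pairwise not r0
  (elements <= n) have <= n0 elements; T (elements <= n+1) pairwise not r with |T| = n0; r (n+1) i0
  with i0 <= n.  Then for i, j <= n: r i j -> r0 i j.  (If n+1 in T replace it by i0; then max_eq.)
max_new (second kind): r0 sets have <= n0 elements; T (elements <= n+1) pairwise not r with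
  |T| = n0 + 1.  Then n+1 in T (else T would be a set for r0), T' = T \ {n+1} has n0 elements;
  r i j -> r0 i j for i, j <= n (max_eq with T'), and not r (n+1) i for i <= n (i r0 t in T', so
  i r t, and n+1, t in T are not related).
-/

namespace TR

/-- The common principle. -/
theorem max_aux {n n0 : ℕ} {r0 : ℕ → ℕ → Prop} (rr : ∀ i, r0 i i)
    (r0s : ∀ i j, r0 i j → r0 j i)
    (hub : ∀ T : Finset ℕ, (∀ i ∈ T, i ≤ n) → (∀ i ∈ T, ∀ j ∈ T, i ≠ j → ¬ r0 i j) →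
      T.card ≤ n0)
    (T : Finset ℕ) (hT : ∀ i ∈ T, i ≤ n) (hd : ∀ i ∈ T, ∀ j ∈ T, i ≠ j → ¬ r0 i j)
    (hc : n0 ≤ T.card) : ∀ i ≤ n, ∃ t ∈ T, r0 i t := by
  classical
  intro i hi
  by_contra hcon
  push Not at hcon
  have hiT : i ∉ T := fun h => hcon i h (rr i)
  have h1 := hub (insert i T) (by
    intro j hj
    rcases Finset.mem_insert.1 hj with rfl | hj
    · exact hi
    · exact hT j hj) (by
    intro a ha b hb hab
    rcases Finset.mem_insert.1 ha with rfl | ha' <;> rcases Finset.mem_insert.1 hb with rfl | hb'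
    · exact absurd rfl hab
    · exact hcon b hb'
    · exact fun h => hcon a ha' (r0s _ _ h)
    · exact hd a ha' b hb' hab)
  rw [Finset.card_insert_of_notMem hiT] at h1
  omega

theorem max_eq {n n0 : ℕ} {r r0 : ℕ → ℕ → Prop} (rr : ∀ i, r0 i i)
    (rs : ∀ i j, r i j → r j i) (rt : ∀ i j k, r i j → r j k → r i k)
    (r0s : ∀ i j, r0 i j → r0 j i) (r0t : ∀ i j k, r0 i j → r0 j k → r0 i k)
    (h : ∀ i ≤ n, ∀ j ≤ n, r0 i j → r i j)
    (hub : ∀ T : Finset ℕ, (∀ i ∈ T, i ≤ n) → (∀ i ∈ T, ∀ j ∈ T, i ≠ j → ¬ r0 i j) →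
      T.card ≤ n0)
    (T : Finset ℕ) (hT : ∀ i ∈ T, i ≤ n) (hd : ∀ i ∈ T, ∀ j ∈ T, i ≠ j → ¬ r i j)
    (hc : n0 ≤ T.card) : ∀ i ≤ n, ∀ j ≤ n, r i j → r0 i j := by
  intro i hi j hj hij
  have hstar := max_aux rr r0s hub T hT
    (fun a ha b hb hab h0 => hd a ha b hb hab (h a (hT a ha) b (hT b hb) h0)) hc
  obtain ⟨t, ht, h1⟩ := hstar i hi
  obtain ⟨t', ht', h2⟩ := hstar j hj
  have h3 : r t t' := rt _ _ _ (rs _ _ (h i hi t (hT t ht) h1))
    (rt _ _ _ hij (h j hj t' (hT t' ht') h2))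
  have h4 : t = t' := by
    by_contra hne
    exact hd t ht t' ht' hne h3
  subst h4
  exact r0t _ _ _ h1 (r0s _ _ h2)

theorem max_top {n n0 : ℕ} {r r0 : ℕ → ℕ → Prop} (rr : ∀ i, r0 i i)
    (rs : ∀ i j, r i j → r j i) (rt : ∀ i j k, r i j → r j k → r i k)
    (r0s : ∀ i j, r0 i j → r0 j i) (r0t : ∀ i j k, r0 i j → r0 j k → r0 i k)
    (h : ∀ i ≤ n, ∀ j ≤ n, r0 i j → r i j)
    (hub : ∀ T : Finset ℕ, (∀ i ∈ T, i ≤ n) → (∀ i ∈ T, ∀ j ∈ T, i ≠ j → ¬ r0 i j) →
      T.card ≤ n0)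
    (T : Finset ℕ) (hT : ∀ i ∈ T, i ≤ n + 1) (hd : ∀ i ∈ T, ∀ j ∈ T, i ≠ j → ¬ r i j)
    (hc : n0 ≤ T.card) (i0 : ℕ) (hi0 : i0 ≤ n) (hr : r (n + 1) i0) :
    ∀ i ≤ n, ∀ j ≤ n, r i j → r0 i j := by
  classical
  by_cases hn : n + 1 ∈ T
  · have hne : ∀ t ∈ T, t ≠ n + 1 → ¬ r t i0 := fun t ht htn h1 =>
      hd t ht (n + 1) hn htn (rt _ _ _ h1 (rs _ _ hr))
    have hi0T : i0 ∉ T.erase (n + 1) := by
      intro hmem
      rw [Finset.mem_erase] at hmem
      exact hne i0 hmem.2 hmem.1 (rt _ _ _ (rs _ _ hr) hr)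
    refine max_eq rr rs rt r0s r0t h hub (insert i0 (T.erase (n + 1))) ?_ ?_ ?_
    · intro t ht
      rcases Finset.mem_insert.1 ht with rfl | ht
      · exact hi0
      · rw [Finset.mem_erase] at ht
        have := hT t ht.2
        omega
    · intro a ha b hb hab hrab
      rcases Finset.mem_insert.1 ha with rfl | ha' <;>
        rcases Finset.mem_insert.1 hb with rfl | hb'
      · exact hab rfl
      · rw [Finset.mem_erase] at hb'
        exact hne b hb'.2 hb'.1 (rs _ _ hrab)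
      · rw [Finset.mem_erase] at ha'
        exact hne a ha'.2 ha'.1 hrab
      · rw [Finset.mem_erase] at ha' hb'
        exact hd a ha'.2 b hb'.2 hab hrab
    · rw [Finset.card_insert_of_notMem hi0T, Finset.card_erase_of_mem hn]
      omega
  · refine max_eq rr rs rt r0s r0t h hub T ?_ hd hc
    intro t ht
    have h1 := hT t ht
    have h2 : t ≠ n + 1 := fun h3 => hn (h3 ▸ ht)
    omega

theorem max_new {n n0 : ℕ} {r r0 : ℕ → ℕ → Prop} (rr : ∀ i, r0 i i)
    (rs : ∀ i j, r i j → r j i) (rt : ∀ i j k, r i j → r j k → r i k)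
    (r0s : ∀ i j, r0 i j → r0 j i) (r0t : ∀ i j k, r0 i j → r0 j k → r0 i k)
    (h : ∀ i ≤ n, ∀ j ≤ n, r0 i j → r i j)
    (hub : ∀ T : Finset ℕ, (∀ i ∈ T, i ≤ n) → (∀ i ∈ T, ∀ j ∈ T, i ≠ j → ¬ r0 i j) →
      T.card ≤ n0)
    (T : Finset ℕ) (hT : ∀ i ∈ T, i ≤ n + 1) (hd : ∀ i ∈ T, ∀ j ∈ T, i ≠ j → ¬ r i j)
    (hc : n0 + 1 ≤ T.card) :
    (∀ i ≤ n, ∀ j ≤ n, r i j → r0 i j) ∧ ∀ i ≤ n, ¬ r (n + 1) i := by
  classical
  have hn : n + 1 ∈ T := by
    by_contra hn
    have hT' : ∀ t ∈ T, t ≤ n := by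
      intro t ht
      have h1 := hT t ht
      have h2 : t ≠ n + 1 := fun h3 => hn (h3 ▸ ht)
      omega
    have h1 := hub T hT' (fun a ha b hb hab h0 => hd a ha b hb hab
      (h a (hT' a ha) b (hT' b hb) h0))
    omega
  have hT' : ∀ t ∈ T.erase (n + 1), t ≤ n := by
    intro t ht
    rw [Finset.mem_erase] at ht
    have h1 := hT t ht.2
    omega
  have hd' : ∀ i ∈ T.erase (n + 1), ∀ j ∈ T.erase (n + 1), i ≠ j → ¬ r i j := by
    intro a ha b hb hab
    rw [Finset.mem_erase] at ha hb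
    exact hd a ha.2 b hb.2 hab
  have hc' : n0 ≤ (T.erase (n + 1)).card := by
    rw [Finset.card_erase_of_mem hn]
    omega
  refine ⟨max_eq rr rs rt r0s r0t h hub _ hT' hd' hc', fun i hi hri => ?_⟩
  obtain ⟨t, ht, h1⟩ := max_aux rr r0s hub _ hT'
    (fun a ha b hb hab h0 => hd' a ha b hb hab (h a (hT' a ha) b (hT' b hb) h0)) hc' i hi
  have h2 := Finset.mem_erase.1 ht
  exact hd (n + 1) hn t h2.2 (Ne.symm h2.1) (rt _ _ _ hri (h i hi t (hT' t ht) h1))

end TR
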