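import Pool.Agent.TR.Persist
import Pool.Agent.TR.Exact
import Pool.Agent.TR.MaxL

/-!
MODULE LABCONST (labels: invariance and local constancy).

lab_gl: `D_gl`: all cells are multiplied by the same det <> 0, so col is multiplied by the sign of
det; the links `lk` are the same (1 or -1 times c; - x = - y iff x = y for SignType).
lab_const: near (p,a) (`persist` with M = 3 Nn + 1) the non-zero colours persist.  So Alt persists,
and lab p a i j -> lab x i j (Conn.mono).  If x is positive and in normal frame, `exact_X` (X1) for x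
gives T with m - 1 elements pairwise not related for x, and `exact_ub` for (p,a) bounds the sets
pairwise not related for (p,a) by m - 1: `max_eq` gives the converse.
(Note: lab is reflexive, symmetric, transitive as Conn is.)
-/

open Filter Topology

namespace TR

theorem LC_sgn_mul_inj (s x y : SignType) (hs : s ≠ 0) : s * x = s * y ↔ x = y := by
  revert s x y; decide

theorem LC_sgn_mul_ne (s x : SignType) (hs : s ≠ 0) : s * x ≠ 0 ↔ x ≠ 0 := by
  revert s x; decide

theorem LC_lk {M K : ℕ} {c c' : ℕ → ℕ → SignType} (s : SignType) (hs : s ≠ 0)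
    (h : ∀ j k, c' j k = s * c j k) : lk M K c' = lk M K c := by
  funext x y
  unfold lk
  rw [h, h, LC_sgn_mul_inj s _ _ hs, ne_eq, ne_eq, not_iff_not.1 (LC_sgn_mul_ne s _ hs)]

theorem lab_gl {m q : ℕ} (p : ℕ → ℕ → ℝ) (α β γ δ : ℝ) (h : α * δ - β * γ ≠ 0)
    (a : ℕ → ℝ × ℝ) (i j : ℕ) :
    lab m q p (fun k => gl α β γ δ (a k)) i j ↔ lab m q p a i j := by
  unfold lab Conn
  rw [LC_lk (SignType.sign (α * δ - β * γ)) (by rw [ne_eq, sign_eq_zero_iff]; exact h)]
  intro j k
  rw [col, D_gl, sign_mul, col]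

theorem lab_const {m q : ℕ} (hq : 1 ≤ q) (hqm : q < m) {p : ℕ → ℕ → ℝ} (hp : Pos p)
    {a : ℕ → ℝ × ℝ} (ha : NF m q a) (hA : Alt m q p a) :
    ∀ᶠ x : (ℕ → ℕ → ℝ) × (ℕ → ℝ × ℝ) in 𝓝 (p, a), Pos x.1 → NF m q x.2 →
      Alt m q x.1 x.2 ∧ ∀ i ≤ Nn m q, ∀ j ≤ Nn m q, (lab m q x.1 x.2 i j ↔ lab m q p a i j) := by
  filter_upwards [persist m (3 * Nn m q + 1) p a] with x hx hpx hnx
  obtain ⟨hx1, _⟩ := hx
  have hm : 0 < m := by omega
  have hcol : ∀ j ≤ 3 * Nn m q + 1, D m p a j 0 ≠ 0 →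
      SignType.sign (D m x.1 x.2 j 0) = SignType.sign (D m p a j 0) := by
    intro j hj h0
    refine hx1 j hj 0 hm ?_
    rw [col, ne_eq, sign_eq_zero_iff]
    exact h0
  have hAx : Alt m q x.1 x.2 := by
    refine ⟨?_, ?_⟩
    · intro h0
      have h1 := hcol 1 (by omega) hA.1
      rw [h0, sign_zero] at h1
      exact hA.1 (sign_eq_zero_iff.1 h1.symm)
    · intro i hi
      have h2 := hA.2 i hi
      have h3 : D m p a (3 * i + 1) 0 ≠ 0 := by
        intro h0; rw [h0, zero_mul] at h2; exact lt_irrefl _ h2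
      have h4 : D m p a (3 * i + 4) 0 ≠ 0 := by
        intro h0; rw [h0, mul_zero] at h2; exact lt_irrefl _ h2
      rw [← sign_eq_neg_one_iff, sign_mul, hcol _ (by omega) h3, hcol _ (by omega) h4,
        ← sign_mul, sign_eq_neg_one_iff]
      exact h2
  have hmono : ∀ i ≤ Nn m q, ∀ j ≤ Nn m q, lab m q p a i j → lab m q x.1 x.2 i j := by
    intro i _ j _ hij
    unfold lab at *
    exact hij.mono le_rfl le_rfl (fun j hj k hk h0 => hx1 j hj k (by omega) h0)
  obtain ⟨⟨T, hT, hTc, hTd⟩, _⟩ := exact_X hq hqm hpx hnx hAx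
  refine ⟨hAx, fun i hi j hj => ⟨fun h => ?_, fun h => hmono i hi j hj h⟩⟩
  refine max_eq (n := Nn m q) (n0 := m - 1) (r := lab m q x.1 x.2) (r0 := lab m q p a)
    (fun i => Conn.refl _) (fun i j h => Conn.symm h) (fun i j k h h' => Conn.trans h h')
    (fun i j h => Conn.symm h) (fun i j k h h' => Conn.trans h h') hmono
    (fun T hT hd => exact_ub hp (by omega) hA T hT hd) T hT hTd hTc.ge i hi j hj h

end TR
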