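import Pool.Agent.TR.Diff
import Pool.Agent.TR.IFT
import Pool.Agent.TR.Compact
import Pool.Agent.TR.Clean
import Pool.Agent.TR.LabConst

/-!
MODULE CONT (continuation of real solutions along a path of data).

cont_open: `ift` with E = E' = Fin N -> R, F (th, v) i = D m (P th) (ch m q v) (3i+3) 0 (C^1:
D_contDiff, ch_contDiff); derivative in the direction (0,t): dD m (P th0) (ch m q w) (ch0 m q t)
(D_hasDerivAt, ch_line), so hnd is Nd.  Labels: lab_const at (P th0, ch m q w) (Alt by alt_of_sol,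
normal frame nf_ch); (th, v) -> (P th, ch m q v) is continuous.
cont_closed: th n -> th: `proper_seq` gives a convergent subsequence w (phi n) -> w' in Sol (P th);
lab_const at (P th, ch m q w'): for large n the labels of w (phi n) and w' agree.
-/

open Filter Topology

namespace TR

theorem continuous_data (P : ℝ → ℕ → ℕ → ℝ) (hPc : ∀ j k, Continuous (fun θ => P θ j k)) :
    Continuous P :=
  continuous_pi (fun j => continuous_pi (fun k => hPc j k))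

theorem continuous_ch (m q : ℕ) {n : ℕ} :
    Continuous (fun v : Fin n → ℝ => (ch m q v : ℕ → ℝ × ℝ)) :=
  continuous_pi (fun k => (ch_contDiff m q k).continuous)

theorem cont_open {m q : ℕ} (hq : 1 ≤ q) (hqm : q < m) (P : ℝ → ℕ → ℕ → ℝ)
    (hPc : ∀ j k, ContDiff ℝ 1 (fun θ => P θ j k)) (θ₀ : ℝ) (hp : Pos (P θ₀))
    {w : Fin (Nn m q) → ℝ} (hw : w ∈ Sol ℝ m q (P θ₀)) (hnd : Nd m q (P θ₀) w) :
    ∀ᶠ θ in 𝓝 θ₀, Pos (P θ) → ∃ w' ∈ Sol ℝ m q (P θ),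
      ∀ i ≤ Nn m q, ∀ j ≤ Nn m q, (lab m q (P θ) (ch m q w') i j ↔
        lab m q (P θ₀) (ch m q w) i j) := by
  let F : ℝ × (Fin (Nn m q) → ℝ) → (Fin (Nn m q) → ℝ) := fun x i =>
    D m (P x.1) (ch m q x.2) (3 * (i : ℕ) + 3) 0
  have hF : ContDiff ℝ 1 F := by
    refine contDiff_pi.2 (fun i => ?_)
    exact D_contDiff m (fun x : ℝ × (Fin (Nn m q) → ℝ) => P x.1)
      (fun j k => (hPc j k).comp contDiff_fst) (fun x => ch m q x.2)
      (fun k _ => (ch_contDiff m q k).comp contDiff_snd) _ _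
  have h0 : F (θ₀, w) = 0 := funext (fun i => hw i i.2)
  have hnd' : ∀ t : Fin (Nn m q) → ℝ, fderiv ℝ F (θ₀, w) (0, t) = 0 → t = 0 := by
    intro t ht
    refine hnd t (fun i hi => ?_)
    have h1 : HasDerivAt (fun s : ℝ => F ((θ₀, w) + s • ((0 : ℝ), t)))
        (fderiv ℝ F (θ₀, w) (0, t)) 0 := by
      have h2 : HasFDerivAt F (fderiv ℝ F (θ₀, w)) ((θ₀, w) + (0 : ℝ) • ((0 : ℝ), t)) := by
        rw [zero_smul, add_zero]
        exact (hF.differentiable one_ne_zero _).hasFDerivAt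
      have h3 : HasDerivAt (fun s : ℝ => (θ₀, w) + s • ((0 : ℝ), t)) ((0 : ℝ), t) 0 := by
        simpa using ((hasDerivAt_id (0 : ℝ)).smul_const ((0 : ℝ), t)).const_add (θ₀, w)
      exact h2.comp_hasDerivAt (0 : ℝ) h3
    have h4 : HasDerivAt (fun s : ℝ => F ((θ₀, w) + s • ((0 : ℝ), t)) ⟨i, hi⟩)
        (fderiv ℝ F (θ₀, w) (0, t) ⟨i, hi⟩) 0 := (hasDerivAt_pi.1 h1) ⟨i, hi⟩
    have h5 := D_hasDerivAt m (P θ₀) (ch m q w) (ch0 m q t) (3 * i + 3) 0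
    have h6 : (fun s : ℝ => F ((θ₀, w) + s • ((0 : ℝ), t)) ⟨i, hi⟩) =
        fun s : ℝ => D m (P θ₀) (fun k => ch m q w k + s • ch0 m q t k) (3 * i + 3) 0 := by
      funext s
      change D m (P (θ₀ + s • (0 : ℝ))) (ch m q (w + s • t)) (3 * i + 3) 0 = _
      rw [smul_zero, add_zero]
      congr 1
      funext k
      exact ch_line m q w t s k
    rw [h6] at h4
    rw [h5.unique h4, ht]
    rfl
  have hA : Alt m q (P θ₀) (ch m q w) := alt_of_sol hq hqm hp (nf_ch hq hqm w) hw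
  have h7 := lab_const hq hqm hp (nf_ch hq hqm w) hA
  have hcont : Continuous (fun x : ℝ × (Fin (Nn m q) → ℝ) =>
      ((P x.1, ch m q x.2) : (ℕ → ℕ → ℝ) × (ℕ → ℝ × ℝ))) :=
    ((continuous_data P (fun j k => (hPc j k).continuous)).comp continuous_fst).prodMk
      ((continuous_ch m q).comp continuous_snd)
  have h8 := (hcont.tendsto (θ₀, w)).eventually h7
  rw [nhds_prod_eq, Filter.eventually_prod_iff] at h8
  obtain ⟨pa, hpa, pb, hpb, h9⟩ := h8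
  have h10 := ift (E := Fin (Nn m q) → ℝ) (E' := Fin (Nn m q) → ℝ) rfl F hF θ₀ w h0 hnd'
    (U := {v | pb v}) hpb
  filter_upwards [h10, hpa] with θ hθ hpaθ hpos
  obtain ⟨v, hv, hv0⟩ := hθ
  refine ⟨v, fun i hi => congrFun hv0 ⟨i, hi⟩, ?_⟩
  exact (h9 hpaθ hv hpos (nf_ch hq hqm v)).2

theorem cont_closed {m q : ℕ} (hq : 1 ≤ q) (hqm : q < m) (P : ℝ → ℕ → ℕ → ℝ)
    (hPc : ∀ j k, Continuous (fun θ => P θ j k)) (θ₀ : ℝ) (hp : Pos (P θ₀))
    (hprp : Prp ℂ m q (P θ₀)) (θ : ℕ → ℝ) (hθ : Tendsto θ atTop (𝓝 θ₀))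
    (hpn : ∀ n, Pos (P (θ n))) (r : ℕ → ℕ → Prop)
    (hw : ∀ n, ∃ w ∈ Sol ℝ m q (P (θ n)), ∀ i ≤ Nn m q, ∀ j ≤ Nn m q,
      (lab m q (P (θ n)) (ch m q w) i j ↔ r i j)) :
    ∃ w ∈ Sol ℝ m q (P θ₀), ∀ i ≤ Nn m q, ∀ j ≤ Nn m q,
      (lab m q (P θ₀) (ch m q w) i j ↔ r i j) := by
  choose w hw1 hw2 using hw
  have hP : Tendsto (fun n => P (θ n)) atTop (𝓝 (P θ₀)) :=
    ((continuous_data P hPc).tendsto θ₀).comp hθ
  obtain ⟨φ, hφ, w', hw', hlim⟩ := proper_seq hq hqm (fun n => P (θ n)) (P θ₀) hP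
    (prp_real hprp) w hw1
  have hA : Alt m q (P θ₀) (ch m q w') := alt_of_sol hq hqm hp (nf_ch hq hqm w') hw'
  have h7 := lab_const hq hqm hp (nf_ch hq hqm w') hA
  have h8 : Tendsto (fun n => ((P (θ (φ n)), ch m q (w (φ n))) :
      (ℕ → ℕ → ℝ) × (ℕ → ℝ × ℝ))) atTop (𝓝 (P θ₀, ch m q w')) :=
    (hP.comp hφ.tendsto_atTop).prodMk_nhds (((continuous_ch m q).tendsto w').comp hlim)
  obtain ⟨n, hn⟩ := (h8.eventually h7).exists
  refine ⟨w', hw', fun i hi j hj => ?_⟩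
  rw [← hw2 (φ n) i hi j hj]
  exact ((hn (hpn (φ n)) (nf_ch hq hqm (w (φ n)))).2 i hi j hj).symm

end TR
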