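import Mathlib

/-!
MODULE COUNTP (from characteristic equations to the number of points and non-degeneracy).

Let v in S (a common zero of the w i).  For h a linear form h = sum c_j X_j, let P be as in (hP) and
P0 = P mapped by the evaluation of the coefficients at 0: monic of degree <= g.  Evaluating the
identity P.eval₂ (aeval w) h = 0 at v gives P0 (h(v)) = 0.
(1) Choose c such that h separates the points of S: P0 has at least |S| roots, so |S| <= g.
(2) Let |S| = g and let t <> 0 satisfy sum_j t_j (pderiv j (w i))(v) = 0 for all i.  Choose c such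
    that moreover sum c_j t_j <> 0.  P0 has degree exactly g and g distinct roots, so they are
    simple: P0'(h(v)) <> 0.  Let del f = sum_j t_j (pderiv j f)(v); then
    0 = del (P.eval₂ (aeval w) h) = P0'(h(v)) * del h, contradiction.
-/

open Polynomial

namespace TR

/-- The linear form with coefficients `c`. -/
noncomputable def countP_lin {n : ℕ} (c : Fin n → ℂ) : MvPolynomial (Fin n) ℂ :=
  ∑ j, MvPolynomial.C (c j) * MvPolynomial.X j

theorem countP_lin_eval {n : ℕ} (c v : Fin n → ℂ) :
    MvPolynomial.eval v (countP_lin c) = ∑ j, c j * v j := by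
  simp [countP_lin, map_sum]

/-- The directional derivative at `v` in the direction `t`. -/
noncomputable def countP_D {n : ℕ} (v t : Fin n → ℂ) (f : MvPolynomial (Fin n) ℂ) : ℂ :=
  ∑ j, t j * MvPolynomial.eval v (MvPolynomial.pderiv j f)

theorem countP_D_add {n : ℕ} (v t : Fin n → ℂ) (f g : MvPolynomial (Fin n) ℂ) :
    countP_D v t (f + g) = countP_D v t f + countP_D v t g := by
  simp [countP_D, mul_add, Finset.sum_add_distrib]

theorem countP_D_mul {n : ℕ} (v t : Fin n → ℂ) (f g : MvPolynomial (Fin n) ℂ) :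
    countP_D v t (f * g) = MvPolynomial.eval v f * countP_D v t g +
      MvPolynomial.eval v g * countP_D v t f := by
  simp only [countP_D, Finset.mul_sum, ← Finset.sum_add_distrib]
  refine Finset.sum_congr rfl fun j _ => ?_
  rw [(MvPolynomial.pderiv j).leibniz]
  simp only [smul_eq_mul, map_add, map_mul]
  ring

theorem countP_D_C {n : ℕ} (v t : Fin n → ℂ) (a : ℂ) :
    countP_D v t (MvPolynomial.C a) = 0 := by
  simp [countP_D]

theorem countP_D_lin {n : ℕ} (c v t : Fin n → ℂ) :
    countP_D v t (countP_lin c) = ∑ j, c j * t j := by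
  simp only [countP_D, countP_lin, map_sum]
  refine Finset.sum_congr rfl fun j _ => ?_
  have : ∀ i, MvPolynomial.eval v (MvPolynomial.pderiv j
      ((MvPolynomial.C (c i) : MvPolynomial (Fin n) ℂ) * MvPolynomial.X i)) =
      if i = j then c j else 0 := by
    intro i
    rw [MvPolynomial.pderiv_C_mul, MvPolynomial.pderiv_X]
    by_cases h : i = j
    · subst h; simp
    · simp [h]
  simp only [this]
  rw [Finset.sum_ite_eq' Finset.univ j]
  simp [mul_comm]

theorem countP_D_pow {n : ℕ} (v t : Fin n → ℂ) (f : MvPolynomial (Fin n) ℂ) (k : ℕ) :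
    countP_D v t (f ^ k) = k * MvPolynomial.eval v f ^ (k - 1) * countP_D v t f := by
  induction k with
  | zero =>
    have : (f ^ 0 : MvPolynomial (Fin n) ℂ) = MvPolynomial.C 1 := by simp
    rw [this, countP_D_C]; simp
  | succ k ih =>
    rw [pow_succ, countP_D_mul, ih, map_pow]
    rcases k with _ | k
    · simp
    · simp only [Nat.add_sub_cancel, Nat.cast_add, Nat.cast_one, pow_succ]
      ring

theorem countP_D_aeval {n : ℕ} (w : Fin n → MvPolynomial (Fin n) ℂ) (v t : Fin n → ℂ)
    (ht : ∀ i, countP_D v t (w i) = 0)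
    (r : MvPolynomial (Fin n) ℂ) :
    countP_D v t (MvPolynomial.aeval w r) = 0 := by
  induction r using MvPolynomial.induction_on with
  | C a =>
    rw [MvPolynomial.aeval_C]
    exact countP_D_C v t a
  | add p q hp hq => rw [map_add, countP_D_add, hp, hq, add_zero]
  | mul_X p i hp =>
    rw [map_mul, MvPolynomial.aeval_X, countP_D_mul, hp, ht, mul_zero, mul_zero, add_zero]

theorem countP_eval_comp {n : ℕ} (w : Fin n → MvPolynomial (Fin n) ℂ) (v : Fin n → ℂ)
    (hv : ∀ i, MvPolynomial.eval v (w i) = 0) :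
    (MvPolynomial.eval v).comp
      (MvPolynomial.aeval w : MvPolynomial (Fin n) ℂ →ₐ[ℂ] MvPolynomial (Fin n) ℂ).toRingHom =
      MvPolynomial.eval 0 := by
  refine MvPolynomial.ringHom_ext (fun r => ?_) (fun i => ?_)
  · simp
  · simp [hv]

theorem countP_root {n : ℕ} (w : Fin n → MvPolynomial (Fin n) ℂ) (v : Fin n → ℂ)
    (hv : ∀ i, MvPolynomial.eval v (w i) = 0) (h : MvPolynomial (Fin n) ℂ)
    (P : (MvPolynomial (Fin n) ℂ)[X])
    (hP : P.eval₂ (MvPolynomial.aeval w : MvPolynomial (Fin n) ℂ →ₐ[ℂ] _).toRingHom h = 0) :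
    (P.map (MvPolynomial.eval 0)).eval (MvPolynomial.eval v h) = 0 := by
  have := congrArg (MvPolynomial.eval v) hP
  rw [Polynomial.hom_eval₂, countP_eval_comp w v hv, map_zero] at this
  rw [Polynomial.eval_map]
  exact this

theorem countP_D_eval₂ {n : ℕ} (w : Fin n → MvPolynomial (Fin n) ℂ) (v t : Fin n → ℂ)
    (hv : ∀ i, MvPolynomial.eval v (w i) = 0) (ht : ∀ i, countP_D v t (w i) = 0)
    (h : MvPolynomial (Fin n) ℂ) (P : (MvPolynomial (Fin n) ℂ)[X]) :
    countP_D v t
      (P.eval₂ (MvPolynomial.aeval w : MvPolynomial (Fin n) ℂ →ₐ[ℂ] _).toRingHom h) =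
      (P.map (MvPolynomial.eval 0)).derivative.eval (MvPolynomial.eval v h) *
        countP_D v t h := by
  induction P using Polynomial.induction_on' with
  | add p q hp hq =>
    rw [Polynomial.eval₂_add, countP_D_add, hp, hq, Polynomial.map_add, Polynomial.derivative_add,
      Polynomial.eval_add]
    ring
  | monomial k a =>
    have hc := congrArg (fun f => f a) (countP_eval_comp w v hv)
    simp only [RingHom.comp_apply] at hc
    have hz : countP_D v t ((MvPolynomial.aeval w : MvPolynomial (Fin n) ℂ →ₐ[ℂ]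
      MvPolynomial (Fin n) ℂ).toRingHom a) = 0 := countP_D_aeval w v t ht a
    rw [Polynomial.eval₂_monomial, countP_D_mul, hz, hc, countP_D_pow, Polynomial.map_monomial,
      Polynomial.derivative_monomial, Polynomial.eval_monomial]
    ring

/-- A linear form not vanishing at finitely many non-zero vectors. -/
theorem countP_choose {n : ℕ} (T : Finset (Fin n → ℂ)) (hT : ∀ u ∈ T, u ≠ 0) :
    ∃ c : Fin n → ℂ, ∀ u ∈ T, ∑ j, c j * u j ≠ 0 := by
  by_contra hne
  push Not at hne
  have h0 : (∏ u ∈ T, countP_lin u) = 0 := by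
    refine MvPolynomial.funext fun c => ?_
    obtain ⟨u, hu, hu0⟩ := hne c
    rw [map_prod, map_zero]
    refine Finset.prod_eq_zero hu ?_
    rw [countP_lin_eval, ← hu0]
    exact Finset.sum_congr rfl fun j _ => mul_comm _ _
  rw [Finset.prod_eq_zero_iff] at h0
  obtain ⟨u, hu, hu0⟩ := h0
  refine hT u hu ?_
  funext j
  have := congrArg (MvPolynomial.eval (Pi.single j (1 : ℂ))) hu0
  rw [countP_lin_eval, map_zero] at this
  simpa [Pi.single_apply] using this

theorem count_points {n g : ℕ} (w : Fin n → MvPolynomial (Fin n) ℂ)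
    (hP : ∀ h : MvPolynomial (Fin n) ℂ, ∃ P : (MvPolynomial (Fin n) ℂ)[X], P.Monic ∧
      P.natDegree ≤ g ∧
      P.eval₂ (MvPolynomial.aeval w : MvPolynomial (Fin n) ℂ →ₐ[ℂ] _).toRingHom h = 0)
    (S : Finset (Fin n → ℂ)) (hS : ∀ v ∈ S, ∀ i, MvPolynomial.eval v (w i) = 0) :
    S.card ≤ g ∧ (S.card = g → ∀ v ∈ S, ∀ t : Fin n → ℂ,
      (∀ i, ∑ j, t j * MvPolynomial.eval v (MvPolynomial.pderiv j (w i)) = 0) → t = 0) := by
  classical
  -- the basic estimate for a separating linear form
  have key : ∀ c : Fin n → ℂ, (∀ v ∈ S, ∀ v' ∈ S, v ≠ v' → ∑ j, c j * (v j - v' j) ≠ 0) →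
      ∃ P : (MvPolynomial (Fin n) ℂ)[X], P.Monic ∧ P.natDegree ≤ g ∧
      P.eval₂ (MvPolynomial.aeval w : MvPolynomial (Fin n) ℂ →ₐ[ℂ] _).toRingHom
        (countP_lin c) = 0 ∧ (S.image fun v => ∑ j, c j * v j).card = S.card ∧
      (S.image fun v => ∑ j, c j * v j).val ≤ (P.map (MvPolynomial.eval 0)).roots := by
    intro c hc
    obtain ⟨P, hm, hd, he⟩ := hP (countP_lin c)
    refine ⟨P, hm, hd, he, ?_, ?_⟩
    · refine Finset.card_image_of_injOn fun v hv v' hv' hvv => ?_
      by_contra hne
      refine hc v hv v' hv' hne ?_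
      have hvv' : ∑ j, c j * v j = ∑ j, c j * v' j := hvv
      simp only [mul_sub, Finset.sum_sub_distrib]
      rw [hvv', sub_self]
    · rw [Finset.val_le_iff_val_subset]
      intro x hx
      rw [Finset.mem_val, Finset.mem_image] at hx
      obtain ⟨v, hv, rfl⟩ := hx
      rw [Polynomial.mem_roots (hm.map _).ne_zero, Polynomial.IsRoot.def, ← countP_lin_eval]
      exact countP_root w v (hS v hv) _ P he
  have cardle : ∀ P : (MvPolynomial (Fin n) ℂ)[X], P.Monic → P.natDegree ≤ g →
      Multiset.card (P.map (MvPolynomial.eval (0 : Fin n → ℂ))).roots ≤ g := fun P _ hd =>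
    ((P.map (MvPolynomial.eval 0)).card_roots').trans ((Polynomial.natDegree_map_le).trans hd)
  refine ⟨?_, ?_⟩
  · obtain ⟨c, hc⟩ := countP_choose ((S ×ˢ S).image (fun p => p.1 - p.2) |>.filter (· ≠ 0))
      (fun u hu => (Finset.mem_filter.1 hu).2)
    obtain ⟨P, hm, hd, -, hcard, hle⟩ := key c (fun v hv v' hv' hne => by
      refine hc (v - v') (Finset.mem_filter.2 ⟨Finset.mem_image.2
        ⟨(v, v'), Finset.mem_product.2 ⟨hv, hv'⟩, rfl⟩, sub_ne_zero.2 hne⟩))
    rw [← hcard]
    exact (Multiset.card_le_card hle).trans (cardle P hm hd)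
  · intro hg v hv t ht
    by_contra htne
    obtain ⟨c, hc⟩ := countP_choose
      (insert t ((S ×ˢ S).image (fun p => p.1 - p.2) |>.filter (· ≠ 0)))
      (fun u hu => by
        rcases Finset.mem_insert.1 hu with rfl | hu
        · exact htne
        · exact (Finset.mem_filter.1 hu).2)
    obtain ⟨P, hm, hd, he, hcard, hle⟩ := key c (fun v hv v' hv' hne => by
      refine hc (v - v') (Finset.mem_insert_of_mem (Finset.mem_filter.2 ⟨Finset.mem_image.2
        ⟨(v, v'), Finset.mem_product.2 ⟨hv, hv'⟩, rfl⟩, sub_ne_zero.2 hne⟩)))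
    have hroots : (S.image fun v => ∑ j, c j * v j).val =
        (P.map (MvPolynomial.eval 0)).roots := by
      refine Multiset.eq_of_le_of_card_le hle ?_
      refine (cardle P hm hd).trans ?_
      rw [← hg, ← hcard, Finset.card_val]
    have hnd : (P.map (MvPolynomial.eval (0 : Fin n → ℂ))).roots.Nodup := by
      rw [← hroots]; exact Finset.nodup _
    have hne : P.map (MvPolynomial.eval (0 : Fin n → ℂ)) ≠ 0 := (hm.map _).ne_zero
    have hD := countP_D_eval₂ w v t (hS v hv) ht (countP_lin c) P
    rw [he, countP_D_lin] at hD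
    have h0 : countP_D v t (0 : MvPolynomial (Fin n) ℂ) = 0 := by
      simpa using countP_D_C v t 0
    rw [h0] at hD
    have hder : ((P.map (MvPolynomial.eval 0)).derivative).IsRoot
        (MvPolynomial.eval v (countP_lin c)) := by
      rcases mul_eq_zero.1 hD.symm with h | h
      · exact h
      · exact absurd h (hc t (Finset.mem_insert_self _ _))
    have hroot : (P.map (MvPolynomial.eval 0)).IsRoot (MvPolynomial.eval v (countP_lin c)) :=
      countP_root w v (hS v hv) _ P he
    have h1 := (Polynomial.one_lt_rootMultiplicity_iff_isRoot hne).2 ⟨hroot, hder⟩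
    rw [← Polynomial.count_roots] at h1
    have h2 := (Multiset.nodup_iff_count_le_one.1 hnd) (MvPolynomial.eval v (countP_lin c))
    omega

end TR
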