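import Mathlib

/-!
Convex curves.
-/

namespace TR

/-- A continuous curve in `ℝ^m` is convex if its values at any `m` distinct parameters are
linearly independent. -/
def ConvexCurve (m : ℕ) (γ : ℝ → Fin m → ℝ) : Prop :=
  Continuous γ ∧ ∀ t : Fin m → ℝ, Function.Injective t → LinearIndependent ℝ (fun i => γ (t i))

end TR
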