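import Pool.Agent.TR.Minor
import Pool.Agent.TR.Fact

/-!
From a convex curve to positive data.
-/

open Filter Topology

namespace TR

/-- Auxiliary free parameters between the nodes. -/
noncomputable def xpt (N : ℕ) (ζ : ℕ → ℝ) (i : ℕ) : ℝ :=
  if i = 0 then ζ 0 + 1 else if i < N then (ζ (i - 1) + ζ i) / 2 else ζ (N - 1) - 1

/-- Parameters of the positions (increasing order). -/
noncomputable def tauF (N : ℕ) (ζ : ℕ → ℝ) (l : ℕ) : ℝ :=
  if l < 3 * N + 1 then
    if l % 3 = 0 then xpt N ζ (N - l / 3) else ζ (N - 1 - l / 3)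
  else ζ 0 + 2 + ((l - (3 * N + 1) : ℕ) : ℝ)

theorem xpt_lt {N : ℕ} {ζ : ℕ → ℝ} (hζ : ∀ i, i + 1 < N → ζ (i + 1) < ζ i) {i : ℕ} (h1 : 1 ≤ i)
    (h2 : i ≤ N) : xpt N ζ i < ζ (i - 1) := by
  unfold xpt
  rw [if_neg (by omega)]
  split_ifs with h
  · have := hζ (i - 1) (by omega)
    rw [show i - 1 + 1 = i by omega] at this
    linarith
  · rw [show i = N by omega]; linarith

theorem lt_xpt {N : ℕ} {ζ : ℕ → ℝ} (hζ : ∀ i, i + 1 < N → ζ (i + 1) < ζ i) {i : ℕ}
    (h2 : i < N) : ζ i < xpt N ζ i := by
  unfold xpt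
  split_ifs with h
  · rw [h]; linarith
  · have := hζ (i - 1) (by omega)
    rw [show i - 1 + 1 = i by omega] at this
    linarith

theorem curve_data {m N : ℕ} (hm : 1 ≤ m) {γ : ℝ → Fin m → ℝ} (hγ : ConvexCurve m γ)
    (ζ : ℕ → ℝ) (hζ : ∀ i, i + 1 < N → ζ (i + 1) < ζ i)
    (hd : ∀ i < N, DifferentiableAt ℝ γ (ζ i))
    (hi : ∀ i < N, LinearIndependent ℝ ![γ (ζ i), deriv γ (ζ i)]) :
    ∃ (p : ℕ → ℕ → ℝ) (e : ℕ → Fin m → ℝ) (C : ℝ), Pos p ∧
      LinearIndependent ℝ (fun k : Fin m => e k) ∧
      ∀ i < N, (∑ k ∈ Finset.range m, cf m p (3 * i + 2) 0 k • e k = γ (ζ i)) ∧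
        (∑ k ∈ Finset.range m, cf m p (3 * i + 3) 0 k • e k
          = C • γ (ζ i) - deriv γ (ζ i)) := by
  obtain ⟨ε, hε, hsgn⟩ := sign_const hγ
  set M := 3 * N + 1 with hM
  set Q : Finset ℕ := (Finset.range M).filter (fun l => l % 3 = 1) with hQ
  have hQmem : ∀ l, l ∈ Q ↔ l < M ∧ l % 3 = 1 := by intro l; simp [hQ]
  have hnode : ∀ l, l < M → l % 3 ≠ 0 → tauF N ζ l = ζ (N - 1 - l / 3) := by
    intro l hl h0
    unfold tauF
    rw [if_pos (by omega), if_neg h0]
  have hC := minor_pos (m := m) (L := M + m) hγ hsgn (tauF N ζ) Q (deriv γ) ?_ ?_ ?_ ?_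
  · obtain ⟨C, hC⟩ := hC.exists
    set g : ℕ → Fin m → ℝ := fun l => if l ∈ Q then C • γ (tauF N ζ l) - deriv γ (tauF N ζ l)
      else γ (tauF N ζ l) with hg
    obtain ⟨p, hp, hp'⟩ := fact hm (M := M) g hε (fun σ h1 h2 => hC σ h1 h2)
    refine ⟨p, fun k => (-1 : ℝ) ^ k • g (M + k), C, hp, ?_, ?_⟩
    · have h1 := hC (fun i => M + i) (fun i j hij => by
        simp only; exact Nat.add_lt_add_left hij M) (fun i => by have := i.2; show M + (i : ℕ) < M + m; omega)
      have h2 : Matrix.det (fun i : Fin m => g (M + i)) ≠ 0 := by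
        intro h0
        rw [h0] at h1
        simp at h1
      have h3 : LinearIndependent ℝ (fun i : Fin m => g (M + i)) := by
        have := Matrix.linearIndependent_rows_of_det_ne_zero h2
        exact this
      have h4 := h3.units_smul (fun i : Fin m => ((-1 : ℝˣ)) ^ (i : ℕ))
      refine (linearIndependent_equiv' (Equiv.refl _) ?_).mp h4
      funext i
      simp only [Equiv.refl_apply, Function.comp, Pi.smul_apply', Units.smul_def,
        Units.val_pow_eq_pow_val, Units.val_neg, Units.val_one]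
    · intro i hiN
      constructor
      · have := hp' (3 * i + 2) (by omega) (by omega)
        rw [this]
        have e1 : M - (3 * i + 2) = 3 * (N - 1 - i) + 2 := by omega
        rw [e1]
        have e2 : 3 * (N - 1 - i) + 2 ∉ Q := by rw [hQmem]; omega
        simp only [hg]
        rw [if_neg e2, hnode _ (by omega) (by omega)]
        congr 2
        omega
      · have := hp' (3 * i + 3) (by omega) (by omega)
        rw [this]
        have e1 : M - (3 * i + 3) = 3 * (N - 1 - i) + 1 := by omega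
        rw [e1]
        have e2 : 3 * (N - 1 - i) + 1 ∈ Q := by rw [hQmem]; omega
        simp only [hg]
        rw [if_pos e2, hnode _ (by omega) (by omega)]
        have e3 : N - 1 - (3 * (N - 1 - i) + 1) / 3 = i := by omega
        rw [e3]
  · intro l hl
    rw [hQmem] at hl
    refine ⟨by omega, by rw [hQmem]; omega, ?_⟩
    rw [hnode l hl.1 (by omega), hnode (l + 1) (by omega) (by omega)]
    congr 2
    omega
  · intro l hl hlQ
    rw [hQmem] at hlQ
    rcases Nat.lt_or_ge l M with hlM | hlM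
    · rcases Nat.lt_or_ge (l % 3) 1 with h0 | h0
      · have h0' : l % 3 = 0 := by omega
        have ht : tauF N ζ l = xpt N ζ (N - l / 3) := by
          unfold tauF
          rw [if_pos (by omega), if_pos h0']
        rw [ht]
        rcases Nat.lt_or_ge (l + 1) M with h1 | h1
        · rw [hnode (l + 1) h1 (by omega)]
          have := xpt_lt hζ (i := N - l / 3) (by omega) (by omega)
          have e : N - l / 3 - 1 = N - 1 - (l + 1) / 3 := by omega
          rw [e] at this
          exact this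
        · have e1 : N - l / 3 = 0 := by omega
          rw [e1]
          unfold tauF xpt
          rw [if_pos rfl, if_neg (by omega)]
          have : (0 : ℝ) ≤ ((l + 1 - (3 * N + 1) : ℕ) : ℝ) := Nat.cast_nonneg _
          linarith
      · have h2 : l % 3 = 2 := by omega
        rw [hnode l hlM (by omega)]
        have ht : tauF N ζ (l + 1) = xpt N ζ (N - (l + 1) / 3) := by
          unfold tauF
          rw [if_pos (by omega), if_pos (by omega)]
        rw [ht]
        have e : N - (l + 1) / 3 = N - 1 - l / 3 := by omega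
        rw [e]
        exact lt_xpt hζ (by omega)
    · unfold tauF
      rw [if_neg (by omega), if_neg (by omega)]
      have : ((l - (3 * N + 1) : ℕ) : ℝ) < ((l + 1 - (3 * N + 1) : ℕ) : ℝ) := by
        exact_mod_cast (by omega : l - (3 * N + 1) < l + 1 - (3 * N + 1))
      linarith
  · intro l hl
    rw [hQmem] at hl
    rw [hnode l hl.1 (by omega)]
    exact (hd _ (by omega)).hasDerivAt
  · intro l hl
    rw [hQmem] at hl
    rw [hnode l hl.1 (by omega)]
    exact hi _ (by omega)

end TR
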