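import Mathlib

/-!
# Total reality for convex curves in codimension two: definitions

`K` is a commutative `ℝ`-algebra (`ℝ`, `ℂ`, or a polynomial ring over `ℂ`).
A column system is a function `a : ℕ → K × K`, of which only `a 0, …, a (m-1)` matter
(`a k` is the image of the `k`-th basis vector under a `2 × m` matrix `U`).
The data are positive reals `p j k` (`j ≥ 1` is the step, `k < m` the index).
-/

namespace TR

/-- The `2 × 2` determinant. -/
def br {K : Type*} [CommRing K] (u v : K × K) : K := u.1 * v.2 - u.2 * v.1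

/-- The array of vectors `f^(j)_k`: `f^(0) = a`, `f^(j)_k = ∑_{i ≥ k} p^(j)_i f^(j-1)_i`. -/
def arr {K : Type*} [CommRing K] [Algebra ℝ K] (m : ℕ) (p : ℕ → ℕ → ℝ) (a : ℕ → K × K) :
    ℕ → ℕ → K × K
  | 0, k => if k < m then a k else 0
  | (j + 1), k => ∑ i ∈ Finset.Ico k m, p (j + 1) i • arr m p a j i

/-- The value of the cell `(j, k)`. -/
def D {K : Type*} [CommRing K] [Algebra ℝ K] (m : ℕ) (p : ℕ → ℕ → ℝ) (a : ℕ → K × K)
    (j k : ℕ) : K :=
  br (arr m p a j k) (arr m p a j (k + 1))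

/-- The colour of the cell `(j, k)` (real column systems). -/
noncomputable def col (m : ℕ) (p : ℕ → ℕ → ℝ) (a : ℕ → ℝ × ℝ) (j k : ℕ) : SignType :=
  SignType.sign (D m p a j k)

/-- Triangular adjacency (one orientation). -/
def adj (x y : ℕ × ℕ) : Prop :=
  (y.1 = x.1 + 1 ∧ y.2 = x.2) ∨ (y.1 = x.1 ∧ y.2 = x.2 + 1) ∨ (y.1 = x.1 + 1 ∧ y.2 = x.2 + 1)

/-- `x` and `y` are adjacent cells of the rectangle `[0,M] × [0,K)` with the same non-zero
colour. -/
def lk (M K : ℕ) (c : ℕ → ℕ → SignType) (x y : ℕ × ℕ) : Prop :=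
  (x.1 ≤ M ∧ x.2 < K) ∧ (y.1 ≤ M ∧ y.2 < K) ∧ (adj x y ∨ adj y x) ∧
    c x.1 x.2 = c y.1 y.2 ∧ c x.1 x.2 ≠ 0

/-- Same cluster. -/
def Conn (M K : ℕ) (c : ℕ → ℕ → SignType) (x y : ℕ × ℕ) : Prop :=
  Relation.ReflTransGen (lk M K c) x y

/-- Number of changes of the sequence `s 0, …, s n`. -/
def chg {α : Type*} [DecidableEq α] (n : ℕ) (s : ℕ → α) : ℕ :=
  ((Finset.range n).filter (fun j => s j ≠ s (j + 1))).card

/-- Sign with the convention `0 ↦ 1`. -/
noncomputable def ps (x : ℝ) : SignType := if 0 ≤ x then 1 else -1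

/-- Sign with the convention `0 ↦ -1`. -/
noncomputable def ms (x : ℝ) : SignType := if 0 < x then 1 else -1

/-- Number of unknowns and of marks: `N = 2m - 3 - b = m + q - 3`, `b = m - q`. -/
def Nn (m q : ℕ) : ℕ := m + q - 3

/-- Normal frame: the top columns `a q, …, a (m-1)` are vertical, the last one points upwards,
and `a (q-1)` is not vertical. -/
structure NF (m q : ℕ) (a : ℕ → ℝ × ℝ) : Prop where
  top : ∀ k, q ≤ k → k < m → (a k).1 = 0
  pos : 0 < (a (m - 1)).2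
  ne : (a (q - 1)).1 ≠ 0

/-- The test cells `(3i+1, 0)`, `i = 0, …, N`, are non-zero and alternate in sign. -/
def Alt (m q : ℕ) (p : ℕ → ℕ → ℝ) (a : ℕ → ℝ × ℝ) : Prop :=
  D m p a 1 0 ≠ 0 ∧ ∀ i < Nn m q, D m p a (3 * i + 1) 0 * D m p a (3 * i + 4) 0 < 0

/-- The first `n` marks vanish: cells `(3i+3, 0)`, `i < n`. -/
def Mk {K : Type*} [CommRing K] [Algebra ℝ K] (m : ℕ) (p : ℕ → ℕ → ℝ) (a : ℕ → K × K)
    (n : ℕ) : Prop :=
  ∀ i < n, D m p a (3 * i + 3) 0 = 0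

/-- Extension of a finite vector by zero. -/
def ev {K : Type*} [Zero K] {n : ℕ} (v : Fin n → K) (i : ℕ) : K :=
  if h : i < n then v ⟨i, h⟩ else 0

/-- The affine chart of the closed stratum `Ω_q`: `a k = (v_{2k}, v_{2k+1})` for `k < q-1`,
`a (q-1) = (1,0)`, `a k = (0, v_{2(q-1)+(k-q)})` for `q ≤ k < m-1`, `a (m-1) = (0,1)`. -/
def ch {K : Type*} [CommRing K] (m q : ℕ) {n : ℕ} (v : Fin n → K) (k : ℕ) : K × K :=
  if k < q - 1 then (ev v (2 * k), ev v (2 * k + 1))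
  else if k = q - 1 then (1, 0)
  else if k < m - 1 then (0, ev v (2 * (q - 1) + (k - q)))
  else if k = m - 1 then (0, 1) else 0

/-- The linear part of the chart. -/
def ch0 {K : Type*} [CommRing K] (m q : ℕ) {n : ℕ} (v : Fin n → K) (k : ℕ) : K × K :=
  if k < q - 1 then (ev v (2 * k), ev v (2 * k + 1))
  else if k = q - 1 then 0
  else if k < m - 1 then (0, ev v (2 * (q - 1) + (k - q)))
  else 0

/-- First variation of the cell `(j,k)` at `a` in the direction `b`. -/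
def dD {K : Type*} [CommRing K] [Algebra ℝ K] (m : ℕ) (p : ℕ → ℕ → ℝ) (a b : ℕ → K × K)
    (j k : ℕ) : K :=
  br (arr m p a j k) (arr m p b j (k + 1)) + br (arr m p b j k) (arr m p a j (k + 1))

/-- The solution `v` (in the chart) is non-degenerate. -/
def Nd {K : Type*} [CommRing K] [Algebra ℝ K] (m q : ℕ) (p : ℕ → ℕ → ℝ)
    (v : Fin (Nn m q) → K) : Prop :=
  ∀ t : Fin (Nn m q) → K,
    (∀ i < Nn m q, dD m p (ch m q v) (ch0 m q t) (3 * i + 3) 0 = 0) → t = 0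

/-- Rank two. -/
def Rk {K : Type*} [CommRing K] (m : ℕ) (a : ℕ → K × K) : Prop :=
  ∃ i j, i < j ∧ j < m ∧ br (a i) (a j) ≠ 0

/-- The closed stratum: the top columns are pairwise parallel. -/
def Cl {K : Type*} [CommRing K] (m q : ℕ) (a : ℕ → K × K) : Prop :=
  ∀ i j, q ≤ i → i < j → j < m → br (a i) (a j) = 0

/-- Properness: a solution in the closed stratum lies in the chart domain. -/
def Prp (K : Type*) [CommRing K] [Algebra ℝ K] (m q : ℕ) (p : ℕ → ℕ → ℝ) : Prop :=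
  ∀ a : ℕ → K × K, Rk m a → Cl m q a → Mk m p a (Nn m q) → br (a (q - 1)) (a (m - 1)) ≠ 0

/-- Solutions in the chart. -/
def Sol (K : Type*) [CommRing K] [Algebra ℝ K] (m q : ℕ) (p : ℕ → ℕ → ℝ) :
    Set (Fin (Nn m q) → K) :=
  {v | Mk m p (ch m q v) (Nn m q)}

/-- The label of a real column system: which test cells are in the same cluster. -/
def lab (m q : ℕ) (p : ℕ → ℕ → ℝ) (a : ℕ → ℝ × ℝ) (i j : ℕ) : Prop :=
  Conn (3 * Nn m q + 1) (m - 1) (col m p a) (3 * i + 1, 0) (3 * j + 1, 0)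

/-- Ballot numbers (fuel `n`). -/
def cntN : ℕ → ℕ → ℕ → ℕ
  | 0, m, q => if m = 2 ∧ q = 1 then 1 else 0
  | (n + 1), m, q => if 1 ≤ q ∧ q < m then cntN n m (q - 1) + cntN n (m - 1) q else 0

/-- The number of solutions. -/
def cnt (m q : ℕ) : ℕ := cntN (Nn m q) m q

/-- All data are positive. -/
def Pos (p : ℕ → ℕ → ℝ) : Prop := ∀ j k, 0 < p j k

/-- The main statement for fixed `m, q` and data `p`. -/
structure TT (m q : ℕ) (p : ℕ → ℕ → ℝ) : Prop where
  prp : Prp ℂ m q p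
  card : (Sol ℂ m q p).ncard = cnt m q
  real : ∀ v ∈ Sol ℂ m q p, ∃ w ∈ Sol ℝ m q p, v = fun i => (w i : ℂ)
  nd : ∀ w ∈ Sol ℝ m q p, Nd m q p w
  labs : ∀ w ∈ Sol ℝ m q p, ∀ w' ∈ Sol ℝ m q p,
    (∀ i ≤ Nn m q, ∀ j ≤ Nn m q, lab m q p (ch m q w) i j ↔ lab m q p (ch m q w') i j) → w = w'

end TR
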