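import Pool.Agent.TR.AlgDefs

/-!
MODULE DERIV (derivative of the marks in the chart).

Both sides are obtained from `D m p (gch m q) j k` in A = MvPolynomial (Fin N) C.
eval_gch: evaluation at v is an R-algebra map A -> C: `D_map`.
deriv_gch: del_t f = sum_j t_j eval v (pderiv j f) is the composition of a derivation with eval v;
it is R-linear and satisfies Leibniz.  arr is a real linear combination (`arr_eq_cf`) of the
columns; del_t of the coordinates of gch is ch0 m q t, so del_t (arr gch) = arr (ch0 t) and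
del_t (br u u') = br (del u) (u' at v) + br (u at v) (del u').
-/

namespace TR

/-- Evaluation as an `ℝ`-algebra map. -/
noncomputable def evR {n : ℕ} (v : Fin n → ℂ) : MvPolynomial (Fin n) ℂ →ₐ[ℝ] ℂ :=
  (MvPolynomial.aeval v : MvPolynomial (Fin n) ℂ →ₐ[ℂ] ℂ).restrictScalars ℝ

theorem evR_apply {n : ℕ} (v : Fin n → ℂ) (f : MvPolynomial (Fin n) ℂ) :
    evR v f = MvPolynomial.eval v f := by
  change MvPolynomial.aeval v f = MvPolynomial.eval v f
  rw [MvPolynomial.aeval_eq_eval]

theorem evR_ev {n : ℕ} (v : Fin n → ℂ) (i : ℕ) :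
    evR v (ev (fun i : Fin n => (MvPolynomial.X i : MvPolynomial (Fin n) ℂ)) i) = ev v i := by
  unfold ev
  split_ifs with h
  · rw [evR_apply, MvPolynomial.eval_X]
  · exact map_zero _

theorem evR_gch {m q : ℕ} (v : Fin (Nn m q) → ℂ) :
    (fun i => (evR v (gch m q i).1, evR v (gch m q i).2)) = ch m q v := by
  funext k
  unfold gch ch
  split_ifs <;> simp [evR_ev]

theorem eval_gch {m q : ℕ} (p : ℕ → ℕ → ℝ) (v : Fin (Nn m q) → ℂ) (j k : ℕ) :
    MvPolynomial.eval v (D m p (gch m q) j k) = D m p (ch m q v) j k := by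
  rw [← evR_apply, ← D_map, evR_gch]

/-- The derivation along `t`, evaluated at `v`. -/
noncomputable def del {n : ℕ} (v t : Fin n → ℂ) (f : MvPolynomial (Fin n) ℂ) : ℂ :=
  ∑ l, t l * MvPolynomial.eval v (MvPolynomial.pderiv l f)

theorem del_zero {n : ℕ} (v t : Fin n → ℂ) : del v t 0 = 0 := by simp [del]

theorem del_one {n : ℕ} (v t : Fin n → ℂ) : del v t 1 = 0 := by simp [del]

theorem del_add {n : ℕ} (v t : Fin n → ℂ) (f g : MvPolynomial (Fin n) ℂ) :
    del v t (f + g) = del v t f + del v t g := by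
  simp only [del, map_add, mul_add, Finset.sum_add_distrib]

theorem del_sub {n : ℕ} (v t : Fin n → ℂ) (f g : MvPolynomial (Fin n) ℂ) :
    del v t (f - g) = del v t f - del v t g := by
  simp only [del, map_sub, mul_sub, Finset.sum_sub_distrib]

theorem del_mul {n : ℕ} (v t : Fin n → ℂ) (f g : MvPolynomial (Fin n) ℂ) :
    del v t (f * g) = evR v f * del v t g + del v t f * evR v g := by
  simp only [del, evR_apply, Finset.mul_sum, Finset.sum_mul, ← Finset.sum_add_distrib]
  refine Finset.sum_congr rfl fun l _ => ?_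
  rw [Derivation.leibniz]
  simp only [smul_eq_mul, map_add, map_mul]
  ring

theorem smul_real {n : ℕ} (r : ℝ) (f : MvPolynomial (Fin n) ℂ) :
    r • f = MvPolynomial.C (r : ℂ) * f := by
  rw [← MvPolynomial.smul_eq_C_mul]
  exact (algebraMap_smul ℂ r f).symm

theorem del_smul {n : ℕ} (v t : Fin n → ℂ) (r : ℝ) (f : MvPolynomial (Fin n) ℂ) :
    del v t (r • f) = r • del v t f := by
  rw [smul_real, del_mul]
  have h1 : del v t (MvPolynomial.C (r : ℂ)) = 0 := by simp [del]
  rw [h1, evR_apply, MvPolynomial.eval_C, zero_mul, add_zero, Complex.real_smul]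

theorem del_X {n : ℕ} (v t : Fin n → ℂ) (i : Fin n) : del v t (MvPolynomial.X i) = t i := by
  unfold del
  rw [Finset.sum_eq_single i]
  · rw [MvPolynomial.pderiv_X_self, map_one, mul_one]
  · intro l _ hl
    rw [MvPolynomial.pderiv_X_of_ne (Ne.symm hl), map_zero, mul_zero]
  · intro h; exact absurd (Finset.mem_univ _) h

theorem del_ev {n : ℕ} (v t : Fin n → ℂ) (i : ℕ) :
    del v t (ev (fun i : Fin n => (MvPolynomial.X i : MvPolynomial (Fin n) ℂ)) i) = ev t i := by
  unfold ev
  split_ifs with h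
  · rw [del_X]
  · exact del_zero _ _

theorem del_gch {m q : ℕ} (v t : Fin (Nn m q) → ℂ) (k : ℕ) :
    (del v t (gch m q k).1, del v t (gch m q k).2) = ch0 m q t k := by
  unfold gch ch ch0
  split_ifs <;> simp [del_ev, del_zero, del_one]

theorem del_sum {n : ℕ} {ι : Type*} (v t : Fin n → ℂ) (s : Finset ι)
    (f : ι → MvPolynomial (Fin n) ℂ) : del v t (∑ i ∈ s, f i) = ∑ i ∈ s, del v t (f i) := by
  classical
  induction s using Finset.induction_on with
  | empty => simp [del_zero]
  | insert i s hi ih => rw [Finset.sum_insert hi, Finset.sum_insert hi, del_add, ih]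

theorem del_arr {n m : ℕ} (p : ℕ → ℕ → ℝ) (v t : Fin n → ℂ)
    (a : ℕ → MvPolynomial (Fin n) ℂ × MvPolynomial (Fin n) ℂ) (j k : ℕ) :
    (del v t (arr m p a j k).1, del v t (arr m p a j k).2)
      = arr m p (fun i => (del v t (a i).1, del v t (a i).2)) j k := by
  induction j generalizing k with
  | zero =>
    by_cases hk : k < m
    · rw [arr_zero p a hk, arr_zero p _ hk]
    · rw [arr_ge p a 0 (not_lt.mp hk), arr_ge p _ 0 (not_lt.mp hk)]
      simp [del_zero]
  | succ j ih =>
    rw [arr_succ', arr_succ']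
    rw [Prod.fst_sum, Prod.snd_sum, del_sum, del_sum]
    refine Prod.ext ?_ ?_
    · rw [Prod.fst_sum (s := Finset.Ico k m)]
      change ∑ i ∈ Finset.Ico k m, del v t (p (j + 1) i • arr m p a j i).1 = _
      refine Finset.sum_congr rfl fun i _ => ?_
      rw [← ih i, Prod.smul_fst, del_smul]
      rfl
    · rw [Prod.snd_sum (s := Finset.Ico k m)]
      change ∑ i ∈ Finset.Ico k m, del v t (p (j + 1) i • arr m p a j i).2 = _
      refine Finset.sum_congr rfl fun i _ => ?_
      rw [← ih i, Prod.smul_snd, del_smul]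
      rfl

theorem deriv_gch {m q : ℕ} (p : ℕ → ℕ → ℝ) (v t : Fin (Nn m q) → ℂ) (j k : ℕ) :
    ∑ l, t l * MvPolynomial.eval v (MvPolynomial.pderiv l (D m p (gch m q) j k))
      = dD m p (ch m q v) (ch0 m q t) j k := by
  change del v t (D m p (gch m q) j k) = _
  have h0 : (fun i => (del v t (gch m q i).1, del v t (gch m q i).2)) = ch0 m q t :=
    funext fun k => del_gch v t k
  unfold D dD
  rw [← h0, ← del_arr, ← del_arr, ← evR_gch v, arr_map, arr_map]
  simp only [br]
  rw [del_sub, del_mul, del_mul]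
  ring

end TR
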