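import Pool.Agent.TR.Frame

/-!
MODULE DIFF (differentiability of the cells).

arr_contDiff: induction on j (finite sums of products of C^1 functions).
D_line: polynomial identity in s from arr_add, arr_smul (arr is linear in a):
 D (a + s b) = D a + s dD a b + s^2 D b.
ch_line: ch m q (v + s t) k = ch m q v k + s ch0 m q t k.
-/

namespace TR

theorem arr_contDiff {E : Type*} [NormedAddCommGroup E] [NormedSpace ℝ E] (m : ℕ)
    (P : E → ℕ → ℕ → ℝ) (hP : ∀ j k, ContDiff ℝ 1 (fun x => P x j k)) (a : E → ℕ → ℝ × ℝ)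
    (ha : ∀ k < m, ContDiff ℝ 1 (fun x => a x k)) (j k : ℕ) :
    ContDiff ℝ 1 (fun x => arr m (P x) (a x) j k) := by
  induction j generalizing k with
  | zero =>
    by_cases hk : k < m
    · have : (fun x => arr m (P x) (a x) 0 k) = fun x => a x k :=
        funext fun x => arr_zero (P x) (a x) hk
      rw [this]; exact ha k hk
    · have : (fun x => arr m (P x) (a x) 0 k) = fun _ => 0 :=
        funext fun x => arr_ge (P x) (a x) 0 (not_lt.mp hk)
      rw [this]; exact contDiff_const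
  | succ j ih =>
    have : (fun x => arr m (P x) (a x) (j + 1) k)
        = fun x => ∑ i ∈ Finset.Ico k m, P x (j + 1) i • arr m (P x) (a x) j i :=
      funext fun x => arr_succ' (P x) (a x) j k
    rw [this]
    exact ContDiff.sum fun i _ => (hP (j + 1) i).smul (ih i)

theorem D_contDiff {E : Type*} [NormedAddCommGroup E] [NormedSpace ℝ E] (m : ℕ)
    (P : E → ℕ → ℕ → ℝ) (hP : ∀ j k, ContDiff ℝ 1 (fun x => P x j k)) (a : E → ℕ → ℝ × ℝ)
    (ha : ∀ k < m, ContDiff ℝ 1 (fun x => a x k)) (j k : ℕ) :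
    ContDiff ℝ 1 (fun x => D m (P x) (a x) j k) := by
  have h1 := arr_contDiff m P hP a ha j k
  have h2 := arr_contDiff m P hP a ha j (k + 1)
  unfold D br
  exact (h1.fst.mul h2.snd).sub (h1.snd.mul h2.fst)

theorem ev_contDiff {n : ℕ} (i : ℕ) : ContDiff ℝ 1 (fun v : Fin n → ℝ => (ev v i : ℝ)) := by
  unfold ev
  split_ifs with h
  · exact contDiff_apply ℝ ℝ (⟨i, h⟩ : Fin n)
  · exact contDiff_const

theorem ch_contDiff (m q : ℕ) {n : ℕ} (k : ℕ) :
    ContDiff ℝ 1 (fun v : Fin n → ℝ => (ch m q v k : ℝ × ℝ)) := by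
  unfold ch
  split_ifs
  · exact (ev_contDiff _).prodMk (ev_contDiff _)
  · exact contDiff_const
  · exact contDiff_const.prodMk (ev_contDiff _)
  · exact contDiff_const
  · exact contDiff_const

theorem D_line {K : Type*} [CommRing K] [Algebra ℝ K] (m : ℕ) (p : ℕ → ℕ → ℝ)
    (a b : ℕ → K × K) (s : K) (j k : ℕ) :
    D m p (fun i => a i + s • b i) j k = D m p a j k + s * dD m p a b j k
      + s ^ 2 * D m p b j k := by
  unfold D dD
  rw [arr_add p a (fun i => s • b i), arr_add p a (fun i => s • b i), arr_smul, arr_smul]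
  simp only [br, Prod.fst_add, Prod.snd_add, Prod.smul_fst, Prod.smul_snd, smul_eq_mul]
  ring

theorem ev_line {K : Type*} [CommRing K] {n : ℕ} (v t : Fin n → K) (s : K) (i : ℕ) :
    ev (v + s • t) i = ev v i + s * ev t i := by
  unfold ev
  split_ifs
  · simp
  · simp

theorem ch_line {K : Type*} [CommRing K] (m q : ℕ) {n : ℕ} (v t : Fin n → K) (s : K) (k : ℕ) :
    ch m q (v + s • t) k = ch m q v k + s • ch0 m q t k := by
  unfold ch ch0
  split_ifs
  · ext <;> simp [ev_line]
  · simp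
  · ext <;> simp [ev_line]
  · simp
  · simp

/-- The derivative of a cell along a line. -/
theorem D_hasDerivAt (m : ℕ) (p : ℕ → ℕ → ℝ) (a b : ℕ → ℝ × ℝ) (j k : ℕ) :
    HasDerivAt (fun s : ℝ => D m p (fun i => a i + s • b i) j k) (dD m p a b j k) 0 := by
  have h : (fun s : ℝ => D m p (fun i => a i + s • b i) j k)
      = fun s : ℝ => D m p a j k + s * dD m p a b j k + s ^ 2 * D m p b j k :=
    funext fun s => D_line m p a b s j k
  rw [h]
  have h1 : HasDerivAt (fun s : ℝ => s * dD m p a b j k) (1 * dD m p a b j k) 0 :=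
    (hasDerivAt_id (0 : ℝ)).mul_const _
  have h2 : HasDerivAt (fun s : ℝ => s ^ 2 * D m p b j k)
      (((2 : ℕ) : ℝ) * (0 : ℝ) ^ (2 - 1) * 1 * D m p b j k) 0 :=
    ((hasDerivAt_id (0 : ℝ)).pow 2).mul_const _
  have h3 := (h1.const_add (D m p a j k)).add h2
  refine h3.congr_deriv ?_
  simp

end TR
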