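import Pool.Agent.TR.Runs

/-!
MODULE FLIP (recolouring one cluster).

c is a two-coloured rectangle R = [0,M] x [0,q) (all cells non-zero), x0 a cell of R,
K = {x in R : Conn x0 x}, c' = `flipC` = c with the colours of K reversed.
(1) Conn c x y -> Conn c' x y for x, y in R: an elementary link of c joins two cells of equal
    colour, both in K or both outside K, so it is a link of c'.
(2) If x in K, y in R, y adjacent to x and y not in K then c y = - c x (else y in K), so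
    c' x = c' y and Conn c' x y.
Let S' be pairwise not Conn c', contained in R. At most one s in S' is c'-connected to x0 (by (2)
all cells of K and all clusters of neighbours are c'-connected to x0).  Let S'' = S' without it.
For s in S'': s is not c-connected to x0 (by (1)) nor to any neighbour y of K (by (1), (2)), and the
elements of S'' are pairwise not c-connected (by (1)).
 * flip_one: if some cell of R is not in K then there is a neighbour y (walk in the lattice from x0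
   to that cell, the first exit from K); S = S'' u {x0, y} is pairwise not Conn c and
   |S| >= |S'| - 1 + 2.
 * flip_two: with two neighbours y1, y2 which are not c-connected: S = S'' u {x0, y1, y2}.
-/

namespace TR

open Classical in
/-- Reverse the colours of the cluster of `x0`. -/
noncomputable def flipC (M q : ℕ) (c : ℕ → ℕ → SignType) (x0 : ℕ × ℕ) (j k : ℕ) : SignType :=
  if Conn M q c x0 (j, k) then - c j k else c j k

theorem flipC_link {M q : ℕ} {c : ℕ → ℕ → SignType} {x0 x y : ℕ × ℕ} (h : lk M q c x y) :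
    lk M q (flipC M q c x0) x y := by
  have hneg : ∀ u : SignType, u ≠ 0 → - u ≠ 0 := by decide
  obtain ⟨h1, h2, h3, h4, h5⟩ := h
  have hiff : Conn M q c x0 (x.1, x.2) ↔ Conn M q c x0 (y.1, y.2) := by
    have hxy : Conn M q c (x.1, x.2) (y.1, y.2) := Conn.of_lk ⟨h1, h2, h3, h4, h5⟩
    exact ⟨fun h => h.trans hxy, fun h => h.trans hxy.symm⟩
  refine ⟨h1, h2, h3, ?_, ?_⟩
  · unfold flipC
    by_cases hx : Conn M q c x0 (x.1, x.2)
    · rw [if_pos hx, if_pos (hiff.mp hx), h4]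
    · rw [if_neg hx, if_neg (fun h => hx (hiff.mpr h)), h4]
  · unfold flipC
    split_ifs
    · exact hneg _ h5
    · exact h5

theorem flipC_conn {M q : ℕ} {c : ℕ → ℕ → SignType} {x0 x y : ℕ × ℕ} (h : Conn M q c x y) :
    Conn M q (flipC M q c x0) x y := by
  unfold Conn at *
  exact Relation.ReflTransGen.mono (fun u v huv => flipC_link huv) _ _ h

theorem flipC_nbr {M q : ℕ} {c : ℕ → ℕ → SignType} (hc : ∀ j ≤ M, ∀ k < q, c j k ≠ 0)
    {x0 x y : ℕ × ℕ} (hx0 : x0.1 ≤ M ∧ x0.2 < q) (hx : Conn M q c x0 x)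
    (hy : y.1 ≤ M ∧ y.2 < q) (ha : adj x y ∨ adj y x) (hn : ¬ Conn M q c x0 y) :
    Conn M q (flipC M q c x0) x0 y := by
  refine (flipC_conn hx).trans (Conn.of_lk ?_)
  have hxR : x.1 ≤ M ∧ x.2 < q := by
    rcases hx.eq_or with h | h
    · subst h; exact hx0
    · exact h.2.1
  have hopp : ∀ u v : SignType, u ≠ 0 → v ≠ 0 → u ≠ v → - u = v := by decide
  have hcx := hc _ hxR.1 _ hxR.2
  have hcy := hc _ hy.1 _ hy.2
  have hne : c x.1 x.2 ≠ c y.1 y.2 := fun h =>
    hn (hx.trans (Conn.of_lk ⟨hxR, hy, ha, h, hcx⟩))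
  have e1 : flipC M q c x0 x.1 x.2 = c y.1 y.2 := by
    unfold flipC
    rw [if_pos (show Conn M q c x0 (x.1, x.2) from hx)]
    exact hopp _ _ hcx hcy hne
  have e2 : flipC M q c x0 y.1 y.2 = c y.1 y.2 := by
    unfold flipC
    rw [if_neg (show ¬ Conn M q c x0 (y.1, y.2) from hn)]
  exact ⟨hxR, hy, ha, by rw [e1, e2], by rw [e1]; exact hcy⟩

/-- General form. -/
theorem flip_gen {M q : ℕ} {c : ℕ → ℕ → SignType} {x0 : ℕ × ℕ}
    (Z : Finset (ℕ × ℕ)) (hZ : ∀ z ∈ Z, z.1 ≤ M ∧ z.2 < q)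
    (hZc : ∀ z ∈ Z, Conn M q (flipC M q c x0) x0 z)
    (hZd : ∀ x ∈ Z, ∀ y ∈ Z, x ≠ y → ¬ Conn M q c x y)
    (S' : Finset (ℕ × ℕ)) (hS : ∀ x ∈ S', x.1 ≤ M ∧ x.2 < q)
    (hd : ∀ x ∈ S', ∀ y ∈ S', x ≠ y → ¬ Conn M q (flipC M q c x0) x y) :
    ∃ S : Finset (ℕ × ℕ), (∀ x ∈ S, x.1 ≤ M ∧ x.2 < q) ∧
      (∀ x ∈ S, ∀ y ∈ S, x ≠ y → ¬ Conn M q c x y) ∧ S'.card + Z.card ≤ S.card + 1 := by
  classical
  set S'' := S'.filter (fun s => ¬ Conn M q (flipC M q c x0) x0 s) with hS''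
  have hcard : S'.card ≤ S''.card + 1 := by
    have h1 : S'.card = (S'.filter (fun s => Conn M q (flipC M q c x0) x0 s)).card + S''.card := by
      rw [hS'', Finset.card_filter_add_card_filter_not]
    have h2 : (S'.filter (fun s => Conn M q (flipC M q c x0) x0 s)).card ≤ 1 := by
      rw [Finset.card_le_one]
      intro a ha b hb
      rw [Finset.mem_filter] at ha hb
      by_contra hne
      exact hd a ha.1 b hb.1 hne (ha.2.symm.trans hb.2)
    omega
  have hmem : ∀ s ∈ S'', s ∈ S' ∧ ¬ Conn M q (flipC M q c x0) x0 s := by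
    intro s hs
    rw [hS'', Finset.mem_filter] at hs
    exact hs
  have hcross : ∀ s ∈ S'', ∀ z ∈ Z, ¬ Conn M q c s z := by
    intro s hs z hz h
    exact (hmem s hs).2 ((hZc z hz).trans (flipC_conn h.symm))
  refine ⟨S'' ∪ Z, ?_, ?_, ?_⟩
  · intro x hx
    rw [Finset.mem_union] at hx
    rcases hx with hx | hx
    · exact hS x (hmem x hx).1
    · exact hZ x hx
  · intro x hx y hy hxy
    rw [Finset.mem_union] at hx hy
    rcases hx with hx | hx <;> rcases hy with hy | hy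
    · exact fun h => hd x (hmem x hx).1 y (hmem y hy).1 hxy (flipC_conn h)
    · exact hcross x hx y hy
    · exact fun h => hcross y hy x hx h.symm
    · exact hZd x hx y hy hxy
  · rw [Finset.card_union_of_disjoint]
    · omega
    · rw [Finset.disjoint_left]
      intro s hs hz
      exact hcross s hs s hz (Conn.refl s)

/-- The rectangle is connected. -/
theorem rect_closed {M q : ℕ} {P : ℕ × ℕ → Prop} {x0 : ℕ × ℕ} (hx0 : x0.1 ≤ M ∧ x0.2 < q)
    (h0 : P x0)
    (hP : ∀ x y : ℕ × ℕ, x.1 ≤ M ∧ x.2 < q → y.1 ≤ M ∧ y.2 < q → (adj x y ∨ adj y x) → P x → P y)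
    {y : ℕ × ℕ} (hy : y.1 ≤ M ∧ y.2 < q) : P y := by
  obtain ⟨a, b⟩ := x0
  obtain ⟨j, k⟩ := y
  simp only at hx0 hy
  have h1 : ∀ a' ≤ a, P (a - a', b) := by
    intro a'
    induction a' with
    | zero => intro _; exact h0
    | succ a' ih =>
      intro h
      refine hP (a - a', b) (a - (a' + 1), b) ⟨by simp only; omega, hx0.2⟩
        ⟨by simp only; omega, hx0.2⟩ (Or.inr (Or.inl ⟨by simp only; omega, rfl⟩)) (ih (by omega))
  have h2 : P (0, b) := by simpa using h1 a le_rfl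
  have h3 : ∀ b' ≤ b, P (0, b - b') := by
    intro b'
    induction b' with
    | zero => intro _; exact h2
    | succ b' ih =>
      intro h
      refine hP (0, b - b') (0, b - (b' + 1)) ⟨by simp only; omega, by simp only; omega⟩
        ⟨by simp only; omega, by simp only; omega⟩
        (Or.inr (Or.inr (Or.inl ⟨rfl, by simp only; omega⟩))) (ih (by omega))
  have h4 : P (0, 0) := by simpa using h3 b le_rfl
  have h5 : ∀ i ≤ j, P (i, 0) := by
    intro i
    induction i with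
    | zero => intro _; exact h4
    | succ i ih =>
      intro h
      exact hP (i, 0) (i + 1, 0) ⟨by simp only; omega, by simp only; omega⟩
        ⟨by simp only; omega, by simp only; omega⟩ (Or.inl (Or.inl ⟨rfl, rfl⟩)) (ih (by omega))
  have h6 : ∀ i ≤ k, P (j, i) := by
    intro i
    induction i with
    | zero => intro _; exact h5 j le_rfl
    | succ i ih =>
      intro h
      exact hP (j, i) (j, i + 1) ⟨hy.1, by simp only; omega⟩
        ⟨hy.1, by simp only; omega⟩ (Or.inl (Or.inr (Or.inl ⟨rfl, rfl⟩))) (ih (by omega))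
  exact h6 k le_rfl

theorem flip_one {M q : ℕ} {c : ℕ → ℕ → SignType} (hc : ∀ j ≤ M, ∀ k < q, c j k ≠ 0)
    {x0 : ℕ × ℕ} (hx0 : x0.1 ≤ M ∧ x0.2 < q)
    (hex : ∃ y : ℕ × ℕ, y.1 ≤ M ∧ y.2 < q ∧ ¬ Conn M q c x0 y)
    (S' : Finset (ℕ × ℕ)) (hS : ∀ x ∈ S', x.1 ≤ M ∧ x.2 < q)
    (hd : ∀ x ∈ S', ∀ y ∈ S', x ≠ y → ¬ Conn M q (flipC M q c x0) x y) :
    ∃ S : Finset (ℕ × ℕ), (∀ x ∈ S, x.1 ≤ M ∧ x.2 < q) ∧
      (∀ x ∈ S, ∀ y ∈ S, x ≠ y → ¬ Conn M q c x y) ∧ S'.card + 1 ≤ S.card := by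
  classical
  obtain ⟨x, y, hx, hy, ha, hn⟩ : ∃ x y : ℕ × ℕ, Conn M q c x0 x ∧ (y.1 ≤ M ∧ y.2 < q) ∧
      (adj x y ∨ adj y x) ∧ ¬ Conn M q c x0 y := by
    by_contra hcon
    push Not at hcon
    obtain ⟨z, hz1, hz2, hz3⟩ := hex
    exact hz3 (rect_closed (P := fun z => Conn M q c x0 z) hx0 (Conn.refl x0)
      (fun u v _ hv huv hu => hcon u v hu hv huv) ⟨hz1, hz2⟩)
  have hne : x0 ≠ y := by rintro rfl; exact hn (Conn.refl x0)
  have hZ : ∀ z ∈ ({x0, y} : Finset (ℕ × ℕ)), z.1 ≤ M ∧ z.2 < q := by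
    intro z hz
    rw [Finset.mem_insert, Finset.mem_singleton] at hz
    rcases hz with rfl | rfl
    · exact hx0
    · exact hy
  obtain ⟨S, hS1, hS2, hS3⟩ := flip_gen {x0, y} hZ (by
      intro z hz
      rw [Finset.mem_insert, Finset.mem_singleton] at hz
      rcases hz with rfl | rfl
      · exact Conn.refl _
      · exact flipC_nbr hc hx0 hx hy ha hn) (by
      intro u hu v hv huv
      rw [Finset.mem_insert, Finset.mem_singleton] at hu hv
      rcases hu with rfl | rfl <;> rcases hv with rfl | rfl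
      · exact absurd rfl huv
      · exact hn
      · exact fun h => hn h.symm
      · exact absurd rfl huv) S' hS hd
  rw [Finset.card_pair hne] at hS3
  exact ⟨S, hS1, hS2, by omega⟩

theorem flip_two {M q : ℕ} {c : ℕ → ℕ → SignType} (hc : ∀ j ≤ M, ∀ k < q, c j k ≠ 0)
    {x0 : ℕ × ℕ} (hx0 : x0.1 ≤ M ∧ x0.2 < q)
    {x1 x2 y1 y2 : ℕ × ℕ} (h1 : Conn M q c x0 x1) (h2 : Conn M q c x0 x2)
    (hy1 : y1.1 ≤ M ∧ y1.2 < q) (hy2 : y2.1 ≤ M ∧ y2.2 < q)
    (ha1 : adj x1 y1 ∨ adj y1 x1) (ha2 : adj x2 y2 ∨ adj y2 x2)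
    (hn1 : ¬ Conn M q c x0 y1) (hn2 : ¬ Conn M q c x0 y2) (hn : ¬ Conn M q c y1 y2)
    (S' : Finset (ℕ × ℕ)) (hS : ∀ x ∈ S', x.1 ≤ M ∧ x.2 < q)
    (hd : ∀ x ∈ S', ∀ y ∈ S', x ≠ y → ¬ Conn M q (flipC M q c x0) x y) :
    ∃ S : Finset (ℕ × ℕ), (∀ x ∈ S, x.1 ≤ M ∧ x.2 < q) ∧
      (∀ x ∈ S, ∀ y ∈ S, x ≠ y → ¬ Conn M q c x y) ∧ S'.card + 2 ≤ S.card := by
  classical
  have hne1 : x0 ≠ y1 := by rintro rfl; exact hn1 (Conn.refl _)
  have hne2 : x0 ≠ y2 := by rintro rfl; exact hn2 (Conn.refl _)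
  have hne : y1 ≠ y2 := by rintro rfl; exact hn (Conn.refl _)
  obtain ⟨S, hS1, hS2, hS3⟩ := flip_gen {x0, y1, y2} (by
      intro z hz
      rw [Finset.mem_insert, Finset.mem_insert, Finset.mem_singleton] at hz
      rcases hz with rfl | rfl | rfl
      · exact hx0
      · exact hy1
      · exact hy2) (by
      intro z hz
      rw [Finset.mem_insert, Finset.mem_insert, Finset.mem_singleton] at hz
      rcases hz with rfl | rfl | rfl
      · exact Conn.refl _
      · exact flipC_nbr hc hx0 h1 hy1 ha1 hn1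
      · exact flipC_nbr hc hx0 h2 hy2 ha2 hn2) (by
      intro u hu v hv huv
      rw [Finset.mem_insert, Finset.mem_insert, Finset.mem_singleton] at hu hv
      rcases hu with rfl | rfl | rfl <;> rcases hv with rfl | rfl | rfl
      · exact absurd rfl huv
      · exact hn1
      · exact hn2
      · exact fun h => hn1 h.symm
      · exact absurd rfl huv
      · exact hn
      · exact fun h => hn2 h.symm
      · exact fun h => hn h.symm
      · exact absurd rfl huv) S' hS hd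
  have hc3 : ({x0, y1, y2} : Finset (ℕ × ℕ)).card = 3 := by
    rw [Finset.card_eq_three]
    exact ⟨x0, y1, y2, hne1, hne2, hne, rfl⟩
  rw [hc3] at hS3
  exact ⟨S, hS1, hS2, by omega⟩

end TR
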