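import Pool.Agent.TR.ZGen
import Pool.Agent.TR.Flip

/-!
MODULE EQ (equality case for generic arrays with alternating test cells).

Let N = Nn m q = m + q - 3, M = 3 N + 1, c = col m p a, s j = c j 0, r = chg of the top row.
(1) chg (3 i + 1) s = i for i <= N (the test cells alternate, and `zgen`); left and right columns
    have no changes.
(2) `pl` gives S with N + r + 2 <= 2 |S|, |S| <= q + r (`zgen_S`), r <= m - 1 - q (`zgen_top`):
    so r = m - 1 - q and |S| = q + r = m - 1.
(3) every s in S is connected to some bottom cell (`eq_bot`: flip the cluster of s).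
(4) every bottom cell (j,0) is connected to the test cell number chg j s.
-/

namespace TR

theorem eq_of_chg {α : Type*} [DecidableEq α] {s : ℕ → α} {u v : ℕ} (huv : u ≤ v)
    (h : chg u s = chg v s) : s u = s v := by
  induction v, huv using Nat.le_induction with
  | base => rfl
  | succ v huv ih =>
    have h1 := chg_mono huv s
    have h2 := chg_succ v s
    by_cases h3 : s v ≠ s (v + 1)
    · rw [if_pos h3] at h2
      omega
    · rw [if_neg h3] at h2
      rw [ih (by omega), not_not.1 h3]

theorem chg_jump {α : Type*} [DecidableEq α] (s : ℕ → α) {n v : ℕ} (h : v < chg n s) :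
    ∃ l < n, chg l s = v ∧ chg (l + 1) s = v + 1 := by
  induction n with
  | zero => rw [chg_zero] at h; omega
  | succ n ih =>
    by_cases h1 : v < chg n s
    · obtain ⟨l, hl, h2⟩ := ih h1
      exact ⟨l, by omega, h2⟩
    · have h2 := chg_succ n s
      refine ⟨n, by omega, ?_⟩
      split_ifs at h2 <;> omega

/-- flipping one run -/
theorem chg_flip {s s' : ℕ → SignType} {M e : ℕ}
    (h2 : ∀ j ≤ M, chg j s ≠ e → s' j = s j) :
    ∀ n ≤ M, chg n s ≤ chg n s' + (if e ≤ chg n s ∧ 0 < e then 1 else 0)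
      + (if e < chg n s then 1 else 0) := by
  intro n
  induction n with
  | zero => intro _; rw [chg_zero]; omega
  | succ n ih =>
    intro hn
    have ih' := ih (by omega)
    have h3 := chg_succ n s
    have h4 := chg_succ n s'
    by_cases h5 : s n = s (n + 1)
    · rw [if_neg (not_not.2 h5)] at h3
      rw [h3, add_zero]
      have h6 : chg n s' ≤ chg (n + 1) s' := by rw [h4]; omega
      omega
    · rw [if_pos h5] at h3
      rw [h3]
      by_cases h6 : chg n s = e
      · rw [if_neg (by rw [h6]; omega : ¬ e < chg n s)] at ih'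
        rw [if_pos (by omega : e < chg n s + 1)]
        have h7 : chg n s' ≤ chg (n + 1) s' := by rw [h4]; omega
        by_cases h8 : 0 < e
        · rw [if_pos ⟨h6.ge, h8⟩] at ih'
          rw [if_pos ⟨by omega, h8⟩]
          omega
        · rw [if_neg (fun h => h8 h.2)] at ih'
          omega
      · by_cases h7 : chg n s + 1 = e
        · rw [if_neg (by omega), if_neg (by omega)] at ih'
          rw [if_pos (by omega)]
          have h8 : chg n s' ≤ chg (n + 1) s' := by rw [h4]; omega
          omega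
        · have h8 : s' n = s n := h2 n (by omega) h6
          have h9 : s' (n + 1) = s (n + 1) := h2 (n + 1) hn (by rw [h3]; exact h7)
          rw [h8, h9, if_pos h5] at h4
          rw [h4]
          by_cases h10 : e < chg n s
          · rw [if_pos h10] at ih'
            rw [if_pos (by omega : e < chg n s + 1)]
            by_cases h11 : 0 < e
            · rw [if_pos ⟨h10.le, h11⟩] at ih'
              rw [if_pos ⟨by omega, h11⟩]
              omega
            · rw [if_neg (fun h => h11 h.2)] at ih'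
              omega
          · rw [if_neg (by omega), if_neg h10] at ih'
            omega

theorem flipC_ne {M q : ℕ} {c : ℕ → ℕ → SignType} (hc : ∀ j ≤ M, ∀ k < q, c j k ≠ 0)
    (x0 : ℕ × ℕ) : ∀ j ≤ M, ∀ k < q, flipC M q c x0 j k ≠ 0 := by
  have hneg : ∀ u : SignType, u ≠ 0 → - u ≠ 0 := by decide
  intro j hj k hk
  unfold flipC
  split_ifs
  · exact hneg _ (hc j hj k hk)
  · exact hc j hj k hk

/-- In the equality case every cluster meets the bottom row. -/
theorem eq_bot {M q : ℕ} (hq : 1 ≤ q) {c : ℕ → ℕ → SignType} (hc : ∀ j ≤ M, ∀ k < q, c j k ≠ 0)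
    (hB : 2 * q + chg M (fun j => c j (q - 1)) ≤ chg M (fun j => c j 0) + 2)
    (hU : ∀ S : Finset (ℕ × ℕ), (∀ x ∈ S, x.1 ≤ M ∧ x.2 < q) →
      (∀ x ∈ S, ∀ y ∈ S, x ≠ y → ¬ Conn M q c x y) → S.card ≤ q + chg M (fun j => c j (q - 1)))
    (hR : ∀ i j : ℕ, j ≤ M → chg i (fun j => c j (q - 1)) < chg j (fun j => c j (q - 1)) →
      ¬ Conn M q c (i, q - 1) (j, q - 1))
    {x0 : ℕ × ℕ} (hx0 : x0.1 ≤ M ∧ x0.2 < q) : ∃ j ≤ M, Conn M q c x0 (j, 0) := by
  classical
  by_contra hcon
  push Not at hcon
  have hbot : ∀ j ≤ M, flipC M q c x0 j 0 = c j 0 := by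
    intro j hj
    unfold flipC
    rw [if_neg (hcon j hj)]
  obtain ⟨S', hS, hd, hcount⟩ := pl M q hq (flipC M q c x0) (flipC_ne hc x0)
  have hb : chg M (fun j => flipC M q c x0 j 0) = chg M (fun j => c j 0) :=
    chg_congr (fun j hj => hbot j hj)
  rw [hb] at hcount
  obtain ⟨S1, hS1, hd1, hc1⟩ := flip_one hc hx0 ⟨(0, 0), Nat.zero_le _, hq, hcon 0 (Nat.zero_le _)⟩
    S' hS hd
  have hu1 := hU S1 hS1 hd1
  by_cases htop : ∃ i ≤ M, Conn M q c x0 (i, q - 1)
  · obtain ⟨i, hi, hxi⟩ := htop
    set s : ℕ → SignType := fun j => c j (q - 1) with hs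
    have hrun : ∀ j ≤ M, chg j s = chg i s → Conn M q c x0 (j, q - 1) := fun j hj h =>
      hxi.trans (zgen_run (by omega) (fun l hl => hc l hl _ (by omega)) hi hj h.symm)
    have hrun' : ∀ j ≤ M, chg j s ≠ chg i s → ¬ Conn M q c x0 (j, q - 1) := by
      intro j hj h hco
      rcases lt_or_gt_of_ne h with h | h
      · exact hR j i hi h (hco.symm.trans hxi)
      · exact hR i j hj h (hxi.symm.trans hco)
    have hflip := chg_flip (s' := fun j => flipC M q c x0 j (q - 1)) (e := chg i s)
      (fun j hj h => by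
        simp only [flipC]
        rw [if_neg (hrun' j hj h)]) M le_rfl
    have hei : chg i s ≤ chg M s := chg_mono hi s
    by_cases h0 : 0 < chg i s ∧ chg i s < chg M s
    · obtain ⟨l1, hl1, hl1a, hl1b⟩ := chg_jump s (n := i) (v := chg i s - 1) (by omega)
      obtain ⟨l2, hl2, hl2a, hl2b⟩ := chg_jump s (n := M) (v := chg i s) h0.2
      obtain ⟨S2, hS2, hd2, hc2⟩ := flip_two hc hx0 (x1 := (l1 + 1, q - 1)) (x2 := (l2, q - 1))
        (y1 := (l1, q - 1)) (y2 := (l2 + 1, q - 1))
        (hrun _ (by omega) (by omega)) (hrun _ (by omega) hl2a)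
        ⟨by simp only; omega, by simp only; omega⟩ ⟨by simp only; omega, by simp only; omega⟩
        (Or.inr (Or.inl ⟨rfl, rfl⟩)) (Or.inl (Or.inl ⟨rfl, rfl⟩))
        (hrun' _ (by omega) (by omega)) (hrun' _ (by omega) (by omega))
        (hR l1 (l2 + 1) (by omega) (by omega)) S' hS hd
      have hu2 := hU S2 hS2 hd2
      rw [if_pos ⟨hei, h0.1⟩, if_pos h0.2] at hflip
      omega
    · have h1 : (if chg i s ≤ chg M s ∧ 0 < chg i s then 1 else 0)
          + (if chg i s < chg M s then 1 else 0) ≤ 1 := by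
        by_cases h2 : 0 < chg i s
        · rw [if_neg (fun h3 => h0 ⟨h2, h3⟩)]
          split_ifs <;> omega
        · rw [if_neg (fun h3 => h2 h3.2)]
          split_ifs <;> omega
      omega
  · push Not at htop
    have ht : chg M (fun j => flipC M q c x0 j (q - 1)) = chg M (fun j => c j (q - 1)) :=
      chg_congr (fun j hj => by
        simp only [flipC]
        rw [if_neg (htop j hj)])
    rw [ht] at hcount
    omega

theorem eqgen {m q : ℕ} (hq : 1 ≤ q) (hqm : q < m) {p : ℕ → ℕ → ℝ} (hp : Pos p)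
    {a : ℕ → ℝ × ℝ} (ha : NF m q a) (hA : Alt m q p a)
    (hgen : ∀ j ≤ 3 * Nn m q + 1, ∀ k < q, D m p a j k ≠ 0) :
    (∃ T : Finset ℕ, (∀ i ∈ T, i ≤ Nn m q) ∧ T.card = m - 1 ∧
      ∀ i ∈ T, ∀ j ∈ T, i ≠ j →
        ¬ Conn (3 * Nn m q + 1) q (col m p a) (3 * i + 1, 0) (3 * j + 1, 0)) ∧
    chg (3 * Nn m q + 1) (fun j => ps (arr m p a j q).2) = m - 1 - q ∧
    (∀ k < q, col m p a (3 * Nn m q + 1) k = col m p a (3 * Nn m q + 1) 0) := by
  classical
  obtain ⟨N, hN⟩ : ∃ N, N = Nn m q := ⟨_, rfl⟩
  have hN' : N = m + q - 3 := hN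
  rw [← hN] at hgen ⊢
  have hne := zgen_ne hgen
  have hz := zgen hq hqm hp ha (3 * N + 1) hgen
  rw [← hN] at hz
  have hA2 := hA.2
  rw [← hN] at hA2
  -- the test cells
  have hstep : ∀ i < N, chg (3 * i + 1) (fun j => col m p a j 0) <
      chg (3 * (i + 1) + 1) (fun j => col m p a j 0) := by
    intro i hi
    refine lt_of_le_of_ne (chg_mono (by omega) _) fun heq => ?_
    have h1 := eq_of_chg (by omega) heq
    have h2 := hA2 i hi
    simp only [col] at h1
    rw [show 3 * (i + 1) + 1 = 3 * i + 4 by ring] at h1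
    rcases mul_neg_iff.1 h2 with ⟨h3, h4⟩ | ⟨h3, h4⟩
    · rw [sign_pos h3, sign_neg h4] at h1
      exact absurd h1 (by decide)
    · rw [sign_neg h3, sign_pos h4] at h1
      exact absurd h1 (by decide)
  have hmul : ∀ i d, i + d ≤ N → chg (3 * i + 1) (fun j => col m p a j 0) + d ≤
      chg (3 * (i + d) + 1) (fun j => col m p a j 0) := by
    intro i d
    induction d with
    | zero => intro _; exact le_rfl
    | succ d ih =>
      intro hd
      have h1 := ih (by omega)
      have h2 := hstep (i + d) (by omega)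
      rw [show i + (d + 1) = i + d + 1 by ring]
      omega
  have hNle : N ≤ chg (3 * N + 1) (fun j => col m p a j 0) := by
    have := hmul 0 N (by omega)
    rw [zero_add] at this
    omega
  have hbot : chg (3 * N + 1) (fun j => col m p a j 0) = N := by omega
  have htest : ∀ i ≤ N, chg (3 * i + 1) (fun j => col m p a j 0) = i := by
    intro i hi
    have h1 := hmul 0 i (by omega)
    have h2 := hmul i (N - i) (by omega)
    rw [zero_add] at h1
    rw [show i + (N - i) = N by omega] at h2
    omega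
  have hright : chg (q - 1) (fun k => col m p a (3 * N + 1) k) = 0 := by omega
  -- the top row
  obtain ⟨htop1, htop2⟩ := zgen_top hq hqm hp ha (3 * N + 1) hgen
  obtain ⟨S, hS, hd, hcount⟩ := pl (3 * N + 1) q hq (col m p a) hne
  have hSle := zgen_S hq hqm hp ha (3 * N + 1) hgen S hS hd
  have hr : chg (3 * N + 1) (fun j => col m p a j (q - 1)) = m - 1 - q := by omega
  have hScard : S.card = m - 1 := by omega
  refine ⟨?_, by rw [← htop1, hr], ?_⟩
  · have hkey : ∀ x ∈ S, ∃ i, i ≤ N ∧ Conn (3 * N + 1) q (col m p a) x (3 * i + 1, 0) := by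
      intro x hx
      obtain ⟨j, hj, hxj⟩ := eq_bot hq hne (by omega)
        (fun S' h1 h2 => zgen_S hq hqm hp ha (3 * N + 1) hgen S' h1 h2)
        (fun i j hj hij => zgen_runs hq hqm hp ha (3 * N + 1) hgen S hS hd (by omega) hj hij)
        (hS x hx)
      have h1 : chg j (fun j => col m p a j 0) ≤ N := by
        have := chg_mono hj (fun j => col m p a j 0)
        omega
      refine ⟨chg j (fun j => col m p a j 0), h1, hxj.trans ?_⟩
      exact zgen_run (by omega) (fun l hl => hne l hl 0 (by omega)) hj (by omega)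
        (htest _ h1).symm
    have hkey' : ∀ x : ℕ × ℕ, ∃ i, x ∈ S → i ≤ N ∧
        Conn (3 * N + 1) q (col m p a) x (3 * i + 1, 0) := by
      intro x
      by_cases hx : x ∈ S
      · obtain ⟨i, hi⟩ := hkey x hx
        exact ⟨i, fun _ => hi⟩
      · exact ⟨0, fun h => absurd h hx⟩
    choose g hg using hkey'
    have hinj : Set.InjOn g (S : Set (ℕ × ℕ)) := by
      intro x hx y hy hxy
      by_contra hne'
      refine hd x hx y hy hne' ?_
      have h1 := (hg x hx).2
      rw [hxy] at h1
      exact h1.trans (hg y hy).2.symm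
    refine ⟨S.image g, ?_, ?_, ?_⟩
    · intro i hi
      obtain ⟨x, hx, rfl⟩ := Finset.mem_image.1 hi
      exact (hg x hx).1
    · rw [Finset.card_image_of_injOn hinj, hScard]
    · intro i hi j hj hij
      obtain ⟨x, hx, rfl⟩ := Finset.mem_image.1 hi
      obtain ⟨y, hy, rfl⟩ := Finset.mem_image.1 hj
      have hxy : x ≠ y := by
        rintro rfl
        exact hij rfl
      exact fun hco => hd x hx y hy hxy (((hg x hx).2.trans hco).trans (hg y hy).2.symm)
  · intro k hk
    have h1 : chg k (fun k => col m p a (3 * N + 1) k) ≤ 0 := by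
      rw [← hright]
      exact chg_mono (by omega) _
    have h2 : chg 0 (fun k => col m p a (3 * N + 1) k) =
        chg k (fun k => col m p a (3 * N + 1) k) := by
      rw [chg_zero]
      omega
    exact (eq_of_chg (Nat.zero_le k) h2).symm

end TR
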