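import Mathlib

/-!
MODULE FILTFIN (the filtration makes A finite over C[w]).

Let B = Algebra.adjoin C (range w).
(1) F (d+1) <= F d + sum_i w_i F d for all d >= D: F (d+1) = F (D+1) * F (d-D) (hmul)
    <= (F D + sum w_i F D) F (d-D) = F d + sum w_i F d.
(2) hence every F d is contained in the B-submodule spanned by F D (for d <= D by monotonicity, then
    induction on d).  So A is the B-span of the finite dimensional space F D (`htop`):
    Module.Finite B A, so A is integral over B (Algebra.IsIntegral.of_finite).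
-/

namespace TR

theorem filt_integral {n : ℕ} (F : ℕ → Submodule ℂ (MvPolynomial (Fin n) ℂ))
    (w : Fin n → MvPolynomial (Fin n) ℂ)
    (hmul : ∀ a b, F (a + b) = F a * F b) (hmono : ∀ d, F d ≤ F (d + 1))
    (htop : ∀ f, ∃ d, f ∈ F d) (hfin : ∀ d, Module.Finite ℂ (F d)) (d0 : ℕ)
    (hd0 : F (d0 + 1) ≤ F d0 ⊔ ⨆ i : Fin n, Submodule.map (LinearMap.mulLeft ℂ (w i)) (F d0)) :
    Algebra.IsIntegral (Algebra.adjoin ℂ (Set.range w)) (MvPolynomial (Fin n) ℂ) := by
  set B := Algebra.adjoin ℂ (Set.range w) with hB
  set S : Submodule B (MvPolynomial (Fin n) ℂ) :=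
    Submodule.span B (F d0 : Set (MvPolynomial (Fin n) ℂ)) with hS
  have hmon : ∀ a b, a ≤ b → F a ≤ F b := fun a b h => monotone_nat_of_le_succ hmono h
  have hge : ∀ e, F (d0 + e) ≤ S.restrictScalars ℂ := by
    intro e
    induction e with
    | zero => exact fun x hx => Submodule.subset_span hx
    | succ e ih =>
      have h1 : F (d0 + (e + 1)) = F (d0 + 1) * F e := by
        rw [← hmul]
        congr 1
        ring
      rw [h1, Submodule.mul_le]
      intro x hx y hy
      have h2 : F d0 ⊔ ⨆ i : Fin n, Submodule.map (LinearMap.mulLeft ℂ (w i)) (F d0) ≤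
          Submodule.comap (LinearMap.mulRight ℂ y) (S.restrictScalars ℂ) := by
        refine sup_le ?_ (iSup_le fun i => Submodule.map_le_iff_le_comap.2 ?_)
        · intro u hu
          have h3 : u * y ∈ F (d0 + e) := by rw [hmul]; exact Submodule.mul_mem_mul hu hy
          exact ih h3
        · intro u hu
          have h3 : u * y ∈ F (d0 + e) := by rw [hmul]; exact Submodule.mul_mem_mul hu hy
          have h4 : u * y ∈ S := ih h3
          have h5 : (⟨w i, Algebra.subset_adjoin ⟨i, rfl⟩⟩ : B) • (u * y) ∈ S :=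
            S.smul_mem _ h4
          have h6 : w i * u * y ∈ S := by
            rw [mul_assoc]
            exact h5
          exact h6
      exact h2 (hd0 hx)
  have htop' : S = ⊤ := by
    rw [eq_top_iff]
    rintro f -
    obtain ⟨d, hd⟩ := htop f
    exact hge d (hmon d (d0 + d) (by omega) hd)
  have hfg : (F d0).FG := Module.Finite.iff_fg.1 (hfin d0)
  obtain ⟨t, ht⟩ := hfg
  have hfin' : Module.Finite B (MvPolynomial (Fin n) ℂ) := by
    refine ⟨⟨t, ?_⟩⟩
    rw [← htop', hS]
    refine le_antisymm (Submodule.span_mono ?_) (Submodule.span_le.2 ?_)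
    · rw [← ht]
      exact Submodule.subset_span
    · rw [← ht]
      exact Submodule.span_subset_span ℂ B _
  exact Algebra.IsIntegral.of_finite B (MvPolynomial (Fin n) ℂ)

end TR
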