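import Mathlib

/-!
MODULE RANKB (rank bound and characteristic equation).

Let R = MvPolynomial (Fin n) C and phi = aeval w : R -> A injective (algebraic independence).
(1) There is a non-zero polynomial Q over R of degree at most g with root h.  Suppose not; let e with
    h^j in F e for j <= g.  The map (r_0, ..., r_g) -> sum phi(r_j) h^j is injective on
    (R_{<= m})^(g+1) and lands in F (m + e), so (g + 1) * C(m + n, n) <= g * C(m + e + n, n) for all
    m; impossible, as C(m + n, n) grows polynomially.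
(2) h is integral over R (hint), R is integrally closed (UFD), A is a domain, so the minimal
    polynomial P = minpoly R h is monic of degree <= deg Q <= g.
-/

open Polynomial

namespace TR

/-- Exponents of total degree at most `m`. -/
noncomputable def rankB_E (n m : ℕ) : Finset (Fin n →₀ ℕ) :=
  (Finset.range (m + 1)).biUnion fun d => (Finset.univ : Finset (Fin n)).finsuppAntidiag d

theorem rankB_card_E (n m : ℕ) : (rankB_E n m).card = (m + n).choose n := by
  rw [rankB_E, Finset.card_biUnion]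
  · rw [← Nat.sum_range_multichoose]
    refine Finset.sum_congr rfl fun d _ => ?_
    rw [Finset.card_finsuppAntidiag_nat_eq_multichoose, Finset.card_univ, Fintype.card_fin]
  · intro a _ b _ hab
    rw [Function.onFun, Finset.disjoint_left]
    intro f hf hf'
    rw [Finset.mem_finsuppAntidiag] at hf hf'
    exact hab (hf.1.symm.trans hf'.1)

theorem rankB_mono_le {A : Type*} [CommRing A] [Algebra ℂ A] (F : ℕ → Submodule ℂ A)
    (hmono : ∀ d, F d ≤ F (d + 1)) {a b : ℕ} (h : a ≤ b) : F a ≤ F b := by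
  induction b, h using Nat.le_induction with
  | base => exact le_rfl
  | succ b _ ih => exact ih.trans (hmono b)

theorem rankB_mem_pow {A : Type*} [CommRing A] [Algebra ℂ A] (F : ℕ → Submodule ℂ A)
    (h1 : (1 : A) ∈ F 0) (hmul : ∀ a b, F (a + b) = F a * F b) {x : A} (hx : x ∈ F 1) (k : ℕ) :
    x ^ k ∈ F k := by
  induction k with
  | zero => simpa using h1
  | succ k ih =>
    rw [pow_succ, hmul]
    exact Submodule.mul_mem_mul ih hx

theorem rankB_mem_monomial {n : ℕ} {A : Type*} [CommRing A] [Algebra ℂ A]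
    (F : ℕ → Submodule ℂ A) (h1 : (1 : A) ∈ F 0) (hmul : ∀ a b, F (a + b) = F a * F b)
    (φ : MvPolynomial (Fin n) ℂ →ₐ[ℂ] A) (hw : ∀ i, φ (MvPolynomial.X i) ∈ F 1)
    (α : Fin n →₀ ℕ) : φ (MvPolynomial.monomial α 1) ∈ F (∑ i, α i) := by
  induction α using Finsupp.induction_linear with
  | zero => simpa using h1
  | add a b ha hb =>
    have e : (∑ i, (a + b) i) = ∑ i, a i + ∑ i, b i := by
      simp [Finset.sum_add_distrib]
    have e2 : (MvPolynomial.monomial (a + b) (1 : ℂ)) =
        MvPolynomial.monomial a 1 * MvPolynomial.monomial b 1 := by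
      rw [MvPolynomial.monomial_mul, one_mul]
    rw [e, e2, map_mul, hmul]
    exact Submodule.mul_mem_mul ha hb
  | single i k =>
    have e : (∑ j, (Finsupp.single i k) j) = k := by
      simp [Finsupp.single_apply]
    have e2 : (MvPolynomial.monomial (Finsupp.single i k) (1 : ℂ)) = MvPolynomial.X i ^ k := by
      rw [MvPolynomial.X_pow_eq_monomial]
    rw [e, e2, map_pow]
    exact rankB_mem_pow F h1 hmul (hw i) k

theorem rankB_mem_restrict {n : ℕ} {A : Type*} [CommRing A] [Algebra ℂ A]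
    (F : ℕ → Submodule ℂ A) (h1 : (1 : A) ∈ F 0) (hmul : ∀ a b, F (a + b) = F a * F b)
    (hmono : ∀ d, F d ≤ F (d + 1))
    (φ : MvPolynomial (Fin n) ℂ →ₐ[ℂ] A) (hw : ∀ i, φ (MvPolynomial.X i) ∈ F 1) (m : ℕ)
    {r : MvPolynomial (Fin n) ℂ}
    (hr : r ∈ MvPolynomial.restrictSupport ℂ (rankB_E n m : Set (Fin n →₀ ℕ))) :
    φ r ∈ F m := by
  rw [MvPolynomial.restrictSupport_eq_span] at hr
  have : Submodule.span ℂ ((fun x => MvPolynomial.monomial x (1 : ℂ)) ''
      (rankB_E n m : Set (Fin n →₀ ℕ))) ≤ (F m).comap φ.toLinearMap := by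
    rw [Submodule.span_le]
    rintro _ ⟨α, hα, rfl⟩
    rw [Finset.mem_coe, rankB_E, Finset.mem_biUnion] at hα
    obtain ⟨d, hd, hα⟩ := hα
    rw [Finset.mem_finsuppAntidiag] at hα
    have h := rankB_mem_monomial F h1 hmul φ hw α
    refine rankB_mono_le F hmono ?_ h
    rw [hα.1]
    exact Nat.lt_succ_iff.1 (Finset.mem_range.1 hd)
  exact this hr

/-- The growth contradiction. -/
theorem rankB_growth (n g e : ℕ)
    (H : ∀ m, (g + 1) * (m + n).choose n ≤ g * (m + e + n).choose n) : False := by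
  rcases Nat.eq_zero_or_pos g with rfl | hg
  · have := H 0
    have h2 : 0 < (0 + n).choose n := Nat.choose_pos (by omega)
    omega
  have hgR : (0 : ℝ) < g := by exact_mod_cast hg
  set q : ℝ := 1 + 1 / g with hq
  have hq1 : 1 < q := by
    rw [hq]
    have : 0 < 1 / (g : ℝ) := by positivity
    linarith
  have step : ∀ k : ℕ, q ^ k ≤ ((k * e + n).choose n : ℝ) := by
    intro k
    induction k with
    | zero => simp
    | succ k ih =>
      have h := H (k * e)
      have h' : ((g : ℝ) + 1) * ((k * e + n).choose n : ℝ) ≤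
          g * ((k * e + e + n).choose n : ℝ) := by exact_mod_cast h
      have e1 : (k + 1) * e + n = k * e + e + n := by ring
      rw [e1, pow_succ]
      have h3 : q * ((k * e + n).choose n : ℝ) ≤ ((k * e + e + n).choose n : ℝ) := by
        have : q = ((g : ℝ) + 1) / g := by rw [hq]; field_simp
        rw [this, div_mul_eq_mul_div, div_le_iff₀ hgR]
        linarith
      calc q ^ k * q = q * q ^ k := by ring
        _ ≤ q * ((k * e + n).choose n : ℝ) := by gcongr
        _ ≤ _ := h3
  have bound : ∀ k : ℕ, 1 ≤ k → q ^ k ≤ (k : ℝ) ^ n * ((e + n + 1 : ℕ) : ℝ) ^ n := by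
    intro k hk
    refine (step k).trans ?_
    have h1 : (k * e + n).choose n ≤ (k * e + n) ^ n := Nat.choose_le_pow _ _
    have h2 : (k * e + n) ^ n ≤ (k * (e + n + 1)) ^ n := by
      refine Nat.pow_le_pow_left ?_ n
      nlinarith
    have h3 : (k * e + n).choose n ≤ k ^ n * (e + n + 1) ^ n := by
      rw [← mul_pow]
      exact h1.trans h2
    exact_mod_cast h3
  have hlim := tendsto_pow_const_div_const_pow_of_one_lt n hq1
  set c : ℝ := ((e + n + 1 : ℕ) : ℝ) ^ n with hc
  have hcpos : 0 < c := by positivity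
  have hev := (hlim.eventually (gt_mem_nhds (inv_pos.2 hcpos))).and
    (Filter.eventually_ge_atTop 1)
  obtain ⟨k, hk, hk1⟩ := hev.exists
  have hb := bound k hk1
  have hqk : 0 < q ^ k := by positivity
  rw [div_lt_iff₀ hqk] at hk
  have : (k : ℝ) ^ n * c < q ^ k := by
    calc (k : ℝ) ^ n * c < (c⁻¹ * q ^ k) * c := by gcongr
      _ = q ^ k := by field_simp
  linarith

/-- The rank bound: `h` is a root of a non-zero polynomial of degree at most `g`. -/
theorem rankB_dep {n g : ℕ} {A : Type*} [CommRing A] [Algebra ℂ A]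
    (F : ℕ → Submodule ℂ A) (h1 : (1 : A) ∈ F 0) (hmul : ∀ a b, F (a + b) = F a * F b)
    (hmono : ∀ d, F d ≤ F (d + 1)) (htop : ∀ f, ∃ d, f ∈ F d)
    (hfin : ∀ d, Module.Finite ℂ (F d))
    (hrank : ∀ d, Module.finrank ℂ (F d) ≤ g * (d + n).choose n)
    (φ : MvPolynomial (Fin n) ℂ →ₐ[ℂ] A) (hw : ∀ i, φ (MvPolynomial.X i) ∈ F 1) (h : A) :
    ∃ Q : (MvPolynomial (Fin n) ℂ)[X], Q ≠ 0 ∧ Q.natDegree ≤ g ∧
      Q.eval₂ φ.toRingHom h = 0 := by
  classical
  by_contra hne
  push Not at hne
  -- all powers in `F e`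
  have hex : ∃ e, ∀ j : Fin (g + 1), h ^ (j : ℕ) ∈ F e := by
    choose d hd using htop
    refine ⟨∑ j : Fin (g + 1), d (h ^ (j : ℕ)), fun j => ?_⟩
    refine rankB_mono_le F hmono ?_ (hd _)
    exact Finset.single_le_sum (f := fun j : Fin (g + 1) => d (h ^ (j : ℕ)))
      (fun _ _ => Nat.zero_le _) (Finset.mem_univ j)
  obtain ⟨e, he⟩ := hex
  refine rankB_growth n g e fun m => ?_
  set M := MvPolynomial.restrictSupport ℂ (rankB_E n m : Set (Fin n →₀ ℕ)) with hM
  have : Module.Finite ℂ (F (m + e)) := hfin _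
  have : Module.Finite ℂ M := Module.Finite.of_basis
    (MvPolynomial.basisRestrictSupport ℂ (rankB_E n m : Set (Fin n →₀ ℕ)))
  have hdimM : Module.finrank ℂ M = (m + n).choose n := by
    rw [Module.finrank_eq_card_basis
      (MvPolynomial.basisRestrictSupport ℂ (rankB_E n m : Set (Fin n →₀ ℕ)))]
    simp [rankB_card_E]
  let L : (Fin (g + 1) → M) →ₗ[ℂ] A :=
    ∑ j : Fin (g + 1), ((LinearMap.mulRight ℂ (h ^ (j : ℕ))).comp
      (φ.toLinearMap.comp M.subtype)).comp (LinearMap.proj j)
  have hL : ∀ r : Fin (g + 1) → M, L r = ∑ j : Fin (g + 1), φ (r j) * h ^ (j : ℕ) := by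
    intro r
    simp [L, LinearMap.sum_apply]
  have hLmem : ∀ r : Fin (g + 1) → M, L r ∈ F (m + e) := by
    intro r
    rw [hL]
    refine Submodule.sum_mem _ fun j _ => ?_
    rw [hmul]
    exact Submodule.mul_mem_mul
      (rankB_mem_restrict F h1 hmul hmono φ hw m (r j).2) (he j)
  have hinj : Function.Injective (L.codRestrict (F (m + e)) hLmem) := by
    rw [← LinearMap.ker_eq_bot, LinearMap.ker_eq_bot']
    intro r hr
    have hr' : L r = 0 := by
      have := congrArg Subtype.val hr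
      simpa using this
    rw [hL] at hr'
    set Q : (MvPolynomial (Fin n) ℂ)[X] :=
      ∑ j : Fin (g + 1), Polynomial.monomial (j : ℕ) (r j : MvPolynomial (Fin n) ℂ) with hQ
    have hQd : Q.natDegree ≤ g := by
      refine Polynomial.natDegree_sum_le_of_forall_le _ _ fun j _ => ?_
      exact (Polynomial.natDegree_monomial_le _).trans (Nat.lt_succ_iff.1 j.2)
    have hQe : Q.eval₂ φ.toRingHom h = 0 := by
      rw [hQ, Polynomial.eval₂_finset_sum]
      rw [← hr']
      refine Finset.sum_congr rfl fun j _ => ?_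
      rw [Polynomial.eval₂_monomial]
      rfl
    have hQ0 : Q = 0 := by
      by_contra hQ0
      exact hne Q hQ0 hQd hQe
    funext j
    have hc := congrArg (fun p => Polynomial.coeff p (j : ℕ)) hQ0
    simp only [hQ, Polynomial.finset_sum_coeff, Polynomial.coeff_monomial,
      Polynomial.coeff_zero] at hc
    have hs : (∑ b : Fin (g + 1), if (b : ℕ) = (j : ℕ) then (r b : MvPolynomial (Fin n) ℂ)
        else 0) = r j := by
      rw [Finset.sum_eq_single j]
      · simp
      · intro b _ hb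
        rw [if_neg]
        exact fun h => hb (Fin.ext h)
      · intro hj
        exact absurd (Finset.mem_univ j) hj
    rw [hs] at hc
    exact Subtype.ext hc
  have hle := LinearMap.finrank_le_finrank_of_injective hinj
  rw [Module.finrank_pi_fintype] at hle
  simp only [hdimM, Finset.sum_const, Finset.card_univ, Fintype.card_fin, smul_eq_mul] at hle
  exact hle.trans (hrank (m + e))

/-- The minimal polynomial. -/
theorem rankB_minpoly {n g : ℕ} {A : Type*} [CommRing A] [IsDomain A] [Algebra ℂ A]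
    (φ : MvPolynomial (Fin n) ℂ →ₐ[ℂ] A) (hφ : Function.Injective φ) (h : A)
    (hint : φ.toRingHom.IsIntegralElem h)
    (hQ : ∃ Q : (MvPolynomial (Fin n) ℂ)[X], Q ≠ 0 ∧ Q.natDegree ≤ g ∧
      Q.eval₂ φ.toRingHom h = 0) :
    ∃ P : (MvPolynomial (Fin n) ℂ)[X], P.Monic ∧ P.natDegree ≤ g ∧
      P.eval₂ φ.toRingHom h = 0 := by
  letI : Algebra (MvPolynomial (Fin n) ℂ) A := φ.toRingHom.toAlgebra
  have hinj : Function.Injective (algebraMap (MvPolynomial (Fin n) ℂ) A) := hφ
  haveI : FaithfulSMul (MvPolynomial (Fin n) ℂ) A :=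
    (faithfulSMul_iff_algebraMap_injective _ _).2 hinj
  haveI : Module.IsTorsionFree (MvPolynomial (Fin n) ℂ) A := inferInstance
  have hI : IsIntegral (MvPolynomial (Fin n) ℂ) h := hint
  obtain ⟨Q, hQ0, hQd, hQe⟩ := hQ
  refine ⟨minpoly (MvPolynomial (Fin n) ℂ) h, minpoly.monic hI, ?_, ?_⟩
  · have := minpoly.IsIntegrallyClosed.degree_le_of_ne_zero (s := h) hQ0 hQe
    exact (Polynomial.natDegree_le_natDegree this).trans hQd
  · exact minpoly.aeval (MvPolynomial (Fin n) ℂ) h

theorem charpoly_exists {n g : ℕ} (F : ℕ → Submodule ℂ (MvPolynomial (Fin n) ℂ))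
    (w : Fin n → MvPolynomial (Fin n) ℂ)
    (h1 : (1 : MvPolynomial (Fin n) ℂ) ∈ F 0)
    (hmul : ∀ a b, F (a + b) = F a * F b) (hmono : ∀ d, F d ≤ F (d + 1))
    (htop : ∀ f, ∃ d, f ∈ F d) (hfin : ∀ d, Module.Finite ℂ (F d))
    (hrank : ∀ d, Module.finrank ℂ (F d) ≤ g * (d + n).choose n)
    (hw : ∀ i, w i ∈ F 1) (hind : AlgebraicIndependent ℂ w)
    (hint : Algebra.IsIntegral (Algebra.adjoin ℂ (Set.range w)) (MvPolynomial (Fin n) ℂ))
    (h : MvPolynomial (Fin n) ℂ) :
    ∃ P : (MvPolynomial (Fin n) ℂ)[X], P.Monic ∧ P.natDegree ≤ g ∧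
      P.eval₂ (MvPolynomial.aeval w : MvPolynomial (Fin n) ℂ →ₐ[ℂ] _).toRingHom h = 0 := by
  refine rankB_minpoly (MvPolynomial.aeval w) hind h ?_ ?_
  · obtain ⟨p, hp, hpe⟩ := hint.isIntegral h
    -- transport along `R ≃ adjoin`
    let ψ : Algebra.adjoin ℂ (Set.range w) ≃ₐ[ℂ] MvPolynomial (Fin n) ℂ := hind.aevalEquiv.symm
    refine ⟨p.map ψ.toRingEquiv.toRingHom, hp.map _, ?_⟩
    rw [Polynomial.eval₂_map]
    have hcomp : (MvPolynomial.aeval w : MvPolynomial (Fin n) ℂ →ₐ[ℂ]
        MvPolynomial (Fin n) ℂ).toRingHom.comp ψ.toRingEquiv.toRingHom =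
        algebraMap (Algebra.adjoin ℂ (Set.range w)) (MvPolynomial (Fin n) ℂ) := by
      ext1 x
      obtain ⟨y, rfl⟩ := hind.aevalEquiv.surjective x
      have : ψ (hind.aevalEquiv y) = y := hind.aevalEquiv.symm_apply_apply y
      simp only [RingHom.comp_apply]
      change (MvPolynomial.aeval w) (ψ (hind.aevalEquiv y)) = _
      rw [this]
      exact (hind.algebraMap_aevalEquiv y).symm
    rw [hcomp]
    exact hpe
  · refine rankB_dep F h1 hmul hmono htop hfin hrank (MvPolynomial.aeval w) ?_ h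
    intro i
    rw [MvPolynomial.aeval_X]
    exact hw i

end TR
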