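import Pool.Agent.TR.Nst
import Pool.Agent.TR.AlgInd
import Pool.Agent.TR.FiltFin
import Pool.Agent.TR.RankB
import Pool.Agent.TR.CountP
import Pool.Agent.TR.Deriv

/-!
Upper bound for the number of complex solutions in the chart (assembly).
-/

namespace TR

theorem upper_aux {m q : ℕ} (hq : 1 ≤ q) (hqm : q < m) {p : ℕ → ℕ → ℝ} (hP : Prp ℂ m q p)
    (S : Finset (Fin (Nn m q) → ℂ)) (hS : ∀ v ∈ S, v ∈ Sol ℂ m q p) :
    S.card ≤ cnt m q ∧ (S.card = cnt m q → ∀ v ∈ S, Nd m q p v) := by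
  obtain ⟨d, hd⟩ := nst hq hqm p hP
  have hint := filt_integral (fun d => Fl m q d) (ww m q p) (fl_mul m q) (fl_mono hq hqm)
    (fl_top hq hqm) (fl_finite m q) d hd
  have hind := algInd_of_integral (ww m q p) hint
  have hch := charpoly_exists (g := cnt m q) (fun d => Fl m q d) (ww m q p) (fl_one m q)
    (fl_mul m q) (fl_mono hq hqm) (fl_top hq hqm) (fl_finite m q) (fl_rank hq hqm)
    (fl_ww hq hqm p) hind hint
  obtain ⟨h1, h2⟩ := count_points (g := cnt m q) (ww m q p) hch S (by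
    intro v hv i
    rw [ww, eval_gch]
    exact hS v hv i i.2)
  refine ⟨h1, fun hc v hv t ht => h2 hc v hv t fun i => ?_⟩
  rw [ww, deriv_gch]
  exact ht i i.2

theorem upper {m q : ℕ} (hq : 1 ≤ q) (hqm : q < m) {p : ℕ → ℕ → ℝ} (hP : Prp ℂ m q p) :
    (Sol ℂ m q p).Finite ∧ (Sol ℂ m q p).ncard ≤ cnt m q ∧
      ((Sol ℂ m q p).ncard = cnt m q → ∀ v ∈ Sol ℂ m q p, Nd m q p v) := by
  have hfin : (Sol ℂ m q p).Finite := by
    by_contra hinf
    obtain ⟨S, hS, hc⟩ := Set.Infinite.exists_subset_card_eq hinf (cnt m q + 1)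
    have := (upper_aux hq hqm hP S fun v hv => hS hv).1
    omega
  have hn : (Sol ℂ m q p).ncard = hfin.toFinset.card := Set.ncard_eq_toFinset_card _ hfin
  have := upper_aux hq hqm hP hfin.toFinset fun v hv => (hfin.mem_toFinset.mp hv)
  refine ⟨hfin, hn ▸ this.1, fun h v hv => this.2 (hn ▸ h) v (hfin.mem_toFinset.mpr hv)⟩

end TR
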