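import Pool.Agent.TR.Start
import Pool.Agent.TR.Cont
import Pool.Agent.TR.Upper

/-!
The main theorem of the data model: `TT m q p` for all `1 ≤ q < m` and all positive data.
-/

open Filter Topology

namespace TR

/-- Enough real solutions with distinct labels. -/
def HasW (m q : ℕ) (p : ℕ → ℕ → ℝ) : Prop :=
  ∃ W : Finset (Fin (Nn m q) → ℝ), W.card = cnt m q ∧
      (∀ w ∈ W, w ∈ Sol ℝ m q p) ∧
      ∀ w ∈ W, ∀ w' ∈ W, (∀ i ≤ Nn m q, ∀ j ≤ Nn m q,
        (lab m q p (ch m q w) i j ↔ lab m q p (ch m q w') i j)) → w = w'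

theorem TT_of_HasW {m q : ℕ} (hq : 1 ≤ q) (hqm : q < m) {p : ℕ → ℕ → ℝ}
    (hprp : Prp ℂ m q p) (hW : HasW m q p) : TT m q p := by
  classical
  obtain ⟨W, hWc, hWs, hWl⟩ := hW
  obtain ⟨hfin, hle, hnd⟩ := upper hq hqm hprp
  have hinj : Function.Injective (fun (w : Fin (Nn m q) → ℝ) => (fun i => (w i : ℂ))) := by
    intro w w' h
    funext i
    exact Complex.ofReal_injective (congrFun h i)
  set W' := W.image (fun (w : Fin (Nn m q) → ℝ) => (fun i => (w i : ℂ))) with hW'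
  have hW'c : W'.card = cnt m q := by rw [hW', Finset.card_image_of_injective _ hinj, hWc]
  have hsub : (W' : Set (Fin (Nn m q) → ℂ)) ⊆ Sol ℂ m q p := by
    intro v hv
    rw [hW', Finset.coe_image] at hv
    obtain ⟨w, hw, rfl⟩ := hv
    exact (sol_ofReal p w).mpr (hWs w hw)
  have heq : (W' : Set (Fin (Nn m q) → ℂ)) = Sol ℂ m q p := by
    refine Set.eq_of_subset_of_ncard_le hsub ?_ hfin
    rw [Set.ncard_coe_finset, hW'c]; exact hle
  have hcard : (Sol ℂ m q p).ncard = cnt m q := by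
    rw [← heq, Set.ncard_coe_finset, hW'c]
  have hmem : ∀ w ∈ Sol ℝ m q p, w ∈ W := by
    intro w hw
    have h1 : (fun i => (w i : ℂ)) ∈ (W' : Set (Fin (Nn m q) → ℂ)) := by
      rw [heq]; exact (sol_ofReal p w).mpr hw
    rw [hW', Finset.coe_image] at h1
    obtain ⟨w', hw', h2⟩ := h1
    rw [← hinj h2]; exact hw'
  refine ⟨hprp, hcard, ?_, ?_, ?_⟩
  · intro v hv
    rw [← heq, hW', Finset.coe_image] at hv
    obtain ⟨w, hw, rfl⟩ := hv
    exact ⟨w, hWs w hw, rfl⟩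
  · intro w hw
    exact nd_real (hnd hcard _ ((sol_ofReal p w).mpr hw))
  · intro w hw w' hw' h
    exact hWl w (hmem w hw) w' (hmem w' hw') h

/-- Continuation along a path of positive data. -/
theorem continuation {m q : ℕ} (hq : 1 ≤ q) (hqm : q < m) (P : ℝ → ℕ → ℕ → ℝ)
    (hPc : ∀ j k, ContDiff ℝ 1 (fun θ => P θ j k)) (hPp : ∀ θ ∈ Set.Icc (0 : ℝ) 1, Pos (P θ))
    (hprp : ∀ θ ∈ Set.Icc (0 : ℝ) 1, Prp ℂ m q (P θ)) (h0 : HasW m q (P 0)) :
    HasW m q (P 1) := by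
  classical
  obtain ⟨W, hWc, hWs, hWl⟩ := h0
  -- the set of parameters where all labels of `W` occur
  set G : Set ℝ := {θ | ∀ w ∈ W, ∃ w' ∈ Sol ℝ m q (P θ), ∀ i ≤ Nn m q, ∀ j ≤ Nn m q,
    (lab m q (P θ) (ch m q w') i j ↔ lab m q (P 0) (ch m q w) i j)} with hG
  have hHas : ∀ θ, θ ∈ G → HasW m q (P θ) ∧ ∃ g : (Fin (Nn m q) → ℝ) → (Fin (Nn m q) → ℝ),
      (∀ w ∈ W, g w ∈ Sol ℝ m q (P θ) ∧ ∀ i ≤ Nn m q, ∀ j ≤ Nn m q,
      (lab m q (P θ) (ch m q (g w)) i j ↔ lab m q (P 0) (ch m q w) i j)) := by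
    intro θ hθ
    have hθ' := hθ
    rw [hG, Set.mem_ofPred_eq] at hθ'
    choose! g hg hgl using hθ'
    have hinj : ∀ w ∈ W, ∀ w' ∈ W, (∀ i ≤ Nn m q, ∀ j ≤ Nn m q,
        (lab m q (P θ) (ch m q (g w)) i j ↔ lab m q (P θ) (ch m q (g w')) i j)) → w = w' := by
      intro w hw w' hw' h
      refine hWl w hw w' hw' fun i hi j hj => ?_
      rw [← hgl w hw i hi j hj, ← hgl w' hw' i hi j hj]
      exact h i hi j hj
    refine ⟨⟨W.image g, ?_, ?_, ?_⟩, g, fun w hw => ⟨hg w hw, hgl w hw⟩⟩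
    · rw [Finset.card_image_of_injOn, hWc]
      intro w hw w' hw' h
      exact hinj w hw w' hw' (by rw [h]; simp)
    · intro w hw
      rw [Finset.mem_image] at hw
      obtain ⟨u, hu, rfl⟩ := hw
      exact hg u hu
    · intro w hw w' hw' h
      rw [Finset.mem_image] at hw hw'
      obtain ⟨u, hu, rfl⟩ := hw
      obtain ⟨u', hu', rfl⟩ := hw'
      rw [hinj u hu u' hu' h]
  have hopen : ∀ θ ∈ Set.Icc (0 : ℝ) 1, θ ∈ G → ∀ᶠ θ' in 𝓝 θ, Pos (P θ') → θ' ∈ G := by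
    intro θ hθ hθG
    obtain ⟨hH, g, hg⟩ := hHas θ hθG
    have T := TT_of_HasW hq hqm (hprp θ hθ) hH
    have hall : ∀ᶠ θ' in 𝓝 θ, ∀ w ∈ W, Pos (P θ') → ∃ w' ∈ Sol ℝ m q (P θ'),
        ∀ i ≤ Nn m q, ∀ j ≤ Nn m q, (lab m q (P θ') (ch m q w') i j ↔
          lab m q (P θ) (ch m q (g w)) i j) := by
      rw [Filter.eventually_all_finset]
      intro w hw
      exact cont_open hq hqm P hPc θ (hPp θ hθ) (hg w hw).1 (T.nd _ (hg w hw).1)
    filter_upwards [hall] with θ' h hpos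
    intro w hw
    obtain ⟨w', hw', hl⟩ := h w hw hpos
    refine ⟨w', hw', fun i hi j hj => ?_⟩
    rw [hl i hi j hj]
    exact (hg w hw).2 i hi j hj
  -- closedness
  have hclosed : IsClosed (G ∩ Set.Icc 0 1) := by
    rw [← isSeqClosed_iff_isClosed]
    intro θn θ hθn hlim
    have hθ : θ ∈ Set.Icc (0 : ℝ) 1 :=
      isClosed_Icc.mem_of_tendsto hlim (Eventually.of_forall fun n => (hθn n).2)
    refine ⟨?_, hθ⟩
    intro w hw
    exact cont_closed hq hqm P (fun j k => (hPc j k).continuous) θ (hPp θ hθ) (hprp θ hθ) θn hlim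
      (fun n => hPp _ (hθn n).2) (fun i j => lab m q (P 0) (ch m q w) i j)
      (fun n => (hθn n).1 w hw)
  have h0G : (0 : ℝ) ∈ G := fun w hw => ⟨w, hWs w hw, fun i _ j _ => Iff.rfl⟩
  have h1 : Set.Icc (0 : ℝ) 1 ⊆ G := by
    refine IsClosed.Icc_subset_of_forall_mem_nhdsWithin hclosed h0G ?_
    intro θ hθ
    have hIcc : θ ∈ Set.Icc (0 : ℝ) 1 := ⟨hθ.2.1, hθ.2.2.le⟩
    have := hopen θ hIcc hθ.1
    have h2 : ∀ᶠ θ' in 𝓝[>] θ, θ' ∈ Set.Icc (0 : ℝ) 1 := by
      have : Set.Ioo θ 1 ∈ 𝓝[>] θ := Ioo_mem_nhdsGT hθ.2.2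
      filter_upwards [this] with x hx
      exact ⟨hθ.2.1.trans hx.1.le, hx.2.le⟩
    filter_upwards [nhdsWithin_le_nhds this, h2] with x hx hx'
    exact hx (hPp x hx')
  exact (hHas 1 (h1 ⟨zero_le_one, le_rfl⟩)).1

theorem TT_base {p : ℕ → ℕ → ℝ} : TT 2 1 p := by
  have hP : Prp ℂ 2 1 p := by
    intro a hr _ _
    obtain ⟨i, j, hij, hj, hb⟩ := hr
    have h1 : j = 1 := by omega
    have h2 : i = 0 := by omega
    rw [h1, h2] at hb
    exact hb
  refine TT_of_HasW le_rfl (by omega) hP ?_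
  refine ⟨{fun _ => 0}, by rw [Finset.card_singleton, cnt_base], ?_, ?_⟩
  · intro w _ i hi
    simp [Nn] at hi
  · intro w hw w' hw' _
    rw [Finset.mem_singleton] at hw hw'
    rw [hw, hw']

theorem main (n : ℕ) : ∀ m q, 1 ≤ q → q < m → m + q = n → ∀ p, Pos p → TT m q p := by
  induction n using Nat.strong_induction_on with
  | _ n ih =>
    intro m q hq hqm hn p hp
    rcases Nat.lt_or_ge m 3 with hm | hm
    · have h1 : m = 2 := by omega
      have h2 : q = 1 := by omega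
      subst h1; subst h2
      exact TT_base
    · have ih0 : 2 ≤ q → ∀ p, Pos p → TT m (q - 1) p := fun h =>
        ih (m + (q - 1)) (by omega) m (q - 1) (by omega) (by omega) rfl
      have ih1 : ∀ q', 1 ≤ q' → q' < m - 1 → q' ≤ q → ∀ p, Pos p → TT (m - 1) q' p :=
        fun q' h1 h2 h3 => ih (m - 1 + q') (by omega) (m - 1) q' h1 h2 rfl
      have hprp := stepA hq hqm ih0 ih1
      obtain ⟨s, hs, hW⟩ := start hq hqm hm hp (fun h => ih0 h p hp)
        (fun h => ih1 q hq h le_rfl p hp) (fun s hs => hprp _ (nr_pos hs hp))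
      refine TT_of_HasW hq hqm (hprp p hp) ?_
      set P : ℝ → ℕ → ℕ → ℝ := fun θ j k => (1 - θ) * nr m q s p j k + θ * p j k with hPd
      have hP0 : P 0 = nr m q s p := by funext j k; simp [hPd]
      have hP1 : P 1 = p := by funext j k; simp [hPd]
      have hPp : ∀ θ ∈ Set.Icc (0 : ℝ) 1, Pos (P θ) := by
        intro θ hθ j k
        have h1 := nr_pos (m := m) (q := q) hs hp j k
        have h2 := hp j k
        simp only [hPd]
        rcases eq_or_lt_of_le hθ.1 with h | h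
        · rw [← h]; simpa using h1
        · have : 0 ≤ (1 - θ) * nr m q s p j k := mul_nonneg (by linarith [hθ.2]) h1.le
          have := mul_pos h h2
          linarith
      have hc := continuation hq hqm P (fun j k => by simp only [hPd]; fun_prop) hPp
        (fun θ hθ => hprp _ (hPp θ hθ)) (by rw [hP0]; exact hW)
      rwa [hP1] at hc

end TR
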