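import Pool.Agent.TR.CurveData
import Pool.Agent.TR.Main
import Pool.Agent.TR.Cat

/-!
The theorem on convex curves.
-/

open Submodule

namespace TR

/-- The complexification of a real vector. -/
def cxv {m : ℕ} (v : Fin m → ℝ) : Fin m → ℂ := fun i => (v i : ℂ)

/-- The complexified osculating `k`-plane `span {γ(z), γ'(z), …, γ^{(k-1)}(z)}`. -/
noncomputable def osc (m k : ℕ) (γ : ℝ → Fin m → ℝ) (z : ℝ) : Submodule ℂ (Fin m → ℂ) :=
  span ℂ (Set.range (fun j : Fin k => cxv (iteratedDeriv j γ z)))

/-- The solutions of the Schubert problem: `d`-dimensional complex subspaces which meet the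
osculating `(m-d)`-planes at all `z i`. -/
def Schubert (m d : ℕ) (γ : ℝ → Fin m → ℝ) {N : ℕ} (z : Fin N → ℝ) :
    Set (Submodule ℂ (Fin m → ℂ)) :=
  {V | Module.finrank ℂ V = d ∧ ∀ i, V ⊓ osc m (m - d) γ (z i) ≠ ⊥}

/-- `V` is the complexification of a real subspace. -/
def IsRealSub {m : ℕ} (V : Submodule ℂ (Fin m → ℂ)) : Prop :=
  ∃ V0 : Submodule ℝ (Fin m → ℝ), V = span ℂ (cxv '' (V0 : Set (Fin m → ℝ)))

theorem cxv_add {m : ℕ} (v w : Fin m → ℝ) : cxv (v + w) = cxv v + cxv w := by
  funext i; simp [cxv]

theorem cxv_sub {m : ℕ} (v w : Fin m → ℝ) : cxv (v - w) = cxv v - cxv w := by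
  funext i; simp [cxv]

theorem cxv_smul {m : ℕ} (r : ℝ) (v : Fin m → ℝ) : cxv (r • v) = r • cxv v := by
  funext i; simp [cxv]

theorem cxv_sum {m : ℕ} {ι : Type*} (s : Finset ι) (f : ι → Fin m → ℝ) :
    cxv (∑ i ∈ s, f i) = ∑ i ∈ s, cxv (f i) := by
  funext i; simp [cxv, Finset.sum_apply]

theorem cxv_inj {m : ℕ} {v w : Fin m → ℝ} (h : cxv v = cxv w) : v = w := by
  funext i; exact Complex.ofReal_injective (congrFun h i)

theorem osc_two {m : ℕ} (γ : ℝ → Fin m → ℝ) (z : ℝ) :
    osc m 2 γ z = span ℂ {cxv (γ z), cxv (deriv γ z)} := by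
  unfold osc
  congr 1
  ext x
  simp only [Set.mem_range, Fin.exists_fin_two, Set.mem_insert_iff, Set.mem_singleton_iff]
  simp only [Fin.isValue, Fin.val_zero, iteratedDeriv_zero, Fin.val_one, iteratedDeriv_one]
  constructor <;> rintro (h | h) <;> simp [h]

/-- Complex independence of real vectors from real independence. -/
theorem cxv_indep {m : ℕ} {ι : Type*} [Fintype ι] (v : ι → Fin m → ℝ) (h : LinearIndependent ℝ v) :
    LinearIndependent ℂ (fun i => cxv (v i)) := by
  rw [Fintype.linearIndependent_iff] at h ⊢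
  intro g hg i
  have hre : ∑ i, (g i).re • v i = 0 := by
    funext k
    have := congrArg Complex.re (congrFun hg k)
    simpa [cxv, Finset.sum_apply, Complex.re_sum] using this
  have him : ∑ i, (g i).im • v i = 0 := by
    funext k
    have := congrArg Complex.im (congrFun hg k)
    simpa [cxv, Finset.sum_apply, Complex.im_sum] using this
  exact Complex.ext (h _ hre i) (h _ him i)

theorem finrank_singleton_le {m : ℕ} (v : Fin m → ℂ) : Module.finrank ℂ (span ℂ {v}) ≤ 1 := by
  rcases eq_or_ne v 0 with h | h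
  · rw [h, span_zero_singleton, finrank_bot]; exact Nat.zero_le _
  · rw [finrank_span_singleton h]

theorem osc_two_data {m : ℕ} (γ : ℝ → Fin m → ℝ) (z : ℝ)
    (h : Module.finrank ℂ (osc m 2 γ z) = 2) :
    DifferentiableAt ℝ γ z ∧ LinearIndependent ℝ ![γ z, deriv γ z] := by
  rw [osc_two] at h
  constructor
  · by_contra hn
    rw [deriv_zero_of_not_differentiableAt hn] at h
    have h0 : cxv (0 : Fin m → ℝ) = 0 := by funext i; simp [cxv]
    rw [h0] at h
    have h1 : span ℂ {cxv (γ z), (0 : Fin m → ℂ)} = span ℂ {cxv (γ z)} := by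
      rw [Set.pair_comm, span_insert_zero]
    rw [h1] at h
    have := finrank_singleton_le (cxv (γ z))
    omega
  · rw [LinearIndependent.pair_iff]
    intro s t hst
    by_contra hne
    have hle : Module.finrank ℂ (span ℂ {cxv (γ z), cxv (deriv γ z)}) ≤ 1 := by
      have h1 : (s : ℂ) • cxv (γ z) + (t : ℂ) • cxv (deriv γ z) = 0 := by
        have := congrArg cxv hst
        rw [cxv_add, cxv_smul, cxv_smul] at this
        have h0 : cxv (0 : Fin m → ℝ) = 0 := by funext i; simp [cxv]
        rw [h0] at this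
        simpa using this
      rcases eq_or_ne t 0 with ht | ht
      · have hs : s ≠ 0 := fun hs => hne ⟨hs, ht⟩
        rw [ht] at h1
        have h2 : cxv (γ z) = 0 := by
          have : (s : ℂ) • cxv (γ z) = 0 := by simpa using h1
          exact (smul_eq_zero.mp this).resolve_left (by exact_mod_cast hs)
        rw [h2, span_insert_zero]
        exact finrank_singleton_le _
      · have h2 : cxv (deriv γ z) = (-(s : ℂ) / t) • cxv (γ z) := by
          have ht' : (t : ℂ) ≠ 0 := by exact_mod_cast ht
          have h3 : (t : ℂ) • cxv (deriv γ z) = -(s : ℂ) • cxv (γ z) := by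
            rw [neg_smul]; exact eq_neg_of_add_eq_zero_right h1
          rw [div_eq_inv_mul, mul_smul, ← h3, smul_smul, inv_mul_cancel₀ ht', one_smul]
        have h4 : span ℂ {cxv (γ z), cxv (deriv γ z)} ≤ span ℂ {cxv (γ z)} := by
          rw [span_le]
          intro x hx
          simp only [Set.mem_insert_iff, Set.mem_singleton_iff] at hx
          rcases hx with hx | hx
          · rw [hx]; exact mem_span_singleton_self _
          · rw [hx, h2]; exact smul_mem _ _ (mem_span_singleton_self _)
        exact (Submodule.finrank_mono h4).trans (finrank_singleton_le _)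
    omega

/-- The kernel of a map to the plane meets the span of two independent vectors iff the bracket of
the images vanishes. -/
theorem meet_iff {m : ℕ} (U : (Fin m → ℂ) →ₗ[ℂ] ℂ × ℂ) {x y : Fin m → ℂ}
    (h : LinearIndependent ℂ ![x, y]) :
    LinearMap.ker U ⊓ span ℂ {x, y} ≠ ⊥ ↔ br (U x) (U y) = 0 := by
  rw [LinearIndependent.pair_iff] at h
  rw [Submodule.ne_bot_iff]
  constructor
  · rintro ⟨w, ⟨hw1, hw2⟩, hw0⟩
    obtain ⟨s, t, rfl⟩ := mem_span_pair.mp hw2
    have hU : s • U x + t • U y = 0 := by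
      have : U (s • x + t • y) = 0 := hw1
      simpa using this
    have e1 : s * br (U x) (U y) = 0 := by
      have := congrArg (fun u => br u (U y)) hU
      simp only [br_add_left, br_mul_left, br_self, mul_zero, add_zero, br_zero_left] at this
      exact this
    have e2 : t * br (U x) (U y) = 0 := by
      have := congrArg (fun u => br (U x) u) hU
      simp only [br_add_right, br_mul_right, br_self, mul_zero, zero_add, br_zero_right] at this
      exact this
    by_contra hb
    apply hw0
    rw [(mul_eq_zero.mp e1).resolve_right hb, (mul_eq_zero.mp e2).resolve_right hb]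
    simp
  · intro hb
    have key : ∀ s t : ℂ, (s ≠ 0 ∨ t ≠ 0) → s • U x + t • U y = 0 →
        ∃ w ∈ LinearMap.ker U ⊓ span ℂ {x, y}, w ≠ 0 := by
      intro s t hst hU
      refine ⟨s • x + t • y, ⟨?_, mem_span_pair.mpr ⟨s, t, rfl⟩⟩, ?_⟩
      · change U (s • x + t • y) = 0
        simpa using hU
      · intro h0
        obtain ⟨h1, h2⟩ := h s t h0
        rcases hst with h3 | h3
        · exact h3 h1
        · exact h3 h2
    unfold br at hb
    by_cases h1 : (U y).1 ≠ 0 ∨ (U x).1 ≠ 0
    · refine key (U y).1 (-(U x).1) ?_ ?_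
      · rcases h1 with h1 | h1
        · exact Or.inl h1
        · exact Or.inr (neg_ne_zero.mpr h1)
      · ext
        · simp; ring
        · simp; linear_combination -hb
    · push Not at h1
      by_cases h2 : (U y).2 ≠ 0 ∨ (U x).2 ≠ 0
      · refine key (U y).2 (-(U x).2) ?_ ?_
        · rcases h2 with h2 | h2
          · exact Or.inl h2
          · exact Or.inr (neg_ne_zero.mpr h2)
        · ext
          · simp [h1.1, h1.2]
          · simp; ring
      · push Not at h2
        refine key 1 0 (Or.inl one_ne_zero) ?_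
        ext
        · simp [h1.2]
        · simp [h2.2]

/-- Decreasing enumeration of the nodes. -/
theorem exists_sorted {N : ℕ} (z : Fin N → ℝ) (hz : Function.Injective z) :
    ∃ ζ : ℕ → ℝ, (∀ i, i + 1 < N → ζ (i + 1) < ζ i) ∧
      (∀ i < N, ∃ j, z j = ζ i) ∧ (∀ j, ∃ i < N, z j = ζ i) := by
  classical
  set s : Finset ℝ := Finset.univ.image z with hs
  have hc : s.card = N := by
    rw [hs, Finset.card_image_of_injective _ hz, Finset.card_univ, Fintype.card_fin]
  refine ⟨fun i => if h : i < N then s.orderEmbOfFin hc ⟨N - 1 - i, by omega⟩ else 0,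
    ?_, ?_, ?_⟩
  · intro i hi
    simp only
    rw [dif_pos hi, dif_pos (by omega)]
    refine (s.orderEmbOfFin hc).strictMono ?_
    rw [Fin.lt_def]
    simp only
    omega
  · intro i hi
    simp only
    rw [dif_pos hi]
    have h1 := s.orderEmbOfFin_mem hc ⟨N - 1 - i, by omega⟩
    have h2 : ∀ x ∈ s, ∃ j, z j = x := by
      intro x hx
      rw [hs, Finset.mem_image] at hx
      obtain ⟨j, _, hj⟩ := hx
      exact ⟨j, hj⟩
    exact h2 _ h1
  · intro j
    have h1 : z j ∈ Set.range (s.orderEmbOfFin hc) := by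
      rw [Finset.range_orderEmbOfFin]
      simp [hs]
    obtain ⟨i, hi⟩ := h1
    refine ⟨N - 1 - i, by omega, ?_⟩
    show z j = if h : N - 1 - (i : ℕ) < N then
      s.orderEmbOfFin hc ⟨N - 1 - (N - 1 - (i : ℕ)), by omega⟩ else 0
    rw [dif_pos (by omega), ← hi]
    congr 1
    ext
    simp only
    omega

end TR
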