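import Pool.Agent.TR.Final

/-!
The correspondence between subspaces and chart solutions, and the final theorem.
-/

open Submodule

namespace TR

theorem arr_U {m : ℕ} (U : (Fin m → ℂ) →ₗ[ℂ] ℂ × ℂ) (e : ℕ → Fin m → ℝ) (p : ℕ → ℕ → ℝ)
    (a : ℕ → ℂ × ℂ) (ha : ∀ k < m, a k = U (cxv (e k))) (j : ℕ) :
    arr m p a j 0 = U (cxv (∑ k ∈ Finset.range m, cf m p j 0 k • e k)) := by
  rw [arr_eq_cf, cxv_sum, map_sum]
  refine Finset.sum_congr rfl fun k hk => ?_
  rw [cxv_smul, LinearMap.map_smul_of_tower, ha k (Finset.mem_range.mp hk)]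

theorem mark_iff {m : ℕ} (hm : 0 < m) (U : (Fin m → ℂ) →ₗ[ℂ] ℂ × ℂ) (e : ℕ → Fin m → ℝ)
    {p : ℕ → ℕ → ℝ} (hp : Pos p) (a : ℕ → ℂ × ℂ) (ha : ∀ k < m, a k = U (cxv (e k))) (i : ℕ)
    {x y : Fin m → ℝ} {C : ℝ} (h1 : ∑ k ∈ Finset.range m, cf m p (3 * i + 2) 0 k • e k = x)
    (h2 : ∑ k ∈ Finset.range m, cf m p (3 * i + 3) 0 k • e k = C • x - y) :
    D m p a (3 * i + 3) 0 = 0 ↔ br (U (cxv x)) (U (cxv y)) = 0 := by
  have e1 := arr_U U e p a ha (3 * i + 2)
  have e2 := arr_U U e p a ha (3 * i + 3)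
  rw [h1] at e1
  rw [h2, cxv_sub, cxv_smul, map_sub, LinearMap.map_smul_of_tower] at e2
  have e3 := D_bot hm p a (3 * i + 2)
  rw [show 3 * i + 2 + 1 = 3 * i + 3 from rfl, e1, e2] at e3
  rw [e3, smul_eq_zero]
  have hne : p (3 * i + 3) 0 ≠ 0 := (hp _ _).ne'
  have e4 : br (U (cxv x)) (C • U (cxv x) - U (cxv y)) = - br (U (cxv x)) (U (cxv y)) := by
    rw [sub_eq_add_neg, br_add_right, br_smul_right, br_self, smul_zero, zero_add]
    simp only [br, Prod.fst_neg, Prod.snd_neg]; ring
  rw [e4, neg_eq_zero]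
  exact ⟨fun h => h.resolve_left hne, Or.inr⟩

/-- Data attached to a convex curve, in the form used below. -/
structure CD (m : ℕ) (p : ℕ → ℕ → ℝ) (e : ℕ → Fin m → ℝ) (x y : ℕ → Fin m → ℝ) : Prop where
  pos : Pos p
  indep : LinearIndependent ℝ (fun k : Fin m => e k)
  nodes : ∃ C : ℝ, ∀ i < Nn m (m - 1),
    (∑ k ∈ Finset.range m, cf m p (3 * i + 2) 0 k • e k = x i) ∧
    (∑ k ∈ Finset.range m, cf m p (3 * i + 3) 0 k • e k = C • x i - y i)
  xy : ∀ i < Nn m (m - 1), LinearIndependent ℝ ![x i, y i]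

variable {m : ℕ} {p : ℕ → ℕ → ℝ} {e : ℕ → Fin m → ℝ} {x y : ℕ → Fin m → ℝ}

theorem cxv_pair {x y : Fin m → ℝ} (h : LinearIndependent ℝ ![x, y]) :
    LinearIndependent ℂ ![cxv x, cxv y] := by
  have := cxv_indep _ h
  convert this using 1
  funext i
  fin_cases i <;> rfl

theorem mk_iff (hm : 3 ≤ m) (hcd : CD m p e x y) (U : (Fin m → ℂ) →ₗ[ℂ] ℂ × ℂ)
    (a : ℕ → ℂ × ℂ) (ha : ∀ k < m, a k = U (cxv (e k))) :
    Mk m p a (Nn m (m - 1)) ↔
      ∀ i < Nn m (m - 1), LinearMap.ker U ⊓ span ℂ {cxv (x i), cxv (y i)} ≠ ⊥ := by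
  obtain ⟨C, hC⟩ := hcd.nodes
  refine forall_congr' fun i => forall_congr' fun hi => ?_
  rw [mark_iff (by omega) U e hcd.pos a ha i (hC i hi).1 (hC i hi).2,
    meet_iff U (cxv_pair (hcd.xy i hi))]

/-- The solution set in terms of the nodes. -/
def SolV (m : ℕ) (x y : ℕ → Fin m → ℝ) : Set (Submodule ℂ (Fin m → ℂ)) :=
  {V | Module.finrank ℂ V = m - 2 ∧ ∀ i < Nn m (m - 1), V ⊓ span ℂ {cxv (x i), cxv (y i)} ≠ ⊥}

theorem bas_exists (hm : 3 ≤ m) (hcd : CD m p e x y) :
    ∃ B : Module.Basis (Fin m) ℂ (Fin m → ℂ), ∀ k, B k = cxv (e k) := by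
  have hne : Nonempty (Fin m) := ⟨⟨0, by omega⟩⟩
  refine ⟨basisOfLinearIndependentOfCardEqFinrank (cxv_indep _ hcd.indep) (by simp), fun k => ?_⟩
  simp

/-- Kernel of a surjective map to the plane. -/
theorem finrank_ker {U : (Fin m → ℂ) →ₗ[ℂ] ℂ × ℂ} (hU : Function.Surjective U) (hm : 3 ≤ m) :
    Module.finrank ℂ (LinearMap.ker U) = m - 2 := by
  have h1 := LinearMap.finrank_range_add_finrank_ker U
  rw [LinearMap.range_eq_top.mpr hU, finrank_top] at h1
  simp at h1
  omega

theorem surj_of_br {U : (Fin m → ℂ) →ₗ[ℂ] ℂ × ℂ} {v w : Fin m → ℂ} (h : br (U v) (U w) ≠ 0) :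
    Function.Surjective U := by
  intro t
  set d := br (U v) (U w) with hd
  refine ⟨(br t (U w) * d⁻¹) • v + (br (U v) t * d⁻¹) • w, ?_⟩
  rw [map_add, map_smul, map_smul]
  have hdd : d⁻¹ * d = 1 := inv_mul_cancel₀ h
  unfold br at *
  ext
  · simp only [Prod.fst_add, Prod.smul_fst, smul_eq_mul]
    linear_combination t.1 * hdd - t.1 * d⁻¹ * hd
  · simp only [Prod.snd_add, Prod.smul_snd, smul_eq_mul]
    linear_combination t.2 * hdd - t.2 * d⁻¹ * hd

theorem br_sum_left' {ι : Type*} (s : Finset ι) (f : ι → ℂ × ℂ) (v : ℂ × ℂ) :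
    br (∑ i ∈ s, f i) v = ∑ i ∈ s, br (f i) v := by
  classical
  induction s using Finset.induction_on with
  | empty => simp [br]
  | insert a s ha ih => rw [Finset.sum_insert ha, Finset.sum_insert ha, br_add_left, ih]

theorem br_sum_right' {ι : Type*} (s : Finset ι) (f : ι → ℂ × ℂ) (v : ℂ × ℂ) :
    br v (∑ i ∈ s, f i) = ∑ i ∈ s, br v (f i) := by
  classical
  induction s using Finset.induction_on with
  | empty => simp [br]
  | insert a s ha ih => rw [Finset.sum_insert ha, Finset.sum_insert ha, br_add_right, ih]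

theorem gl_cmul (α β γ δ : ℂ) (c : ℂ) (u : ℂ × ℂ) :
    gl α β γ δ (c • u) = c • gl α β γ δ u := by
  unfold gl
  ext
  · simp only [Prod.smul_fst, Prod.smul_snd, smul_eq_mul]; ring
  · simp only [Prod.smul_fst, Prod.smul_snd, smul_eq_mul]; ring

theorem gl_eq_zero {α β γ δ : ℂ} (h : α * δ - β * γ ≠ 0) {u : ℂ × ℂ}
    (hu : gl α β γ δ u = 0) : u = 0 := by
  unfold gl at hu
  rw [Prod.mk_eq_zero] at hu
  obtain ⟨h1, h2⟩ := hu
  ext
  · have : (α * δ - β * γ) * u.1 = 0 := by linear_combination δ * h1 - β * h2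
    exact (mul_eq_zero.mp this).resolve_left h
  · have : (α * δ - β * γ) * u.2 = 0 := by linear_combination α * h2 - γ * h1
    exact (mul_eq_zero.mp this).resolve_left h

/-- Main correspondence. -/
theorem solV_card (hm : 3 ≤ m) (hcd : CD m p e x y) (T : TT m (m - 1) p) :
    (SolV m x y).ncard = cnt m (m - 1) ∧ ∀ V ∈ SolV m x y, IsRealSub V := by
  classical
  obtain ⟨B, hB⟩ := bas_exists hm hcd
  have hq : 1 ≤ m - 1 := by omega
  have hqm : m - 1 < m := by omega
  set U : (Fin (Nn m (m - 1)) → ℂ) → ((Fin m → ℂ) →ₗ[ℂ] ℂ × ℂ) :=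
    fun v => B.constr ℂ (fun k : Fin m => ch m (m - 1) v k) with hU
  have hUe : ∀ v, ∀ k (hk : k < m), ch m (m - 1) v k = U v (cxv (e k)) := by
    intro v k hk
    have := B.constr_basis ℂ (fun k : Fin m => ch m (m - 1) v k) ⟨k, hk⟩
    rw [hB] at this
    exact this.symm
  have hch1 : ∀ v : Fin (Nn m (m - 1)) → ℂ, ch m (m - 1) v (m - 2) = (1, 0) := by
    intro v
    unfold ch
    rw [if_neg (by omega), if_pos (by omega)]
  have hch2 : ∀ v : Fin (Nn m (m - 1)) → ℂ, ch m (m - 1) v (m - 1) = (0, 1) := by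
    intro v
    unfold ch
    rw [if_neg (by omega), if_neg (by omega), if_neg (by omega), if_pos rfl]
  have hUsurj : ∀ v, Function.Surjective (U v) := by
    intro v
    refine surj_of_br (v := cxv (e (m - 2))) (w := cxv (e (m - 1))) ?_
    rw [← hUe v (m - 2) (by omega), ← hUe v (m - 1) (by omega), hch1, hch2]
    simp [br]
  have himg : (fun v => LinearMap.ker (U v)) '' (Sol ℂ m (m - 1) p) = SolV m x y := by
    ext V
    constructor
    · rintro ⟨v, hv, rfl⟩
      exact ⟨finrank_ker (hUsurj v) hm, (mk_iff hm hcd (U v) _ (hUe v)).mp hv⟩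
    · rintro ⟨hV1, hV2⟩
      -- a surjection with kernel V
      have hquot : Module.finrank ℂ ((Fin m → ℂ) ⧸ V) = 2 := by
        have := Submodule.finrank_quotient_add_finrank V
        simp at this
        omega
      have hiso : Nonempty (((Fin m → ℂ) ⧸ V) ≃ₗ[ℂ] (ℂ × ℂ)) := by
        refine ⟨LinearEquiv.ofFinrankEq _ _ ?_⟩
        rw [hquot]; simp
      obtain ⟨f⟩ := hiso
      set W : (Fin m → ℂ) →ₗ[ℂ] ℂ × ℂ := f.toLinearMap.comp V.mkQ with hW
      have hWker : LinearMap.ker W = V := by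
        rw [hW, LinearMap.ker_comp, LinearEquiv.ker, Submodule.comap_bot, Submodule.ker_mkQ]
      have hWsurj : Function.Surjective W := by
        rw [hW]
        exact f.surjective.comp (Submodule.mkQ_surjective V)
      set a : ℕ → ℂ × ℂ := fun k => W (cxv (e k)) with ha
      have hRk : Rk m a := by
        by_contra hn
        unfold Rk at hn
        push Not at hn
        -- all brackets vanish
        have hall : ∀ i j : Fin m, br (W (B i)) (W (B j)) = 0 := by
          intro i j
          rw [hB, hB]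
          rcases lt_trichotomy (i : ℕ) (j : ℕ) with h | h | h
          · exact hn i j h j.2
          · rw [Fin.ext h, br_self]
          · rw [br_comm, neg_eq_zero]; exact hn j i h i.2
        have hall2 : ∀ u : Fin m → ℂ, ∀ j, br (W u) (W (B j)) = 0 := by
          intro u j
          rw [← B.sum_repr u, map_sum, br_sum_left']
          refine Finset.sum_eq_zero fun i _ => ?_
          rw [map_smul, br_mul_left, hall, mul_zero]
        have hall3 : ∀ u w : Fin m → ℂ, br (W u) (W w) = 0 := by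
          intro u w
          rw [← B.sum_repr w, map_sum, br_sum_right']
          refine Finset.sum_eq_zero fun i _ => ?_
          rw [map_smul, br_mul_right, hall2, mul_zero]
        obtain ⟨u, hu⟩ := hWsurj (1, 0)
        obtain ⟨w, hw⟩ := hWsurj (0, 1)
        have := hall3 u w
        rw [hu, hw] at this
        simp [br] at this
      have hCl : Cl m (m - 1) a := by
        intro i j h1 h2 h3
        omega
      have hMk : Mk m p a (Nn m (m - 1)) := by
        rw [mk_iff hm hcd W a (fun k _ => rfl), hWker]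
        exact hV2
      have hd := T.prp a hRk hCl hMk
      obtain ⟨v, α, β, γ, δ, hdet, hv⟩ := chart_exists hq hqm a hCl hd
      have hs : v ∈ Sol ℂ m (m - 1) p := by
        have h1 : Mk m p (fun k => gl α β γ δ (ch m (m - 1) v k)) (Nn m (m - 1)) := by
          rw [← mk_congr (fun _ _ _ _ => rfl) hv]; exact hMk
        exact (mk_gl p hdet _ _).mp h1
      refine ⟨v, hs, ?_⟩
      -- kernels agree
      have hWU : ∀ u, W u = gl α β γ δ (U v u) := by
        intro u
        rw [← B.sum_repr u, map_sum, map_sum, gl_sum]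
        refine Finset.sum_congr rfl fun k _ => ?_
        rw [map_smul, map_smul, gl_cmul, hB, ← hUe v k k.2, ← hv k k.2]
      simp only
      rw [← hWker]
      ext u
      rw [LinearMap.mem_ker, LinearMap.mem_ker, hWU]
      constructor
      · intro h; rw [h, gl_zero]
      · intro h
        exact gl_eq_zero hdet h
  have hinj : Set.InjOn (fun v => LinearMap.ker (U v)) (Sol ℂ m (m - 1) p) := by
    intro v _ v' _ hvv
    simp only at hvv
    refine chart_inj hq hqm fun k hk => ?_
    set c := ch m (m - 1) v' k with hc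
    have h1 : cxv (e k) - c.1 • cxv (e (m - 2)) - c.2 • cxv (e (m - 1)) ∈
        LinearMap.ker (U v') := by
      rw [LinearMap.mem_ker, map_sub, map_sub, map_smul, map_smul, ← hUe v' k hk,
        ← hUe v' (m - 2) (by omega), ← hUe v' (m - 1) (by omega), hch1, hch2, ← hc]
      ext
      · simp
      · simp
    rw [← hvv, LinearMap.mem_ker, map_sub, map_sub, map_smul, map_smul, ← hUe v k hk,
        ← hUe v (m - 2) (by omega), ← hUe v (m - 1) (by omega), hch1, hch2] at h1
    have h2 := congrArg Prod.fst h1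
    have h3 := congrArg Prod.snd h1
    simp only [Prod.fst_sub, Prod.snd_sub, Prod.smul_fst, Prod.smul_snd, smul_eq_mul, mul_one,
      mul_zero, sub_zero, Prod.fst_zero, Prod.snd_zero] at h2 h3
    exact Prod.ext (sub_eq_zero.mp h2) (sub_eq_zero.mp h3)
  constructor
  · rw [← himg, hinj.ncard_image, T.card]
  · intro V hV
    rw [← himg] at hV
    obtain ⟨v, hv, rfl⟩ := hV
    obtain ⟨w, hw, rfl⟩ := T.real v hv
    simp only
    set v : Fin (Nn m (m - 1)) → ℂ := fun i => (w i : ℂ) with hvdef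
    have hne : Nonempty (Fin m) := ⟨⟨0, by omega⟩⟩
    set B0 : Module.Basis (Fin m) ℝ (Fin m → ℝ) :=
      basisOfLinearIndependentOfCardEqFinrank hcd.indep (by simp) with hB0
    have hB0e : ∀ k, B0 k = e k := by
      intro k
      rw [hB0, coe_basisOfLinearIndependentOfCardEqFinrank]
    have hreal : ∀ x : Fin m → ℝ, ∃ r : ℝ × ℝ, U v (cxv x) = ((r.1 : ℂ), (r.2 : ℂ)) := by
      intro x
      refine ⟨∑ k : Fin m, B0.repr x k • ch m (m - 1) w k, ?_⟩
      conv_lhs => rw [← B0.sum_repr x]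
      rw [cxv_sum, map_sum]
      have h1 : ∀ k : Fin m, U v (cxv (B0.repr x k • B0 k)) =
          (((B0.repr x k • ch m (m - 1) w k).1 : ℂ), ((B0.repr x k • ch m (m - 1) w k).2 : ℂ)) := by
        intro k
        rw [hB0e, cxv_smul, LinearMap.map_smul_of_tower, ← hUe v k k.2, hvdef, ch_ofReal]
        ext
        · simp
        · simp
      rw [Finset.sum_congr rfl fun k _ => h1 k]
      ext
      · simp [Prod.fst_sum]
      · simp [Prod.snd_sum]
    refine ⟨{ carrier := {x | U v (cxv x) = 0}, add_mem' := ?_, zero_mem' := ?_,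
              smul_mem' := ?_ }, ?_⟩
    · intro x y hx hy
      simp only [Set.mem_ofPred_eq] at hx hy ⊢
      rw [cxv_add, map_add, hx, hy, add_zero]
    · simp only [Set.mem_ofPred_eq]
      have h0 : cxv (0 : Fin m → ℝ) = 0 := by funext i; simp [cxv]
      rw [h0, map_zero]
    · intro r x hx
      simp only [Set.mem_ofPred_eq] at hx ⊢
      rw [cxv_smul, LinearMap.map_smul_of_tower, hx, smul_zero]
    · apply le_antisymm
      · intro u hu
        have hu' : U v u = 0 := hu
        set xr : Fin m → ℝ := fun i => (u i).re with hxr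
        set xi : Fin m → ℝ := fun i => (u i).im with hxi
        have hsplit : u = cxv xr + Complex.I • cxv xi := by
          funext i
          simp only [cxv, Pi.add_apply, Pi.smul_apply, smul_eq_mul, hxr, hxi]
          rw [mul_comm]
          exact (Complex.re_add_im (u i)).symm
        obtain ⟨r, hr⟩ := hreal xr
        obtain ⟨s, hs⟩ := hreal xi
        have h2 : U v (cxv xr) = 0 ∧ U v (cxv xi) = 0 := by
          rw [hsplit, map_add, map_smul, hr, hs] at hu'
          have e1 := congrArg Prod.fst hu'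
          have e2 := congrArg Prod.snd hu'
          simp only [Prod.fst_add, Prod.snd_add, Prod.smul_fst, Prod.smul_snd, smul_eq_mul,
            Prod.fst_zero, Prod.snd_zero] at e1 e2
          have f1 := congrArg Complex.re e1
          have f2 := congrArg Complex.im e1
          have f3 := congrArg Complex.re e2
          have f4 := congrArg Complex.im e2
          simp at f1 f2 f3 f4
          rw [hr, hs, f1, f2, f3, f4]
          constructor <;> ext <;> simp
        rw [hsplit]
        refine add_mem (subset_span ⟨xr, h2.1, rfl⟩) (smul_mem _ _ (subset_span ⟨xi, h2.2, rfl⟩))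
      · rw [span_le]
        rintro _ ⟨x, hx, rfl⟩
        exact hx

end TR
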