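import Pool.Agent.TR.Straight
import Pool.Agent.TR.Chains

/-!
MODULE FLRANK (properties of the filtration Fl).

fl_rank: `straighten` with A = MvPolynomial, b = bb m q: hpl is the Pluecker relation
(`plucker`: br (i,l) br (j,k) = br (i,k) br (j,l) - br (i,j) br (k,l)), hz: for k, l >= q both
columns are vertical (first coordinate 0) by definition of ch.  So Fl m q d is spanned by the chain
products, at most |T| of them (`chains_count`): finrank_span_finset_le_card.
fl_one: empty multiset.  fl_mul: products of generators; a multiset of cardinality a + b splits.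
fl_mono: bb m q (q-1, m-1) = br (1,0) (0,1) = 1, (q-1,m-1) in prs m q.
fl_top: X i in Fl 1: for k < q-1: X (2k) = bb (k, m-1), X (2k+1) = - bb (k, q-1); for q <= k < m-1:
X (2(q-1)+(k-q)) = bb (q-1, k).  Every index i < Nn m q = 2 (q-1) + (m-1-q) is of this form.  Then
induct on the polynomial (`MvPolynomial.induction_on`), using fl_mul, fl_mono, constants in Fl 0.
fl_ww: `D_eq_sum`: real combination (r • = C r *) of bb x, x.1 < x.2 < m, and bb x = 0 if q <= x.1.
-/

namespace TR

private theorem fl_set_finite (m q d : ℕ) : {s : Multiset (ℕ × ℕ) | (∀ x ∈ s, x ∈ prs m q) ∧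
    Multiset.card s = d}.Finite := by
  classical
  refine (Set.finite_Icc (0 : Multiset (ℕ × ℕ)) (d • (prs m q).val)).subset ?_
  rintro s ⟨hs, hd⟩
  refine ⟨Multiset.zero_le _, ?_⟩
  rw [Multiset.le_iff_count]
  intro x
  rw [Multiset.count_nsmul]
  by_cases hx : x ∈ s
  · have h1 : Multiset.count x (prs m q).val = 1 :=
      Multiset.count_eq_one_of_mem (prs m q).nodup (hs x hx)
    rw [h1, mul_one, ← hd]
    exact Multiset.count_le_card x s
  · rw [Multiset.count_eq_zero_of_notMem hx]
    exact Nat.zero_le _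

theorem fl_finite (m q d : ℕ) : Module.Finite ℂ (Fl m q d) := by
  unfold Fl
  apply Module.Finite.span_of_finite
  refine ((fl_set_finite m q d).image (fun s => (s.map (bb m q)).prod)).subset ?_
  rintro f ⟨s, hs, hd, rfl⟩
  exact ⟨s, ⟨hs, hd⟩, rfl⟩

private theorem gch_vert {m q : ℕ} (hq : 1 ≤ q) {k : ℕ} (hk : q ≤ k) : (gch m q k).1 = 0 := by
  unfold gch ch
  rw [if_neg (by omega), if_neg (by omega)]
  split_ifs <;> rfl

private theorem bb_zero {m q : ℕ} (hq : 1 ≤ q) {k l : ℕ} (hk : q ≤ k) (hl : q ≤ l) :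
    bb m q (k, l) = 0 := by
  unfold bb br
  rw [gch_vert hq hk, gch_vert hq hl]
  ring

theorem fl_rank {m q : ℕ} (hq : 1 ≤ q) (hqm : q < m) (d : ℕ) :
    Module.finrank ℂ (Fl m q d) ≤ cnt m q * (d + Nn m q).choose (Nn m q) := by
  classical
  obtain ⟨T, hT, hT'⟩ := chains_count hq hqm d
  have hle : Fl m q d ≤ Submodule.span ℂ
      (((T.image (fun s => (s.map (bb m q)).prod)) :
        Finset (MvPolynomial (Fin (Nn m q)) ℂ)) : Set (MvPolynomial (Fin (Nn m q)) ℂ)) := by
    unfold Fl
    rw [Submodule.span_le]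
    rintro f ⟨s, hs, hd, rfl⟩
    have h1 := straighten (A := MvPolynomial (Fin (Nn m q)) ℂ) (m := m) (q := q) (bb m q)
      (by
        intro i j k l _ _ _ _
        have := plucker (gch m q i) (gch m q j) (gch m q k) (gch m q l)
        show br (gch m q i) (gch m q l) * br (gch m q j) (gch m q k) = _
        unfold bb
        linear_combination this)
      (by
        intro k l h1 h2 _
        exact bb_zero hq h1 (by omega)) s hs
    refine Submodule.span_mono ?_ h1
    rintro g ⟨s', hs', hc, hch, rfl⟩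
    rw [Finset.mem_coe, Finset.mem_image]
    exact ⟨s', hT' s' hs' (hc.trans hd) hch, rfl⟩
  refine (Submodule.finrank_mono hle).trans ?_
  refine (finrank_span_finset_le_card _).trans ?_
  exact Finset.card_image_le.trans hT

theorem fl_one (m q : ℕ) : (1 : MvPolynomial (Fin (Nn m q)) ℂ) ∈ Fl m q 0 :=
  Submodule.subset_span ⟨0, by simp, by simp, by simp⟩

private theorem split_multiset (s : Multiset (ℕ × ℕ)) (a b : ℕ) (h : Multiset.card s = a + b) :
    ∃ t u : Multiset (ℕ × ℕ), s = t + u ∧ Multiset.card t = a ∧ Multiset.card u = b := by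
  induction s using Quotient.inductionOn with
  | _ L =>
    have h1 : L.length = a + b := h
    refine ⟨(L.take a : Multiset (ℕ × ℕ)), (L.drop a : Multiset (ℕ × ℕ)), ?_, ?_, ?_⟩
    · rw [Multiset.coe_add, List.take_append_drop]
      rfl
    · rw [Multiset.coe_card, List.length_take]
      omega
    · rw [Multiset.coe_card, List.length_drop]
      omega

theorem fl_mul (m q a b : ℕ) : Fl m q (a + b) = Fl m q a * Fl m q b := by
  unfold Fl
  rw [Submodule.span_mul_span]
  congr 1
  ext f
  rw [Set.mem_mul]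
  constructor
  · rintro ⟨s, hs, hd, rfl⟩
    obtain ⟨t, u, rfl, ht, hu⟩ := split_multiset s a b hd
    refine ⟨_, ⟨t, fun x hx => hs x (Multiset.mem_add.mpr (Or.inl hx)), ht, rfl⟩, _,
      ⟨u, fun x hx => hs x (Multiset.mem_add.mpr (Or.inr hx)), hu, rfl⟩, ?_⟩
    rw [Multiset.map_add, Multiset.prod_add]
  · rintro ⟨_, ⟨t, ht, hta, rfl⟩, _, ⟨u, hu, hub, rfl⟩, rfl⟩
    refine ⟨t + u, ?_, ?_, ?_⟩
    · intro x hx
      rcases Multiset.mem_add.mp hx with h | h
      · exact ht x h
      · exact hu x h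
    · rw [Multiset.card_add, hta, hub]
    · rw [Multiset.map_add, Multiset.prod_add]

private theorem bb_mem {m q : ℕ} {x : ℕ × ℕ} (hx : x ∈ prs m q) : bb m q x ∈ Fl m q 1 := by
  apply Submodule.subset_span
  refine ⟨{x}, ?_, by simp, by simp⟩
  intro y hy
  rw [Multiset.mem_singleton] at hy
  rw [hy]
  exact hx

private theorem gch_last {m q : ℕ} (hq : 1 ≤ q) (hqm : q < m) : gch m q (m - 1) = (0, 1) := by
  unfold gch ch
  rw [if_neg (by omega), if_neg (by omega), if_neg (by omega), if_pos rfl]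

private theorem gch_piv {m q : ℕ} : gch m q (q - 1) = (1, 0) := by
  unfold gch ch
  rw [if_neg (by omega), if_pos rfl]

private theorem bb_one {m q : ℕ} (hq : 1 ≤ q) (hqm : q < m) : bb m q (q - 1, m - 1) = 1 := by
  unfold bb
  simp only
  rw [gch_last hq hqm, gch_piv]
  simp [br]

theorem fl_mono {m q : ℕ} (hq : 1 ≤ q) (hqm : q < m) (d : ℕ) : Fl m q d ≤ Fl m q (d + 1) := by
  intro f hf
  rw [fl_mul]
  have h1 : bb m q (q - 1, m - 1) ∈ Fl m q 1 := by
    apply bb_mem
    rw [str_mem_prs]
    simp only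
    omega
  rw [bb_one hq hqm] at h1
  have h2 := Submodule.mul_mem_mul hf h1
  rwa [mul_one] at h2

private theorem fl_mono' {m q : ℕ} (hq : 1 ≤ q) (hqm : q < m) {a b : ℕ} (h : a ≤ b) :
    Fl m q a ≤ Fl m q b :=
  monotone_nat_of_le_succ (fun d => fl_mono hq hqm d) h

private theorem X_mem {m q : ℕ} (hq : 1 ≤ q) (hqm : q < m) (i : Fin (Nn m q)) :
    (MvPolynomial.X i : MvPolynomial (Fin (Nn m q)) ℂ) ∈ Fl m q 1 := by
  have hev : ∀ j : ℕ, j = (i : ℕ) → ev (fun i : Fin (Nn m q) =>
      (MvPolynomial.X i : MvPolynomial (Fin (Nn m q)) ℂ)) j = MvPolynomial.X i := by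
    rintro j rfl
    unfold ev
    rw [dif_pos i.2]
  have hi := i.2
  unfold Nn at hi
  by_cases h1 : (i : ℕ) < 2 * (q - 1)
  · obtain ⟨k, hk⟩ : ∃ k, (i : ℕ) = 2 * k ∨ (i : ℕ) = 2 * k + 1 := ⟨i / 2, by omega⟩
    have hkq : k < q - 1 := by omega
    have hg : gch m q k = (ev (fun i : Fin (Nn m q) =>
        (MvPolynomial.X i : MvPolynomial (Fin (Nn m q)) ℂ)) (2 * k),
        ev (fun i : Fin (Nn m q) =>
        (MvPolynomial.X i : MvPolynomial (Fin (Nn m q)) ℂ)) (2 * k + 1)) := by
      unfold gch ch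
      rw [if_pos hkq]
    rcases hk with hk | hk
    · have h2 : bb m q (k, m - 1) ∈ Fl m q 1 := by
        apply bb_mem
        rw [str_mem_prs]
        simp only
        omega
      have h3 : bb m q (k, m - 1) = MvPolynomial.X i := by
        unfold bb
        simp only
        rw [gch_last hq hqm, hg, hev (2 * k) hk.symm]
        simp [br]
      rwa [h3] at h2
    · have h2 : bb m q (k, q - 1) ∈ Fl m q 1 := by
        apply bb_mem
        rw [str_mem_prs]
        simp only
        omega
      have h3 : bb m q (k, q - 1) = - MvPolynomial.X i := by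
        unfold bb
        simp only
        rw [gch_piv, hg, hev (2 * k + 1) hk.symm]
        simp [br]
      rw [h3] at h2
      exact (Submodule.neg_mem_iff _).mp h2
  · obtain ⟨k, hk, hqk⟩ : ∃ k, (i : ℕ) = 2 * (q - 1) + (k - q) ∧ q ≤ k :=
      ⟨i - 2 * (q - 1) + q, by omega, by omega⟩
    have hkm : k < m - 1 := by omega
    have hg : gch m q k = (0, ev (fun i : Fin (Nn m q) =>
        (MvPolynomial.X i : MvPolynomial (Fin (Nn m q)) ℂ)) (2 * (q - 1) + (k - q))) := by
      unfold gch ch
      rw [if_neg (by omega), if_neg (by omega), if_pos hkm]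
    have h2 : bb m q (q - 1, k) ∈ Fl m q 1 := by
      apply bb_mem
      rw [str_mem_prs]
      simp only
      omega
    have h3 : bb m q (q - 1, k) = MvPolynomial.X i := by
      unfold bb
      simp only
      rw [gch_piv, hg, hev _ hk.symm]
      simp [br]
    rwa [h3] at h2

theorem fl_top {m q : ℕ} (hq : 1 ≤ q) (hqm : q < m) (f : MvPolynomial (Fin (Nn m q)) ℂ) :
    ∃ d, f ∈ Fl m q d := by
  induction f using MvPolynomial.induction_on with
  | C a =>
    refine ⟨0, ?_⟩
    have h1 := Submodule.smul_mem _ a (fl_one m q)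
    rwa [MvPolynomial.smul_eq_C_mul, mul_one] at h1
  | add f g hf hg =>
    obtain ⟨a, ha⟩ := hf
    obtain ⟨b, hb⟩ := hg
    exact ⟨max a b, Submodule.add_mem _ (fl_mono' hq hqm (le_max_left _ _) ha)
      (fl_mono' hq hqm (le_max_right _ _) hb)⟩
  | mul_X f i hf =>
    obtain ⟨a, ha⟩ := hf
    refine ⟨a + 1, ?_⟩
    rw [fl_mul]
    exact Submodule.mul_mem_mul ha (X_mem hq hqm i)

theorem fl_ww {m q : ℕ} (hq : 1 ≤ q) (hqm : q < m) (p : ℕ → ℕ → ℝ) (i : Fin (Nn m q)) :
    ww m q p i ∈ Fl m q 1 := by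
  unfold ww
  rw [D_eq_sum]
  apply Submodule.sum_mem
  intro x hx
  rw [Finset.mem_filter, Finset.mem_product, Finset.mem_range, Finset.mem_range] at hx
  apply Submodule.smul_of_tower_mem
  by_cases hxq : x.1 < q
  · exact bb_mem (x := x) (str_mem_prs.mpr ⟨hx.2, hx.1.2, hxq⟩)
  · have h0 : br (gch m q x.1) (gch m q x.2) = 0 := by
      have := bb_zero (m := m) hq (k := x.1) (l := x.2) (by omega) (by omega)
      exact this
    rw [h0]
    exact Submodule.zero_mem _

end TR
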