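import Pool.Agent.TR.Basic

/-!
Elementary consequences of the normal frame.
-/

namespace TR

variable {m q : ℕ} {p : ℕ → ℕ → ℝ} {a : ℕ → ℝ × ℝ}

theorem nf_top (h : ∀ k, q ≤ k → k < m → (a k).1 = 0) (j : ℕ) : ∀ k, q ≤ k →
    (arr m p a j k).1 = 0 := by
  induction j with
  | zero =>
    intro k hk
    by_cases hkm : k < m
    · rw [arr_zero p a hkm]; exact h k hk hkm
    · rw [arr_ge p a 0 (not_lt.mp hkm)]; rfl
  | succ j ih =>
    intro k hk
    rw [arr_succ', Prod.fst_sum]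
    refine Finset.sum_eq_zero fun i hi => ?_
    rw [Finset.mem_Ico] at hi
    rw [Prod.smul_fst, ih i (hk.trans hi.1), smul_zero]

theorem arr_last (hm : 0 < m) (j : ℕ) :
    arr m p a (j + 1) (m - 1) = p (j + 1) (m - 1) • arr m p a j (m - 1) := by
  rw [arr_succ p a j (by omega : m - 1 < m), show m - 1 + 1 = m by omega,
    arr_ge p a (j + 1) le_rfl, add_zero]

theorem nf_pos (hm : 0 < m) (hp : Pos p) (h : 0 < (a (m - 1)).2) (j : ℕ) :
    0 < (arr m p a j (m - 1)).2 := by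
  induction j with
  | zero => rw [arr_zero p a (by omega : m - 1 < m)]; exact h
  | succ j ih => rw [arr_last hm, Prod.smul_snd, smul_eq_mul]; exact mul_pos (hp _ _) ih

/-- Second coordinates satisfy the scalar recursion. -/
theorem sc_succ (j : ℕ) {k : ℕ} (hk : k < m) :
    (arr m p a (j + 1) k).2 = p (j + 1) k * (arr m p a j k).2 + (arr m p a (j + 1) (k + 1)).2 := by
  rw [arr_succ p a j hk, Prod.snd_add, Prod.smul_snd, smul_eq_mul]

theorem nf_ne_succ (hq : 1 ≤ q) (hqm : q < m) (h : ∀ k, q ≤ k → k < m → (a k).1 = 0) (j : ℕ) :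
    (arr m p a (j + 1) (q - 1)).1 = p (j + 1) (q - 1) * (arr m p a j (q - 1)).1 := by
  rw [arr_succ p a j (by omega : q - 1 < m), Prod.fst_add, Prod.smul_fst, smul_eq_mul,
    show q - 1 + 1 = q by omega, nf_top h (j + 1) q le_rfl, add_zero]

theorem nf_sign (hq : 1 ≤ q) (hqm : q < m) (hp : Pos p)
    (h : ∀ k, q ≤ k → k < m → (a k).1 = 0) (j : ℕ) :
    SignType.sign (arr m p a j (q - 1)).1 = SignType.sign (a (q - 1)).1 := by
  induction j with
  | zero => rw [arr_zero p a (by omega : q - 1 < m)]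
  | succ j ih =>
    rw [nf_ne_succ hq hqm h, sign_mul, ih, sign_pos (hp _ _), one_mul]

theorem D_top (h : ∀ k, q ≤ k → k < m → (a k).1 = 0) (j : ℕ) {k : ℕ} (hk : q ≤ k) :
    D m p a j k = 0 := by
  rw [D, br, nf_top h j k hk, nf_top h j (k + 1) (by omega)]; ring

theorem D_topcell (hq : 1 ≤ q) (h : ∀ k, q ≤ k → k < m → (a k).1 = 0) (j : ℕ) :
    D m p a j (q - 1) = (arr m p a j (q - 1)).1 * (arr m p a j q).2 := by
  rw [D, br, show q - 1 + 1 = q by omega, nf_top h j q le_rfl]; ring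

theorem col_top (h : ∀ k, q ≤ k → k < m → (a k).1 = 0) (j : ℕ) {k : ℕ} (hk : q ≤ k) :
    col m p a j k = 0 := by rw [col, D_top h j hk, sign_zero]

theorem col_topcell (hq : 1 ≤ q) (hqm : q < m) (hp : Pos p)
    (h : ∀ k, q ≤ k → k < m → (a k).1 = 0) (j : ℕ) :
    col m p a j (q - 1) = SignType.sign (a (q - 1)).1 * SignType.sign (arr m p a j q).2 := by
  rw [col, D_topcell hq h, sign_mul, nf_sign hq hqm hp h]

/-- In a normal frame clusters of cells in rows `< m-1` are the clusters in rows `< q`. -/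
theorem conn_nf (h : ∀ k, q ≤ k → k < m → (a k).1 = 0) {M : ℕ} {x y : ℕ × ℕ}
    (hc : Conn M (m - 1) (col m p a) x y) : Conn M q (col m p a) x y := by
  rcases le_total (m - 1) q with hm | hm
  · exact hc.mono le_rfl hm (fun _ _ _ _ _ => rfl)
  · exact hc.restrict (fun j _ k hk _ => col_top h j hk)

theorem conn_nf' (hqm : q < m) {M : ℕ} {x y : ℕ × ℕ}
    (hc : Conn M q (col m p a) x y) : Conn M (m - 1) (col m p a) x y :=
  hc.mono le_rfl (by omega) (fun _ _ _ _ _ => rfl)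

theorem nf_ch (hq : 1 ≤ q) (hqm : q < m) {n : ℕ} (v : Fin n → ℝ) : NF m q (ch m q v) := by
  refine ⟨?_, ?_, ?_⟩
  · intro k hk hkm
    have h1 : ¬ k < q - 1 := by omega
    have h2 : ¬ k = q - 1 := by omega
    unfold ch
    simp only [h1, h2, if_false]
    split_ifs <;> rfl
  · have h1 : ¬ m - 1 < q - 1 := by omega
    have h2 : ¬ m - 1 = q - 1 := by omega
    simp [ch, h1, h2]
  · simp [ch]

end TR
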