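import Pool.Agent.TR.Curve
import Pool.Agent.TR.Germ

/-!
MODULE HERM (Hermite strictness of convex curves).

A, B finite sets of parameters, B subset of A, |A| + |B| = m, d b = derivative of gamma at b for
b in B, gamma b and d b independent.  Claim: a functional eta with eta (gamma a) = 0 (a in A) and
eta (d b) = 0 (b in B) is 0.  Strong induction on |B|.
B empty: |A| = m distinct points: gamma(A) is a basis.
|B| >= 1: suppose eta <> 0.  Fix z in B, B' = B \ {z}.
(i) No other zeros: if t is not in A then eta (gamma t) <> 0 (otherwise A u {t}, B': |A|+1+|B|-1 = m,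
    induction gives eta = 0).
(ii) V = {gamma a, a in A} u {d b, b in B'} (m - 1 vectors): the evaluation map from functionals to
    values on V is onto (kernel spanned by eta), so there are dual functionals xi_v, v in V.
(iii) some xi_v (d z) <> 0 with v = gamma a, a in A \ B, or v = d b, b in B'.  Otherwise every
    functional that kills gamma B kills d z: a contradiction, by hi if B = {z} and by induction
    for (A'', {z}), B subset A'', |A''| = m - 1, otherwise.
(iv) Let v0 = gamma a0 (a0 in A \ B) or v0 = d b0 (b0 in B') be such a vector, xi a functional with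
    xi v0 = 1, xi = 0 on V \ {v0}; xi (d z) <> 0.  H = eta o gamma, X = xi o gamma.
    Near z: X(z) = 0, X'(z) = xi (d z) <> 0, H(z) = 0, H'(z) = 0: so X, H <> 0
    in a punctured neighbourhood (H by (i)) and H / X -> 0 (quotients by t - z).
    Near a0: X(a0) = 1, H(a0) = 0: H / X -> 0, H <> 0 nearby by (i).  Resp. near b0: X(b0) = 0,
    X'(b0) = xi (d b0) = 1, H(b0) = 0 = H'(b0): H / X -> 0.
    `germ` (with z1 = z, z2 = a0 or b0, finite set A): eps <> 0, t1 <> t2 not in A with
    (eta - eps xi)(gamma t_i) = 0.  eta - eps xi kills V \ {v0}, gamma t1, gamma t2: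
    case a0: points A \ {a0} u {t1,t2}, doubles B': |A| + 1 + |B| - 1 = m;
    case b0: points A u {t1,t2}, doubles B' \ {b0}: |A| + 2 + |B| - 2 = m.
    By induction eta = eps xi, but (eta - eps xi) v0 = - eps <> 0. Contradiction.
-/

open Filter Topology

namespace TR

private theorem herm_tendsto {H X : ℝ → ℝ} {z x' : ℝ} (hH : HasDerivAt H 0 z) (h0 : H z = 0)
    (hX : HasDerivAt X x' z) (hx0 : X z = 0) (hx : x' ≠ 0) :
    Tendsto (fun t => H t / X t) (𝓝[≠] z) (𝓝 0) ∧ ∀ᶠ t in 𝓝[≠] z, X t ≠ 0 := by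
  have h1 := hasDerivAt_iff_tendsto_slope.mp hH
  have h2 := hasDerivAt_iff_tendsto_slope.mp hX
  constructor
  · have h3 := h1.div h2 hx
    rw [zero_div] at h3
    refine h3.congr' ?_
    filter_upwards [self_mem_nhdsWithin] with t ht
    have ht' : t - z ≠ 0 := sub_ne_zero.mpr ht
    simp only [Pi.div_apply, slope_def_field, h0, hx0, sub_zero]
    rw [div_div_div_cancel_right₀ ht']
  · exact hX.eventually_ne hx

private theorem herm_tendsto' {H X : ℝ → ℝ} {z : ℝ} (hH : Continuous H) (h0 : H z = 0)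
    (hX : Continuous X) (hx : X z ≠ 0) :
    Tendsto (fun t => H t / X t) (𝓝[≠] z) (𝓝 0) ∧ ∀ᶠ t in 𝓝[≠] z, X t ≠ 0 := by
  constructor
  · have h3 : Tendsto (fun t => H t / X t) (𝓝 z) (𝓝 (H z / X z)) :=
      (hH.tendsto z).div (hX.tendsto z) hx
    rw [h0, zero_div] at h3
    exact h3.mono_left nhdsWithin_le_nhds
  · exact nhdsWithin_le_nhds ((hX.tendsto z).eventually_ne hx)

private theorem herm_punct (A : Finset ℝ) (z : ℝ) : ∀ᶠ t in 𝓝[≠] z, t ∉ A := by
  have hcl : IsClosed ((A.erase z : Finset ℝ) : Set ℝ) := (A.erase z).finite_toSet.isClosed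
  have h1 : ∀ᶠ t in 𝓝[≠] z, t ∉ A.erase z :=
    nhdsWithin_le_nhds (hcl.isOpen_compl.mem_nhds (by simp))
  filter_upwards [h1, self_mem_nhdsWithin] with t ht1 ht2 ht3
  exact ht1 (Finset.mem_erase.mpr ⟨ht2, ht3⟩)

theorem herm {m : ℕ} {γ : ℝ → Fin m → ℝ} (hγ : ConvexCurve m γ) (A B : Finset ℝ) (hBA : B ⊆ A)
    (hcard : A.card + B.card = m) (d : ℝ → Fin m → ℝ) (hd : ∀ b ∈ B, HasDerivAt γ (d b) b)
    (hi : ∀ b ∈ B, LinearIndependent ℝ ![γ b, d b]) (η : (Fin m → ℝ) →ₗ[ℝ] ℝ)
    (hA : ∀ a ∈ A, η (γ a) = 0) (hB : ∀ b ∈ B, η (d b) = 0) : η = 0 := by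
  revert A η hBA hcard hd hi hA hB
  induction B using Finset.strongInduction with
  | H B ih =>
  intro A hBA hcard hd hi η hA hB
  rcases B.eq_empty_or_nonempty with rfl | hne
  · have hc : A.card = m := by simpa using hcard
    let e := A.equivFinOfCardEq hc
    have hli := hγ.2 (fun i => ((e.symm i : A) : ℝ))
      (fun i j h => e.symm.injective (Subtype.ext h))
    have hsp := hli.span_eq_top_of_card_eq_finrank' (by simp)
    refine LinearMap.ext_on_range hsp (fun i => ?_)
    rw [LinearMap.zero_apply]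
    exact hA _ (e.symm i).2
  obtain ⟨z, hz⟩ := hne
  have ihh : ∀ B1, B1 ⊂ B → ∀ A1, B1 ⊆ A1 → A1.card + B1.card = m → ∀ ξ : (Fin m → ℝ) →ₗ[ℝ] ℝ,
      (∀ a ∈ A1, ξ (γ a) = 0) → (∀ b ∈ B1, ξ (d b) = 0) → ξ = 0 :=
    fun B1 h A1 h1 h2 ξ h3 h4 =>
      ih B1 h A1 h1 h2 (fun b hb => hd b (h.1 hb)) (fun b hb => hi b (h.1 hb)) ξ h3 h4
  by_contra hη
  have hzA : z ∈ A := hBA hz
  have hcB : (B.erase z).card + 1 = B.card := Finset.card_erase_add_one hz
  have hBss : B.erase z ⊂ B := Finset.erase_ssubset hz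
  have hBmem : ∀ b ∈ B.erase z, b ∈ B := fun b hb => Finset.mem_of_mem_erase hb
  -- (i)
  have hno : ∀ t, t ∉ A → ∀ ξ : (Fin m → ℝ) →ₗ[ℝ] ℝ, (∀ a ∈ A, ξ (γ a) = 0) →
      (∀ b ∈ B.erase z, ξ (d b) = 0) → ξ (γ t) = 0 → ξ = 0 := by
    intro t ht ξ h1 h2 h3
    refine ihh (B.erase z) hBss (insert t A) ?_ ?_ ξ ?_ h2
    · exact (Finset.erase_subset _ _).trans (hBA.trans (Finset.subset_insert _ _))
    · rw [Finset.card_insert_of_notMem ht]; omega
    · intro a ha
      rcases Finset.mem_insert.mp ha with rfl | ha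
      · exact h3
      · exact h1 a ha
  have hηt : ∀ t, t ∉ A → η (γ t) ≠ 0 := fun t ht h0 =>
    hη (hno t ht η hA (fun b hb => hB b (hBmem b hb)) h0)
  obtain ⟨t0, ht0⟩ := Infinite.exists_notMem_finset A
  have hker : ∀ κ : (Fin m → ℝ) →ₗ[ℝ] ℝ, (∀ a ∈ A, κ (γ a) = 0) →
      (∀ b ∈ B.erase z, κ (d b) = 0) → κ (d z) = 0 := by
    intro κ h1 h2
    have h3 : κ - (κ (γ t0) / η (γ t0)) • η = 0 := by
      refine hno t0 ht0 _ ?_ ?_ ?_
      · intro a ha
        simp [h1 a ha, hA a ha]
      · intro b hb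
        simp [h2 b hb, hB b (hBmem b hb)]
      · simp [div_mul_cancel₀ _ (hηt t0 ht0)]
    have h4 := LinearMap.congr_fun h3 (d z)
    simp only [LinearMap.sub_apply, LinearMap.smul_apply, LinearMap.zero_apply, hB z hz,
      smul_zero, sub_zero] at h4
    exact h4
  have hfd : Module.finrank ℝ ((Fin m → ℝ) →ₗ[ℝ] ℝ) = m := by
    have h := Subspace.dual_finrank_eq (K := ℝ) (V := Fin m → ℝ)
    rw [Module.finrank_fin_fun] at h
    exact h
  -- (ii)
  let v : ({a // a ∈ A} ⊕ {b // b ∈ B.erase z}) → (Fin m → ℝ) :=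
    Sum.elim (fun a => γ a) (fun b => d b)
  let Φ : ((Fin m → ℝ) →ₗ[ℝ] ℝ) →ₗ[ℝ] (({a // a ∈ A} ⊕ {b // b ∈ B.erase z}) → ℝ) :=
    LinearMap.pi (fun i => LinearMap.applyₗ (v i))
  have hΦ : ∀ ξ i, Φ ξ i = ξ (v i) := fun ξ i => rfl
  have hk1 : Module.finrank ℝ (LinearMap.ker Φ) ≤ 1 := by
    let Ψ : LinearMap.ker Φ →ₗ[ℝ] ℝ := (LinearMap.applyₗ (γ t0)).comp (LinearMap.ker Φ).subtype
    have hinj : Function.Injective Ψ := by
      intro ξ ξ' hξ
      apply Subtype.ext
      have hk := LinearMap.mem_ker.mp ξ.2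
      have hk' := LinearMap.mem_ker.mp ξ'.2
      rw [← sub_eq_zero]
      refine hno t0 ht0 _ ?_ ?_ ?_
      · intro a ha
        have e1 : (ξ : (Fin m → ℝ) →ₗ[ℝ] ℝ) (γ a) = 0 := congrFun hk (Sum.inl ⟨a, ha⟩)
        have e2 : (ξ' : (Fin m → ℝ) →ₗ[ℝ] ℝ) (γ a) = 0 := congrFun hk' (Sum.inl ⟨a, ha⟩)
        rw [LinearMap.sub_apply, e1, e2, sub_zero]
      · intro b hb
        have e1 : (ξ : (Fin m → ℝ) →ₗ[ℝ] ℝ) (d b) = 0 := congrFun hk (Sum.inr ⟨b, hb⟩)
        have e2 : (ξ' : (Fin m → ℝ) →ₗ[ℝ] ℝ) (d b) = 0 := congrFun hk' (Sum.inr ⟨b, hb⟩)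
        rw [LinearMap.sub_apply, e1, e2, sub_zero]
      · have e1 : (ξ : (Fin m → ℝ) →ₗ[ℝ] ℝ) (γ t0) = (ξ' : (Fin m → ℝ) →ₗ[ℝ] ℝ) (γ t0) := hξ
        rw [LinearMap.sub_apply, e1, sub_self]
    have := LinearMap.finrank_le_finrank_of_injective hinj
    simpa using this
  have hsurj : Function.Surjective Φ := by
    rw [← LinearMap.range_eq_top]
    apply Submodule.eq_top_of_finrank_eq
    have h1 := LinearMap.finrank_range_add_finrank_ker Φ
    rw [hfd] at h1
    have h2 := Submodule.finrank_le (LinearMap.range Φ)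
    rw [Module.finrank_fintype_fun_eq_card] at h2 ⊢
    rw [Fintype.card_sum, Fintype.card_coe, Fintype.card_coe] at h2 ⊢
    omega
  choose ξ hξ using fun i => hsurj (Pi.single i 1)
  have hξv : ∀ i j, ξ i (v j) = Pi.single (M := fun _ => ℝ) i 1 j := by
    intro i j
    rw [← hΦ, hξ]
  -- (iii)
  have hgood : (∃ a : {a // a ∈ A}, (a : ℝ) ∉ B ∧ ξ (Sum.inl a) (d z) ≠ 0) ∨
      (∃ b : {b // b ∈ B.erase z}, ξ (Sum.inr b) (d z) ≠ 0) := by
    by_contra hcon
    push Not at hcon
    obtain ⟨hc1, hc2⟩ := hcon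
    have hkill : ∀ κ : (Fin m → ℝ) →ₗ[ℝ] ℝ, (∀ b ∈ B, κ (γ b) = 0) → κ (d z) = 0 := by
      intro κ hκ
      have h1 : (κ - ∑ i, κ (v i) • ξ i) (d z) = 0 := by
        have hv0 : ∀ j, (κ - ∑ i, κ (v i) • ξ i) (v j) = 0 := by
          intro j
          rw [LinearMap.sub_apply, LinearMap.sum_apply]
          simp only [LinearMap.smul_apply, hξv, smul_eq_mul]
          rw [Finset.sum_eq_single j]
          · simp
          · intro i _ hij
            rw [Pi.single_eq_of_ne (Ne.symm hij), mul_zero]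
          · intro h; exact absurd (Finset.mem_univ _) h
        refine hker _ ?_ ?_
        · intro a ha
          exact hv0 (Sum.inl ⟨a, ha⟩)
        · intro b hb
          exact hv0 (Sum.inr ⟨b, hb⟩)
      rw [LinearMap.sub_apply, LinearMap.sum_apply, sub_eq_zero] at h1
      rw [h1]
      refine Finset.sum_eq_zero (fun i _ => ?_)
      rw [LinearMap.smul_apply, smul_eq_mul]
      rcases i with a | b
      · by_cases hab : (a : ℝ) ∈ B
        · have : κ (v (Sum.inl a)) = 0 := hκ a hab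
          rw [this, zero_mul]
        · rw [hc1 a hab, mul_zero]
      · rw [hc2 b, mul_zero]
    by_cases hB1 : B.card = 1
    · -- B = {z}
      have hBz : ∀ b ∈ B, b = z := by
        intro b hb
        exact Finset.card_le_one.mp hB1.le b hb z hz
      have hli := hi z hz
      have hnot : d z ∉ Submodule.span ℝ {γ z} := by
        intro hmem
        obtain ⟨c, hc⟩ := Submodule.mem_span_singleton.mp hmem
        have h2 := Fintype.linearIndependent_iff.mp hli ![c, -1] (by
          simp [Fin.sum_univ_two, hc])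
        have h3 := h2 1
        simp at h3
      obtain ⟨κ, hκ1, hκ2⟩ := Submodule.exists_le_ker_of_notMem hnot
      apply hκ1
      apply hkill
      intro b hb
      rw [hBz b hb]
      exact hκ2 (Submodule.mem_span_singleton_self _)
    · have hBc : 2 ≤ B.card := by
        have : 0 < B.card := Finset.card_pos.mpr ⟨z, hz⟩
        omega
      have hle := Finset.card_le_card hBA
      obtain ⟨A2, hBA2, hA2⟩ := Infinite.exists_superset_card_eq B (m - 1) (by omega)
      let Φ2 : ((Fin m → ℝ) →ₗ[ℝ] ℝ) →ₗ[ℝ] ({a // a ∈ A2} → ℝ) :=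
        LinearMap.pi (fun a => LinearMap.applyₗ (γ a))
      have hk2 : LinearMap.ker Φ2 ≠ ⊥ := by
        apply LinearMap.ker_ne_bot_of_finrank_lt
        rw [hfd, Module.finrank_fintype_fun_eq_card, Fintype.card_coe]
        omega
      obtain ⟨κ, hκ1, hκ2⟩ := Submodule.exists_mem_ne_zero_of_ne_bot hk2
      have hκ3 : ∀ a ∈ A2, κ (γ a) = 0 := by
        intro a ha
        rw [LinearMap.mem_ker] at hκ1
        exact congrFun hκ1 ⟨a, ha⟩
      apply hκ2
      refine ihh {z} ?_ A2 ?_ ?_ κ hκ3 ?_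
      · rw [Finset.ssubset_iff_subset_ne]
        refine ⟨Finset.singleton_subset_iff.mpr hz, ?_⟩
        intro h
        rw [← h, Finset.card_singleton] at hBc
        omega
      · exact Finset.singleton_subset_iff.mpr (hBA2 hz)
      · rw [Finset.card_singleton]; omega
      · intro b hb
        rw [Finset.mem_singleton.mp hb]
        exact hkill κ (fun b hb => hκ3 b (hBA2 hb))
  -- (iv)
  have hγc : Continuous γ := hγ.1
  have hcont : ∀ κ : (Fin m → ℝ) →ₗ[ℝ] ℝ, Continuous fun t => κ (γ t) := fun κ =>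
    (LinearMap.continuous_of_finiteDimensional κ).comp hγc
  have hder : ∀ (κ : (Fin m → ℝ) →ₗ[ℝ] ℝ), ∀ b ∈ B,
      HasDerivAt (fun t => κ (γ t)) (κ (d b)) b := by
    intro κ b hb
    have := (LinearMap.toContinuousLinearMap κ).hasFDerivAt.comp_hasDerivAt b (hd b hb)
    exact this
  have hHne : ∀ w : ℝ, ∀ᶠ t in 𝓝[≠] w, η (γ t) ≠ 0 := fun w =>
    (herm_punct A w).mono (fun t ht => hηt t ht)
  have hHz : HasDerivAt (fun t => η (γ t)) 0 z := by
    have := hder η z hz
    rwa [hB z hz] at this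
  rcases hgood with ⟨a0, ha0, hne0⟩ | ⟨b0, hne0⟩
  · -- a point `a0 ∈ A \ B`
    obtain ⟨κ, hκ⟩ : ∃ κ, κ = ξ (Sum.inl a0) := ⟨_, rfl⟩
    rw [← hκ] at hne0
    have hκa : ∀ a ∈ A, a ≠ a0 → κ (γ a) = 0 := by
      intro a ha haa
      have := hξv (Sum.inl a0) (Sum.inl ⟨a, ha⟩)
      rw [← hκ, Pi.single_eq_of_ne] at this
      · exact this
      · intro h
        exact haa (congrArg Subtype.val (Sum.inl_injective h))
    have hκb : ∀ b ∈ B.erase z, κ (d b) = 0 := by
      intro b hb
      have := hξv (Sum.inl a0) (Sum.inr ⟨b, hb⟩)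
      rw [← hκ, Pi.single_eq_of_ne (by simp)] at this
      exact this
    have hκ0 : κ (γ a0) = 1 := by
      have := hξv (Sum.inl a0) (Sum.inl a0)
      rw [← hκ, Pi.single_eq_same] at this
      exact this
    have hza : z ≠ a0 := fun h => ha0 (h ▸ hz)
    obtain ⟨l1, e1⟩ := herm_tendsto hHz (hA z hzA) (hder κ z hz) (hκa z hzA hza) hne0
    obtain ⟨l2, e2⟩ := herm_tendsto' (hcont η) (hA a0 a0.2) (hcont κ)
      (by rw [hκ0]; exact one_ne_zero : κ (γ a0) ≠ 0)
    obtain ⟨ε, hε, t1, t2, ht12, ht1, ht2, q1, q2⟩ := germ (hcont η) (hcont κ) hza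
      ((hHne z).and e1) ((hHne a0).and e2) l1 l2 A
    have hzero : η - ε • κ = 0 := by
      refine ihh (B.erase z) hBss (insert t1 (insert t2 (A.erase a0))) ?_ ?_ _ ?_ ?_
      · intro b hb
        refine Finset.mem_insert_of_mem (Finset.mem_insert_of_mem ?_)
        refine Finset.mem_erase.mpr ⟨?_, hBA (hBmem b hb)⟩
        rintro rfl
        exact ha0 (hBmem _ hb)
      · have h1 : t2 ∉ A.erase a0 := fun h => ht2 (Finset.mem_of_mem_erase h)
        have h2 : t1 ∉ insert t2 (A.erase a0) := by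
          intro h
          rcases Finset.mem_insert.mp h with h | h
          · exact ht12 h
          · exact ht1 (Finset.mem_of_mem_erase h)
        rw [Finset.card_insert_of_notMem h2, Finset.card_insert_of_notMem h1]
        have h3 := Finset.card_erase_add_one a0.2
        omega
      · intro a ha
        rw [LinearMap.sub_apply, LinearMap.smul_apply, smul_eq_mul]
        rcases Finset.mem_insert.mp ha with rfl | ha
        · rw [q1]; ring
        rcases Finset.mem_insert.mp ha with rfl | ha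
        · rw [q2]; ring
        rw [hA a (Finset.mem_of_mem_erase ha), hκa a (Finset.mem_of_mem_erase ha)
          (Finset.ne_of_mem_erase ha)]
        ring
      · intro b hb
        rw [LinearMap.sub_apply, LinearMap.smul_apply, smul_eq_mul, hB b (hBmem b hb), hκb b hb]
        ring
    have h5 := LinearMap.congr_fun hzero (γ a0)
    rw [LinearMap.sub_apply, LinearMap.smul_apply, smul_eq_mul, hA a0 a0.2, hκ0,
      LinearMap.zero_apply] at h5
    apply hε
    linarith
  · -- a double point `b0`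
    obtain ⟨κ, hκ⟩ : ∃ κ, κ = ξ (Sum.inr b0) := ⟨_, rfl⟩
    rw [← hκ] at hne0
    have hκa : ∀ a ∈ A, κ (γ a) = 0 := by
      intro a ha
      have := hξv (Sum.inr b0) (Sum.inl ⟨a, ha⟩)
      rw [← hκ, Pi.single_eq_of_ne (by simp)] at this
      exact this
    have hκb : ∀ b ∈ B.erase z, b ≠ b0 → κ (d b) = 0 := by
      intro b hb hbb
      have := hξv (Sum.inr b0) (Sum.inr ⟨b, hb⟩)
      rw [← hκ, Pi.single_eq_of_ne] at this
      · exact this
      · intro h
        exact hbb (congrArg Subtype.val (Sum.inr_injective h))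
    have hκ0 : κ (d b0) = 1 := by
      have := hξv (Sum.inr b0) (Sum.inr b0)
      rw [← hκ, Pi.single_eq_same] at this
      exact this
    have hb0B : (b0 : ℝ) ∈ B := hBmem _ b0.2
    have hzb : z ≠ b0 := fun h => (Finset.ne_of_mem_erase b0.2) h.symm
    have hHb : HasDerivAt (fun t => η (γ t)) 0 (b0 : ℝ) := by
      have := hder η b0 hb0B
      rwa [hB b0 hb0B] at this
    obtain ⟨l1, e1⟩ := herm_tendsto hHz (hA z hzA) (hder κ z hz) (hκa z hzA) hne0
    obtain ⟨l2, e2⟩ := herm_tendsto hHb (hA b0 (hBA hb0B)) (hder κ b0 hb0B) (hκa b0 (hBA hb0B))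
      (by rw [hκ0]; exact one_ne_zero)
    obtain ⟨ε, hε, t1, t2, ht12, ht1, ht2, q1, q2⟩ := germ (hcont η) (hcont κ) hzb
      ((hHne z).and e1) ((hHne b0).and e2) l1 l2 A
    have hzero : η - ε • κ = 0 := by
      refine ihh ((B.erase z).erase b0) ?_ (insert t1 (insert t2 A)) ?_ ?_ _ ?_ ?_
      · exact lt_of_le_of_lt (Finset.erase_subset _ _) hBss
      · intro b hb
        exact Finset.mem_insert_of_mem (Finset.mem_insert_of_mem
          (hBA (hBmem b (Finset.mem_of_mem_erase hb))))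
      · have h2 : t1 ∉ insert t2 A := by
          intro h
          rcases Finset.mem_insert.mp h with h | h
          · exact ht12 h
          · exact ht1 h
        rw [Finset.card_insert_of_notMem h2, Finset.card_insert_of_notMem ht2]
        have h3 := Finset.card_erase_add_one b0.2
        omega
      · intro a ha
        rw [LinearMap.sub_apply, LinearMap.smul_apply, smul_eq_mul]
        rcases Finset.mem_insert.mp ha with rfl | ha
        · rw [q1]; ring
        rcases Finset.mem_insert.mp ha with rfl | ha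
        · rw [q2]; ring
        rw [hA a ha, hκa a ha]
        ring
      · intro b hb
        have hb2 := Finset.mem_of_mem_erase hb
        rw [LinearMap.sub_apply, LinearMap.smul_apply, smul_eq_mul, hB b (hBmem b hb2),
          hκb b hb2 (Finset.ne_of_mem_erase hb)]
        ring
    have h5 := LinearMap.congr_fun hzero (d b0)
    rw [LinearMap.sub_apply, LinearMap.smul_apply, smul_eq_mul, hB b0 hb0B, hκ0,
      LinearMap.zero_apply] at h5
    apply hε
    linarith

end TR
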