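import Pool.Agent.TR.Basic

/-!
Doubled crossing numbers.
-/

namespace TR

/-- Doubled crossing number of the values `a, b` of a linear functional at two vectors:
`2` if the signs are opposite or both values vanish, `1` if exactly one vanishes, `0` else. -/
noncomputable def hh (a b : ℝ) : ℕ :=
  if a * b < 0 then 2 else if 0 < a * b then 0 else if a = 0 ∧ b = 0 then 2 else 1

/-- Doubled crossing number of the segment `u v` with the line of direction `e`. -/
noncomputable def cv (e u v : ℝ × ℝ) : ℕ := hh (br u e) (br v e)

/-- `e` is generic for `v`. -/
def Gn (e v : ℝ × ℝ) : Prop := br v e = 0 → v = 0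

end TR
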