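import Pool.Agent.TR.Herm
import Pool.Agent.TR.SignC

/-!
MODULE MINOR (positivity of all minors of the column configuration).

Positions l < L, parameters tau l (non-decreasing), Q = set of positions of type q: for l in Q the
position l + 1 < L is not in Q and has the same parameter; for l not in Q tau l < tau (l+1)
(l + 1 < L).  Columns: G l = C • gamma (tau l) - d (tau l) for l in Q, G l = gamma (tau l) otherwise.
Claim: for all large C all minors (strictly increasing sig : Fin m -> N, sig i < L) satisfy
eps * det (G (sig i)) > 0.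

Fix sig.  R2 = {i : sig i in Q, i + 1 < m, sig (i+1) = sig i + 1}, R1 = {i : sig i in Q} \ R2.
h i = - d (tau (sig i)) for i in R2, gamma (tau (sig i)) otherwise.
(1) det h <> 0: the parameters tau (sig i), i not in R2, are distinct (equal parameters only occur at
    positions l, l+1 with l in Q); A = their set, |A| = m - |R2|; B = {tau (sig i) : i in R2},
    |B| = |R2|, B subset of A (partner i+1).  `herm`: no non-zero functional kills all rows h i
    (`Matrix.exists_mulVec_eq_zero_iff`: det h = 0 gives a non-zero vector v with h *v v = 0, take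
    eta = dot product with v).
(2) eps * det h >= 0: for small s > 0 let ts i = tau (sig i) - s for i in R2, tau (sig i) otherwise:
    strictly increasing, so eps * det (gamma (ts i)) > 0 (`sign_const`).  With
    hs i = s^-1 • (gamma (tau - s) - gamma tau) (i in R2), gamma (tau) otherwise:
    (gamma (ts i)) = T' * hs, T' upper triangular with diagonal s (i in R2) or 1 and entry 1 at
    (i, i+1) for i in R2.  det T' = s^|R2| > 0, so eps det hs > 0, and hs -> h as s -> 0+
    (derivative).
(3) (G (sig i)) = T * hC, hC i = h i except hC i = gamma - C^-1 • d for i in R1; T upper triangular,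
    diagonal C (i in R1) or 1, entry C at (i,i+1) for i in R2 (G = C gamma - d = h_i + C h_{i+1}).
    det T = C^|R1| > 0 and det hC -> det h as C -> infinity, so eps det (G o sig) > 0 for large C.
Finitely many sig (functions Fin m -> Fin L).
-/

open Filter Topology

namespace TR

/-- Row operations with an upper triangular matrix. -/
private lemma det_step {m : ℕ} (a c : Fin m → ℝ) (nx : Fin m → Fin m)
    (hc : ∀ i, c i ≠ 0 → i < nx i) (H : Matrix (Fin m) (Fin m) ℝ) :
    Matrix.det (fun i k => a i * H i k + c i * H (nx i) k : Matrix (Fin m) (Fin m) ℝ) =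
      (∏ i, a i) * Matrix.det H := by
  classical
  set T : Matrix (Fin m) (Fin m) ℝ :=
    fun i j => (if i = j then a i else 0) + (if nx i = j then c i else 0) with hT
  have h1 : (fun i k => a i * H i k + c i * H (nx i) k : Matrix (Fin m) (Fin m) ℝ) = T * H := by
    ext i k
    rw [Matrix.mul_apply]
    simp only [hT, add_mul, Finset.sum_add_distrib, ite_mul, zero_mul, Finset.sum_ite_eq,
      Finset.mem_univ, if_true]
  have h2 : T.BlockTriangular id := by
    intro i j hij
    have hij' : j < i := hij
    simp only [hT]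
    rw [if_neg hij'.ne', zero_add]
    by_cases h : nx i = j
    · rw [if_pos h]
      by_contra hne
      have := hc i hne
      rw [h] at this
      exact absurd this (not_lt.2 hij'.le)
    · rw [if_neg h]
  have h3 : ∀ i, T i i = a i := by
    intro i
    simp only [hT, if_true]
    by_cases h : nx i = i
    · rw [if_pos h]
      have : c i = 0 := by
        by_contra hne
        have := hc i hne
        rw [h] at this
        exact lt_irrefl _ this
      rw [this, add_zero]
    · rw [if_neg h, add_zero]
  rw [h1, Matrix.det_mul, Matrix.det_of_upperTriangular h2]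
  simp only [h3]

section

variable {m L : ℕ} {γ : ℝ → Fin m → ℝ} {τ : ℕ → ℝ} {Q : Finset ℕ} {d : ℝ → Fin m → ℝ}

/-- the parameters are monotone -/
private lemma tau_mono (hQ : ∀ l ∈ Q, l + 1 < L ∧ l + 1 ∉ Q ∧ τ l = τ (l + 1))
    (hτ : ∀ l, l + 1 < L → l ∉ Q → τ l < τ (l + 1)) {l l' : ℕ} (h : l ≤ l') (h' : l' < L) :
    τ l ≤ τ l' := by
  induction l' with
  | zero =>
    have : l = 0 := by omega
    rw [this]
  | succ l' ih =>
    rcases Nat.lt_or_ge l (l' + 1) with h1 | h1
    · have h2 := ih (by omega) (by omega)
      refine h2.trans ?_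
      by_cases hq : l' ∈ Q
      · exact (hQ l' hq).2.2.le
      · exact (hτ l' h' hq).le
    · have : l = l' + 1 := by omega
      rw [this]

private lemma tau_lt (hQ : ∀ l ∈ Q, l + 1 < L ∧ l + 1 ∉ Q ∧ τ l = τ (l + 1))
    (hτ : ∀ l, l + 1 < L → l ∉ Q → τ l < τ (l + 1)) {l l' : ℕ} (h : l < l') (h' : l' < L)
    (hne : ¬ (l ∈ Q ∧ l' = l + 1)) : τ l < τ l' := by
  by_cases hq : l ∈ Q
  · have h1 : l + 2 ≤ l' := by
      rcases Nat.lt_or_ge l' (l + 2) with h2 | h2
      · exact absurd ⟨hq, by omega⟩ hne
      · exact h2
    obtain ⟨h2, h3, h4⟩ := hQ l hq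
    calc τ l = τ (l + 1) := h4
      _ < τ (l + 2) := hτ (l + 1) (by omega) h3
      _ ≤ τ l' := tau_mono hQ hτ h1 h'
  · calc τ l < τ (l + 1) := hτ l (by omega) hq
      _ ≤ τ l' := tau_mono hQ hτ (by omega) h'

/-- One minor. -/
private lemma minor_one (hγ : ConvexCurve m γ) {ε : ℝ}
    (hε : ∀ t : Fin m → ℝ, StrictMono t → 0 < ε * Matrix.det (fun i => γ (t i)))
    (hQ : ∀ l ∈ Q, l + 1 < L ∧ l + 1 ∉ Q ∧ τ l = τ (l + 1))
    (hτ : ∀ l, l + 1 < L → l ∉ Q → τ l < τ (l + 1))
    (hd : ∀ l ∈ Q, HasDerivAt γ (d (τ l)) (τ l))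
    (hi : ∀ l ∈ Q, LinearIndependent ℝ ![γ (τ l), d (τ l)])
    (σ : Fin m → ℕ) (hσ : StrictMono σ) (hσL : ∀ i, σ i < L) :
    ∀ᶠ C : ℝ in atTop,
      0 < ε * Matrix.det (fun i => if σ i ∈ Q then C • γ (τ (σ i)) - d (τ (σ i))
        else γ (τ (σ i))) := by
  classical
  -- the successor of an index
  set nx : Fin m → Fin m := fun i => if h : i.1 + 1 < m then ⟨i.1 + 1, h⟩ else i with hnx
  set R : Fin m → Prop := fun i => σ i ∈ Q ∧ i < nx i ∧ σ (nx i) = σ i + 1 with hR
  set p : Fin m → ℝ := fun i => τ (σ i) with hp
  have hpair : ∀ i j : Fin m, i < j → ¬ (R i ∧ j = nx i) → p i < p j := by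
    intro i j hij hne
    refine tau_lt hQ hτ (hσ hij) (hσL j) ?_
    rintro ⟨h1, h2⟩
    apply hne
    have hlt : i.1 + 1 < m := by
      have h3 : i.1 < j.1 := hij
      have h4 := j.2
      omega
    have hnxi : nx i = ⟨i.1 + 1, hlt⟩ := by simp only [hnx]; rw [dif_pos hlt]
    have h3 : i < nx i := by
      rw [hnxi]
      exact Fin.mk_lt_mk.2 (Nat.lt_succ_self _)
    have h4 : nx i ≤ j := by
      rw [hnxi]
      have h5 : i.1 < j.1 := hij
      exact Fin.mk_le_of_le_val (by omega)
    have h5 : σ i < σ (nx i) := hσ h3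
    have h6 : σ (nx i) ≤ σ j := hσ.monotone h4
    have h7 : σ (nx i) = σ i + 1 := by omega
    refine ⟨⟨h1, h3, h7⟩, ?_⟩
    apply hσ.injective
    rw [h2, h7]
  have hRn : ∀ i, R i → σ (nx i) ∉ Q := by
    intro i hi'
    rw [hi'.2.2]
    exact (hQ _ hi'.1).2.1
  have hRn' : ∀ i, R i → ¬ R (nx i) := fun i hi' h => hRn i hi' h.1
  have hpn : ∀ i, R i → p (nx i) = p i := by
    intro i hi'
    simp only [hp]
    rw [hi'.2.2]
    exact ((hQ _ hi'.1).2.2).symm
  -- the limit matrix
  set h : Matrix (Fin m) (Fin m) ℝ := fun i => if R i then - d (p i) else γ (p i) with hh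
  have hinj1 : Set.InjOn p {i | ¬ R i} := by
    intro i hi' j hj' hij
    by_contra hne
    rcases lt_or_gt_of_ne hne with hlt | hlt
    · exact absurd hij (hpair i j hlt (fun hc => hi' hc.1)).ne
    · exact absurd hij (hpair j i hlt (fun hc => hj' hc.1)).ne'
  have hinj2 : Set.InjOn p {i | R i} := by
    intro i hi' j hj' hij
    by_contra hne
    rcases lt_or_gt_of_ne hne with hlt | hlt
    · refine absurd hij (hpair i j hlt (fun hc => ?_)).ne
      apply hRn' i hc.1
      rw [← hc.2]
      exact hj'
    · refine absurd hij (hpair j i hlt (fun hc => ?_)).ne'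
      apply hRn' j hc.1
      rw [← hc.2]
      exact hi'
  have hdet0 : h.det ≠ 0 := by
    intro h0
    obtain ⟨v, hv, hv0⟩ := Matrix.exists_mulVec_eq_zero_iff.2 h0
    set η : (Fin m → ℝ) →ₗ[ℝ] ℝ :=
      { toFun := fun x => x ⬝ᵥ v
        map_add' := fun x y => add_dotProduct x y v
        map_smul' := fun r x => by simp [smul_dotProduct] } with hη
    have hηh : ∀ i, η (h i) = 0 := by
      intro i
      have := congrFun hv0 i
      exact this
    set A : Finset ℝ := (Finset.univ.filter (fun i => ¬ R i)).image p with hA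
    set B : Finset ℝ := (Finset.univ.filter R).image p with hB
    have hBA : B ⊆ A := by
      intro x hx
      obtain ⟨i, hi', rfl⟩ := Finset.mem_image.1 hx
      rw [Finset.mem_filter] at hi'
      refine Finset.mem_image.2 ⟨nx i, Finset.mem_filter.2 ⟨Finset.mem_univ _, hRn' i hi'.2⟩,
        hpn i hi'.2⟩
    have hcA : A.card = (Finset.univ.filter (fun i => ¬ R i)).card := by
      apply Finset.card_image_of_injOn
      intro i hi' j hj' hij
      rw [Finset.mem_coe, Finset.mem_filter] at hi' hj'
      exact hinj1 hi'.2 hj'.2 hij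
    have hcB : B.card = (Finset.univ.filter R).card := by
      apply Finset.card_image_of_injOn
      intro i hi' j hj' hij
      rw [Finset.mem_coe, Finset.mem_filter] at hi' hj'
      exact hinj2 hi'.2 hj'.2 hij
    have hcard : A.card + B.card = m := by
      rw [hcA, hcB, add_comm, Finset.card_filter_add_card_filter_not, Finset.card_univ,
        Fintype.card_fin]
    have hη0 : η = 0 := by
      refine herm hγ A B hBA hcard d ?_ ?_ η ?_ ?_
      · intro b hb
        obtain ⟨i, hi', rfl⟩ := Finset.mem_image.1 hb
        rw [Finset.mem_filter] at hi'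
        exact hd _ hi'.2.1
      · intro b hb
        obtain ⟨i, hi', rfl⟩ := Finset.mem_image.1 hb
        rw [Finset.mem_filter] at hi'
        exact hi _ hi'.2.1
      · intro x hx
        obtain ⟨i, hi', rfl⟩ := Finset.mem_image.1 hx
        rw [Finset.mem_filter] at hi'
        have := hηh i
        simp only [hh] at this
        rwa [if_neg hi'.2] at this
      · intro x hx
        obtain ⟨i, hi', rfl⟩ := Finset.mem_image.1 hx
        rw [Finset.mem_filter] at hi'
        have := hηh i
        simp only [hh] at this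
        rw [if_pos hi'.2, map_neg, neg_eq_zero] at this
        exact this
    apply hv
    ext k
    have h1 : η (Pi.single k 1) = 0 := by rw [hη0]; rfl
    have h2 : η (Pi.single k 1) = v k := by
      show (Pi.single k 1 : Fin m → ℝ) ⬝ᵥ v = v k
      rw [single_one_dotProduct]
    rw [← h2, h1]
    rfl
  have hdetc : Continuous fun M : Matrix (Fin m) (Fin m) ℝ => M.det :=
    Continuous.matrix_det continuous_id
  have hε0 : ε ≠ 0 := by
    have h1 := hε (fun i => (i.1 : ℝ)) (by
      intro i j hij
      show (i.1 : ℝ) < (j.1 : ℝ)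
      have : i.1 < j.1 := hij
      exact_mod_cast this)
    rintro rfl
    rw [zero_mul] at h1
    exact lt_irrefl _ h1
  -- nonnegativity
  have hpos : 0 < ε * h.det := by
    have hne : ε * h.det ≠ 0 := mul_ne_zero hε0 hdet0
    refine lt_of_le_of_ne ?_ hne.symm
    set hs : ℝ → Matrix (Fin m) (Fin m) ℝ := fun s i =>
      if R i then s⁻¹ • (γ (p i - s) - γ (p i)) else γ (p i) with hhs
    have hlim : Tendsto hs (𝓝[>] 0) (𝓝 h) := by
      refine tendsto_pi_nhds.2 (fun i => ?_)
      by_cases hRi : R i
      · have e1 : (fun s => hs s i) = fun s => s⁻¹ • (γ (p i - s) - γ (p i)) := by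
          funext s
          simp only [hhs]
          rw [if_pos hRi]
        have e2 : h i = - d (p i) := by
          simp only [hh]
          rw [if_pos hRi]
        rw [e1, e2]
        have hder : HasDerivAt (fun s => γ (p i - s)) (-(d (p i))) 0 := by
          apply HasDerivAt.comp_const_sub
          rw [sub_zero]
          exact hd _ hRi.1
        rw [hasDerivAt_iff_tendsto_slope_zero] at hder
        have h1 := hder.mono_left (nhdsWithin_mono (0 : ℝ)
          (show Set.Ioi (0 : ℝ) ⊆ {0}ᶜ from fun x (hx : 0 < x) => ne_of_gt hx))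
        simpa using h1
      · have e1 : (fun s => hs s i) = fun _ => γ (p i) := by
          funext s
          simp only [hhs]
          rw [if_neg hRi]
        have e2 : h i = γ (p i) := by
          simp only [hh]
          rw [if_neg hRi]
        rw [e1, e2]
        exact tendsto_const_nhds
    have hlim2 : Tendsto (fun s => ε * (hs s).det) (𝓝[>] 0) (𝓝 (ε * h.det)) :=
      ((hdetc.tendsto h).comp hlim).const_mul ε
    refine ge_of_tendsto hlim2 ?_
    -- small s
    have hsmall : ∀ᶠ s : ℝ in 𝓝[>] 0, ∀ i j : Fin m, p i < p j → s < p j - p i := by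
      rw [eventually_all]
      intro i
      rw [eventually_all]
      intro j
      by_cases hij : p i < p j
      · have : ∀ᶠ s : ℝ in 𝓝[>] 0, s < p j - p i :=
          (eventually_lt_nhds (sub_pos.2 hij)).filter_mono nhdsWithin_le_nhds
        filter_upwards [this] with s hs' _ using hs'
      · exact Eventually.of_forall fun s h' => absurd h' hij
    filter_upwards [hsmall, self_mem_nhdsWithin] with s hs1 hs2
    have hs0 : 0 < s := hs2
    set ts : Fin m → ℝ := fun i => if R i then p i - s else p i with hts
    have htsm : StrictMono ts := by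
      intro i j hij
      have hle1 : ts i ≤ p i := by
        simp only [hts]
        split_ifs
        · linarith
        · exact le_rfl
      have hle2 : p j - s ≤ ts j := by
        simp only [hts]
        split_ifs
        · exact le_rfl
        · linarith
      by_cases hc : R i ∧ j = nx i
      · obtain ⟨hc1, rfl⟩ := hc
        have e1 : ts i = p i - s := by simp only [hts]; rw [if_pos hc1]
        have e2 : ts (nx i) = p (nx i) := by simp only [hts]; rw [if_neg (hRn' i hc1)]
        rw [e1, e2, hpn i hc1]
        linarith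
      · have h1 := hs1 i j (hpair i j hij hc)
        linarith
    have h1 := hε ts htsm
    have h2 : Matrix.det (fun i => γ (ts i)) =
        (∏ i, if R i then s else 1) * (hs s).det := by
      rw [← det_step (fun i => if R i then s else 1) (fun i => if R i then 1 else 0) nx
        (fun i hi' => by
          by_cases hRi : R i
          · exact hRi.2.1
          · simp [hRi] at hi') (hs s)]
      congr 1
      funext i k
      by_cases hRi : R i
      · have e1 : ts i = p i - s := by simp only [hts]; rw [if_pos hRi]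
        have e2 : hs s i = s⁻¹ • (γ (p i - s) - γ (p i)) := by
          simp only [hhs]; rw [if_pos hRi]
        have e3 : hs s (nx i) = γ (p (nx i)) := by
          simp only [hhs]; rw [if_neg (hRn' i hRi)]
        rw [if_pos hRi, if_pos hRi, e1, e2, e3, hpn i hRi]
        simp only [Pi.smul_apply, Pi.sub_apply, smul_eq_mul]
        rw [← mul_assoc, mul_inv_cancel₀ hs0.ne']
        ring
      · have e1 : ts i = p i := by simp only [hts]; rw [if_neg hRi]
        have e2 : hs s i = γ (p i) := by simp only [hhs]; rw [if_neg hRi]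
        rw [if_neg hRi, if_neg hRi, e1, e2]
        ring
    have h3 : 0 < ∏ i, (if R i then s else 1) :=
      Finset.prod_pos fun i _ => by split_ifs <;> [exact hs0; exact one_pos]
    rw [h2] at h1
    have h4 : 0 < (∏ i, (if R i then s else 1)) * (ε * (hs s).det) := by
      have : ε * ((∏ i, if R i then s else 1) * (hs s).det) =
        (∏ i, (if R i then s else 1)) * (ε * (hs s).det) := by ring
      rwa [this] at h1
    exact ((mul_pos_iff_of_pos_left h3).1 h4).le
  -- large C
  set hC : ℝ → Matrix (Fin m) (Fin m) ℝ := fun C i =>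
    if R i then - d (p i) else if σ i ∈ Q then γ (p i) - C⁻¹ • d (p i) else γ (p i) with hhC
  have hlim : Tendsto hC atTop (𝓝 h) := by
    refine tendsto_pi_nhds.2 (fun i => ?_)
    by_cases hRi : R i
    · have e1 : (fun C => hC C i) = fun _ => - d (p i) := by
        funext C
        simp only [hhC]
        rw [if_pos hRi]
      have e2 : h i = - d (p i) := by
        simp only [hh]
        rw [if_pos hRi]
      rw [e1, e2]
      exact tendsto_const_nhds
    · have e2 : h i = γ (p i) := by
        simp only [hh]
        rw [if_neg hRi]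
      by_cases hq : σ i ∈ Q
      · have e1 : (fun C => hC C i) = fun C : ℝ => γ (p i) - C⁻¹ • d (p i) := by
          funext C
          simp only [hhC]
          rw [if_neg hRi, if_pos hq]
        rw [e1, e2]
        have h1 : Tendsto (fun C : ℝ => C⁻¹ • d (p i)) atTop (𝓝 ((0 : ℝ) • d (p i))) :=
          tendsto_inv_atTop_zero.smul_const _
        have h2 := (tendsto_const_nhds (x := γ (p i))).sub h1
        simpa using h2
      · have e1 : (fun C => hC C i) = fun _ => γ (p i) := by
          funext C
          simp only [hhC]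
          rw [if_neg hRi, if_neg hq]
        rw [e1, e2]
        exact tendsto_const_nhds
  have hlim2 : Tendsto (fun C => ε * (hC C).det) atTop (𝓝 (ε * h.det)) :=
    ((hdetc.tendsto h).comp hlim).const_mul ε
  filter_upwards [hlim2.eventually (lt_mem_nhds hpos), eventually_gt_atTop 0] with C hC1 hC0
  have h2 : Matrix.det (fun i => if σ i ∈ Q then C • γ (τ (σ i)) - d (τ (σ i))
        else γ (τ (σ i))) =
      (∏ i, if (σ i ∈ Q ∧ ¬ R i) then C else 1) * (hC C).det := by
    rw [← det_step (fun i => if (σ i ∈ Q ∧ ¬ R i) then C else 1) (fun i => if R i then C else 0) nx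
      (fun i hi' => by
        by_cases hRi : R i
        · exact hRi.2.1
        · simp [hRi] at hi') (hC C)]
    congr 1
    funext i k
    by_cases hRi : R i
    · have e2 : hC C i = - d (p i) := by simp only [hhC]; rw [if_pos hRi]
      have e3 : hC C (nx i) = γ (p (nx i)) := by
        simp only [hhC]; rw [if_neg (hRn' i hRi), if_neg (hRn i hRi)]
      rw [if_pos hRi.1, if_neg (fun hc => hc.2 hRi), if_pos hRi, e2, e3, hpn i hRi]
      simp only [Pi.smul_apply, Pi.sub_apply, smul_eq_mul, Pi.neg_apply]
      ring
    · by_cases hq : σ i ∈ Q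
      · have e2 : hC C i = γ (p i) - C⁻¹ • d (p i) := by
          simp only [hhC]; rw [if_neg hRi, if_pos hq]
        rw [if_pos hq, if_pos ⟨hq, hRi⟩, if_neg hRi, e2]
        simp only [Pi.smul_apply, Pi.sub_apply, smul_eq_mul, zero_mul, add_zero, mul_sub]
        rw [← mul_assoc, mul_inv_cancel₀ hC0.ne', one_mul]
      · have e2 : hC C i = γ (p i) := by
          simp only [hhC]; rw [if_neg hRi, if_neg hq]
        rw [if_neg hq, if_neg (fun hc => hq hc.1), if_neg hRi, e2]
        ring
  have h3 : 0 < ∏ i, (if (σ i ∈ Q ∧ ¬ R i) then C else 1) :=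
    Finset.prod_pos fun i _ => by split_ifs <;> [exact hC0; exact one_pos]
  rw [h2]
  have h4 := mul_pos h3 hC1
  have : ε * ((∏ i, if (σ i ∈ Q ∧ ¬ R i) then C else 1) * (hC C).det) =
      (∏ i, if (σ i ∈ Q ∧ ¬ R i) then C else 1) * (ε * (hC C).det) := by ring
  rw [this]
  exact h4

end

theorem minor_pos {m L : ℕ} {γ : ℝ → Fin m → ℝ} (hγ : ConvexCurve m γ) {ε : ℝ}
    (hε : ∀ t : Fin m → ℝ, StrictMono t → 0 < ε * Matrix.det (fun i => γ (t i)))
    (τ : ℕ → ℝ) (Q : Finset ℕ) (d : ℝ → Fin m → ℝ)
    (hQ : ∀ l ∈ Q, l + 1 < L ∧ l + 1 ∉ Q ∧ τ l = τ (l + 1))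
    (hτ : ∀ l, l + 1 < L → l ∉ Q → τ l < τ (l + 1))
    (hd : ∀ l ∈ Q, HasDerivAt γ (d (τ l)) (τ l))
    (hi : ∀ l ∈ Q, LinearIndependent ℝ ![γ (τ l), d (τ l)]) :
    ∀ᶠ C : ℝ in atTop, ∀ σ : Fin m → ℕ, StrictMono σ → (∀ i, σ i < L) →
      0 < ε * Matrix.det (fun i => if σ i ∈ Q then C • γ (τ (σ i)) - d (τ (σ i))
        else γ (τ (σ i))) := by
  classical
  have hfin : ∀ᶠ C : ℝ in atTop, ∀ σ ∈ Fintype.piFinset (fun _ : Fin m => Finset.range L),
      StrictMono σ →
      0 < ε * Matrix.det (fun i => if σ i ∈ Q then C • γ (τ (σ i)) - d (τ (σ i))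
        else γ (τ (σ i))) := by
    rw [eventually_all_finset]
    intro σ hσ
    by_cases hm : StrictMono σ
    · have := minor_one hγ hε hQ hτ hd hi σ hm
        (fun i => Finset.mem_range.1 (Fintype.mem_piFinset.1 hσ i))
      filter_upwards [this] with C hC _ using hC
    · exact Eventually.of_forall fun C h' => absurd h' hm
  filter_upwards [hfin] with C hC σ hσ hσL
  exact hC σ (Fintype.mem_piFinset.2 fun i => Finset.mem_range.2 (hσL i)) hσ

end TR
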