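import Pool.Agent.TR.NearDefs

/-!
MODULE NEXP (expansion of the last mark).

N = Nn m q >= 1, P = nr m q s p, f k = arr m P a (3N-2) k = arr m p a (3N-2) k (arr_congr).
P (3N-1) k = s^(m-1-k), P (3N) k = 1.
arr (3N-1) k = sum_{i >= k} s^(m-1-i) f_i =: h_k, arr (3N) 0 = sum_{k < m} h_k
 = sum_i (i+1) s^(m-1-i) f_i, and by `D_bot` (p (3N) 0 = 1) D (3N) 0 = br h_0 (arr (3N) 0)
 = sum_{i, i'} (i'+1) s^(2m-2-i-i') br f_i f_i' = sum_{i < i'} (i'-i) s^(2m-2-i-i') br f_i f_i'.
For i >= q the bracket vanishes (both vectors vertical, `nf_top`).  For i < q, i' < m: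
2m-2-i-i' = (m-q) + (m+q-2-i-i') (natural subtraction fine).
nww_zero: at s = 0 only the term (q-1, m-1) survives (0^0 = 1), exponent m+q-2-i-i' = 0 iff
i = q-1, i' = m-1: WW = (m-q) br (f (q-1)) (f (m-1)) = (m-q) (f (q-1)).1 (f (m-1)).2.
(f (q-1)).1 and (f (m-1)).2 are positive multiples (products of p's) of (b (q-1)).1 and
(b (m-1)).2 (`nf_ne_succ`, `arr_last`).
-/

namespace TR

theorem nexp_br (m : ℕ) (c d : ℕ → ℝ) (a : ℕ → ℝ × ℝ) :
    br (∑ i ∈ Finset.range m, c i • a i) (∑ i ∈ Finset.range m, d i • a i) =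
      ∑ x ∈ (Finset.range m ×ˢ Finset.range m).filter (fun x => x.1 < x.2),
      (c x.1 * d x.2 - c x.2 * d x.1) * br (a x.1) (a x.2) := by
  classical
  have key : br (∑ i ∈ Finset.range m, c i • a i)
      (∑ i ∈ Finset.range m, d i • a i) =
      ∑ x ∈ Finset.range m ×ˢ Finset.range m, (c x.1 * d x.2) * br (a x.1) (a x.2) := by
    have h1 : ∀ (s : Finset ℕ) (v : ℝ × ℝ), br (∑ i ∈ s, c i • a i) v
        = ∑ i ∈ s, c i * br (a i) v := by
      intro s v
      induction s using Finset.induction_on with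
      | empty => simp [br_zero_left]
      | insert i s hi ih =>
        rw [Finset.sum_insert hi, Finset.sum_insert hi, br_add_left, ih, br_mul_left]
    have h2 : ∀ (s : Finset ℕ) (v : ℝ × ℝ), br v (∑ i ∈ s, d i • a i)
        = ∑ i ∈ s, d i * br v (a i) := by
      intro s v
      induction s using Finset.induction_on with
      | empty => simp [br_zero_right]
      | insert i s hi ih =>
        rw [Finset.sum_insert hi, Finset.sum_insert hi, br_add_right, ih, br_mul_right]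
    rw [h1, Finset.sum_product]
    refine Finset.sum_congr rfl fun i _ => ?_
    rw [h2, Finset.mul_sum]
    refine Finset.sum_congr rfl fun l _ => ?_
    rw [mul_assoc]
  rw [key]
  set s := Finset.range m ×ˢ Finset.range m with hs
  have hsplit : s = (s.filter (fun x => x.1 < x.2) ∪ s.filter (fun x => x.2 < x.1)) ∪
      s.filter (fun x => x.1 = x.2) := by
    ext x; simp only [Finset.mem_union, Finset.mem_filter]
    constructor
    · intro hx
      rcases lt_trichotomy x.1 x.2 with h | h | h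
      · exact Or.inl (Or.inl ⟨hx, h⟩)
      · exact Or.inr ⟨hx, h⟩
      · exact Or.inl (Or.inr ⟨hx, h⟩)
    · rintro ((h | h) | h) <;> exact h.1
  have hd1 : Disjoint (s.filter (fun x => x.1 < x.2) ∪ s.filter (fun x => x.2 < x.1))
      (s.filter (fun x => x.1 = x.2)) := by
    rw [Finset.disjoint_left]
    intro x hx hx'
    simp only [Finset.mem_union, Finset.mem_filter] at hx hx'
    rcases hx with h | h <;> omega
  have hd2 : Disjoint (s.filter (fun x => x.1 < x.2)) (s.filter (fun x => x.2 < x.1)) := by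
    rw [Finset.disjoint_left]
    intro x hx hx'
    simp only [Finset.mem_filter] at hx hx'
    omega
  conv_lhs => rw [hsplit, Finset.sum_union hd1, Finset.sum_union hd2]
  have h0 : ∑ x ∈ s.filter (fun x => x.1 = x.2),
      (c x.1 * d x.2) * br (a x.1) (a x.2) = 0 := by
    refine Finset.sum_eq_zero fun x hx => ?_
    rw [Finset.mem_filter] at hx
    rw [hx.2, br_self, mul_zero]
  rw [h0, add_zero]
  have h1 : ∑ x ∈ s.filter (fun x => x.2 < x.1),
      (c x.1 * d x.2) * br (a x.1) (a x.2) =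
      ∑ x ∈ s.filter (fun x => x.1 < x.2),
      (-(c x.2 * d x.1)) * br (a x.1) (a x.2) := by
    refine Finset.sum_nbij' (fun x => (x.2, x.1)) (fun x => (x.2, x.1)) ?_ ?_ ?_ ?_ ?_
    · intro x hx
      simp only [hs, Finset.mem_filter, Finset.mem_product] at hx ⊢
      exact ⟨⟨hx.1.2, hx.1.1⟩, hx.2⟩
    · intro x hx
      simp only [hs, Finset.mem_filter, Finset.mem_product] at hx ⊢
      exact ⟨⟨hx.1.2, hx.1.1⟩, hx.2⟩
    · intro x _; rfl
    · intro x _; rfl
    · intro x _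
      simp only
      rw [br_comm (a x.2) (a x.1)]; ring
  rw [h1, ← Finset.sum_add_distrib]
  refine Finset.sum_congr rfl fun x _ => ?_
  ring

theorem nexp {m q : ℕ} (hq : 1 ≤ q) (hqm : q < m) (hN : 1 ≤ Nn m q) (s : ℝ)
    (p : ℕ → ℕ → ℝ) {a : ℕ → ℝ × ℝ} (ht : ∀ k, q ≤ k → k < m → (a k).1 = 0) :
    D m (nr m q s p) a (3 * Nn m q) 0
      = s ^ (m - q) * WW m q s (fun k => arr m p a (3 * Nn m q - 2) k) := by
  classical
  set N := Nn m q with hNdef
  set P := nr m q s p with hP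
  set f : ℕ → ℝ × ℝ := fun k => arr m p a (3 * N - 2) k with hf
  have h0 : ∀ k, arr m P a (3 * N - 2) k = f k := by
    intro k
    refine arr_congr (M := 3 * N - 2) ?_ (fun _ _ => rfl) _ le_rfl k
    intro j hj k _
    simp only [hP, nr, ← hNdef]
    rw [if_pos hj]
  have h1 : ∀ k, arr m P a (3 * N - 1) k = ∑ i ∈ Finset.Ico k m, s ^ (m - 1 - i) • f i := by
    intro k
    rw [show 3 * N - 1 = (3 * N - 2) + 1 by omega, arr_succ']
    refine Finset.sum_congr rfl fun i _ => ?_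
    rw [h0 i]
    congr 1
    simp only [hP, nr, ← hNdef]
    rw [if_neg (by omega), if_pos (by omega)]
  have h2 : arr m P a (3 * N) 0 = ∑ i ∈ Finset.range m, (((i : ℝ) + 1) * s ^ (m - 1 - i)) • f i := by
    rw [show 3 * N = (3 * N - 1) + 1 by omega, arr_succ']
    have e1 : ∀ i ∈ Finset.Ico 0 m, P (3 * N - 1 + 1) i • arr m P a (3 * N - 1) i
        = ∑ l ∈ Finset.Ico i m, s ^ (m - 1 - l) • f l := by
      intro i _
      have : P (3 * N - 1 + 1) i = 1 := by
        simp only [hP, nr, ← hNdef]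
        rw [if_neg (by omega), if_neg (by omega)]
      rw [this, one_smul, h1]
    rw [Finset.sum_congr rfl e1, Finset.sum_sigma']
    rw [← Finset.range_eq_Ico]
    have e2 : ∀ i ∈ Finset.range m, (((i : ℝ) + 1) * s ^ (m - 1 - i)) • f i
        = ∑ _k ∈ Finset.range (i + 1), s ^ (m - 1 - i) • f i := by
      intro i _
      rw [Finset.sum_const, Finset.card_range, ← Nat.cast_smul_eq_nsmul ℝ, smul_smul]
      push_cast
      rfl
    rw [Finset.sum_congr rfl e2, Finset.sum_sigma']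
    refine Finset.sum_nbij' (fun x => ⟨x.2, x.1⟩) (fun x => ⟨x.2, x.1⟩) ?_ ?_ ?_ ?_ ?_
    · intro x hx
      simp only [Finset.mem_sigma, Finset.mem_range, Finset.mem_Ico] at hx ⊢
      omega
    · intro x hx
      simp only [Finset.mem_sigma, Finset.mem_range, Finset.mem_Ico] at hx ⊢
      omega
    · intro x _; rfl
    · intro x _; rfl
    · intro x _; rfl
  have h3 : arr m P a (3 * N - 1) 0 = ∑ i ∈ Finset.range m, s ^ (m - 1 - i) • f i := by
    rw [h1, Finset.range_eq_Ico]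
  have h4 : D m P a (3 * N) 0 = br (arr m P a (3 * N - 1) 0) (arr m P a (3 * N) 0) := by
    have hb := D_bot (m := m) (by omega) P a (3 * N - 1)
    rw [show 3 * N - 1 + 1 = 3 * N by omega] at hb
    rw [hb]
    have : P (3 * N) 0 = 1 := by
      simp only [hP, nr, ← hNdef]
      rw [if_neg (by omega), if_neg (by omega)]
    rw [this, one_smul]
  rw [h4, h3, h2, nexp_br m (fun i => s ^ (m - 1 - i)) (fun i => ((i : ℝ) + 1) * s ^ (m - 1 - i)) f]
  unfold WW
  rw [Finset.mul_sum]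
  symm
  refine Finset.sum_subset_zero_on_sdiff ?_ ?_ ?_
  · intro x hx
    simp only [prs, Finset.mem_filter, Finset.mem_product, Finset.mem_range] at hx ⊢
    exact ⟨hx.1, hx.2.1⟩
  · intro x hx
    simp only [prs, Finset.mem_sdiff, Finset.mem_filter, Finset.mem_product, Finset.mem_range] at hx
    have hx1 : q ≤ x.1 := by
      by_contra hc
      exact hx.2 ⟨hx.1.1, hx.1.2, by omega⟩
    have z1 : (f x.1).1 = 0 := nf_top ht _ _ hx1
    have z2 : (f x.2).1 = 0 := nf_top ht _ _ (by omega)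
    simp only [br, z1, z2]
    ring
  · intro x hx
    simp only [prs, Finset.mem_filter, Finset.mem_product, Finset.mem_range] at hx
    obtain ⟨⟨hx1, hx2⟩, hx3, hx4⟩ := hx
    have hpow : s ^ (m - 1 - x.1) * s ^ (m - 1 - x.2) = s ^ (m - q) * s ^ (m + q - 2 - x.1 - x.2) := by
      rw [← pow_add, ← pow_add]
      congr 1
      omega
    calc s ^ (m - q) * (s ^ (m + q - 2 - x.1 - x.2) * ((x.2 : ℝ) - x.1) * br (f x.1) (f x.2))
        = (s ^ (m - q) * s ^ (m + q - 2 - x.1 - x.2)) * (((x.2 : ℝ) - x.1) * br (f x.1) (f x.2)) := by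
          ring
      _ = _ := by
          rw [← hpow]; ring

theorem nexp_fst {m q : ℕ} (hq : 1 ≤ q) (hqm : q < m) {p : ℕ → ℕ → ℝ} (hp : Pos p) (n : ℕ) :
    ∃ c : ℝ, 0 < c ∧ ∀ b : ℕ → ℝ × ℝ, (∀ k, q ≤ k → k < m → (b k).1 = 0) →
      (arr m p b n (q - 1)).1 = c * (b (q - 1)).1 := by
  induction n with
  | zero =>
    refine ⟨1, one_pos, fun b _ => ?_⟩
    rw [arr_zero p b (by omega : q - 1 < m), one_mul]
  | succ n ih =>
    obtain ⟨c, hc, h⟩ := ih
    refine ⟨p (n + 1) (q - 1) * c, mul_pos (hp _ _) hc, fun b hb => ?_⟩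
    rw [nf_ne_succ hq hqm hb, h b hb]; ring

theorem nexp_snd {m : ℕ} (hm : 0 < m) {p : ℕ → ℕ → ℝ} (hp : Pos p) (n : ℕ) :
    ∃ c : ℝ, 0 < c ∧ ∀ b : ℕ → ℝ × ℝ,
      (arr m p b n (m - 1)).2 = c * (b (m - 1)).2 := by
  induction n with
  | zero =>
    refine ⟨1, one_pos, fun b => ?_⟩
    rw [arr_zero p b (by omega : m - 1 < m), one_mul]
  | succ n ih =>
    obtain ⟨c, hc, h⟩ := ih
    refine ⟨p (n + 1) (m - 1) * c, mul_pos (hp _ _) hc, fun b => ?_⟩
    rw [arr_last hm, Prod.smul_snd, smul_eq_mul, h b]; ring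

theorem nww_zero {m q : ℕ} (hq : 1 ≤ q) (hqm : q < m) {p : ℕ → ℕ → ℝ} (hp : Pos p) (n : ℕ) :
    ∃ c : ℝ, 0 < c ∧ ∀ b : ℕ → ℝ × ℝ, (∀ k, q ≤ k → k < m → (b k).1 = 0) →
      WW m q 0 (fun k => arr m p b n k) = c * ((b (q - 1)).1 * (b (m - 1)).2) := by
  obtain ⟨c1, hc1, h1⟩ := nexp_fst hq hqm hp n
  obtain ⟨c2, hc2, h2⟩ := nexp_snd (by omega : 0 < m) hp n
  have hmq : (0 : ℝ) < (m : ℝ) - q := by
    have : (q : ℝ) < m := by exact_mod_cast hqm
    linarith
  refine ⟨((m : ℝ) - q) * (c1 * c2), by positivity, fun b hb => ?_⟩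
  unfold WW
  rw [Finset.sum_eq_single_of_mem (q - 1, m - 1)]
  · have e0 : m + q - 2 - (q - 1) - (m - 1) = 0 := by omega
    have e1 : (((m - 1 : ℕ) : ℝ) - ((q - 1 : ℕ) : ℝ)) = (m : ℝ) - q := by
      rw [Nat.cast_sub (by omega : 1 ≤ m), Nat.cast_sub hq]; push_cast; ring
    have z2 : (arr m p b n (m - 1)).1 = 0 := nf_top hb _ _ (by omega)
    simp only [e0, pow_zero, e1, br, z2, h1 b hb, h2 b]
    ring
  · simp only [prs, Finset.mem_filter, Finset.mem_product, Finset.mem_range]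
    omega
  · intro x hx hne
    simp only [prs, Finset.mem_filter, Finset.mem_product, Finset.mem_range] at hx
    have hpos : m + q - 2 - x.1 - x.2 ≠ 0 := by
      intro h0
      apply hne
      ext <;> simp only <;> omega
    rw [zero_pow hpos]; ring

end TR
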