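import Pool.Agent.TR.NExp
import Pool.Agent.TR.Diff
import Pool.Agent.TR.IFT
import Pool.Agent.TR.Chart

/-!
MODULE NEX (solutions near the limit points, by the implicit function theorem).

N = Nn m q, N' = N - 1 = Nn m (q-1) (first kind, q >= 2) resp. Nn (m-1) q (second kind, q < m-1).
E = E' = (Fin N' -> R) x R, F (s, x) = ((D m p (aT x) (3i+3) 0)_{i < N'}, WW m q s (arr m p (aT x) (3N-2))),
aT = aT0 or aT1; C^1 by Diff (WW is a polynomial in s and the coordinates; all coordinates of aT x k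
are affine in x).  F (0, (u0, 0)) = 0: for aT0, aT0 (u0,0) = ch m (q-1) u0 up to (q-1)-st column
(its first coordinate is 0 there already, since q - 1 is a top index for (m, q-1)), and WW at s = 0
is c * z * 1 (nww_zero: (aT0 x (m-1)).2 = 1 because m - 1 > q - 1) = 0.
For aT1: aT1 (u0,0) has last column 0, arr m p (aT1 (u0,0)) = arr (m-1) p (ch (m-1) q u0)
(`arr_trunc`, with m = (m-1)+1; columns k < m-1 agree), WW at s = 0 is c * 1 * zeta (nww_zero:
(aT1 x (q-1)).1 = 1).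
hnd: let (t, y) with F'(0; t, y) = 0.  The derivative of s -> WW m q 0 (..(x + s (t,y))) at 0 is
c * y (it is c z + ..., exactly linear), so y = 0; then the first components give
dD m p (ch m (q-1) u0) (ch0 m (q-1) t) (3i+3) 0 = 0 (i < N'), so t = 0 by Nd; for the second kind
the same with m - 1.
(fderiv along a line = derivative of the restriction; D_hasDerivAt; aT (x + s (t,0)) k =
 aT x k + s • (ch0 .. t k).)
-/

open Filter Topology

namespace TR

theorem nx_WW_contDiff {E : Type*} [NormedAddCommGroup E] [NormedSpace ℝ E] (m q : ℕ)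
    (g : E → ℝ) (hg : ContDiff ℝ 1 g) (f : E → ℕ → ℝ × ℝ)
    (hf : ∀ k, ContDiff ℝ 1 (fun x => f x k)) :
    ContDiff ℝ 1 (fun x => WW m q (g x) (f x)) := by
  unfold WW
  refine ContDiff.sum fun y _ => ?_
  refine ((hg.pow _).mul contDiff_const).mul ?_
  unfold br
  have h1 : ∀ k, ContDiff ℝ 1 (fun x => (f x k).1) := fun k => contDiff_fst.comp (hf k)
  have h2 : ∀ k, ContDiff ℝ 1 (fun x => (f x k).2) := fun k => contDiff_snd.comp (hf k)
  exact ((h1 _).mul (h2 _)).sub ((h2 _).mul (h1 _))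

theorem nx_core {n' : ℕ} {m q : ℕ} (hq : 1 ≤ q) (hqm : q < m) {p : ℕ → ℕ → ℝ} (hp : Pos p)
    (n : ℕ) (aT bT : (Fin n' → ℝ) × ℝ → ℕ → ℝ × ℝ)
    (hline : ∀ x y (s : ℝ) k, aT (x + s • y) k = aT x k + s • bT y k)
    (hcd : ∀ k < m, ContDiff ℝ 1 (fun x => aT x k))
    (htop : ∀ x k, q ≤ k → k < m → (aT x k).1 = 0)
    (x₀ : (Fin n' → ℝ) × ℝ) (h0 : ∀ i < n', D m p (aT x₀) (3 * i + 3) 0 = 0)
    (hz : ∀ x, (aT x (q - 1)).1 * (aT x (m - 1)).2 = x.2) (hx0 : x₀.2 = 0)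
    (hnd : ∀ t : Fin n' → ℝ, (∀ i < n', dD m p (aT x₀) (bT (t, 0)) (3 * i + 3) 0 = 0) → t = 0)
    {U : Set ((Fin n' → ℝ) × ℝ)} (hU : U ∈ 𝓝 x₀) :
    ∀ᶠ s in 𝓝 (0 : ℝ), ∃ x ∈ U, (∀ i < n', D m p (aT x) (3 * i + 3) 0 = 0) ∧
      WW m q s (fun k => arr m p (aT x) n k) = 0 := by
  obtain ⟨c, hc, hcW⟩ := nww_zero hq hqm hp n
  set F : ℝ × ((Fin n' → ℝ) × ℝ) → (Fin n' → ℝ) × ℝ :=
    fun (z : ℝ × ((Fin n' → ℝ) × ℝ)) =>
      ((fun i : Fin n' => D m p (aT z.2) (3 * (i : ℕ) + 3) 0),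
        WW m q z.1 (fun k => arr m p (aT z.2) n k)) with hF
  have hcd' : ∀ k < m, ContDiff ℝ 1 (fun z : ℝ × ((Fin n' → ℝ) × ℝ) => aT z.2 k) :=
    fun k hk => (hcd k hk).comp contDiff_snd
  have hFc : ContDiff ℝ 1 F := by
    refine ContDiff.prodMk (contDiff_pi.2 fun i => ?_) ?_
    · exact D_contDiff m (fun _ => p) (fun _ _ => contDiff_const) (fun z : ℝ × ((Fin n' → ℝ) × ℝ) => aT z.2) hcd' _ _
    · refine nx_WW_contDiff m q (fun z : ℝ × ((Fin n' → ℝ) × ℝ) => z.1) contDiff_fst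
        (fun (z : ℝ × ((Fin n' → ℝ) × ℝ)) k => arr m p (aT z.2) n k) ?_
      intro k
      exact arr_contDiff m (fun _ => p) (fun _ _ => contDiff_const) (fun z : ℝ × ((Fin n' → ℝ) × ℝ) => aT z.2) hcd' _ _
  have hF0 : F (0, x₀) = 0 := by
    simp only [hF]
    refine Prod.ext ?_ ?_
    · funext i
      exact h0 i i.2
    · show WW m q 0 (fun k => arr m p (aT x₀) n k) = 0
      rw [hcW _ (htop x₀), hz, hx0, mul_zero]
  have hdiff : DifferentiableAt ℝ F (0, x₀) := (hFc.differentiable (by norm_num)) _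
  have key : ∀ t : (Fin n' → ℝ) × ℝ, fderiv ℝ F (0, x₀) (0, t) = 0 → t = 0 := by
    rintro ⟨t, y⟩ ht
    have hl : HasDerivAt (fun s : ℝ => F ((0, x₀) + s • (0, (t, y)))) 0 0 := by
      have := hdiff.hasFDerivAt.hasLineDerivAt ((0 : ℝ), (t, y))
      rw [ht] at this
      exact this
    have h2 : HasDerivAt (fun s : ℝ => (F ((0, x₀) + s • (0, (t, y)))).2) 0 0 := by
      have := (ContinuousLinearMap.snd ℝ (Fin n' → ℝ) ℝ).hasFDerivAt.comp_hasDerivAt (0 : ℝ) hl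
      rw [map_zero] at this
      exact this
    have h2' : (fun s : ℝ => (F ((0, x₀) + s • (0, (t, y)))).2) = fun s : ℝ => c * (s * y) := by
      funext s
      simp only [hF, Prod.smul_mk, Prod.mk_add_mk, smul_zero, add_zero]
      rw [hcW _ (htop _), hz]
      simp [hx0]
    rw [h2'] at h2
    have h3 : HasDerivAt (fun s : ℝ => c * (s * y)) (c * y) 0 := by
      have := ((hasDerivAt_id (0 : ℝ)).mul_const y).const_mul c
      simpa using this
    have hy : y = 0 := by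
      have := h3.unique h2
      rcases mul_eq_zero.1 this with h | h
      · exact absurd h hc.ne'
      · exact h
    subst hy
    have ht0 : t = 0 := by
      refine hnd t fun i hi => ?_
      have h1 : HasDerivAt (fun s : ℝ => (F ((0, x₀) + s • (0, (t, 0)))).1 ⟨i, hi⟩) 0 0 := by
        have := (((ContinuousLinearMap.proj (R := ℝ) (φ := fun _ : Fin n' => ℝ) ⟨i, hi⟩).comp
          (ContinuousLinearMap.fst ℝ (Fin n' → ℝ) ℝ))).hasFDerivAt.comp_hasDerivAt (0 : ℝ) hl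
        rw [map_zero] at this
        exact this
      have h1' : (fun s : ℝ => (F ((0, x₀) + s • (0, (t, 0)))).1 ⟨i, hi⟩) =
          fun s : ℝ => D m p (fun k => aT x₀ k + s • bT (t, 0) k) (3 * i + 3) 0 := by
        funext s
        simp only [hF]
        congr 1
        funext k
        rw [← hline]
        rfl
      rw [h1'] at h1
      exact (D_hasDerivAt m p (aT x₀) (bT (t, 0)) (3 * i + 3) 0).unique h1
    rw [ht0]
    rfl
  have hift := ift (E := (Fin n' → ℝ) × ℝ) (E' := (Fin n' → ℝ) × ℝ) rfl F hFc 0 x₀ hF0 key hU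
  filter_upwards [hift] with s hs
  obtain ⟨x, hxU, hx⟩ := hs
  refine ⟨x, hxU, fun i hi => ?_, ?_⟩
  · have := congrFun (congrArg Prod.fst hx) ⟨i, hi⟩
    exact this
  · exact congrArg Prod.snd hx

/-- The linear part of `aT0`. -/
noncomputable def bT0 (m q : ℕ) {n : ℕ} (x : (Fin n → ℝ) × ℝ) (k : ℕ) : ℝ × ℝ :=
  if k = q - 1 then (x.2, (ch0 m (q - 1) x.1 k).2) else ch0 m (q - 1) x.1 k

/-- The linear part of `aT1`. -/
noncomputable def bT1 (m q : ℕ) {n : ℕ} (x : (Fin n → ℝ) × ℝ) (k : ℕ) : ℝ × ℝ :=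
  if k = m - 1 then (0, x.2) else ch0 (m - 1) q x.1 k

theorem nex0 {m q : ℕ} (hq : 2 ≤ q) (hqm : q < m) {p : ℕ → ℕ → ℝ} (hp : Pos p)
    {u0 : Fin (Nn m (q - 1)) → ℝ} (hu : u0 ∈ Sol ℝ m (q - 1) p) (hnd : Nd m (q - 1) p u0)
    {U : Set ((Fin (Nn m (q - 1)) → ℝ) × ℝ)} (hU : U ∈ 𝓝 (u0, (0 : ℝ))) :
    ∀ᶠ s in 𝓝 (0 : ℝ), ∃ x ∈ U, (∀ i < Nn m q - 1, D m p (aT0 m q x) (3 * i + 3) 0 = 0) ∧
      WW m q s (fun k => arr m p (aT0 m q x) (3 * Nn m q - 2) k) = 0 := by
  have hN : Nn m q - 1 = Nn m (q - 1) := by unfold Nn; omega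
  have hz1 : ∀ v : Fin (Nn m (q - 1)) → ℝ, (ch m (q - 1) v (q - 1)).1 = 0 := by
    intro v
    have h1 : ¬ q - 1 < q - 1 - 1 := by omega
    have h2 : ¬ q - 1 = q - 1 - 1 := by omega
    unfold ch
    simp only [h1, h2, if_false]
    split_ifs <;> rfl
  have hz0 : ∀ v : Fin (Nn m (q - 1)) → ℝ, (ch0 m (q - 1) v (q - 1)).1 = 0 := by
    intro v
    have h1 : ¬ q - 1 < q - 1 - 1 := by omega
    have h2 : ¬ q - 1 = q - 1 - 1 := by omega
    unfold ch0
    simp only [h1, h2, if_false]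
    split_ifs <;> rfl
  have ha0 : aT0 m q (u0, (0 : ℝ)) = ch m (q - 1) u0 := by
    funext k
    unfold aT0
    split_ifs with h
    · subst h
      exact Prod.ext (hz1 u0).symm rfl
    · rfl
  have hb0 : ∀ t : Fin (Nn m (q - 1)) → ℝ, bT0 m q (t, (0 : ℝ)) = ch0 m (q - 1) t := by
    intro t
    funext k
    unfold bT0
    split_ifs with h
    · subst h
      exact Prod.ext (hz0 t).symm rfl
    · rfl
  rw [hN]
  refine nx_core (by omega : 1 ≤ q) hqm hp (3 * Nn m q - 2) (aT0 m q) (bT0 m q) ?_ ?_ ?_ (u0, 0)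
    ?_ ?_ rfl ?_ hU
  · intro x y s k
    unfold aT0 bT0
    have := ch_line m (q - 1) x.1 y.1 s k
    split_ifs with h
    · simp only [Prod.snd_add, Prod.fst_add, Prod.smul_snd, Prod.smul_fst, this]
      ext <;> simp
    · exact this
  · intro k hk
    have h1 : ContDiff ℝ 1 (fun x : (Fin (Nn m (q - 1)) → ℝ) × ℝ => (ch m (q - 1) x.1 k : ℝ × ℝ)) :=
      (ch_contDiff m (q - 1) k).comp contDiff_fst
    unfold aT0
    split_ifs with h
    · exact contDiff_snd.prodMk (contDiff_snd.comp h1)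
    · exact h1
  · intro x k hk hkm
    unfold aT0
    rw [if_neg (by omega)]
    exact (nf_ch (by omega : 1 ≤ q - 1) (by omega : q - 1 < m) x.1).top k (by omega) hkm
  · intro i hi
    rw [ha0]
    exact hu i hi
  · intro x
    unfold aT0
    rw [if_pos rfl, if_neg (by omega), cht_ch_last x.1 (by omega) (by omega)]
    simp
  · intro t ht
    refine hnd t fun i hi => ?_
    have := ht i hi
    rwa [ha0, hb0] at this

theorem nex1 {m q : ℕ} (hq : 1 ≤ q) (hqm : q < m - 1) {p : ℕ → ℕ → ℝ} (hp : Pos p)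
    {u0 : Fin (Nn (m - 1) q) → ℝ} (hu : u0 ∈ Sol ℝ (m - 1) q p) (hnd : Nd (m - 1) q p u0)
    {U : Set ((Fin (Nn (m - 1) q) → ℝ) × ℝ)} (hU : U ∈ 𝓝 (u0, (0 : ℝ))) :
    ∀ᶠ s in 𝓝 (0 : ℝ), ∃ x ∈ U, (∀ i < Nn m q - 1, D m p (aT1 m q x) (3 * i + 3) 0 = 0) ∧
      WW m q s (fun k => arr m p (aT1 m q x) (3 * Nn m q - 2) k) = 0 := by
  have hN : Nn m q - 1 = Nn (m - 1) q := by unfold Nn; omega
  have harr : ∀ j k, arr m p (aT1 m q (u0, (0 : ℝ))) j k = arr (m - 1) p (ch (m - 1) q u0) j k := by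
    intro j k
    have h1 := arr_trunc (m := m - 1) p (aT1 m q (u0, (0 : ℝ)))
      (by unfold aT1; rw [if_pos rfl]; rfl) j k
    rw [show m - 1 + 1 = m by omega] at h1
    rw [h1]
    refine arr_congr (M := j) (fun _ _ _ _ => rfl) (fun i hi => ?_) j le_rfl k
    unfold aT1
    rw [if_neg (by omega)]
  have harr0 : ∀ (t : Fin (Nn (m - 1) q) → ℝ) (j k : ℕ), arr m p (bT1 m q (t, (0 : ℝ))) j k
      = arr (m - 1) p (ch0 (m - 1) q t) j k := by
    intro t j k
    have h1 := arr_trunc (m := m - 1) p (bT1 m q (t, (0 : ℝ)))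
      (by unfold bT1; rw [if_pos rfl]; rfl) j k
    rw [show m - 1 + 1 = m by omega] at h1
    rw [h1]
    refine arr_congr (M := j) (fun _ _ _ _ => rfl) (fun i hi => ?_) j le_rfl k
    unfold bT1
    rw [if_neg (by omega)]
  rw [hN]
  refine nx_core hq (by omega : q < m) hp (3 * Nn m q - 2) (aT1 m q) (bT1 m q) ?_ ?_ ?_ (u0, 0)
    ?_ ?_ rfl ?_ hU
  · intro x y s k
    unfold aT1 bT1
    have := ch_line (m - 1) q x.1 y.1 s k
    split_ifs with h
    · ext <;> simp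
    · exact this
  · intro k hk
    have h1 : ContDiff ℝ 1 (fun x : (Fin (Nn (m - 1) q) → ℝ) × ℝ => (ch (m - 1) q x.1 k : ℝ × ℝ)) :=
      (ch_contDiff (m - 1) q k).comp contDiff_fst
    unfold aT1
    split_ifs with h
    · exact contDiff_const.prodMk contDiff_snd
    · exact h1
  · intro x k hk hkm
    unfold aT1
    split_ifs with h
    · rfl
    · exact (nf_ch hq hqm x.1).top k hk (by omega)
  · intro i hi
    have := hu i hi
    rw [D] at this ⊢
    rw [harr, harr]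
    exact this
  · intro x
    unfold aT1
    rw [if_pos rfl, if_neg (by omega), cht_ch_eq]
    simp
  · intro t ht
    refine hnd t fun i hi => ?_
    have := ht i hi
    rw [dD] at this ⊢
    rwa [harr, harr, harr0, harr0] at this

end TR
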