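import Pool.Agent.TR.Exact

/-!
MODULE TOP (limit of the first kind: the last test cell is joined to an earlier one).

N = Nn m q, M = 3 N + 1, M0 = 3 (N - 1) + 1 = M - 3, Nn m (q-1) = N - 1 (N >= 1 since q >= 2,
m >= 3).  f = arr m p a, f0 = arr m p0 a0, nu j = (f0 j (q-1)).2 (first top scalar of a0).
(1) X3 for a0: chg M0 (ps nu) = m - 1 - (q-1) = m - q >= 1, and by `rolle_ps` nu M0 >= 0.  Let
    js = max {j <= M0 : nu j < 0} (non-empty since there is a change and ps nu M0 = 1).  So
    js < M0, nu js < 0, nu j >= 0 for js < j <= M0, and (sc_succ)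
    (f0 (js+1) q).2 = nu (js+1) - p0 * nu js > 0.
(2) t j = ms (f j q).2.  For j < M0 with ps nu j <> ps nu (j+1): (f0 (j+1) q).2 has strictly the
    sign ps nu (j+1) (sc_succ), so by hsc t (j+1) = ps nu (j+1).
    Claim: (f j q).2 > 0 for all j in [js+1, M].  If (f j1 q).2 <= 0, js + 1 <= j1 <= M (then
    j1 > js+1 by hsc), let s' j = ps nu j for j <= js+1, s' j = 1 for j >= js+1.
    chg j1 s' = chg M0 (ps nu) = m - q.  By `chg_two` (n = j1): m - q <= chg j1 t + 0 and by
    `rolle_ms` chg j1 t + 1 <= m - 1 - q (last sign is -). Contradiction.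
(3) X4 for a0: col a0 M0 0 = sign (a0 (q-2)).1 =: s0 (<> 0, NF), hence col a M0 0 = s0 (hcol).
    X4 for a: col a M 0 = sign (a (q-1)).1 =: s.  Alt for a with i = N - 1 (3i+1 = M0, 3i+4 = M):
    s = - s0.
(4) cell (js, q-2) of a0: by `col_topcell` (for q-1) its colour is s0 * sign (nu js) = - s0 = s, so
    col a js (q-2) = s.  cell (js+1, q-1) of a: colour s * sign (f (js+1) q).2 = s
    (`col_topcell`).  They are adjacent (diagonal).
(5) cells (j, q-1), js+1 <= j <= M, of a have colour s: `row_conn` (js+1,q-1) ~ (M,q-1); X5: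
    (M,0) ~ (M,q-1).
(6) X2 for a0: (js, q-2) ~ (3i+1, 0) in a0 for some i <= N - 1, so in a by Conn.mono (hcol).
Together (M,0) ~ (3i+1,0).
-/

namespace TR

theorem top_ps_of_neg {x : ℝ} (h : x < 0) : ps x = -1 := by
  unfold ps; rw [if_neg (not_le.mpr h)]

theorem top_ps_of_nonneg {x : ℝ} (h : 0 ≤ x) : ps x = 1 := by
  unfold ps; rw [if_pos h]

theorem top_ps_two (x : ℝ) : ps x = 1 ∨ ps x = -1 := by
  unfold ps; split_ifs <;> simp

theorem top_ms_two (x : ℝ) : ms x = 1 ∨ ms x = -1 := by
  unfold ms; split_ifs <;> simp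

theorem top_join {m q : ℕ} (hq : 2 ≤ q) (hqm : q < m) {p p0 : ℕ → ℕ → ℝ} (hp : Pos p)
    (hp0 : Pos p0) {a a0 : ℕ → ℝ × ℝ} (ha : NF m q a) (ha0 : NF m (q - 1) a0)
    (hA : Alt m q p a) (hA0 : Alt m (q - 1) p0 a0)
    (hcol : ∀ j ≤ 3 * (Nn m q - 1) + 1, ∀ k < m, col m p0 a0 j k ≠ 0 →
      col m p a j k = col m p0 a0 j k)
    (hsc : ∀ j ≤ 3 * (Nn m q - 1) + 1, (0 < (arr m p0 a0 j q).2 → 0 < (arr m p a j q).2) ∧
      ((arr m p0 a0 j q).2 < 0 → (arr m p a j q).2 < 0)) :
    ∃ i < Nn m q, lab m q p a (Nn m q) i := by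
  have hN1 : Nn m (q - 1) = Nn m q - 1 := by unfold Nn; omega
  have hN : 2 ≤ Nn m q := by unfold Nn; omega
  obtain ⟨-, X2, X3, X4, -⟩ := exact_X (q := q - 1) (by omega) (by omega) hp0 ha0 hA0
  obtain ⟨-, -, -, Y4, Y5⟩ := exact_X (by omega) hqm hp ha hA
  rw [hN1] at X2 X3 X4
  set N := Nn m q with hNdef
  set M0 := 3 * (N - 1) + 1 with hM0
  set M := 3 * N + 1 with hM
  have hM0M : M0 ≤ M := by omega
  -- (1)
  set ν : ℕ → ℝ := fun j => (arr m p0 a0 j (q - 1)).2 with hν
  have X3' : chg M0 (fun j => ps (ν j)) = m - q := by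
    have : m - 1 - (q - 1) = m - q := by omega
    rw [← this]; exact X3
  have hR := rolle_ps hp0 ha0.pos (k := q - 1) (by omega) M0
  have hνM0 : 0 ≤ ν M0 := by
    by_contra hcon
    rw [not_le] at hcon
    have h1 : (if (arr m p0 a0 M0 (q - 1)).2 < 0 then 1 else 0) = 1 := if_pos hcon
    rw [h1] at hR
    have h2 : chg M0 (fun j => ps (arr m p0 a0 j (q - 1)).2) = m - q := X3'
    omega
  have hex : ∃ j, j ≤ M0 ∧ ν j < 0 := by
    obtain ⟨l, -, h2, h3⟩ := exists_change_of_chg_lt (s := fun j => ps (ν j)) (Nat.zero_le M0)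
      (by rw [X3', chg_zero]; omega)
    by_contra hcon
    push Not at hcon
    apply h3
    rw [top_ps_of_nonneg (hcon l (by omega)), top_ps_of_nonneg (hcon (l + 1) (by omega))]
  classical
  obtain ⟨js, hjs1, hjs2, hjs3⟩ : ∃ js, js ≤ M0 ∧ ν js < 0 ∧ ∀ j, js < j → j ≤ M0 → 0 ≤ ν j := by
    obtain ⟨j, hj1, hj2⟩ := hex
    refine ⟨Nat.findGreatest (fun j => ν j < 0) M0, Nat.findGreatest_le _,
      Nat.findGreatest_spec (P := fun j => ν j < 0) hj1 hj2, ?_⟩
    intro i hi hi'
    have := Nat.findGreatest_is_greatest (P := fun j => ν j < 0) hi hi'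
    exact not_lt.mp this
  have hjsM0 : js < M0 := by
    rcases Nat.lt_or_ge js M0 with h | h
    · exact h
    · have : js = M0 := le_antisymm hjs1 h
      rw [this] at hjs2
      exact absurd hjs2 (not_lt.mpr hνM0)
  have hrec : ∀ j, ν (j + 1) = p0 (j + 1) (q - 1) * ν j + (arr m p0 a0 (j + 1) q).2 := by
    intro j
    have := sc_succ (p := p0) (a := a0) j (show q - 1 < m by omega)
    rwa [show q - 1 + 1 = q by omega] at this
  have hpos1 : 0 < (arr m p0 a0 (js + 1) q).2 := by
    have h1 := hrec js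
    have h2 := hjs3 (js + 1) (by omega) (by omega)
    have h3 := mul_neg_of_pos_of_neg (hp0 (js + 1) (q - 1)) hjs2
    linarith
  -- (2)
  have hclaim : ∀ j, js + 1 ≤ j → j ≤ M → 0 < (arr m p a j q).2 := by
    intro j1 hj1 hj1M
    by_contra hcon
    rw [not_lt] at hcon
    have hfirst : 0 < (arr m p a (js + 1) q).2 := (hsc (js + 1) (by omega)).1 hpos1
    have hne : js + 1 ≠ j1 := by
      rintro rfl
      exact absurd hfirst (not_lt.mpr hcon)
    set s' : ℕ → SignType := fun j => if j ≤ js + 1 then ps (ν j) else 1 with hs'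
    have hs1 : ∀ j, js + 1 ≤ j → s' j = 1 := by
      intro j hj
      simp only [hs']
      split_ifs with h
      · have : j = js + 1 := le_antisymm h hj
        rw [this]
        exact top_ps_of_nonneg (hjs3 (js + 1) (by omega) (by omega))
      · rfl
    have hc1 : chg j1 s' = m - q := by
      rw [← X3']
      calc chg j1 s' = chg (js + 1) s' := (chg_eq_of_const hj1 fun l hl _ => by
            rw [hs1 l hl, hs1 (l + 1) (by omega)]).symm
        _ = chg (js + 1) (fun j => ps (ν j)) := chg_congr fun j hj => by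
            simp only [hs']; rw [if_pos hj]
        _ = chg M0 (fun j => ps (ν j)) := chg_eq_of_const (by omega) fun l hl hl' => by
            rw [top_ps_of_nonneg (hjs3 l (by omega) (by omega)),
              top_ps_of_nonneg (hjs3 (l + 1) (by omega) (by omega))]
    have htwo := chg_two (s := s') (t := fun j => ms (arr m p a j q).2) (n := j1)
      (fun j _ => by
        simp only [hs']
        split_ifs
        · exact top_ps_two _
        · exact Or.inl rfl)
      (fun j _ => top_ms_two _)
      (by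
        intro j _ hne'
        rcases Nat.lt_or_ge j (js + 1) with hj | hj
        · have e1 : s' j = ps (ν j) := by simp only [hs']; rw [if_pos hj.le]
          have e2 : s' (j + 1) = ps (ν (j + 1)) := by
            simp only [hs']; rw [if_pos (by omega)]
          rw [e1, e2] at hne'
          rw [e2]
          have hr := hrec j
          rcases lt_or_ge (ν j) 0 with h1 | h1
          · have h2 : 0 ≤ ν (j + 1) := by
              by_contra h3
              rw [not_le] at h3
              exact hne' (by rw [top_ps_of_neg h1, top_ps_of_neg h3])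
            have h3 := mul_neg_of_pos_of_neg (hp0 (j + 1) (q - 1)) h1
            have h4 : 0 < (arr m p0 a0 (j + 1) q).2 := by linarith
            have h5 := (hsc (j + 1) (by omega)).1 h4
            rw [top_ps_of_nonneg h2]
            simp only [ms]
            rw [if_pos h5]
          · have h2 : ν (j + 1) < 0 := by
              by_contra h3
              rw [not_lt] at h3
              exact hne' (by rw [top_ps_of_nonneg h1, top_ps_of_nonneg h3])
            have h3 := mul_nonneg (hp0 (j + 1) (q - 1)).le h1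
            have h4 : (arr m p0 a0 (j + 1) q).2 < 0 := by linarith
            have h5 := (hsc (j + 1) (by omega)).2 h4
            rw [top_ps_of_neg h2]
            simp only [ms]
            rw [if_neg (not_lt.mpr h5.le)]
        · exact absurd (by rw [hs1 j hj, hs1 (j + 1) (by omega)]) hne')
    have hms : ms (arr m p a j1 q).2 = -1 := by
      unfold ms; rw [if_neg (not_lt.mpr hcon)]
    have hif : (if (fun j => ms (arr m p a j q).2) j1 = s' j1 then 1 else 0) = 0 := by
      rw [if_neg]
      simp only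
      rw [hms, hs1 j1 hj1]
      decide
    rw [hif, hc1] at htwo
    have hR2 := rolle_ms hp ha.pos (k := q) hqm j1
    rw [if_pos hcon] at hR2
    omega
  -- (3)
  have hs0 : SignType.sign (a0 (q - 1 - 1)).1 ≠ 0 := by
    rw [ne_eq, sign_eq_zero_iff]; exact ha0.ne
  have hcM0 : col m p a M0 0 = SignType.sign (a0 (q - 1 - 1)).1 := by
    rw [hcol M0 le_rfl 0 (by omega) (by rw [X4]; exact hs0), X4]
  have halt := hA.2 (N - 1) (by omega)
  have hsign : SignType.sign (a (q - 1)).1 = - SignType.sign (a0 (q - 1 - 1)).1 := by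
    rw [← Y4, ← hcM0]
    have e : 3 * (N - 1) + 4 = M := by omega
    rw [e] at halt
    unfold col
    rcases lt_or_gt_of_ne (show D m p a M0 0 ≠ 0 from fun h => by
      rw [h, zero_mul] at halt; exact lt_irrefl _ halt) with h | h
    · have h2 : 0 < D m p a M 0 := by
        by_contra hcon
        rw [not_lt] at hcon
        exact absurd halt (not_lt.mpr (mul_nonneg_of_nonpos_of_nonpos h.le hcon))
      rw [sign_pos h2, sign_neg h]; decide
    · have h2 : D m p a M 0 < 0 := by
        by_contra hcon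
        rw [not_lt] at hcon
        exact absurd halt (not_lt.mpr (mul_nonneg h.le hcon))
      rw [sign_pos h, sign_neg h2]
  -- (4)
  have hc0 : col m p0 a0 js (q - 1 - 1) = SignType.sign (a (q - 1)).1 := by
    rw [col_topcell (by omega) (by omega) hp0 ha0.top js, hsign]
    have : SignType.sign (arr m p0 a0 js (q - 1)).2 = -1 := sign_neg hjs2
    rw [this, mul_neg_one]
  have hne0 : SignType.sign (a (q - 1)).1 ≠ 0 := by
    rw [ne_eq, sign_eq_zero_iff]; exact ha.ne
  have hc1 : col m p a js (q - 1 - 1) = SignType.sign (a (q - 1)).1 := by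
    rw [hcol js hjs1 (q - 1 - 1) (by omega) (by rw [hc0]; exact hne0), hc0]
  have hrow : ∀ j, js + 1 ≤ j → j ≤ M → col m p a j (q - 1) = SignType.sign (a (q - 1)).1 := by
    intro j h1 h2
    rw [col_topcell (by omega) hqm hp ha.top j, sign_pos (hclaim j h1 h2), mul_one]
  -- (5)
  have c1 : Conn M (m - 1) (col m p a) (M, 0) (M, q - 1) := Y5 (hclaim M (by omega) le_rfl)
  have c2 : Conn M (m - 1) (col m p a) (js + 1, q - 1) (M, q - 1) :=
    row_conn (by omega) le_rfl (by omega) (by rw [hrow _ le_rfl (by omega)]; exact hne0)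
      (fun l hl hl' => by rw [hrow l hl (by omega), hrow (l + 1) (by omega) (by omega)])
  have c3 : Conn M (m - 1) (col m p a) (js, q - 1 - 1) (js + 1, q - 1) := by
    refine Conn.of_lk ⟨⟨?_, ?_⟩, ⟨?_, ?_⟩, Or.inl (Or.inr (Or.inr ⟨rfl, ?_⟩)), ?_, ?_⟩
    · simp only; omega
    · simp only; omega
    · simp only; omega
    · simp only; omega
    · simp only; omega
    · simp only
      rw [hc1, hrow _ le_rfl (by omega)]
    · simp only
      rw [hc1]; exact hne0
  -- (6)
  obtain ⟨i, hi, c4⟩ := X2 js hjs1 (q - 1 - 1) (by omega) (by rw [hc0]; exact hne0)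
  have c5 : Conn M (m - 1) (col m p a) (js, q - 1 - 1) (3 * i + 1, 0) :=
    c4.mono hM0M le_rfl (fun j hj k hk h => hcol j hj k (by omega) h)
  refine ⟨i, by omega, ?_⟩
  exact ((c1.trans c2.symm).trans c3.symm).trans c5

end TR
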