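import Pool.Agent.TR.Near0
import Pool.Agent.TR.Clean
import Pool.Agent.TR.LabConst
import Pool.Agent.TR.Top

/-!
MODULE NEARL (labels of the solutions near the limit points).

Common part.  N = Nn m q >= 1, P = nr m q s p (positive for s > 0), x as in nex0 / nex1, a = aT x.
(a) (a k).1 = 0 for q <= k < m.  Marks: Mk m P a N: for i < N - 1 the cell (3i+3, 0) only uses the
    columns <= 3N - 2 where P = p (`D_congr`); the last one is (3N, 0) = s^(m-q) * WW = 0 (nexp).
(b) Rk m a: br (a (q-2)) (a (m-1)) = 1 (first kind), br (a (q-1)) (a (m-2)) = 1 (second kind, q <=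
    m - 2); Cl m q a by (a).  By hprp (real: prp_real) del = br (a (q-1)) (a (m-1)) <> 0.
    `chart_exists`: a k = gl .. (ch m q w k) (k < m), w in Sol by mk_gl, mk_congr; lab of a and of
    ch m q w agree (lab_gl, and lab only depends on a k for k < m: D_congr).
(c) First kind: a is in normal frame for (m,q): (a (m-1)).2 = 1, (a (q-1)).1 = z = del <> 0.
    Second kind: (a (m-1)).2 = zeta = del <> 0, (a (q-1)).1 = 1; if zeta < 0 replace a by its
    reflection gl 1 0 0 (-1) (lab_gl), which is in normal frame.  By `alt_of_sol` Alt m q P a.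
(d) a0 = ch m (q-1) u0 is in normal frame for (m, q-1) (nf_ch), Alt m (q-1) p a0 (alt_of_sol);
    second kind: a0 = ch (m-1) q u0, (m-1, q).  For x close to (u0, 0) the array of a in the columns
    j <= 3N - 2 has the colours and scalar signs of that of a0 wherever these are non-zero
    (`persist` applied to (p, aT (u0,0)), j <= 3N-2; arr m P a j = arr m p a j there by arr_congr).
    Note 3N - 2 = 3 (N-1) + 1, the last column of the smaller problem.  Second kind: the array of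
    aT1 (u0,0) is that of a0 for m - 1 (arr_trunc); its cells (j, m-2) vanish.
(e) Hence r0 = lab of a0 implies r = lab of a on {0..N-1} (Conn.mono).  exact_ub for a0: sets
    pairwise not r0 have at most m - 1 (first kind), m - 2 (second kind) elements.
    exact_X (X1) for a: T with m - 1 elements.
    First kind: `top_join` (p0 = p) gives r N i0, i0 < N; `max_top` with n = N - 1.
    Second kind: `max_new` with n = N - 1, n0 = m - 2.
(N - 1 + 1 = N.)
-/

open Filter Topology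

namespace TR

theorem nearl_lab_congr {m q : ℕ} {p : ℕ → ℕ → ℝ} {a a' : ℕ → ℝ × ℝ}
    (h : ∀ k < m, a k = a' k) (i j : ℕ) : lab m q p a i j ↔ lab m q p a' i j := by
  have h1 : col m p a = col m p a' := by
    funext j' k'
    unfold col
    rw [D_congr (M := j') (fun _ _ _ _ => rfl) h j' le_rfl k']
  unfold lab
  rw [h1]

theorem nearl_nr_congr {m q : ℕ} {s : ℝ} {p : ℕ → ℕ → ℝ} :
    ∀ j ≤ 3 * Nn m q - 2, ∀ k < m, nr m q s p j k = p j k := by
  intro j hj k _
  unfold nr
  rw [if_pos hj]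

theorem nearl_nr_pos {m q : ℕ} {s : ℝ} {p : ℕ → ℕ → ℝ} (hp : Pos p) (hs : 0 < s) :
    Pos (nr m q s p) := by
  intro j k
  unfold nr
  split_ifs
  · exact hp j k
  · positivity
  · exact one_pos

theorem nearl_mk {m q : ℕ} (hq : 1 ≤ q) (hqm : q < m) (hN : 1 ≤ Nn m q) {s : ℝ}
    {p : ℕ → ℕ → ℝ} {a : ℕ → ℝ × ℝ} (ht : ∀ k, q ≤ k → k < m → (a k).1 = 0)
    (h1 : ∀ i < Nn m q - 1, D m p a (3 * i + 3) 0 = 0)
    (h2 : WW m q s (fun k => arr m p a (3 * Nn m q - 2) k) = 0) :
    Mk m (nr m q s p) a (Nn m q) := by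
  intro i hi
  by_cases hi' : i < Nn m q - 1
  · rw [D_congr (M := 3 * Nn m q - 2) nearl_nr_congr (fun _ _ => rfl) (3 * i + 3) (by omega) 0]
    exact h1 i hi'
  · have h3 : 3 * i + 3 = 3 * Nn m q := by omega
    rw [h3, nexp hq hqm hN s p ht, h2, mul_zero]

/-- the solution `w` given by the column system `a`, with the same labels -/
theorem nearl_sol {m q : ℕ} (hq : 1 ≤ q) (hqm : q < m) {P : ℕ → ℕ → ℝ} {a : ℕ → ℝ × ℝ}
    (ht : ∀ k, q ≤ k → k < m → (a k).1 = 0) (hd : br (a (q - 1)) (a (m - 1)) ≠ 0)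
    (hM : Mk m P a (Nn m q)) :
    ∃ w ∈ Sol ℝ m q P, ∀ i j, lab m q P (ch m q w) i j ↔ lab m q P a i j := by
  have hcl : Cl m q a := by
    intro i j hi hij hj
    unfold br
    rw [ht i hi (by omega), ht j (by omega) hj]
    ring
  obtain ⟨w, α, β, γ, δ, hdet, hw⟩ := chart_exists hq hqm a hcl hd
  refine ⟨w, ?_, ?_⟩
  · change Mk m P (ch m q w) (Nn m q)
    rw [← mk_gl P hdet (ch m q w) (Nn m q)]
    exact (mk_congr (fun _ _ _ _ => rfl) hw).1 hM
  · intro i j
    rw [← lab_gl P α β γ δ hdet (ch m q w) i j]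
    exact nearl_lab_congr (fun k hk => (hw k hk).symm) i j

theorem near0 {m q : ℕ} (hq : 2 ≤ q) (hqm : q < m) {p : ℕ → ℕ → ℝ} (hp : Pos p)
    (hprp : ∀ s : ℝ, 0 < s → Prp ℂ m q (nr m q s p))
    {u0 : Fin (Nn m (q - 1)) → ℝ} (hu : u0 ∈ Sol ℝ m (q - 1) p) (hnd : Nd m (q - 1) p u0) :
    ∀ᶠ s in 𝓝[>] (0 : ℝ), ∃ w ∈ Sol ℝ m q (nr m q s p),
      (∀ i < Nn m q, ∀ j < Nn m q, (lab m q (nr m q s p) (ch m q w) i j ↔
        lab m (q - 1) p (ch m (q - 1) u0) i j)) ∧
      ∃ i < Nn m q, lab m q (nr m q s p) (ch m q w) (Nn m q) i := by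
  have hN : 1 ≤ Nn m q := by unfold Nn; omega
  have hN' : Nn m (q - 1) = Nn m q - 1 := by unfold Nn; omega
  have hq1 : 1 ≤ q - 1 := by omega
  have hq1m : q - 1 < m := by omega
  set a0 : ℕ → ℝ × ℝ := ch m (q - 1) u0 with ha0
  have hNF0 : NF m (q - 1) a0 := nf_ch hq1 hq1m u0
  have hA0 : Alt m (q - 1) p a0 := alt_of_sol hq1 hq1m hp hNF0 hu
  have hat : aT0 m q (u0, (0 : ℝ)) = a0 := by
    funext k
    unfold aT0
    split_ifs with hk
    · have h1 := hNF0.top k (by omega) (by omega)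
      exact Prod.ext h1.symm rfl
    · rfl
  have hcont : Continuous (fun x : (Fin (Nn m (q - 1)) → ℝ) × ℝ =>
      ((p, aT0 m q x) : (ℕ → ℕ → ℝ) × (ℕ → ℝ × ℝ))) := by
    have h1 : ∀ k, Continuous fun x : (Fin (Nn m (q - 1)) → ℝ) × ℝ =>
        (ch m (q - 1) x.1 k : ℝ × ℝ) := fun k =>
      (continuous_apply k).comp ((ch_continuous m (q - 1)).comp continuous_fst)
    refine continuous_const.prodMk (continuous_pi fun k => ?_)
    unfold aT0
    by_cases hk : k = q - 1
    · simp only [hk, if_true]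
      exact continuous_snd.prodMk (continuous_snd.comp (h1 (q - 1)))
    · simp only [hk, if_false]
      exact h1 k
  have hpers := persist m (3 * Nn m q - 2) p a0
  rw [← hat] at hpers
  have hU := (hcont.tendsto (u0, (0 : ℝ))).eventually hpers
  rw [hat] at hU
  filter_upwards [nhdsWithin_le_nhds (nex0 hq hqm hp hu hnd hU), self_mem_nhdsWithin] with s hs1 hs0
  obtain ⟨x, ⟨hx1, hx2⟩, hx3, hx4⟩ := hs1
  have hs0' : 0 < s := hs0
  set a : ℕ → ℝ × ℝ := aT0 m q x with ha
  set P : ℕ → ℕ → ℝ := nr m q s p with hP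
  have hPp : Pos P := nearl_nr_pos hp hs0'
  have hNFx : NF m (q - 1) (ch m (q - 1) x.1) := nf_ch hq1 hq1m x.1
  have ht : ∀ k, q ≤ k → k < m → (a k).1 = 0 := by
    intro k hk hkm
    have h1 : a k = ch m (q - 1) x.1 k := by
      rw [ha]
      unfold aT0
      rw [if_neg (by omega)]
    rw [h1]
    exact hNFx.top k (by omega) hkm
  have hMk : Mk m P a (Nn m q) := nearl_mk (by omega) hqm hN ht hx3 hx4
  have hal : a (m - 1) = (0, 1) := by
    rw [ha]
    unfold aT0
    rw [if_neg (by omega)]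
    unfold ch
    rw [if_neg (by omega), if_neg (by omega), if_neg (by omega), if_pos rfl]
  have hap : a (q - 2) = (1, 0) := by
    rw [ha]
    unfold aT0
    rw [if_neg (by omega)]
    unfold ch
    rw [if_neg (by omega), if_pos (by omega)]
  have haq : (a (q - 1)).1 = x.2 := by
    rw [ha]
    unfold aT0
    rw [if_pos rfl]
  have hdx : br (a (q - 1)) (a (m - 1)) = x.2 := by
    unfold br
    rw [hal, haq]
    simp
  have hRk : Rk m a := by
    refine ⟨q - 2, m - 1, by omega, by omega, ?_⟩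
    rw [hap, hal]
    simp [br]
  have hCl : Cl m q a := by
    intro i j hi hij hj
    unfold br
    rw [ht i hi (by omega), ht j (by omega) hj]
    ring
  have hne : br (a (q - 1)) (a (m - 1)) ≠ 0 := prp_real (hprp s hs0') a hRk hCl hMk
  have hNF : NF m q a := ⟨ht, by rw [hal]; exact one_pos, by rw [haq, ← hdx]; exact hne⟩
  have hA : Alt m q P a := alt_of_sol (by omega) hqm hPp hNF hMk
  have hcolP : ∀ j ≤ 3 * Nn m q - 2, ∀ k, col m P a j k = col m p a j k := by
    intro j hj k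
    unfold col
    rw [D_congr (M := 3 * Nn m q - 2) nearl_nr_congr (fun _ _ => rfl) j hj k]
  have harrP : ∀ j ≤ 3 * Nn m q - 2, ∀ k, arr m P a j k = arr m p a j k :=
    arr_congr nearl_nr_congr (fun _ _ => rfl)
  have hcol : ∀ j ≤ 3 * (Nn m q - 1) + 1, ∀ k < m, col m p a0 j k ≠ 0 →
      col m P a j k = col m p a0 j k := by
    intro j hj k hk h0
    rw [hcolP j (by omega) k]
    exact hx1 j (by omega) k hk h0
  have hsc : ∀ j ≤ 3 * (Nn m q - 1) + 1, (0 < (arr m p a0 j q).2 → 0 < (arr m P a j q).2) ∧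
      ((arr m p a0 j q).2 < 0 → (arr m P a j q).2 < 0) := by
    intro j hj
    rw [harrP j (by omega) q]
    exact hx2 j (by omega) q hqm
  obtain ⟨i0, hi0, hlab0⟩ := top_join hq hqm hPp hp hNF hNF0 hA hA0 hcol hsc
  obtain ⟨⟨T, hT1, hT2, hT3⟩, -⟩ := exact_X (by omega : 1 ≤ q) hqm hPp hNF hA
  have hmono : ∀ i j, lab m (q - 1) p a0 i j → lab m q P a i j := by
    intro i j h
    unfold lab at h ⊢
    rw [hN'] at h
    exact h.mono (by omega) le_rfl (fun j' hj' k hk h0 => hcol j' hj' k (by omega) h0)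
  have hkey := max_top (n := Nn m q - 1) (n0 := m - 1) (r := lab m q P a)
    (r0 := lab m (q - 1) p a0) (fun i => Conn.refl _) (fun i j h => Conn.symm h)
    (fun i j k h h' => Conn.trans h h') (fun i j h => Conn.symm h)
    (fun i j k h h' => Conn.trans h h') (fun i _ j _ h => hmono i j h)
    (fun T hT hd => exact_ub hp (by omega) hA0 T (fun i hi => hN' ▸ hT i hi) hd)
    T (fun i hi => by have := hT1 i hi; omega) hT3 hT2.ge i0 (by omega)
    (by rw [show Nn m q - 1 + 1 = Nn m q by omega]; exact hlab0)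
  obtain ⟨w, hw1, hw2⟩ := nearl_sol (by omega : 1 ≤ q) hqm ht hne hMk
  refine ⟨w, hw1, ?_, i0, hi0, (hw2 _ _).2 hlab0⟩
  intro i hi j hj
  rw [hw2 i j]
  exact ⟨fun h => hkey i (by omega) j (by omega) h, fun h => hmono i j h⟩

theorem near1 {m q : ℕ} (hq : 1 ≤ q) (hqm : q < m - 1) {p : ℕ → ℕ → ℝ} (hp : Pos p)
    (hprp : ∀ s : ℝ, 0 < s → Prp ℂ m q (nr m q s p))
    {u0 : Fin (Nn (m - 1) q) → ℝ} (hu : u0 ∈ Sol ℝ (m - 1) q p) (hnd : Nd (m - 1) q p u0) :
    ∀ᶠ s in 𝓝[>] (0 : ℝ), ∃ w ∈ Sol ℝ m q (nr m q s p),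
      (∀ i < Nn m q, ∀ j < Nn m q, (lab m q (nr m q s p) (ch m q w) i j ↔
        lab (m - 1) q p (ch (m - 1) q u0) i j)) ∧
      ∀ i < Nn m q, ¬ lab m q (nr m q s p) (ch m q w) (Nn m q) i := by
  have hN : 1 ≤ Nn m q := by unfold Nn; omega
  have hN' : Nn (m - 1) q = Nn m q - 1 := by unfold Nn; omega
  have hm1 : m - 1 + 1 = m := by omega
  have hqm' : q < m := by omega
  set a0 : ℕ → ℝ × ℝ := ch (m - 1) q u0 with ha0
  have hNF0 : NF (m - 1) q a0 := nf_ch hq hqm u0
  have hA0 : Alt (m - 1) q p a0 := alt_of_sol hq hqm hp hNF0 hu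
  have hcol0 : ∀ j k, col m p (aT1 m q (u0, (0 : ℝ))) j k = col (m - 1) p a0 j k := by
    intro j k
    have h1 : aT1 m q (u0, (0 : ℝ)) (m - 1) = 0 := by
      unfold aT1
      rw [if_pos rfl]
      rfl
    have h2 := D_trunc (m := m - 1) p (aT1 m q (u0, (0 : ℝ))) h1 j k
    rw [hm1] at h2
    unfold col
    rw [h2]
    rw [D_congr (M := j) (fun _ _ _ _ => rfl) (a' := a0) ?_ j le_rfl k]
    intro k' hk'
    unfold aT1
    rw [if_neg (by omega)]
  have hcont : Continuous (fun x : (Fin (Nn (m - 1) q) → ℝ) × ℝ =>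
      ((p, aT1 m q x) : (ℕ → ℕ → ℝ) × (ℕ → ℝ × ℝ))) := by
    refine continuous_const.prodMk (continuous_pi fun k => ?_)
    have h1 : Continuous fun x : (Fin (Nn (m - 1) q) → ℝ) × ℝ =>
        (ch (m - 1) q x.1 k : ℝ × ℝ) :=
      (continuous_apply k).comp ((ch_continuous (m - 1) q).comp continuous_fst)
    unfold aT1
    by_cases hk : k = m - 1
    · simp only [hk, if_true]
      exact continuous_const.prodMk continuous_snd
    · simp only [hk, if_false]
      exact h1
  have hpers := persist m (3 * Nn m q - 2) p (aT1 m q (u0, (0 : ℝ)))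
  have hU := (hcont.tendsto (u0, (0 : ℝ))).eventually hpers
  filter_upwards [nhdsWithin_le_nhds (nex1 hq hqm hp hu hnd hU), self_mem_nhdsWithin] with s hs1 hs0
  obtain ⟨x, ⟨hx1, hx2⟩, hx3, hx4⟩ := hs1
  have hs0' : 0 < s := hs0
  set a : ℕ → ℝ × ℝ := aT1 m q x with ha
  set P : ℕ → ℕ → ℝ := nr m q s p with hP
  have hPp : Pos P := nearl_nr_pos hp hs0'
  have hNFx : NF (m - 1) q (ch (m - 1) q x.1) := nf_ch hq hqm x.1
  have hal : a (m - 1) = (0, x.2) := by
    rw [ha]
    unfold aT1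
    rw [if_pos rfl]
  have hak : ∀ k, k ≠ m - 1 → a k = ch (m - 1) q x.1 k := by
    intro k hk
    rw [ha]
    unfold aT1
    rw [if_neg hk]
  have ht : ∀ k, q ≤ k → k < m → (a k).1 = 0 := by
    intro k hk hkm
    by_cases hk' : k = m - 1
    · rw [hk', hal]
    · rw [hak k hk']
      exact hNFx.top k hk (by omega)
  have hMk : Mk m P a (Nn m q) := nearl_mk hq hqm' hN ht hx3 hx4
  have haq : a (q - 1) = (1, 0) := by
    rw [hak _ (by omega)]
    unfold ch
    rw [if_neg (by omega), if_pos rfl]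
  have ha2 : a (m - 2) = (0, 1) := by
    rw [hak _ (by omega)]
    unfold ch
    rw [if_neg (by omega), if_neg (by omega), if_neg (by omega), if_pos (by omega)]
  have hdx : br (a (q - 1)) (a (m - 1)) = x.2 := by
    unfold br
    rw [hal, haq]
    simp
  have hRk : Rk m a := by
    refine ⟨q - 1, m - 2, by omega, by omega, ?_⟩
    rw [haq, ha2]
    simp [br]
  have hCl : Cl m q a := by
    intro i j hi hij hj
    unfold br
    rw [ht i hi (by omega), ht j (by omega) hj]
    ring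
  have hne : br (a (q - 1)) (a (m - 1)) ≠ 0 := prp_real (hprp s hs0') a hRk hCl hMk
  have hx20 : x.2 ≠ 0 := by rw [← hdx]; exact hne
  -- a representative in normal frame
  obtain ⟨b, hNFb, hMb, hlb⟩ : ∃ b : ℕ → ℝ × ℝ, NF m q b ∧ Mk m P b (Nn m q) ∧
      ∀ i j, lab m q P b i j ↔ lab m q P a i j := by
    rcases lt_or_gt_of_ne hx20 with h | h
    · refine ⟨fun k => gl 1 0 0 (-1) (a k), ⟨?_, ?_, ?_⟩, ?_, ?_⟩
      · intro k hk hkm
        simp [gl, ht k hk hkm]
      · simp only [hal, gl]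
        linarith
      · simp [gl, haq]
      · rw [mk_gl P (by norm_num) a (Nn m q)]
        exact hMk
      · intro i j
        exact lab_gl P 1 0 0 (-1) (by norm_num) a i j
    · exact ⟨a, ⟨ht, by rw [hal]; exact h, by rw [haq]; exact one_ne_zero⟩, hMk,
        fun i j => Iff.rfl⟩
  have hAb : Alt m q P b := alt_of_sol hq hqm' hPp hNFb hMb
  have hcolP : ∀ j ≤ 3 * Nn m q - 2, ∀ k, col m P a j k = col m p a j k := by
    intro j hj k
    unfold col
    rw [D_congr (M := 3 * Nn m q - 2) nearl_nr_congr (fun _ _ => rfl) j hj k]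
  have hcol : ∀ j ≤ 3 * (Nn m q - 1) + 1, ∀ k < m, col (m - 1) p a0 j k ≠ 0 →
      col m P a j k = col (m - 1) p a0 j k := by
    intro j hj k hk h0
    rw [hcolP j (by omega) k, ← hcol0 j k]
    rw [← hcol0 j k] at h0
    exact hx1 j (by omega) k hk h0
  obtain ⟨⟨T, hT1, hT2, hT3⟩, -⟩ := exact_X hq hqm' hPp hNFb hAb
  have hmono : ∀ i j, lab (m - 1) q p a0 i j → lab m q P a i j := by
    intro i j h
    unfold lab at h ⊢
    rw [hN'] at h
    exact h.mono (by omega) (by omega) (fun j' hj' k hk h0 => hcol j' hj' k (by omega) h0)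
  have hkey := max_new (n := Nn m q - 1) (n0 := m - 2) (r := lab m q P a)
    (r0 := lab (m - 1) q p a0) (fun i => Conn.refl _) (fun i j h => Conn.symm h)
    (fun i j k h h' => Conn.trans h h') (fun i j h => Conn.symm h)
    (fun i j k h h' => Conn.trans h h') (fun i _ j _ h => hmono i j h)
    (fun T hT hd => exact_ub hp (by omega) hA0 T (fun i hi => hN' ▸ hT i hi) hd)
    T (fun i hi => by have := hT1 i hi; omega)
    (fun i hi j hj hij h => hT3 i hi j hj hij ((hlb i j).2 h)) (by omega)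
  obtain ⟨w, hw1, hw2⟩ := nearl_sol hq hqm' ht hne hMk
  refine ⟨w, hw1, ?_, ?_⟩
  · intro i hi j hj
    rw [hw2 i j]
    exact ⟨fun h => hkey.1 i (by omega) j (by omega) h, fun h => hmono i j h⟩
  · intro i hi
    rw [hw2 _ i]
    have h1 := hkey.2 i (by omega)
    rwa [show Nn m q - 1 + 1 = Nn m q by omega] at h1

end TR
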