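import Pool.Agent.TR.AlgDefs
import Pool.Agent.TR.Frame

/-!
Definitions for the degenerate last triple of columns.
-/

namespace TR

/-- Data whose last triple (columns `3N-1, 3N, 3N+1`, `N = Nn m q`) is nearly degenerate. -/
noncomputable def nr (m q : ℕ) (s : ℝ) (p : ℕ → ℕ → ℝ) (j k : ℕ) : ℝ :=
  if j ≤ 3 * Nn m q - 2 then p j k
  else if j = 3 * Nn m q - 1 then s ^ (m - 1 - k) else 1

/-- The rescaled last mark as a function of the column `f = arr m p a (3N-2)`. -/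
noncomputable def WW (m q : ℕ) (s : ℝ) (f : ℕ → ℝ × ℝ) : ℝ :=
  ∑ x ∈ prs m q, s ^ (m + q - 2 - x.1 - x.2) * ((x.2 : ℝ) - x.1) * br (f x.1) (f x.2)

/-- Column systems near the first kind of limit points: `a (q-1) = (z, μ)`. -/
noncomputable def aT0 (m q : ℕ) (x : (Fin (Nn m (q - 1)) → ℝ) × ℝ) (k : ℕ) : ℝ × ℝ :=
  if k = q - 1 then (x.2, (ch m (q - 1) x.1 k).2) else ch m (q - 1) x.1 k

/-- Column systems near the second kind of limit points: `a (m-1) = (0, ζ)`. -/
noncomputable def aT1 (m q : ℕ) (x : (Fin (Nn (m - 1) q) → ℝ) × ℝ) (k : ℕ) : ℝ × ℝ :=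
  if k = m - 1 then (0, x.2) else ch (m - 1) q x.1 k

end TR
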