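import Pool.Agent.TR.AlgDefs

/-!
MODULE PLUCK (a vector satisfying the Pluecker relations comes from a column system).

a k = (z k j0 / z i0 j0, z i0 k / z i0 j0).  br (a k) (a l) =
(z k j0 * z i0 l - z i0 k * z l j0) / (z i0 j0)^2 and the Pluecker relation for (i0, j0, k, l):
z i0 j0 z k l - z i0 k z j0 l + z i0 l z j0 k = 0 (with z j0 l = - z l j0, z j0 k = - z k j0).
-/

namespace TR

theorem pluck_point {m : ℕ} (z : ℕ → ℕ → ℂ) (hs : ∀ i j, z j i = - z i j)
    (hpl : ∀ i j k l, i < m → j < m → k < m → l < m →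
      z i j * z k l - z i k * z j l + z i l * z j k = 0)
    {i0 j0 : ℕ} (hi : i0 < m) (hj : j0 < m) (h0 : z i0 j0 ≠ 0) :
    ∃ a : ℕ → ℂ × ℂ, ∀ k l, k < m → l < m → br (a k) (a l) = (z i0 j0)⁻¹ * z k l := by
  refine ⟨fun k => (z k j0 / z i0 j0, z i0 k / z i0 j0), fun k l hk hl => ?_⟩
  have h := hpl i0 j0 k l hi hj hk hl
  rw [hs l j0, hs k j0] at h
  simp only [br]
  field_simp
  linear_combination -h

end TR
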