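import Pool.Agent.TR.FlRank
import Pool.Agent.TR.Pluck

/-!
MODULE NST (projective Nullstellensatz).

Variables `Z_x`, `x ∈ prs m q`; `zz i j = Z_(i,j) - Z_(j,i)` (with `Z_x = 0` for `x ∉ prs`).
The ideal `I` is generated by the Plücker relations, the linear forms `L n` of the marks and
`Z_(q-1,m-1)`; its zero locus is `{0}`, so all variables are nilpotent modulo `I`. The homomorphism
`ψ : Z_x ↦ bb x * T` to `ℂ[X][T]` maps polynomials to polynomials with coefficient of `T ^ n` in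
`Fl m q n`.
-/

namespace TR

namespace Nst

variable (m q : ℕ)

/-- the variables -/
abbrev σ : Type := {x : ℕ × ℕ // x ∈ prs m q}

/-- the polynomial ring -/
abbrev S : Type := MvPolynomial (σ m q) ℂ

open Classical in
/-- the variable `Z_x` -/
noncomputable def zv (x : ℕ × ℕ) : S m q :=
  if h : x ∈ prs m q then MvPolynomial.X ⟨x, h⟩ else 0

/-- antisymmetric variables -/
noncomputable def zz (i j : ℕ) : S m q := zv m q (i, j) - zv m q (j, i)

/-- Plücker relations -/
noncomputable def Rl (i j k l : ℕ) : S m q :=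
  zz m q i j * zz m q k l - zz m q i k * zz m q j l + zz m q i l * zz m q j k

/-- coefficients of the marks -/
noncomputable def co (p : ℕ → ℕ → ℝ) (n : ℕ) (x : ℕ × ℕ) : ℝ :=
  cf m p (3 * n + 3) 0 x.1 * cf m p (3 * n + 3) (0 + 1) x.2 -
    cf m p (3 * n + 3) 0 x.2 * cf m p (3 * n + 3) (0 + 1) x.1

/-- the linear forms of the marks -/
noncomputable def Ln (p : ℕ → ℕ → ℝ) (n : ℕ) : S m q :=
  ∑ x ∈ (Finset.range m ×ˢ Finset.range m).filter (fun x => x.1 < x.2),
    MvPolynomial.C ((co m p n x : ℝ) : ℂ) * zz m q x.1 x.2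

/-- generators of the ideal -/
def gens (p : ℕ → ℕ → ℝ) : Set (S m q) :=
  {f | ∃ i j k l, i < m ∧ j < m ∧ k < m ∧ l < m ∧ f = Rl m q i j k l} ∪
    ({f | ∃ n < Nn m q, f = Ln m q p n} ∪ {zv m q (q - 1, m - 1)})

variable {m q}

theorem zv_mem {x : ℕ × ℕ} (h : x ∈ prs m q) : zv m q x = MvPolynomial.X ⟨x, h⟩ := by
  unfold zv; rw [dif_pos h]

theorem zv_not_mem {x : ℕ × ℕ} (h : x ∉ prs m q) : zv m q x = 0 := by
  unfold zv; rw [dif_neg h]

theorem mem_prs {i j : ℕ} : (i, j) ∈ prs m q ↔ i < m ∧ j < m ∧ i < j ∧ i < q := by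
  unfold prs
  simp only [Finset.mem_filter, Finset.mem_product, Finset.mem_range]
  tauto

theorem zz_of_mem {i j : ℕ} (h : (i, j) ∈ prs m q) : zz m q i j = zv m q (i, j) := by
  unfold zz
  rw [zv_not_mem (x := (j, i)), sub_zero]
  rw [mem_prs] at h ⊢
  omega

theorem last_mem (hq : 1 ≤ q) (hqm : q < m) : (q - 1, m - 1) ∈ prs m q := by
  rw [mem_prs]; omega

/-! ## The zero locus -/

theorem point_zero (hq : 1 ≤ q) (hqm : q < m) (p : ℕ → ℕ → ℝ) (hP : Prp ℂ m q p)
    (v : σ m q → ℂ) (hv : ∀ f ∈ gens m q p, MvPolynomial.aeval v f = 0) (x : σ m q) :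
    v x = 0 := by
  by_contra hx
  obtain ⟨⟨i0, j0⟩, hx0⟩ := x
  set z : ℕ → ℕ → ℂ := fun i j => MvPolynomial.aeval v (zz m q i j) with hz
  have hz0 : z i0 j0 = v ⟨(i0, j0), hx0⟩ := by
    simp only [hz]
    rw [zz_of_mem hx0, zv_mem hx0, MvPolynomial.aeval_X]
  have hne : z i0 j0 ≠ 0 := by rw [hz0]; exact hx
  have hm := mem_prs.1 hx0
  obtain ⟨a, ha⟩ := pluck_point (m := m) z
    (fun i j => by simp only [hz, zz, map_sub]; ring)
    (fun i j k l hi hj hk hl => by
      have := hv (Rl m q i j k l) (Or.inl ⟨i, j, k, l, hi, hj, hk, hl, rfl⟩)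
      simpa only [Rl, map_add, map_sub, map_mul] using this) hm.1 hm.2.1 hne
  refine hP a ⟨i0, j0, hm.2.2.1, hm.2.1, ?_⟩ ?_ ?_ ?_
  · rw [ha i0 j0 hm.1 hm.2.1]
    exact mul_ne_zero (inv_ne_zero hne) hne
  · intro i j hi hij hj
    rw [ha i j (by omega) hj]
    simp only [hz, zz]
    rw [zv_not_mem (x := (i, j)) (by rw [mem_prs]; omega),
      zv_not_mem (x := (j, i)) (by rw [mem_prs]; omega)]
    simp
  · intro n hn
    have h1 := hv (Ln m q p n) (Or.inr (Or.inl ⟨n, hn, rfl⟩))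
    rw [D_eq_sum]
    have h2 : ∑ x ∈ (Finset.range m ×ˢ Finset.range m).filter (fun x => x.1 < x.2),
        (cf m p (3 * n + 3) 0 x.1 * cf m p (3 * n + 3) (0 + 1) x.2 -
          cf m p (3 * n + 3) 0 x.2 * cf m p (3 * n + 3) (0 + 1) x.1) • br (a x.1) (a x.2) =
        (z i0 j0)⁻¹ * MvPolynomial.aeval v (Ln m q p n) := by
      unfold Ln
      rw [map_sum, Finset.mul_sum]
      refine Finset.sum_congr rfl fun x hx => ?_
      rw [Finset.mem_filter, Finset.mem_product, Finset.mem_range, Finset.mem_range] at hx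
      rw [ha x.1 x.2 hx.1.1 hx.1.2, map_mul, MvPolynomial.aeval_C]
      simp only [co, hz, Complex.real_smul]
      change _ = _ * (((_ : ℝ) : ℂ) * _)
      ring
    rw [h2, h1, mul_zero]
  · have h1 := hv (zv m q (q - 1, m - 1)) (Or.inr (Or.inr rfl))
    rw [ha (q - 1) (m - 1) (by omega) (by omega)]
    simp only [hz]
    rw [zz_of_mem (last_mem hq hqm), h1, mul_zero]

theorem exists_pow (hq : 1 ≤ q) (hqm : q < m) (p : ℕ → ℕ → ℝ) (hP : Prp ℂ m q p) :
    ∃ n : ℕ, ∀ x ∈ prs m q, zv m q x ^ n ∈ Ideal.span (gens m q p) := by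
  have h1 : ∀ x : σ m q, ∃ n : ℕ, (MvPolynomial.X x : S m q) ^ n ∈ Ideal.span (gens m q p) := by
    intro x
    have h2 : (MvPolynomial.X x : S m q) ∈ (Ideal.span (gens m q p)).radical := by
      rw [← MvPolynomial.vanishingIdeal_zeroLocus_eq_radical (k := ℂ) (K := ℂ)]
      rw [MvPolynomial.mem_vanishingIdeal_iff]
      intro v hv
      rw [MvPolynomial.mem_zeroLocus_iff] at hv
      rw [MvPolynomial.aeval_X]
      exact point_zero hq hqm p hP v (fun f hf => hv f (Ideal.subset_span hf)) x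
    exact h2
  choose n hn using h1
  refine ⟨∑ x, n x, fun x hx => ?_⟩
  rw [zv_mem hx]
  have h3 : n ⟨x, hx⟩ ≤ ∑ x, n x := Finset.single_le_sum (fun _ _ => Nat.zero_le _)
    (Finset.mem_univ _)
  exact Ideal.mem_of_dvd _ (pow_dvd_pow _ h3) (hn ⟨x, hx⟩)

/-! ## The homomorphism `ψ` -/

variable (m q) in
/-- the target polynomial ring -/
abbrev P : Type := MvPolynomial (Fin (Nn m q)) ℂ

variable (m q) in
/-- `Z_x ↦ bb x * T` -/
noncomputable def ψ : S m q →ₐ[ℂ] Polynomial (P m q) :=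
  MvPolynomial.aeval (fun x : σ m q => Polynomial.C (bb m q x.1) * Polynomial.X)

theorem ψ_zv {x : ℕ × ℕ} (h : x ∈ prs m q) :
    ψ m q (zv m q x) = Polynomial.C (bb m q x) * Polynomial.X := by
  rw [zv_mem h, ψ, MvPolynomial.aeval_X]

theorem gch_fst {k : ℕ} (hk : q ≤ k) (hq : 1 ≤ q) : (gch m q k).1 = 0 := by
  unfold gch ch
  rw [if_neg (by omega), if_neg (by omega)]
  split_ifs <;> rfl

theorem bb_swap (i j : ℕ) : bb m q (j, i) = - bb m q (i, j) := by
  unfold bb; exact br_comm _ _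

theorem ψ_zz (hq : 1 ≤ q) {i j : ℕ} (hi : i < m) (hj : j < m) :
    ψ m q (zz m q i j) = Polynomial.C (bb m q (i, j)) * Polynomial.X := by
  by_cases h1 : (i, j) ∈ prs m q
  · rw [zz_of_mem h1, ψ_zv h1]
  by_cases h2 : (j, i) ∈ prs m q
  · unfold zz
    rw [zv_not_mem h1, zero_sub, map_neg, ψ_zv h2, bb_swap, Polynomial.C_neg]
    ring
  · unfold zz
    rw [zv_not_mem h1, zv_not_mem h2, sub_zero, map_zero]
    have h3 : bb m q (i, j) = 0 := by
      rw [mem_prs] at h1 h2
      unfold bb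
      rcases lt_trichotomy i j with h | h | h
      · simp only [br, gch_fst (m := m) (k := i) (by omega) hq,
          gch_fst (m := m) (k := j) (by omega) hq]
        ring
      · subst h
        exact br_self _
      · simp only [br, gch_fst (m := m) (k := i) (by omega) hq,
          gch_fst (m := m) (k := j) (by omega) hq]
        ring
    rw [h3, Polynomial.C_0, zero_mul]

theorem ψ_Rl (hq : 1 ≤ q) {i j k l : ℕ} (hi : i < m) (hj : j < m) (hk : k < m) (hl : l < m) :
    ψ m q (Rl m q i j k l) = 0 := by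
  unfold Rl
  rw [map_add, map_sub, map_mul, map_mul, map_mul, ψ_zz hq hi hj, ψ_zz hq hk hl, ψ_zz hq hi hk,
    ψ_zz hq hj hl, ψ_zz hq hi hl, ψ_zz hq hj hk]
  have h := plucker (gch m q i) (gch m q j) (gch m q k) (gch m q l)
  have h' : bb m q (i, j) * bb m q (k, l) - bb m q (i, k) * bb m q (j, l) +
    bb m q (i, l) * bb m q (j, k) = 0 := h
  have h'' := congrArg (Polynomial.C) h'
  rw [Polynomial.C_add, Polynomial.C_sub, Polynomial.C_mul, Polynomial.C_mul, Polynomial.C_mul,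
    Polynomial.C_0] at h''
  linear_combination (Polynomial.X ^ 2) * h''

theorem ψ_Ln (hq : 1 ≤ q) (p : ℕ → ℕ → ℝ) (n : Fin (Nn m q)) :
    ψ m q (Ln m q p n) = Polynomial.C (ww m q p n) * Polynomial.X := by
  unfold Ln ww
  rw [D_eq_sum, map_sum, map_sum, Finset.sum_mul]
  refine Finset.sum_congr rfl fun x hx => ?_
  rw [Finset.mem_filter, Finset.mem_product, Finset.mem_range, Finset.mem_range] at hx
  rw [map_mul, ψ_zz hq hx.1.1 hx.1.2]
  have h1 : ∀ r : ℝ, ψ m q (MvPolynomial.C (r : ℂ)) =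
      Polynomial.C (algebraMap ℝ (P m q) r) := by
    intro r
    exact MvPolynomial.aeval_C _ _
  rw [h1, Algebra.smul_def, Polynomial.C_mul, mul_assoc]
  rfl

theorem ψ_last (hq : 1 ≤ q) (hqm : q < m) : ψ m q (zv m q (q - 1, m - 1)) = Polynomial.X := by
  rw [ψ_zv (last_mem hq hqm)]
  have h1 : bb m q (q - 1, m - 1) = 1 := by
    unfold bb gch ch
    rw [if_neg (by omega), if_pos rfl, if_neg (by omega), if_neg (by omega), if_neg (by omega),
      if_pos rfl]
    simp [br]
  rw [h1, Polynomial.C_1, one_mul]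

/-! ## Coefficients -/

theorem ψ_prod (s : Multiset (ℕ × ℕ)) (hs : ∀ x ∈ s, x ∈ prs m q) :
    ψ m q ((s.map (zv m q)).prod) =
      Polynomial.C ((s.map (bb m q)).prod) * Polynomial.X ^ (Multiset.card s) := by
  induction s using Multiset.induction_on with
  | empty => simp
  | cons x s ih =>
    rw [Multiset.map_cons, Multiset.prod_cons, map_mul, ih fun y hy => hs y
      (Multiset.mem_cons_of_mem hy), ψ_zv (hs x (Multiset.mem_cons_self x s)), Multiset.map_cons,
      Multiset.prod_cons, Multiset.card_cons, Polynomial.C_mul, pow_succ]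
    ring

theorem prod_toM {α M : Type*} [CommMonoid M] (f : α →₀ ℕ) (g : α → M) :
    ((Finsupp.toMultiset f).map g).prod = f.prod fun a n => g a ^ n := by
  rw [Finsupp.toMultiset_map, Finsupp.prod_toMultiset,
    Finsupp.prod_mapDomain_index (fun _ => pow_zero _) (fun _ _ _ => pow_add _ _ _)]

theorem coeff_mem (g : S m q) (n : ℕ) : (ψ m q g).coeff n ∈ Fl m q n := by
  classical
  induction g using MvPolynomial.induction_on' with
  | monomial u c =>
    have h1 : MvPolynomial.monomial u c = c • ((((Finsupp.toMultiset u).map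
        (fun x : σ m q => x.1)).map (zv m q)).prod) := by
      rw [Multiset.map_map]
      have h2 : (fun x : σ m q => zv m q x.1) = (fun x => (MvPolynomial.X x : S m q)) :=
        funext fun x => zv_mem x.2
      change _ = c • ((Finsupp.toMultiset u).map (fun x : σ m q => zv m q x.1)).prod
      rw [h2, ← MvPolynomial.C_mul', MvPolynomial.monomial_eq, prod_toM]
    rw [h1, map_smul, Polynomial.coeff_smul, ψ_prod]
    · rw [Polynomial.coeff_C_mul_X_pow]
      split_ifs with h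
      · refine Submodule.smul_mem _ _ (Submodule.subset_span ⟨_, ?_, h.symm, rfl⟩)
        intro y hy
        rw [Multiset.mem_map] at hy
        obtain ⟨x, -, rfl⟩ := hy
        exact x.2
      · rw [smul_zero]; exact Submodule.zero_mem _
    · intro y hy
      rw [Multiset.mem_map] at hy
      obtain ⟨x, -, rfl⟩ := hy
      exact x.2
  | add f g hf hg =>
    rw [map_add, Polynomial.coeff_add]
    exact Submodule.add_mem _ hf hg

variable (m q) in
/-- the right hand side of the statement -/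
noncomputable def Wd (p : ℕ → ℕ → ℝ) (d : ℕ) : Submodule ℂ (P m q) :=
  Fl m q d ⊔ ⨆ i : Fin (Nn m q), Submodule.map (LinearMap.mulLeft ℂ (ww m q p i)) (Fl m q d)

theorem coeff_ideal (hq : 1 ≤ q) (hqm : q < m) (p : ℕ → ℕ → ℝ) {f : S m q}
    (hf : f ∈ Ideal.span (gens m q p)) (h : S m q) (n : ℕ) :
    (ψ m q (h * f)).coeff (n + 1) ∈ Wd m q p n := by
  induction hf using Submodule.span_induction generalizing h with
  | mem f hf =>
    rcases hf with ⟨i, j, k, l, hi, hj, hk, hl, rfl⟩ | ⟨t, ht, rfl⟩ | hf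
    · rw [map_mul, ψ_Rl hq hi hj hk hl, mul_zero, Polynomial.coeff_zero]
      exact Submodule.zero_mem _
    · have h1 := ψ_Ln hq p ⟨t, ht⟩
      rw [map_mul, h1, ← mul_assoc, Polynomial.coeff_mul_X, Polynomial.coeff_mul_C]
      refine Submodule.mem_sup_right (Submodule.mem_iSup_of_mem ⟨t, ht⟩ ?_)
      refine ⟨(ψ m q h).coeff n, coeff_mem h n, ?_⟩
      exact mul_comm (ww m q p ⟨t, ht⟩) ((ψ m q h).coeff n)
    · rw [Set.mem_singleton_iff] at hf
      subst hf
      rw [map_mul, ψ_last hq hqm, Polynomial.coeff_mul_X]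
      exact Submodule.mem_sup_left (coeff_mem h n)
  | zero => rw [mul_zero, map_zero, Polynomial.coeff_zero]; exact Submodule.zero_mem _
  | add f g _ _ hf hg =>
    rw [mul_add, map_add, Polynomial.coeff_add]
    exact Submodule.add_mem _ (hf h) (hg h)
  | smul a f _ hf =>
    rw [smul_eq_mul, ← mul_assoc]
    exact hf (h * a)

theorem prod_mem (hq : 1 ≤ q) (hqm : q < m) (p : ℕ → ℕ → ℝ) {n : ℕ}
    (hn : ∀ x ∈ prs m q, zv m q x ^ n ∈ Ideal.span (gens m q p)) (d : ℕ)
    (hd : n * (prs m q).card ≤ d) (s : Multiset (ℕ × ℕ)) (hs : ∀ x ∈ s, x ∈ prs m q)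
    (hc : Multiset.card s = d + 1) : (s.map (bb m q)).prod ∈ Wd m q p d := by
  classical
  obtain ⟨x, hx, hxn⟩ : ∃ x ∈ prs m q, n ≤ s.count x := by
    by_contra hcon
    push Not at hcon
    have h1 : ∑ x ∈ prs m q, s.count x = Multiset.card s :=
      Multiset.sum_count_eq_card hs
    have h2 : ∑ x ∈ prs m q, s.count x ≤ ∑ x ∈ prs m q, n :=
      Finset.sum_le_sum fun x hx => (hcon x hx).le
    rw [Finset.sum_const, smul_eq_mul, mul_comm] at h2
    omega
  rw [Multiset.le_count_iff_replicate_le] at hxn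
  obtain ⟨t, rfl⟩ := Multiset.le_iff_exists_add.1 hxn
  have h1 := ψ_prod (Multiset.replicate n x + t) hs
  have h2 : (((Multiset.replicate n x + t).map (bb m q)).prod) =
      (ψ m q (((Multiset.replicate n x + t).map (zv m q)).prod)).coeff (d + 1) := by
    rw [h1, Polynomial.coeff_C_mul_X_pow, if_pos hc.symm]
  rw [h2, Multiset.map_add, Multiset.prod_add, Multiset.map_replicate, Multiset.prod_replicate,
    mul_comm]
  exact coeff_ideal hq hqm p (hn x hx) _ _

theorem Fl_le (hq : 1 ≤ q) (hqm : q < m) (p : ℕ → ℕ → ℝ) {n : ℕ}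
    (hn : ∀ x ∈ prs m q, zv m q x ^ n ∈ Ideal.span (gens m q p)) (d : ℕ)
    (hd : n * (prs m q).card ≤ d) : Fl m q (d + 1) ≤ Wd m q p d := by
  refine Submodule.span_le.2 fun f hf => ?_
  obtain ⟨s, hs, hc, hfs⟩ := hf
  rw [hfs]
  exact prod_mem hq hqm p hn d hd s hs hc

end Nst

theorem nst {m q : ℕ} (hq : 1 ≤ q) (hqm : q < m) (p : ℕ → ℕ → ℝ) (hP : Prp ℂ m q p) :
    ∃ d, Fl m q (d + 1) ≤ Fl m q d ⊔
      ⨆ i : Fin (Nn m q), Submodule.map (LinearMap.mulLeft ℂ (ww m q p i)) (Fl m q d) := by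
  obtain ⟨n, hn⟩ := Nst.exists_pow hq hqm p hP
  exact ⟨n * (prs m q).card, Nst.Fl_le hq hqm p hn _ le_rfl⟩

end TR
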