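import Pool.Agent.TR.Basic

/-!
Runs of a sequence and straight connections.
-/

namespace TR

/-- Cells of one row, consecutive ones of equal non-zero colour, are connected. -/
theorem row_conn {M K : ℕ} {c : ℕ → ℕ → SignType} {i j k : ℕ} (hij : i ≤ j) (hj : j ≤ M)
    (hk : k < K) (h0 : c i k ≠ 0) (h : ∀ l, i ≤ l → l < j → c l k = c (l + 1) k) :
    Conn M K c (i, k) (j, k) := by
  induction j, hij using Nat.le_induction with
  | base => exact Conn.refl _
  | succ j hij ih =>
    have h1 := ih (by omega) (fun l hl hl' => h l hl (by omega))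
    refine h1.trans (Conn.of_lk ⟨⟨by simp; omega, hk⟩, ⟨hj, hk⟩, Or.inl (Or.inl ⟨rfl, rfl⟩), ?_, ?_⟩)
    · exact h j hij (by omega)
    · have := h1.col_eq
      simp only at this
      rw [← this]; exact h0

/-- Cells of one column, consecutive ones of equal non-zero colour, are connected. -/
theorem column_conn {M K : ℕ} {c : ℕ → ℕ → SignType} {j k l : ℕ} (hkl : k ≤ l) (hl : l < K)
    (hj : j ≤ M) (h0 : c j k ≠ 0) (h : ∀ i, k ≤ i → i < l → c j i = c j (i + 1)) :
    Conn M K c (j, k) (j, l) := by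
  induction l, hkl using Nat.le_induction with
  | base => exact Conn.refl _
  | succ l hkl ih =>
    have h1 := ih (by omega) (fun i hi hi' => h i hi (by omega))
    refine h1.trans (Conn.of_lk ⟨⟨hj, by simp; omega⟩, ⟨hj, hl⟩,
      Or.inl (Or.inr (Or.inl ⟨rfl, rfl⟩)), ?_, ?_⟩)
    · exact h l hkl (by omega)
    · have := h1.col_eq
      simp only at this
      rw [← this]; exact h0

theorem chg_lt_of_change {α : Type*} [DecidableEq α] {s : ℕ → α} {i l j : ℕ} (hil : i ≤ l)
    (hlj : l < j) (h : s l ≠ s (l + 1)) : chg i s < chg j s := by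
  have h1 : chg i s ≤ chg l s := chg_mono hil s
  have h2 : chg (l + 1) s ≤ chg j s := chg_mono hlj s
  rw [chg_succ, if_pos h] at h2
  omega

theorem exists_change_of_chg_lt {α : Type*} [DecidableEq α] {s : ℕ → α} {i j : ℕ} (hij : i ≤ j)
    (h : chg i s < chg j s) : ∃ l, i ≤ l ∧ l < j ∧ s l ≠ s (l + 1) := by
  induction j, hij using Nat.le_induction with
  | base => exact absurd h (lt_irrefl _)
  | succ j hij ih =>
    by_cases hc : s j ≠ s (j + 1)
    · exact ⟨j, hij, by omega, hc⟩
    · rw [chg_succ, if_neg hc, add_zero] at h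
      obtain ⟨l, h1, h2, h3⟩ := ih h
      exact ⟨l, h1, by omega, h3⟩

theorem chg_eq_of_const {α : Type*} [DecidableEq α] {s : ℕ → α} {i j : ℕ} (hij : i ≤ j)
    (h : ∀ l, i ≤ l → l < j → s l = s (l + 1)) : chg i s = chg j s := by
  refine le_antisymm (chg_mono hij s) (not_lt.mp fun hlt => ?_)
  obtain ⟨l, h1, h2, h3⟩ := exists_change_of_chg_lt hij hlt
  exact h3 (h l h1 h2)

/-- A set of indices in pairwise different runs has at most `chg + 1` elements. -/
theorem runs {α : Type*} [DecidableEq α] {M : ℕ} (s : ℕ → α) (T : Finset ℕ)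
    (hT : ∀ i ∈ T, i ≤ M)
    (h : ∀ i ∈ T, ∀ j ∈ T, i < j → ∃ l, i ≤ l ∧ l < j ∧ s l ≠ s (l + 1)) :
    T.card ≤ chg M s + 1 := by
  have hinj : Set.InjOn (fun i => chg i s) (T : Set ℕ) := by
    intro i hi j hj hij
    simp only at hij
    rcases lt_trichotomy i j with hlt | heq | hgt
    · obtain ⟨l, h1, h2, h3⟩ := h i hi j hj hlt
      exact absurd hij (ne_of_lt (chg_lt_of_change h1 h2 h3))
    · exact heq
    · obtain ⟨l, h1, h2, h3⟩ := h j hj i hi hgt
      exact absurd hij.symm (ne_of_lt (chg_lt_of_change h1 h2 h3))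
  have hc : (T.image (fun i => chg i s)).card = T.card := Finset.card_image_of_injOn hinj
  rw [← hc]
  have hsub : T.image (fun i => chg i s) ⊆ Finset.range (chg M s + 1) := by
    intro x hx
    rw [Finset.mem_image] at hx
    obtain ⟨i, hi, rfl⟩ := hx
    rw [Finset.mem_range]
    exact Nat.lt_succ_of_le (chg_mono (hT i hi) s)
  calc (T.image (fun i => chg i s)).card ≤ (Finset.range (chg M s + 1)).card :=
        Finset.card_le_card hsub
    _ = chg M s + 1 := Finset.card_range _

end TR
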