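import Pool.Agent.TR.Basic

/-!
MODULE SEQ (perturbing a sequence of non-zero vectors of the plane).

x 0, ..., x M non-zero, c j = 1 or -1 prescribed for 1 <= j <= M, equal to the sign of
br (x (j-1)) (x j) whenever this is non-zero.  Then there are x' arbitrarily close to x, x' 0 = x 0,
with all brackets of the prescribed signs.
Proof: induction on M.  For M + 1 let w = rot (x M) = (-(x M).2, (x M).1), br (x M) w = |x M|^2 > 0.
If br (x M) (x (M+1)) <> 0: take x' (M+1) = x (M+1) and the induction hypothesis with a smaller eps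
(continuity).  If it is 0: first fix s > 0 with s |w| < eps, y = x (M+1) + c (M+1) s w,
br (x M) y = c (M+1) s |x M|^2 <> 0; then choose by induction x' on 0..M so close to x that
br (x' M) y still has the sign c (M+1); x' (M+1) = y (`Function.update`).
Distances: any norm on R x R.
-/

namespace TR

theorem seq_open (y : ℝ × ℝ) (c : SignType) (hc : c ≠ 0) :
    IsOpen {z : ℝ × ℝ | SignType.sign (br z y) = c} := by
  have hcont : Continuous (fun z : ℝ × ℝ => br z y) := by
    unfold br
    fun_prop
  rcases c.trichotomy with h | h | h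
  · subst h
    simp only [sign_eq_neg_one_iff]
    exact isOpen_lt hcont continuous_const
  · exact absurd h hc
  · subst h
    simp only [sign_eq_one_iff]
    exact isOpen_lt continuous_const hcont

/-- the choice of the next vector. -/
theorem seq_next (u v : ℝ × ℝ) (hu : u ≠ 0) (c : SignType) (hc0 : c ≠ 0)
    (hc : br u v ≠ 0 → c = SignType.sign (br u v)) {ε : ℝ} (hε : 0 < ε) :
    ∃ y : ℝ × ℝ, ‖y - v‖ < ε ∧ SignType.sign (br u y) = c := by
  by_cases h0 : br u v = 0
  · have hsq : 0 < u.1 * u.1 + u.2 * u.2 := by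
      have h1 : u.1 ≠ 0 ∨ u.2 ≠ 0 := by
        by_contra h
        push Not at h
        exact hu (Prod.ext h.1 h.2)
      rcases h1 with h1 | h1
      · have := mul_self_pos.2 h1
        nlinarith [mul_self_nonneg u.2]
      · have := mul_self_pos.2 h1
        nlinarith [mul_self_nonneg u.1]
    set w : ℝ × ℝ := (-u.2, u.1) with hw
    have hbr : br u w = u.1 * u.1 + u.2 * u.2 := by
      simp only [br, hw]
      ring
    set s : ℝ := ε / (2 * (‖w‖ + 1)) with hs
    have hwn : 0 ≤ ‖w‖ := norm_nonneg _
    have hs0 : 0 < s := by positivity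
    have hsw : s * ‖w‖ < ε := by
      rw [hs, div_mul_eq_mul_div, div_lt_iff₀ (by positivity)]
      nlinarith
    have hnorm : ∀ t : ℝ, |t| = s → ‖(v + t • w) - v‖ < ε := by
      intro t ht
      rw [add_sub_cancel_left, norm_smul, Real.norm_eq_abs, ht]
      exact hsw
    have hval : ∀ t : ℝ, br u (v + t • w) = t * (u.1 * u.1 + u.2 * u.2) := by
      intro t
      rw [br_add_right, br_mul_right, h0, hbr, zero_add]
    rcases c.trichotomy with h | h | h
    · refine ⟨v + (-s) • w, hnorm _ ?_, ?_⟩
      · rw [abs_neg, abs_of_pos hs0]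
      · rw [h, sign_eq_neg_one_iff, hval]
        nlinarith [mul_pos hs0 hsq]
    · exact absurd h hc0
    · refine ⟨v + s • w, hnorm _ (abs_of_pos hs0), ?_⟩
      rw [h, sign_eq_one_iff, hval]
      exact mul_pos hs0 hsq
  · refine ⟨v, ?_, (hc h0).symm⟩
    rw [sub_self, norm_zero]
    exact hε

theorem seq_perturb (M : ℕ) (x : ℕ → ℝ × ℝ) (hx : ∀ j ≤ M, x j ≠ 0) (c : ℕ → SignType)
    (hc0 : ∀ j, 1 ≤ j → j ≤ M → c j ≠ 0)
    (hc : ∀ j, 1 ≤ j → j ≤ M → br (x (j - 1)) (x j) ≠ 0 →
      c j = SignType.sign (br (x (j - 1)) (x j)))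
    {ε : ℝ} (hε : 0 < ε) :
    ∃ x' : ℕ → ℝ × ℝ, x' 0 = x 0 ∧ (∀ j ≤ M, ‖x' j - x j‖ < ε) ∧
      ∀ j, 1 ≤ j → j ≤ M → SignType.sign (br (x' (j - 1)) (x' j)) = c j := by
  induction M generalizing ε with
  | zero =>
    refine ⟨x, rfl, ?_, ?_⟩
    · intro j _
      rw [sub_self, norm_zero]
      exact hε
    · intro j h1 h2
      omega
  | succ M ih =>
    obtain ⟨y, hy1, hy2⟩ := seq_next (x M) (x (M + 1)) (hx M (by omega)) (c (M + 1))
      (hc0 (M + 1) (by omega) le_rfl) (fun h => hc (M + 1) (by omega) le_rfl h) hε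
    have hopen := seq_open y (c (M + 1)) (hc0 (M + 1) (by omega) le_rfl)
    rw [Metric.isOpen_iff] at hopen
    obtain ⟨δ, hδ, hball⟩ := hopen (x M) hy2
    obtain ⟨x', h0, h1, h2⟩ := ih (fun j hj => hx j (by omega))
      (fun j hj hj' => hc0 j hj (by omega)) (fun j hj hj' => hc j hj (by omega))
      (lt_min hε hδ)
    refine ⟨Function.update x' (M + 1) y, ?_, ?_, ?_⟩
    · rw [Function.update_of_ne (by omega)]
      exact h0
    · intro j hj
      rcases Nat.lt_or_ge j (M + 1) with hj' | hj'
      · rw [Function.update_of_ne (by omega)]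
        exact (h1 j (by omega)).trans_le (min_le_left _ _)
      · obtain rfl : j = M + 1 := by omega
        rw [Function.update_self]
        exact hy1
    · intro j hj hj'
      rcases Nat.lt_or_ge j (M + 1) with hlt | hge
      · rw [Function.update_of_ne (by omega), Function.update_of_ne (by omega)]
        exact h2 j hj (by omega)
      · obtain rfl : j = M + 1 := by omega
        rw [Function.update_self, Function.update_of_ne (by omega), Nat.add_sub_cancel]
        have h3 : x' M ∈ Metric.ball (x M) δ := by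
          rw [Metric.mem_ball, dist_eq_norm]
          exact (h1 M le_rfl).trans_le (min_le_right _ _)
        exact hball h3

end TR
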