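import Pool.Agent.TR.Clean
import Pool.Agent.TR.Chart

/-!
Properness from the smaller cases.
-/

namespace TR

theorem mk_mono {K : Type*} [CommRing K] [Algebra ℝ K] {m : ℕ} {p : ℕ → ℕ → ℝ}
    {a : ℕ → K × K} {n n' : ℕ} (h : n' ≤ n) (hm : Mk m p a n) : Mk m p a n' :=
  fun i hi => hm i (lt_of_lt_of_le hi h)

theorem mk_ofReal {m q n n' : ℕ} (p : ℕ → ℕ → ℝ) (w : Fin n → ℝ) :
    Mk m p (ch m q (fun i => (w i : ℂ))) n' ↔ Mk m p (ch m q w) n' := by
  have key : ∀ j k, D m p (ch m q (fun i => (w i : ℂ))) j k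
      = ((D m p (ch m q w) j k : ℝ) : ℂ) := by
    intro j k
    have h1 : ch m q (fun i => (w i : ℂ)) =
        fun i => (((ch m q w i).1 : ℂ), ((ch m q w i).2 : ℂ)) := by
      funext i; exact ch_ofReal w i
    have h2 := D_map (Algebra.ofId ℝ ℂ) (m := m) p (ch m q w) j k
    rw [h1]; exact h2
  constructor
  · intro h i hi
    have := h i hi
    rw [key] at this
    exact_mod_cast this
  · intro h i hi
    rw [key, h i hi]; simp

theorem no_extra_complex {m q : ℕ} (hq : 1 ≤ q) (hqm : q < m) {p : ℕ → ℕ → ℝ} (hp : Pos p)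
    (T : TT m q p) (a : ℕ → ℂ × ℂ) (hr : Rk m a) (hc : Cl m q a)
    (hk : Mk m p a (Nn m q + 1)) : False := by
  have hk0 : Mk m p a (Nn m q) := mk_mono (by omega) hk
  have hd := T.prp a hr hc hk0
  obtain ⟨v, α, β, γ, δ, hdet, hv⟩ := chart_exists hq hqm a hc hd
  have h1 : ∀ n, Mk m p a n ↔ Mk m p (ch m q v) n := by
    intro n
    rw [← mk_gl p hdet (ch m q v) n]
    exact mk_congr (fun _ _ _ _ => rfl) hv
  have hs : v ∈ Sol ℂ m q p := (h1 _).mp hk0
  obtain ⟨w, hw, rfl⟩ := T.real v hs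
  have h2 := (h1 _).mp hk
  rw [mk_ofReal] at h2
  exact no_extra hq hqm hp (nf_ch hq hqm w) h2

theorem br_parallel {u v w : ℂ × ℂ} (hw : w ≠ 0) (h1 : br u w = 0) (h2 : br v w = 0) :
    br u v = 0 := by
  by_contra h
  apply hw
  unfold br at h1 h2 h
  have e1 : (u.1 * v.2 - u.2 * v.1) * w.1 = 0 := by linear_combination v.1 * h1 - u.1 * h2
  have e2 : (u.1 * v.2 - u.2 * v.1) * w.2 = 0 := by linear_combination v.2 * h1 - u.2 * h2
  ext
  · exact (mul_eq_zero.mp e1).resolve_left h
  · exact (mul_eq_zero.mp e2).resolve_left h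

theorem stepA {m q : ℕ} (hq : 1 ≤ q) (hqm : q < m)
    (ih0 : 2 ≤ q → ∀ p, Pos p → TT m (q - 1) p)
    (ih1 : ∀ q', 1 ≤ q' → q' < m - 1 → q' ≤ q → ∀ p, Pos p → TT (m - 1) q' p)
    (p : ℕ → ℕ → ℝ) (hp : Pos p) : Prp ℂ m q p := by
  intro a hr hc hk hd
  by_cases h0 : a (m - 1) = 0
  · -- the last column vanishes
    obtain ⟨i, j, hij, hj, hb⟩ := hr
    have hj' : j < m - 1 := by
      rcases Nat.lt_or_ge j (m - 1) with h | h
      · exact h
      · exfalso
        have : j = m - 1 := by omega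
        rw [this, h0, br_zero_right] at hb
        exact hb rfl
    have hm3 : 3 ≤ m := by omega
    set q' := min q (m - 2) with hq'
    have hq1 : 1 ≤ q' := by omega
    have hq2 : q' < m - 1 := by omega
    have T := ih1 q' hq1 hq2 (by omega) p hp
    refine no_extra_complex hq1 hq2 hp T a ⟨i, j, hij, hj', hb⟩ ?_ ?_
    · intro k l hk' hkl hl
      exact hc k l (by omega) hkl (by omega)
    · intro i hi
      have h1 := hk i (by unfold Nn at *; omega)
      have h2 := D_trunc (m := m - 1) p a h0 (3 * i + 3) 0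
      rw [show m - 1 + 1 = m by omega] at h2
      rw [← h2]; exact h1
  · have hall : ∀ i, q - 1 ≤ i → i < m → br (a i) (a (m - 1)) = 0 := by
      intro i hi him
      rcases Nat.lt_or_ge i q with h | h
      · rw [show i = q - 1 by omega]; exact hd
      · rcases Nat.lt_or_ge i (m - 1) with h' | h'
        · exact hc i (m - 1) h h' (by omega)
        · rw [show i = m - 1 by omega]; exact br_self _
    have hc' : Cl m (q - 1) a := by
      intro i j hi hij hj
      exact br_parallel h0 (hall i hi (by omega)) (hall j (by omega) hj)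
    rcases Nat.lt_or_ge q 2 with h2 | h2
    · obtain ⟨i, j, hij, hj, hb⟩ := hr
      exact hb (hc' i j (by omega) hij hj)
    · refine no_extra_complex (by omega) (by omega) hp (ih0 h2 p hp) a hr hc' ?_
      refine mk_mono ?_ hk
      unfold Nn; omega

end TR
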