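import Pool.Agent.TR.Near1
import Pool.Agent.TR.StepA
import Pool.Agent.TR.Chains

/-!
The starting point of the continuation: enough real solutions with distinct labels.
-/

open Filter Topology

namespace TR

theorem TT.real_card {m q : ℕ} {p : ℕ → ℕ → ℝ} (T : TT m q p) (hc : 0 < cnt m q) :
    (Sol ℝ m q p).Finite ∧ (Sol ℝ m q p).ncard = cnt m q := by
  have himg : (fun (w : Fin (Nn m q) → ℝ) => (fun i => (w i : ℂ))) '' (Sol ℝ m q p)
      = Sol ℂ m q p := by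
    ext v
    constructor
    · rintro ⟨w, hw, rfl⟩
      exact (sol_ofReal p w).mpr hw
    · intro hv
      obtain ⟨w, hw, rfl⟩ := T.real v hv
      exact ⟨w, hw, rfl⟩
  have hinj : Function.Injective (fun (w : Fin (Nn m q) → ℝ) => (fun i => (w i : ℂ))) := by
    intro w w' h
    funext i
    exact Complex.ofReal_injective (congrFun h i)
  have hn : (Sol ℝ m q p).ncard = cnt m q := by
    rw [← T.card, ← himg, Set.ncard_image_of_injective _ hinj]
  exact ⟨Set.finite_of_ncard_pos (by omega), hn⟩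

theorem nr_pos {m q : ℕ} {s : ℝ} (hs : 0 < s) {p : ℕ → ℕ → ℝ} (hp : Pos p) :
    Pos (nr m q s p) := by
  intro j k
  unfold nr
  split_ifs
  · exact hp j k
  · positivity
  · norm_num

theorem start {m q : ℕ} (hq : 1 ≤ q) (hqm : q < m) (hm : 3 ≤ m) {p : ℕ → ℕ → ℝ} (hp : Pos p)
    (ih0 : 2 ≤ q → TT m (q - 1) p) (ih1 : q < m - 1 → TT (m - 1) q p)
    (hprp : ∀ s : ℝ, 0 < s → Prp ℂ m q (nr m q s p)) :
    ∃ s : ℝ, 0 < s ∧ ∃ W : Finset (Fin (Nn m q) → ℝ), W.card = cnt m q ∧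
      (∀ w ∈ W, w ∈ Sol ℝ m q (nr m q s p)) ∧
      ∀ w ∈ W, ∀ w' ∈ W, (∀ i ≤ Nn m q, ∀ j ≤ Nn m q,
        (lab m q (nr m q s p) (ch m q w) i j ↔ lab m q (nr m q s p) (ch m q w') i j)) →
        w = w' := by
  classical
  -- the two finite sets of limit points
  obtain ⟨S0, hS0c, hS0⟩ : ∃ S0 : Finset (Fin (Nn m (q - 1)) → ℝ),
      S0.card = (if 2 ≤ q then cnt m (q - 1) else 0) ∧
      ∀ u ∈ S0, 2 ≤ q ∧ u ∈ Sol ℝ m (q - 1) p := by
    by_cases h : 2 ≤ q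
    · obtain ⟨hf, hc⟩ := (ih0 h).real_card (cnt_pos (by omega) (by omega))
      refine ⟨hf.toFinset, ?_, fun u hu => ⟨h, hf.mem_toFinset.mp hu⟩⟩
      rw [if_pos h, ← hc, Set.ncard_eq_toFinset_card _ hf]
    · exact ⟨∅, by simp [h], by simp⟩
  obtain ⟨S1, hS1c, hS1⟩ : ∃ S1 : Finset (Fin (Nn (m - 1) q) → ℝ),
      S1.card = (if q ≤ m - 2 then cnt (m - 1) q else 0) ∧
      ∀ u ∈ S1, q < m - 1 ∧ u ∈ Sol ℝ (m - 1) q p := by
    by_cases h : q ≤ m - 2
    · have h' : q < m - 1 := by omega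
      obtain ⟨hf, hc⟩ := (ih1 h').real_card (cnt_pos (by omega) (by omega))
      refine ⟨hf.toFinset, ?_, fun u hu => ⟨h', hf.mem_toFinset.mp hu⟩⟩
      rw [if_pos h, ← hc, Set.ncard_eq_toFinset_card _ hf]
    · exact ⟨∅, by simp [h], by simp⟩
  have e0 : ∀ᶠ s in 𝓝[>] (0 : ℝ), ∀ u ∈ S0, ∃ w ∈ Sol ℝ m q (nr m q s p),
      (∀ i < Nn m q, ∀ j < Nn m q, (lab m q (nr m q s p) (ch m q w) i j ↔
        lab m (q - 1) p (ch m (q - 1) u) i j)) ∧
      ∃ i < Nn m q, lab m q (nr m q s p) (ch m q w) (Nn m q) i := by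
    rw [Filter.eventually_all_finset]
    intro u hu
    exact near0 (hS0 u hu).1 hqm hp hprp (hS0 u hu).2 ((ih0 (hS0 u hu).1).nd u (hS0 u hu).2)
  have e1 : ∀ᶠ s in 𝓝[>] (0 : ℝ), ∀ u ∈ S1, ∃ w ∈ Sol ℝ m q (nr m q s p),
      (∀ i < Nn m q, ∀ j < Nn m q, (lab m q (nr m q s p) (ch m q w) i j ↔
        lab (m - 1) q p (ch (m - 1) q u) i j)) ∧
      ∀ i < Nn m q, ¬ lab m q (nr m q s p) (ch m q w) (Nn m q) i := by
    rw [Filter.eventually_all_finset]
    intro u hu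
    exact near1 hq (hS1 u hu).1 hp hprp (hS1 u hu).2 ((ih1 (hS1 u hu).1).nd u (hS1 u hu).2)
  have e2 : ∀ᶠ s in 𝓝[>] (0 : ℝ), 0 < s := eventually_mem_nhdsWithin
  obtain ⟨s, h0, h1, hs⟩ := (e0.and (e1.and e2)).exists
  choose! g0 hg0 hg0l hg0j using h0
  choose! g1 hg1 hg1l hg1j using h1
  have hN0 : ∀ (h : 2 ≤ q), Nn m (q - 1) < Nn m q := by intro h; unfold Nn; omega
  have hN1 : ∀ (h : q < m - 1), Nn (m - 1) q < Nn m q := by intro h; unfold Nn; omega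
  have inj0 : ∀ u ∈ S0, ∀ u' ∈ S0, (∀ i ≤ Nn m q, ∀ j ≤ Nn m q,
      (lab m q (nr m q s p) (ch m q (g0 u)) i j ↔
        lab m q (nr m q s p) (ch m q (g0 u')) i j)) → u = u' := by
    intro u hu u' hu' h
    have hq2 := (hS0 u hu).1
    refine (ih0 hq2).labs u (hS0 u hu).2 u' (hS0 u' hu').2 fun i hi j hj => ?_
    have hlt := hN0 hq2
    rw [← hg0l u hu i (by omega) j (by omega), ← hg0l u' hu' i (by omega) j (by omega)]
    exact h i (by omega) j (by omega)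
  have inj1 : ∀ u ∈ S1, ∀ u' ∈ S1, (∀ i ≤ Nn m q, ∀ j ≤ Nn m q,
      (lab m q (nr m q s p) (ch m q (g1 u)) i j ↔
        lab m q (nr m q s p) (ch m q (g1 u')) i j)) → u = u' := by
    intro u hu u' hu' h
    have hq2 := (hS1 u hu).1
    refine (ih1 hq2).labs u (hS1 u hu).2 u' (hS1 u' hu').2 fun i hi j hj => ?_
    have hlt := hN1 hq2
    rw [← hg1l u hu i (by omega) j (by omega), ← hg1l u' hu' i (by omega) j (by omega)]
    exact h i (by omega) j (by omega)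
  have dis : ∀ u ∈ S0, ∀ u' ∈ S1, ¬ (∀ i ≤ Nn m q, ∀ j ≤ Nn m q,
      (lab m q (nr m q s p) (ch m q (g0 u)) i j ↔
        lab m q (nr m q s p) (ch m q (g1 u')) i j)) := by
    intro u hu u' hu' h
    obtain ⟨i, hi, hi'⟩ := hg0j u hu
    exact hg1j u' hu' i hi ((h _ le_rfl i hi.le).mp hi')
  refine ⟨s, hs, S0.image g0 ∪ S1.image g1, ?_, ?_, ?_⟩
  · rw [Finset.card_union_of_disjoint, Finset.card_image_of_injOn, Finset.card_image_of_injOn,
      hS0c, hS1c, cnt_rec hq hqm hm]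
    · intro u hu u' hu' h
      exact inj1 u hu u' hu' (by rw [h]; simp)
    · intro u hu u' hu' h
      exact inj0 u hu u' hu' (by rw [h]; simp)
    · rw [Finset.disjoint_left]
      intro w hw hw'
      rw [Finset.mem_image] at hw hw'
      obtain ⟨u, hu, rfl⟩ := hw
      obtain ⟨u', hu', h⟩ := hw'
      exact dis u hu u' hu' (by rw [h]; simp)
  · intro w hw
    rw [Finset.mem_union, Finset.mem_image, Finset.mem_image] at hw
    rcases hw with ⟨u, hu, rfl⟩ | ⟨u, hu, rfl⟩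
    · exact hg0 u hu
    · exact hg1 u hu
  · intro w hw w' hw' h
    rw [Finset.mem_union, Finset.mem_image, Finset.mem_image] at hw hw'
    rcases hw with ⟨u, hu, rfl⟩ | ⟨u, hu, rfl⟩ <;> rcases hw' with ⟨u', hu', rfl⟩ | ⟨u', hu', rfl⟩
    · rw [inj0 u hu u' hu' h]
    · exact absurd h (dis u hu u' hu')
    · exact absurd (fun i hi j hj => (h i hi j hj).symm) (dis u' hu' u hu)
    · rw [inj1 u hu u' hu' h]

end TR
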