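import Pool.Agent.TR.AlgDefs

/-!
MODULE STRAIGHT (straightening).

Strong induction on mu(s) = sum over (i,j) in s of (j - i)^2.  If s is a chain we are done.
Otherwise there are two incomparable elements of s: (i,l), (j,k) with i < j and k < l; since
(j,k) is a pair, i < j < k < l.  They are different, so s = (i,l) ::ₘ (j,k) ::ₘ s0.  By hpl
  prod s = b(i,k) b(j,l) prod s0 - b(i,j) b(k,l) prod s0.
The first product has smaller mu: (k-i)^2 + (l-j)^2 = (l-i)^2 + (k-j)^2 - 2 (j-i)(l-k), and its
pairs are allowed (i, j < q because (j,k) is allowed).  The second: if q <= k it is 0 (hz);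
otherwise the pairs (i,j), (k,l) are allowed and (j-i)^2 + (l-k)^2 < (l-i)^2 + (k-j)^2.
(If i = j or k = l the elements are comparable.)
-/

namespace TR

theorem str_mem_prs {m q : ℕ} {x : ℕ × ℕ} : x ∈ prs m q ↔ x.1 < x.2 ∧ x.2 < m ∧ x.1 < q := by
  unfold prs
  rw [Finset.mem_filter, Finset.mem_product, Finset.mem_range, Finset.mem_range]
  constructor
  · rintro ⟨⟨_, h2⟩, h3, h4⟩
    exact ⟨h3, h2, h4⟩
  · rintro ⟨h1, h2, h3⟩
    exact ⟨⟨by omega, h2⟩, h1, h3⟩

/-- The weight used in the straightening. -/
private def smu (s : Multiset (ℕ × ℕ)) : ℕ := (s.map (fun x => (x.2 - x.1) ^ 2)).sum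

private theorem smu_cons (x : ℕ × ℕ) (s : Multiset (ℕ × ℕ)) :
    smu (x ::ₘ s) = (x.2 - x.1) ^ 2 + smu s := by
  unfold smu
  rw [Multiset.map_cons, Multiset.sum_cons]

/-- Two incomparable elements. -/
private theorem exists_incomp {s : Multiset (ℕ × ℕ)} (h : ¬ IsCh s) :
    ∃ x ∈ s, ∃ y ∈ s, x.1 < y.1 ∧ y.2 < x.2 := by
  unfold IsCh at h
  push Not at h
  obtain ⟨x, hx, y, hy, h1, h2⟩ := h
  by_cases hc : x.1 ≤ y.1
  · have h3 := h1 hc
    refine ⟨x, hx, y, hy, ?_, h3⟩
    by_contra hc'
    have := h2 (by omega)
    omega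
  · have h3 := h2 (by omega)
    exact ⟨y, hy, x, hx, by omega, h3⟩

theorem straighten {A : Type*} [CommRing A] [Algebra ℂ A] {m q : ℕ} (b : ℕ × ℕ → A)
    (hpl : ∀ i j k l, i < j → j < k → k < l → l < m →
      b (i, l) * b (j, k) = b (i, k) * b (j, l) - b (i, j) * b (k, l))
    (hz : ∀ k l, q ≤ k → k < l → l < m → b (k, l) = 0)
    (s : Multiset (ℕ × ℕ)) (hs : ∀ x ∈ s, x ∈ prs m q) :
    (s.map b).prod ∈ Submodule.span ℂ {f | ∃ s' : Multiset (ℕ × ℕ),
      (∀ x ∈ s', x ∈ prs m q) ∧ Multiset.card s' = Multiset.card s ∧ IsCh s' ∧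
        f = (s'.map b).prod} := by
  classical
  induction hn : smu s using Nat.strong_induction_on generalizing s with
  | _ n ih =>
    by_cases hch : IsCh s
    · exact Submodule.subset_span ⟨s, hs, rfl, hch, rfl⟩
    · obtain ⟨⟨i, l⟩, hx, ⟨j, k⟩, hy, hij, hkl⟩ := exists_incomp hch
      simp only at hij hkl
      have hxp := str_mem_prs.mp (hs _ hx)
      have hyp := str_mem_prs.mp (hs _ hy)
      simp only at hxp hyp
      obtain ⟨s1, hs1⟩ := Multiset.exists_cons_of_mem hx
      have hy1 : (j, k) ∈ s1 := by
        rw [hs1, Multiset.mem_cons] at hy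
        rcases hy with h | h
        · rw [Prod.mk.injEq] at h
          omega
        · exact h
      obtain ⟨s0, hs0⟩ := Multiset.exists_cons_of_mem hy1
      subst hs0
      subst hs1
      have hs0' : ∀ x ∈ s0, x ∈ prs m q := fun x hx' =>
        hs x (Multiset.mem_cons_of_mem (Multiset.mem_cons_of_mem hx'))
      have hprod : ((((i, l) ::ₘ (j, k) ::ₘ s0)).map b).prod =
          (((i, k) ::ₘ (j, l) ::ₘ s0).map b).prod - (((i, j) ::ₘ (k, l) ::ₘ s0).map b).prod := by
        simp only [Multiset.map_cons, Multiset.prod_cons]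
        have := hpl i j k l hij hyp.1 hkl hxp.2.1
        linear_combination (Multiset.map b s0).prod * this
      obtain ⟨a, rfl⟩ : ∃ a, j = i + a + 1 := ⟨j - i - 1, by omega⟩
      obtain ⟨c, rfl⟩ : ∃ c, k = i + a + 1 + c + 1 := ⟨k - (i + a + 1) - 1, by omega⟩
      obtain ⟨d, rfl⟩ : ∃ d, l = i + a + 1 + c + 1 + d + 1 :=
        ⟨l - (i + a + 1 + c + 1) - 1, by omega⟩
      rw [smu_cons, smu_cons] at hn
      simp only at hn
      have e1 : i + a + 1 + c + 1 + d + 1 - i = a + c + d + 3 := by omega
      have e2 : i + a + 1 + c + 1 - (i + a + 1) = c + 1 := by omega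
      rw [e1, e2] at hn
      rw [hprod]
      apply Submodule.sub_mem
      · have h1 := ih (smu ((i, i + a + 1 + c + 1) ::ₘ (i + a + 1, i + a + 1 + c + 1 + d + 1) ::ₘ
            s0)) (by
              rw [smu_cons, smu_cons]
              simp only
              have e3 : i + a + 1 + c + 1 - i = a + c + 2 := by omega
              have e4 : i + a + 1 + c + 1 + d + 1 - (i + a + 1) = c + d + 2 := by omega
              rw [e3, e4, ← hn]
              nlinarith [Nat.zero_le a, Nat.zero_le c, Nat.zero_le d, Nat.zero_le (a * d)])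
          ((i, i + a + 1 + c + 1) ::ₘ (i + a + 1, i + a + 1 + c + 1 + d + 1) ::ₘ s0) (by
            intro x hx'
            rw [Multiset.mem_cons, Multiset.mem_cons] at hx'
            rcases hx' with rfl | rfl | h
            · rw [str_mem_prs]
              simp only
              omega
            · rw [str_mem_prs]
              simp only
              omega
            · exact hs0' x h) rfl
        simpa only [Multiset.card_cons] using h1
      · by_cases hqk : q ≤ i + a + 1 + c + 1
        · have h0 := hz _ _ hqk hkl hxp.2.1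
          rw [Multiset.map_cons, Multiset.prod_cons, Multiset.map_cons, Multiset.prod_cons, h0,
            zero_mul, mul_zero]
          exact Submodule.zero_mem _
        · have h1 := ih (smu ((i, i + a + 1) ::ₘ
            (i + a + 1 + c + 1, i + a + 1 + c + 1 + d + 1) ::ₘ s0)) (by
              rw [smu_cons, smu_cons]
              simp only
              have e3 : i + a + 1 - i = a + 1 := by omega
              have e4 : i + a + 1 + c + 1 + d + 1 - (i + a + 1 + c + 1) = d + 1 := by omega
              rw [e3, e4, ← hn]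
              nlinarith [Nat.zero_le a, Nat.zero_le c, Nat.zero_le d, Nat.zero_le (a * d),
                Nat.zero_le (a * c), Nat.zero_le (c * d)])
            ((i, i + a + 1) ::ₘ (i + a + 1 + c + 1, i + a + 1 + c + 1 + d + 1) ::ₘ s0) (by
              intro x hx'
              rw [Multiset.mem_cons, Multiset.mem_cons] at hx'
              rcases hx' with rfl | rfl | h
              · rw [str_mem_prs]
                simp only
                omega
              · rw [str_mem_prs]
                simp only
                omega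
              · exact hs0' x h) rfl
          simpa only [Multiset.card_cons] using h1

end TR
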