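import Pool.Agent.TR.Final2

/-!
Total reality for totally positive configurations: `6 n + 1 + (n + 2)` vectors of `ℝ^(n+2)` with all
maximal minors (rows in increasing order) of one sign; the planes are spanned by the vectors
`3 i + 1, 3 i + 2`, `i < 2 n`; the vectors `3 i` and the last `n + 2` ones are auxiliary.
-/

open Submodule

namespace TR

theorem tp_real {n : ℕ} (hn : 1 ≤ n) (g : ℕ → Fin (n + 2) → ℝ) {ε : ℝ} (hε : ε = 1 ∨ ε = -1)
    (hpos : ∀ σ : Fin (n + 2) → ℕ, StrictMono σ → (∀ i, σ i < 6 * n + 1 + (n + 2)) →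
      0 < ε * Matrix.det (fun i => g (σ i))) :
    {V : Submodule ℂ (Fin (n + 2) → ℂ) | Module.finrank ℂ V = n ∧
      ∀ i < 2 * n, V ⊓ span ℂ {cxv (g (3 * i + 1)), cxv (g (3 * i + 2))} ≠ ⊥}.ncard = catalan n ∧
    ∀ V : Submodule ℂ (Fin (n + 2) → ℂ), Module.finrank ℂ V = n →
      (∀ i < 2 * n, V ⊓ span ℂ {cxv (g (3 * i + 1)), cxv (g (3 * i + 2))} ≠ ⊥) → IsRealSub V := by
  obtain ⟨p, hp, hp'⟩ := fact (by omega) (M := 6 * n + 1) g hε hpos
  have hN : Nn (n + 2) (n + 2 - 1) = 2 * n := by unfold Nn; omega
  have hindep : ∀ σ : Fin (n + 2) → ℕ, StrictMono σ → (∀ i, σ i < 6 * n + 1 + (n + 2)) →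
      LinearIndependent ℝ (fun i => g (σ i)) := by
    intro σ h1 h2
    have h3 : Matrix.det (fun i => g (σ i)) ≠ 0 := by
      intro h0
      have := hpos σ h1 h2
      rw [h0, mul_zero] at this
      exact lt_irrefl _ this
    exact Matrix.linearIndependent_rows_of_det_ne_zero h3
  have hcd : CD (n + 2) p (fun k => (-1 : ℝ) ^ k • g (6 * n + 1 + k))
      (fun i => g (3 * (2 * n - 1 - i) + 2)) (fun i => - g (3 * (2 * n - 1 - i) + 1)) := by
    refine ⟨hp, ?_, ⟨0, fun i hi => ?_⟩, fun i hi => ?_⟩
    · have h3 := hindep (fun i => 6 * n + 1 + i)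
        (fun i j hij => Nat.add_lt_add_left hij _) (fun i => by have := i.2; omega)
      have h4 := h3.units_smul (fun i : Fin (n + 2) => ((-1 : ℝˣ)) ^ (i : ℕ))
      refine (linearIndependent_equiv' (Equiv.refl _) ?_).mp h4
      funext i
      simp only [Equiv.refl_apply, Function.comp, Pi.smul_apply', Units.smul_def,
        Units.val_pow_eq_pow_val, Units.val_neg, Units.val_one]
    · rw [hN] at hi
      constructor
      · rw [hp' (3 * i + 2) (by omega) (by omega)]
        congr 1
        omega
      · rw [hp' (3 * i + 3) (by omega) (by omega), zero_smul, sub_neg_eq_add, zero_add]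
        congr 1
        omega
    · rw [hN] at hi
      set a := 3 * (2 * n - 1 - i) + 1 with ha
      have h3 := hindep (fun j => a + j) (fun i j hij => Nat.add_lt_add_left hij _)
        (fun j => by have := j.2; omega)
      have h4 : LinearIndependent ℝ ![g (a + 1), g a] := by
        have h5 := h3.comp ![(1 : Fin (n + 2)), 0] (by
          intro x y hxy
          fin_cases x <;> fin_cases y <;> simp_all)
        convert h5 using 1
        funext j
        fin_cases j <;> simp
      have h6 := LinearIndependent.pair_iff.mp h4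
      rw [LinearIndependent.pair_iff]
      intro s t hst
      have h7 := h6 s (-t) (by
        rw [neg_smul, ← smul_neg]
        exact hst)
      exact ⟨h7.1, neg_eq_zero.mp h7.2⟩
  have hT := main _ (n + 2) (n + 2 - 1) (by omega) (by omega) rfl p hp
  obtain ⟨h1, h2⟩ := solV_card (by omega) hcd hT
  have hneg : ∀ a b : Fin (n + 2) → ℂ, span ℂ {a, -b} = span ℂ {b, a} := by
    intro a b
    rw [Set.pair_comm]
    apply le_antisymm
    · rw [span_le]
      rintro x hx
      rcases hx with hx | hx
      · rw [hx]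
        exact neg_mem (subset_span (by simp))
      · rw [hx]
        exact subset_span (by simp)
    · rw [span_le]
      rintro x hx
      rcases hx with hx | hx
      · rw [hx, ← neg_neg b]
        exact neg_mem (subset_span (by simp))
      · rw [hx]
        exact subset_span (by simp)
  have hcneg : ∀ v : Fin (n + 2) → ℝ, cxv (-v) = - cxv v := by
    intro v; funext i; simp [cxv]
  have heq : SolV (n + 2) (fun i => g (3 * (2 * n - 1 - i) + 2))
      (fun i => - g (3 * (2 * n - 1 - i) + 1)) = {V : Submodule ℂ (Fin (n + 2) → ℂ) |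
      Module.finrank ℂ V = n ∧
      ∀ i < 2 * n, V ⊓ span ℂ {cxv (g (3 * i + 1)), cxv (g (3 * i + 2))} ≠ ⊥} := by
    ext V
    unfold SolV
    simp only [Set.mem_ofPred_eq]
    rw [hN, show n + 2 - 2 = n by omega]
    refine and_congr_right fun _ => ?_
    constructor
    · intro h i hi
      have := h (2 * n - 1 - i) (by omega)
      rw [hcneg, hneg, show 2 * n - 1 - (2 * n - 1 - i) = i by omega] at this
      exact this
    · intro h i hi
      rw [hcneg, hneg]
      exact h (2 * n - 1 - i) (by omega)
  rw [heq] at h1 h2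
  refine ⟨?_, fun V hV1 hV2 => h2 V ⟨hV1, hV2⟩⟩
  rw [h1, cnt_catalan (by omega)]
  congr 1

end TR
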