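import Pool.Agent.TR.Frame
import Pool.Agent.TR.Pot
import Pool.Agent.TR.Loc1
import Pool.Agent.TR.Loc2
import Pool.Agent.TR.GenE

/-!
MODULE V2 (clusters which do not reach the top row).

Same proof as MODULE V1 (read it first), with the rows 0, ..., q-1 of cells; by hgen all cells are
non-zero, hence all f j k, j <= M, k <= q are non-zero vectors.  If q = 1 then S is empty (a cell
of S would be itself a top cell, htop with Conn.refl).  Let q >= 2 and apply `pot` with K = q - 1
(the pairs (f j k, f j (k+1)), k = 0..q-2).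

Functionals: for s in S as in V1 (lowest cell of the cluster, rows < q; the cluster does not
contain a top cell).  Let et be generic for F with sign (br f et) = sign (br f v) for all
f = f j (q-1), j <= M, where v = (0,1) (`exists_near`; br (f j (q-1)) (0,1) = (f j (q-1)).1 which
has the constant sign of (a (q-1)).1 by `nf_sign`).  So br (f j (q-1)) et has the same non-zero sign
for all j <= M.  E x = e_s if Conn s x, s in S; E x = et otherwise (in particular on all clusters
which contain a top cell (j, q-1)).  E is constant on clusters.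

 hmid for 1 <= k < q-1, hbot: as in V1.
 htop (index q-1): P = f j (q-2), Q = f j (q-1), R = f (j+1) (q-1), X = (j,q-2), Z = (j+1,q-2),
   Y = (j+1,q-1) (a top cell): D Y = p br Q R in sign (br Q R = br Q B, D_succ), D X = br P Q,
   D Z = p' br P R.  If X has the colour of Y then X is adjacent to Y, in its cluster, so
   E X = et; the same for Z; if X, Z have the same colour E X = E Z.  loc3 gives
   B (j+1) (q-2) = cv (E Z) P R <= cv (E X) P Q = A j (q-2).
Conclusion: v j = 1 for all j (f j 0 <> 0), A 0 k <= 2, A 0 k = 0 for special (0,k):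
 1 + 2 #(special, j >= 1) <= 1 + 2 (q - 1 - #(special in column 0)), so |S| <= q - 1.
-/

namespace TR

/-- The lowest cell of a cluster. -/
private lemma v2_low (M K : ℕ) (c : ℕ → ℕ → SignType) (s : ℕ × ℕ) :
    ∃ y, Conn M K c s y ∧ ∀ z, Conn M K c s z → y.2 ≤ z.2 := by
  classical
  have h : ∃ n, ∃ y, Conn M K c s y ∧ y.2 = n := ⟨s.2, s, Conn.refl s, rfl⟩
  obtain ⟨y, hy, hn⟩ := Nat.find_spec h
  exact ⟨y, hy, fun z hz => hn ▸ Nat.find_min' h ⟨z, hz, rfl⟩⟩

private lemma v2_hh_le (a b : ℝ) : hh a b ≤ 2 := by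
  unfold hh
  split_ifs <;> omega

private lemma v2_hh_zero {b : ℝ} (hb : b ≠ 0) : hh 0 b = 1 := by
  simp [hh, hb]

private lemma v2_hh_pos {a b : ℝ} (h : 0 < a * b) : hh a b = 0 := by
  unfold hh
  rw [if_neg (by linarith), if_pos h]

/-- (V2) clusters without a top cell: at most `q - 1`. -/
theorem v2 {m q : ℕ} (hq : 1 ≤ q) (hqm : q < m) {p : ℕ → ℕ → ℝ} (hp : Pos p)
    {a : ℕ → ℝ × ℝ} (ha : NF m q a) (M : ℕ)
    (hgen : ∀ j ≤ M, ∀ k < q, D m p a j k ≠ 0)
    (S : Finset (ℕ × ℕ)) (hS : ∀ x ∈ S, x.1 ≤ M ∧ x.2 < q)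
    (hd : ∀ x ∈ S, ∀ y ∈ S, x ≠ y → ¬ Conn M q (col m p a) x y)
    (htop : ∀ x ∈ S, ∀ j ≤ M, ¬ Conn M q (col m p a) x (j, q - 1)) :
    S.card ≤ q - 1 := by
  classical
  rcases Nat.lt_or_ge q 2 with hq2 | hq2
  · have hSe : S = ∅ := by
      rw [Finset.eq_empty_iff_forall_notMem]
      intro x hx
      have h1 := hS x hx
      refine htop x hx x.1 h1.1 ?_
      have h2 : (x.1, q - 1) = x := by
        ext
        · rfl
        · show q - 1 = x.2
          omega
      rw [h2]
      exact Conn.refl x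
    rw [hSe]
    simp
  -- the lowest cells
  choose low hlow hmin using fun s => v2_low M q (col m p a) s
  have hlowr : ∀ s : ℕ × ℕ, s.1 ≤ M → s.2 < q → (low s).1 ≤ M ∧ (low s).2 < q := by
    intro s h1 h2
    rcases (hlow s).eq_or with h | h
    · rw [← h]; exact ⟨h1, h2⟩
    · exact h.2.1
  -- the finite set of vectors
  set F : Finset (ℝ × ℝ) := (Finset.range (M + 1) ×ˢ Finset.range (m + 1)).image
    (fun x => arr m p a x.1 x.2) with hF
  have hFm : ∀ j ≤ M, ∀ k ≤ m, arr m p a j k ∈ F := by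
    intro j hj k hk
    rw [hF, Finset.mem_image]
    exact ⟨(j, k), by simp; omega, rfl⟩
  -- the functional `et`
  obtain ⟨et, hetF, hetG⟩ := exists_near F ((Finset.range (M + 1)).image
    (fun j => arr m p a j (q - 1))) (0, 1) (by
      intro g hg
      rw [Finset.mem_image] at hg
      obtain ⟨j, -, rfl⟩ := hg
      have h1 := nf_sign hq hqm hp ha.top j
      have h2 : (arr m p a j (q - 1)).1 ≠ 0 := by
        intro h0
        rw [h0, sign_zero] at h1
        exact ha.ne (sign_eq_zero_iff.1 h1.symm)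
      simpa [br] using h2)
  have hets : ∀ j ≤ M, SignType.sign (br (arr m p a j (q - 1)) et)
      = SignType.sign (a (q - 1)).1 := by
    intro j hj
    rw [hetG _ (Finset.mem_image.2 ⟨j, by simp; omega, rfl⟩), ← nf_sign hq hqm hp ha.top j]
    simp [br]
  -- the functionals of the clusters
  have hes : ∀ s : ℕ × ℕ, ∃ e : ℝ × ℝ, (s.1 ≤ M → s.2 < q → (∀ v ∈ F, Gn e v) ∧
      (1 ≤ (low s).1 → br (arr m p a ((low s).1 - 1) (low s).2) e
        * br (arr m p a (low s).1 (low s).2) e < 0) ∧
      ((low s).1 = 0 → 0 < br (arr m p a 0 (low s).2) e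
        * br (arr m p a 0 ((low s).2 + 1)) e)) := by
    intro s
    by_cases hs : s.1 ≤ M ∧ s.2 < q
    · have hr := hlowr s hs.1 hs.2
      have hD := hgen _ hr.1 _ hr.2
      rcases Nat.eq_zero_or_pos (low s).1 with h0 | h0
      · have hne : br (arr m p a 0 (low s).2) (arr m p a 0 ((low s).2 + 1)) ≠ 0 := by
          rw [h0] at hD; exact hD
        obtain ⟨e, he1, he2⟩ := exists_nsep F hne
        exact ⟨e, fun _ _ => ⟨he1, fun h => by omega, fun _ => he2⟩⟩
      · obtain ⟨j, hj⟩ : ∃ j, (low s).1 = j + 1 := ⟨(low s).1 - 1, by omega⟩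
        have hkm : (low s).2 < m := lt_trans hr.2 hqm
        have hne : br (arr m p a ((low s).1 - 1) (low s).2) (arr m p a (low s).1 (low s).2) ≠ 0 := by
          rw [hj, Nat.add_sub_cancel, br_succ p a j hkm]
          intro h
          apply hD
          rw [hj, D_succ p a j hkm, h, smul_zero]
        obtain ⟨e, he1, he2⟩ := exists_sep F hne
        exact ⟨e, fun _ _ => ⟨he1, fun _ => he2, fun h => by omega⟩⟩
    · exact ⟨0, fun h1 h2 => absurd ⟨h1, h2⟩ hs⟩
  choose es hes using hes
  -- the functional of a cell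
  obtain ⟨E, hE⟩ : ∃ E : ℕ × ℕ → ℝ × ℝ, ∀ x,
      (∃ s ∈ S, Conn M q (col m p a) s x ∧ E x = es s) ∨
      ((∀ s ∈ S, ¬ Conn M q (col m p a) s x) ∧ E x = et) := by
    refine ⟨fun x => if h : ∃ s ∈ S, Conn M q (col m p a) s x then es h.choose else et,
      fun x => ?_⟩
    by_cases h : ∃ s ∈ S, Conn M q (col m p a) s x
    · left
      refine ⟨h.choose, h.choose_spec.1, h.choose_spec.2, ?_⟩
      simp only [dif_pos h]
    · right
      refine ⟨fun s hs hc => h ⟨s, hs, hc⟩, ?_⟩
      simp only [dif_neg h]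
  have hEs : ∀ s ∈ S, ∀ x, Conn M q (col m p a) s x → E x = es s := by
    intro s hs x hx
    rcases hE x with ⟨s', hs', hx', h⟩ | ⟨h, -⟩
    · by_cases hss : s' = s
      · rw [h, hss]
      · exact absurd (hx'.trans hx.symm) (hd s' hs' s hs hss)
    · exact absurd hx (h s hs)
  have hEc : ∀ x y, Conn M q (col m p a) x y → E x = E y := by
    intro x y hxy
    rcases hE x with ⟨s, hs, hx, h⟩ | ⟨h, h'⟩
    · rw [h, hEs s hs y (hx.trans hxy)]
    · rcases hE y with ⟨s, hs, hy, -⟩ | ⟨-, h2⟩
      · exact absurd (hy.trans hxy.symm) (h s hs)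
      · rw [h', h2]
  have hEg : ∀ x, ∀ v ∈ F, Gn (E x) v := by
    intro x v hv
    rcases hE x with ⟨s, hs, -, h⟩ | ⟨-, h⟩
    · rw [h]; exact (hes s (hS s hs).1 (hS s hs).2).1 v hv
    · rw [h]; exact hetF v hv
  have hEt : ∀ x, ∀ j ≤ M, Conn M q (col m p a) x (j, q - 1) → E x = et := by
    intro x j hj hx
    rcases hE x with ⟨s, hs, hx', -⟩ | ⟨-, h⟩
    · exact absurd (hx'.trans hx) (htop s hs j hj)
    · exact h
  -- adjacent cells of the same colour
  have hsame : ∀ x y : ℕ × ℕ, x.1 ≤ M → x.2 < q → y.1 ≤ M → y.2 < q → adj x y →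
      0 < D m p a x.1 x.2 * D m p a y.1 y.2 → Conn M q (col m p a) x y := by
    intro x y hx1 hx2 hy1 hy2 hxy hpos
    have hcol : col m p a x.1 x.2 = col m p a y.1 y.2 ∧ col m p a x.1 x.2 ≠ 0 := by
      unfold col
      rcases pos_and_pos_or_neg_and_neg_of_mul_pos hpos with ⟨h1, h2⟩ | ⟨h1, h2⟩
      · rw [sign_pos h1, sign_pos h2]; exact ⟨rfl, by decide⟩
      · rw [sign_neg h1, sign_neg h2]; exact ⟨rfl, by decide⟩
    exact Conn.of_lk ⟨⟨hx1, hx2⟩, ⟨hy1, hy2⟩, Or.inl hxy, hcol.1, hcol.2⟩
  -- special cells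
  set T : Finset (ℕ × ℕ) := S.image low with hT
  have hTc : T.card = S.card := by
    refine Finset.card_image_of_injOn ?_
    intro s hs s' hs' h
    by_contra hne
    refine hd s hs s' hs' hne ((hlow s).trans ?_)
    rw [show low s = low s' from h]
    exact (hlow s').symm
  have hTr : T ⊆ Finset.range (M + 1) ×ˢ Finset.range (q - 1) := by
    intro y hy
    rw [hT, Finset.mem_image] at hy
    obtain ⟨s, hs, rfl⟩ := hy
    have h1 := hlowr s (hS s hs).1 (hS s hs).2
    have h2 : (low s).2 ≠ q - 1 := by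
      intro h
      refine htop s hs _ h1.1 ?_
      rw [← h]
      exact hlow s
    rw [Finset.mem_product, Finset.mem_range, Finset.mem_range]
    omega
  -- generic facts
  have hg : ∀ x, ∀ j ≤ M, ∀ k ≤ m, Gn (E x) (arr m p a j k) :=
    fun x j hj k hk => hEg x _ (hFm j hj k hk)
  have hgt : ∀ j ≤ M, ∀ k ≤ m, Gn et (arr m p a j k) :=
    fun j hj k hk => hetF _ (hFm j hj k hk)
  have hg0 : ∀ e : ℝ × ℝ, Gn e 0 := fun e _ => rfl
  -- special cells separate
  have hspec : ∀ j k, (j + 1, k) ∈ T →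
      br (arr m p a j k) (E (j + 1, k)) * br (arr m p a (j + 1) k) (E (j + 1, k)) < 0 := by
    intro j k h
    rw [hT, Finset.mem_image] at h
    obtain ⟨s, hs, hl⟩ := h
    have h1 := (hes s (hS s hs).1 (hS s hs).2).2.1 (by rw [hl]; simp)
    rw [hEs s hs _ (hl ▸ hlow s)]
    rw [hl] at h1
    exact h1
  have hspec0 : ∀ k, (0, k) ∈ T →
      0 < br (arr m p a 0 k) (E (0, k)) * br (arr m p a 0 (k + 1)) (E (0, k)) := by
    intro k h
    rw [hT, Finset.mem_image] at h
    obtain ⟨s, hs, hl⟩ := h
    have h1 := (hes s (hS s hs).1 (hS s hs).2).2.2 (by rw [hl])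
    rw [hEs s hs _ (hl ▸ hlow s)]
    rw [hl] at h1
    exact h1
  have hspecm : ∀ y ∈ T, ∀ x, Conn M q (col m p a) y x → y.2 ≤ x.2 := by
    intro y hy x hx
    rw [hT, Finset.mem_image] at hy
    obtain ⟨s, hs, rfl⟩ := hy
    exact hmin s x ((hlow s).trans hx)
  -- the middle events
  have hmid : ∀ j < M, ∀ k, 1 ≤ k → k < q - 1 →
      cv (E (j + 1, k - 1)) (arr m p a j (k - 1)) (arr m p a (j + 1) (k - 1 + 1))
        + cv (E (j + 1, k)) (arr m p a (j + 1) k) (arr m p a (j + 1) (k + 1))
        + (if (j + 1, k) ∈ T then 2 else 0)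
      ≤ cv (E (j, k - 1)) (arr m p a j (k - 1)) (arr m p a j (k - 1 + 1))
        + cv (E (j + 1, k)) (arr m p a j k) (arr m p a (j + 1) (k + 1)) := by
    intro j hj k hk1 hk2
    obtain ⟨i, rfl⟩ : ∃ i, k = i + 1 := ⟨k - 1, by omega⟩
    rw [Nat.add_sub_cancel]
    have hR := arr_succ p a j (show i + 1 < m by omega)
    have hDX : D m p a j i = br (arr m p a j i) (arr m p a j (i + 1)) := rfl
    have hDY := D_succ p a j (show i + 1 < m by omega)
    have hDZ := D_succ p a j (show i < m by omega)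
    rw [smul_eq_mul] at hDY hDZ
    have hpY := hp (j + 1) (i + 1)
    have hpZ := hp (j + 1) i
    have hXY : 0 < br (arr m p a j i) (arr m p a j (i + 1))
        * br (arr m p a j (i + 1)) (arr m p a (j + 1) (i + 1 + 1)) →
        Conn M q (col m p a) (j, i) (j + 1, i + 1) := by
      intro h
      refine hsame _ _ (by simp; omega) (by simp; omega) (by simp; omega) (by simp; omega)
        (Or.inr (Or.inr ⟨rfl, rfl⟩)) ?_
      show 0 < D m p a j i * D m p a (j + 1) (i + 1)
      rw [hDX, hDY]
      have := mul_pos hpY h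
      linarith [this]
    have hYZ : 0 < br (arr m p a j (i + 1)) (arr m p a (j + 1) (i + 1 + 1))
        * br (arr m p a j i) (arr m p a (j + 1) (i + 1)) →
        Conn M q (col m p a) (j + 1, i) (j + 1, i + 1) := by
      intro h
      refine hsame _ _ (by simp; omega) (by simp; omega) (by simp; omega) (by simp; omega)
        (Or.inr (Or.inl ⟨rfl, rfl⟩)) ?_
      show 0 < D m p a (j + 1) i * D m p a (j + 1) (i + 1)
      rw [hDZ, hDY]
      have := mul_pos (mul_pos hpY hpZ) h
      linarith [this]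
    have hXZ : 0 < br (arr m p a j i) (arr m p a j (i + 1))
        * br (arr m p a j i) (arr m p a (j + 1) (i + 1)) →
        Conn M q (col m p a) (j, i) (j + 1, i) := by
      intro h
      refine hsame _ _ (by simp; omega) (by simp; omega) (by simp; omega) (by simp; omega)
        (Or.inl ⟨rfl, rfl⟩) ?_
      show 0 < D m p a j i * D m p a (j + 1) i
      rw [hDX, hDZ]
      have := mul_pos hpZ h
      linarith [this]
    split_ifs with hs
    · refine loc2 hpY hR ⟨hg _ _ (by omega) _ (by omega), hg _ _ (by omega) _ (by omega),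
        hg _ _ (by omega) _ (by omega), hg _ _ (by omega) _ (by omega)⟩
        ⟨hg _ _ (by omega) _ (by omega), hg _ _ (by omega) _ (by omega),
        hg _ _ (by omega) _ (by omega), hg _ _ (by omega) _ (by omega)⟩
        (fun h => hEc _ _ (hXZ h)) ?_ ?_ ?_ (hspec j (i + 1) hs)
      · intro h
        rw [h, mul_zero] at hDY
        exact hgen (j + 1) (by omega) (i + 1) (by omega) hDY
      · by_contra h
        have := hspecm _ hs _ (hXY (not_le.1 h)).symm
        simp at this
      · by_contra h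
        have := hspecm _ hs _ (hYZ (by rw [mul_comm]; exact not_le.1 h)).symm
        simp at this
    · rw [add_zero]
      exact loc1 hpY hR ⟨hg _ _ (by omega) _ (by omega), hg _ _ (by omega) _ (by omega),
        hg _ _ (by omega) _ (by omega), hg _ _ (by omega) _ (by omega)⟩
        ⟨hg _ _ (by omega) _ (by omega), hg _ _ (by omega) _ (by omega),
        hg _ _ (by omega) _ (by omega), hg _ _ (by omega) _ (by omega)⟩
        ⟨hg _ _ (by omega) _ (by omega), hg _ _ (by omega) _ (by omega),
        hg _ _ (by omega) _ (by omega), hg _ _ (by omega) _ (by omega)⟩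
        (fun h => hEc _ _ (hXY h)) (fun h => hEc _ _ (hXZ h)) (fun h => (hEc _ _ (hYZ h)).symm)
  -- the top events
  have htop' : ∀ j < M,
      cv (E (j + 1, q - 1 - 1)) (arr m p a j (q - 1 - 1)) (arr m p a (j + 1) (q - 1 - 1 + 1))
      ≤ cv (E (j, q - 1 - 1)) (arr m p a j (q - 1 - 1)) (arr m p a j (q - 1 - 1 + 1)) := by
    intro j hj
    obtain ⟨r, rfl⟩ : ∃ r, q = r + 2 := ⟨q - 2, by omega⟩
    have e1 : r + 2 - 1 = r + 1 := by omega
    have e2 : r + 2 - 1 - 1 = r := by omega
    rw [e2]
    have hDX : D m p a j r = br (arr m p a j r) (arr m p a j (r + 1)) := rfl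
    have hDY := D_succ p a j (show r + 1 < m by omega)
    rw [← br_succ p a j (show r + 1 < m by omega)] at hDY
    have hDZ := D_succ p a j (show r < m by omega)
    rw [smul_eq_mul] at hDY hDZ
    have hpY := hp (j + 1) (r + 1)
    have hpZ := hp (j + 1) r
    have hne : ∀ {x y : ℝ}, x * y ≠ 0 → y ≠ 0 := fun h h' => h (by rw [h', mul_zero])
    refine loc3 (et := et) ?_ ?_ ?_ ⟨hg _ _ (by omega) _ (by omega), hg _ _ (by omega) _ (by omega),
        hg _ _ (by omega) _ (by omega)⟩ ⟨hg _ _ (by omega) _ (by omega),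
        hg _ _ (by omega) _ (by omega), hg _ _ (by omega) _ (by omega)⟩ ?_ ?_ ?_ ?_
    · exact hne (hDY ▸ hgen (j + 1) (by omega) (r + 1) (by omega))
    · exact hgen j (by omega) r (by omega)
    · exact hne (hDZ ▸ hgen (j + 1) (by omega) r (by omega))
    · have h1 := hets j (by omega)
      have h2 := hets (j + 1) (by omega)
      rw [e1] at h1 h2
      have h3 : SignType.sign (br (arr m p a j (r + 1)) et * br (arr m p a (j + 1) (r + 1)) et)
          = SignType.sign ((a (r + 2 - 1)).1 * (a (r + 2 - 1)).1) := by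
        rw [sign_mul, sign_mul, h1, h2, e1]
      rw [sign_pos (mul_self_pos.2 ha.ne)] at h3
      exact sign_eq_one_iff.1 h3
    · intro h
      refine hEt (j, r) (j + 1) (by omega) ?_
      rw [e1]
      refine hsame _ _ (by simp; omega) (by simp) (by simp; omega) (by simp)
        (Or.inr (Or.inr ⟨rfl, rfl⟩)) ?_
      show 0 < D m p a j r * D m p a (j + 1) (r + 1)
      rw [hDX, hDY]
      have := mul_pos hpY h
      linarith [this]
    · intro h
      refine hEt (j + 1, r) (j + 1) (by omega) ?_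
      rw [e1]
      refine hsame _ _ (by simp; omega) (by simp) (by simp; omega) (by simp)
        (Or.inr (Or.inl ⟨rfl, rfl⟩)) ?_
      show 0 < D m p a (j + 1) r * D m p a (j + 1) (r + 1)
      rw [hDZ, hDY]
      have := mul_pos (mul_pos hpY hpZ) h
      linarith [this]
    · intro h
      refine hEc _ _ (hsame _ _ (by simp; omega) (by simp) (by simp; omega) (by simp)
        (Or.inl ⟨rfl, rfl⟩) ?_)
      show 0 < D m p a j r * D m p a (j + 1) r
      rw [hDX, hDZ]
      have := mul_pos hpZ h
      linarith [this]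
  -- the bottom events
  have hbot : ∀ j < M,
      cv et 0 (arr m p a (j + 1) 0)
        + cv (E (j + 1, 0)) (arr m p a (j + 1) 0) (arr m p a (j + 1) (0 + 1))
        + (if (j + 1, 0) ∈ T then 2 else 0)
      ≤ cv et 0 (arr m p a j 0)
        + cv (E (j + 1, 0)) (arr m p a j 0) (arr m p a (j + 1) (0 + 1)) := by
    intro j hj
    have hR := arr_succ p a j (show 0 < m by omega)
    have hDY := D_succ p a j (show 0 < m by omega)
    rw [smul_eq_mul] at hDY
    have hpY := hp (j + 1) 0
    split_ifs with hs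
    · refine loc2 (eX := et) (eZ := et) hpY hR ⟨hg0 _, hgt _ (by omega) _ (by omega),
        hgt _ (by omega) _ (by omega), hgt _ (by omega) _ (by omega)⟩
        ⟨hg0 _, hgt _ (by omega) _ (by omega), hgt _ (by omega) _ (by omega),
        hgt _ (by omega) _ (by omega)⟩ (fun _ => rfl) ?_ ?_ ?_ (hspec j 0 hs)
      · intro h
        rw [h, mul_zero] at hDY
        exact hgen (j + 1) (by omega) 0 (by omega) hDY
      · rw [br_zero_left, zero_mul]
      · rw [br_zero_left, zero_mul]
    · rw [add_zero]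
      exact loc1 (eX := et) (eZ := et) hpY hR ⟨hg0 _, hgt _ (by omega) _ (by omega),
        hgt _ (by omega) _ (by omega), hgt _ (by omega) _ (by omega)⟩
        ⟨hg0 _, hg _ _ (by omega) _ (by omega), hg _ _ (by omega) _ (by omega),
        hg _ _ (by omega) _ (by omega)⟩
        ⟨hg0 _, hgt _ (by omega) _ (by omega), hgt _ (by omega) _ (by omega),
        hgt _ (by omega) _ (by omega)⟩
        (fun h => by rw [br_zero_left, zero_mul] at h; exact absurd h (lt_irrefl _))
        (fun _ => rfl)
        (fun h => by rw [br_zero_left, mul_zero] at h; exact absurd h (lt_irrefl _))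
  have hpot := pot (M := M) (K := q - 1) (by omega)
    (fun j k => cv (E (j, k)) (arr m p a j k) (arr m p a j (k + 1)))
    (fun j k => cv (E (j, k)) (arr m p a (j - 1) k) (arr m p a j (k + 1)))
    (fun j k => if (j, k) ∈ T then 2 else 0)
    (fun j => cv et 0 (arr m p a j 0)) hmid htop' hbot
  -- conclusion
  have hv : ∀ j ≤ M, cv et 0 (arr m p a j 0) = 1 := by
    intro j hj
    unfold cv
    rw [br_zero_left]
    refine v2_hh_zero fun h => ?_
    have h1 := hgt j hj 0 (by omega) h
    refine hgen j hj 0 (by omega) ?_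
    unfold D
    rw [h1, br_zero_left]
  simp only [hv M le_rfl, hv 0 (Nat.zero_le _)] at hpot
  have hcol0 : ∀ k, cv (E (0, k)) (arr m p a 0 k) (arr m p a 0 (k + 1))
      + (if (0, k) ∈ T then 2 else 0) ≤ 2 := by
    intro k
    split_ifs with hs
    · unfold cv
      rw [v2_hh_pos (hspec0 k hs)]
    · exact v2_hh_le _ _
  have hsum0 : ∑ k ∈ Finset.range (q - 1), cv (E (0, k)) (arr m p a 0 k) (arr m p a 0 (k + 1))
      + ∑ k ∈ Finset.range (q - 1), (if (0, k) ∈ T then 2 else 0) ≤ 2 * (q - 1) := by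
    rw [← Finset.sum_add_distrib]
    refine (Finset.sum_le_sum fun k _ => hcol0 k).trans ?_
    rw [Finset.sum_const, Finset.card_range, smul_eq_mul, mul_comm]
  have hall : 2 * T.card = ∑ k ∈ Finset.range (q - 1), (if (0, k) ∈ T then 2 else 0)
      + ∑ j ∈ Finset.range M, ∑ k ∈ Finset.range (q - 1), (if (j + 1, k) ∈ T then 2 else 0) := by
    have h1 : ∑ j ∈ Finset.range (M + 1), ∑ k ∈ Finset.range (q - 1),
        (if (j, k) ∈ T then 2 else 0) = 2 * T.card := by
      rw [← Finset.sum_product', ← Finset.sum_filter, Finset.filter_mem_eq_inter,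
        Finset.inter_eq_right.2 hTr, Finset.sum_const, smul_eq_mul, mul_comm]
    rw [← h1, Finset.sum_range_succ', add_comm]
  omega

end TR
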